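import Pool.Agent.DWK.Defs2

/-!
# Monomial automorphisms act on the classes
-/

set_option autoImplicit false

noncomputable section

namespace Pool.Agent.DWK

open Pool.Agent.ZCyc Pool.Agent.TInf Pool.Agent.GT
open Pool.Agent.VFP (Om tt)
open scoped Classical LinearAlgebra.Projectivization

variable {k : Type} [Field k] {K : Type} [Field K] [Algebra k K] {t : k}

private theorem Mono_sum (g : Mon k) (x : Fin 5 → K) : ∑ i, g.ap x i ^ 5 = ∑ i, x i ^ 5 := by
  unfold Mon.ap
  have h1 : ∀ i, (algebraMap k K (g.h i) * x (g.π i)) ^ 5 = x (g.π i) ^ 5 := fun i => by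
    rw [mul_pow, ← map_pow, g.pow, map_one, one_mul]
  rw [Finset.sum_congr rfl fun i _ => h1 i]
  exact Equiv.sum_comp g.π (fun i => x i ^ 5)

private theorem Mono_prod (g : Mon k) (x : Fin 5 → K) : ∏ i, g.ap x i = ∏ i, x i := by
  unfold Mon.ap
  rw [Finset.prod_mul_distrib, ← map_prod, g.prod, map_one, one_mul]
  exact Equiv.prod_comp g.π x

private theorem Mono_h (g : Mon k) (i : Fin 5) : g.h i ≠ 0 := by
  intro h
  have h1 := g.pow i
  rw [h] at h1
  norm_num at h1

private theorem Mono_ne (g : Mon k) {x : Fin 5 → K} (h : x ≠ 0) : g.ap x ≠ 0 := by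
  intro h0
  apply h
  funext j
  have h1 : algebraMap k K (g.h (g.π.symm j)) * x (g.π (g.π.symm j)) = 0 :=
    congrFun h0 (g.π.symm j)
  rw [Equiv.apply_symm_apply] at h1
  rcases mul_eq_zero.1 h1 with h2 | h2
  · rw [map_eq_zero] at h2
    exact absurd h2 (Mono_h g _)
  · exact h2

/-- the equation is invariant: `∑ (h_i x_(π i)) ⁵ = ∑ x_i ⁵` and `∏ h_i x_(π i) = ∏ x_i` -/
theorem on_ap (g : Mon k) {x : Fin 5 → K} (h : On t x) : On t (g.ap x) :=
  ⟨Mono_ne g h.1, by rw [Mono_sum, Mono_prod]; exact h.2⟩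

/-- the converse: `x ≠ 0` if `g.ap x ≠ 0`, and the same computation -/
theorem on_of_ap (g : Mon k) {x : Fin 5 → K} (h : On t (g.ap x)) : On t x := by
  refine ⟨?_, ?_⟩
  · rintro rfl
    apply h.1
    funext i
    change algebraMap k K (g.h i) * 0 = 0
    rw [mul_zero]
  · have h2 := h.2
    rwa [Mono_sum, Mono_prod] at h2

private theorem Mono_aeval (x : Fin (4 + 1) → K) : MvPolynomial.aeval x (dwork t) =
    ∑ i, x i ^ 5 - algebraMap k K (5 * t) * ∏ i, x i := by
  unfold dwork
  rw [map_sub, map_sum, map_mul, map_prod, MvPolynomial.algHom_C]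
  simp only [map_pow, MvPolynomial.aeval_X]

private theorem Mono_on (y : Pt {dwork t} K) : On t (y.1.rep : Fin 5 → K) :=
  ⟨y.1.rep_nonzero, sub_eq_zero.1 ((Mono_aeval (t := t) y.1.rep).symm.trans (y.2 (dwork t) rfl))⟩

/-- the image of a point -/
private def Mono_pt (g : Mon k) (y : Pt {dwork t} K) : Pt {dwork t} K :=
  mkPt (dwork_hom t) (g.ap (y.1.rep : Fin 5 → K) : Fin (4 + 1) → K) (on_ap g (Mono_on y)).1
    (on_ap g (Mono_on y)).aeval

private theorem Mono_val (g : Mon k) {v : Place k K} {x : Pt {dwork t} K} {y : Pt {dwork t} k}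
    (h : IsVal v x y) : IsVal v (Mono_pt g x) (Mono_pt g y) := by
  obtain ⟨l, hl⟩ := h
  refine isVal_mkPt (l := l) fun i => ?_
  have h1 := (Place.at_const (v := v) (g.h i)).mul (hl (g.π i))
  have h2 : l * (algebraMap k K (g.h i) * x.1.rep (g.π i)) =
      algebraMap k K (g.h i) * (l * x.1.rep (g.π i)) := by ring
  change v.At (l * (algebraMap k K (g.h i) * x.1.rep (g.π i))) (g.h i * y.1.rep (g.π i))
  rw [h2]
  exact h1

private theorem Mono_mk (g : Mon k) {x : Fin 5 → k} (h : On t x) :
    Mono_pt g (mkPt (dwork_hom t) (x : Fin (4 + 1) → k) h.1 h.aeval) =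
      mkPt (dwork_hom t) (g.ap x : Fin (4 + 1) → k) (on_ap g h).1 (on_ap g h).aeval := by
  obtain ⟨c, hc⟩ := Projectivization.exists_smul_eq_mk_rep k (x : Fin (4 + 1) → k) h.1
  apply Subtype.ext
  refine (Projectivization.mk_eq_mk_iff k _ _ _ _).2 ⟨c, ?_⟩
  funext i
  change (c : k) * (algebraMap k k (g.h i) * x (g.π i)) = algebraMap k k (g.h i) *
    (Projectivization.mk k (x : Fin (4 + 1) → k) h.1).rep (g.π i)
  rw [← hc]
  change (c : k) * (algebraMap k k (g.h i) * x (g.π i)) = algebraMap k k (g.h i) *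
    ((c : k) * x (g.π i))
  ring

/-- Functoriality of zero-cycles. The map of points `y ↦ mkPt (g.ap y.rep)`, over `k` and over `K`; it is
compatible with values (`IsVal`: multiply by the constants `g.h i`), so it maps the generators of
`Rat {dwork t} Unit` (see `GT.Defs`) to generators; use `Submodule.mapQ` for the linear map
`Finsupp.lmapDomain`. The class `cls t x` goes to `cls t (g.ap x)`, because `x` and its
representative are proportional (`Projectivization.exists_smul_eq_mk_rep`). -/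
theorem exists_act (g : Mon k) : ∃ T : V t →ₗ[ℚ] V t, ∀ x : Fin 5 → k,
    T (cls t x) = cls t (g.ap x) := by
  let L : ((Unit → Pt {dwork t} k) →₀ ℚ) →ₗ[ℚ] ((Unit → Pt {dwork t} k) →₀ ℚ) :=
    Finsupp.lmapDomain ℚ ℚ fun p _ => Mono_pt g (p ())
  have hL : ∀ (p : Unit → Pt {dwork t} k) (a : ℚ),
      L (Finsupp.single p a) = Finsupp.single (fun _ => Mono_pt g (p ())) a := by
    intro p a
    change Finsupp.mapDomain _ (Finsupp.single p a) = _
    rw [Finsupp.mapDomain_single]
  have hle : Rat {dwork t} Unit ≤ Submodule.comap L (Rat {dwork t} Unit) := by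
    refine Submodule.span_le.2 ?_
    rintro _ ⟨K, i1, i2, i3, xK, y, f, D, hf, hD, hval, rfl⟩
    change L _ ∈ Rat {dwork t} Unit
    refine Submodule.subset_span ⟨K, i1, i2, i3, fun _ => Mono_pt g (xK ()),
      fun v _ => Mono_pt g (y v ()), f, D, hf, hD, fun v _ => Mono_val g (hval v ()), ?_⟩
    unfold Finsupp.sum
    rw [map_sum]
    refine Finset.sum_congr rfl fun v _ => ?_
    rw [hL]
  refine ⟨Submodule.mapQ _ _ L hle, fun x => ?_⟩
  by_cases h : On t x
  · have h1 : cls t x = Submodule.Quotient.mk (Finsupp.single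
        (fun _ => mkPt (dwork_hom t) (x : Fin (4 + 1) → k) h.1 h.aeval) 1) := by
      unfold cls cyc
      rw [dif_pos h]
      change Submodule.Quotient.mk (Finsupp.mapDomain _ (Finsupp.single _ _)) = _
      rw [Finsupp.mapDomain_single]
    have h2 : cls t (g.ap x) = Submodule.Quotient.mk (Finsupp.single
        (fun _ => mkPt (dwork_hom t) (g.ap x : Fin (4 + 1) → k) (on_ap g h).1
          (on_ap g h).aeval) 1) := by
      unfold cls cyc
      rw [dif_pos (on_ap g h)]
      change Submodule.Quotient.mk (Finsupp.mapDomain _ (Finsupp.single _ _)) = _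
      rw [Finsupp.mapDomain_single]
    rw [h1, h2, Submodule.mapQ_apply, hL, Mono_mk g h]
  · have h' : ¬ On t (g.ap x) := fun h0 => h (on_of_ap g h0)
    unfold cls cyc
    rw [dif_neg h, dif_neg h', map_zero, map_zero]

end Pool.Agent.DWK
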