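import Pool.Agent.GT.Ext
import Pool.Agent.GT.Mov
import Pool.Agent.TInf.EVal

/-!
# The Dwork pencil of quintic threefolds: definitions

`k` is an algebraically closed field of characteristic zero, `t` is an element of `k`, and the variety
is `∑ x_i ⁵ = 5 t ∏ x_i` in the projective space of dimension four. `K` is `k` or `Om k`.
-/

set_option autoImplicit false

noncomputable section

namespace Pool.Agent.DWK

open Pool.Agent.ZCyc Pool.Agent.TInf Pool.Agent.GT
open Pool.Agent.VFP (Om tt)
open scoped Classical LinearAlgebra.Projectivization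

/-- the Dwork quintic -/
def dwork {k : Type} [Field k] (t : k) : MvPolynomial (Fin (4 + 1)) k :=
  ∑ i, MvPolynomial.X i ^ 5 - MvPolynomial.C (5 * t) * ∏ i, MvPolynomial.X i

variable {k : Type} [Field k]

theorem dwork_hom (t : k) : Hom {dwork t} := by
  rintro f rfl
  refine ⟨5, ?_⟩
  unfold dwork
  refine MvPolynomial.IsHomogeneous.sub ?_ ?_
  · refine MvPolynomial.IsHomogeneous.sum _ _ _ fun i _ => ?_
    simpa using (MvPolynomial.isHomogeneous_X k i).pow 5
  · have h1 : (∏ i : Fin (4 + 1), MvPolynomial.X (R := k) i).IsHomogeneous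
        (∑ _i : Fin (4 + 1), 1) :=
      MvPolynomial.IsHomogeneous.prod _ _ _ fun i _ => MvPolynomial.isHomogeneous_X k i
    have h2 := (MvPolynomial.isHomogeneous_C (Fin (4 + 1)) (5 * t)).mul h1
    simpa using h2

/-- the classes of zero-cycles on the variety -/
abbrev V (t : k) : Type := CH {dwork t} Unit

variable {K : Type} [Field K] [Algebra k K]

/-- `x` are the homogeneous coordinates of a point -/
def On (t : k) (x : Fin 5 → K) : Prop :=
  x ≠ 0 ∧ ∑ i, x i ^ 5 = algebraMap k K (5 * t) * ∏ i, x i

theorem On.aeval {t : k} {x : Fin 5 → K} (h : On t x) :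
    ∀ f ∈ ({dwork t} : Set (MvPolynomial (Fin (4 + 1)) k)),
      MvPolynomial.aeval (x : Fin (4 + 1) → K) f = 0 := by
  rintro f rfl
  unfold dwork
  rw [map_sub, map_sum, map_mul, map_prod, MvPolynomial.algHom_C]
  simp only [map_pow, MvPolynomial.aeval_X]
  rw [sub_eq_zero]
  exact h.2

/-- the point with the homogeneous coordinates `x`, as a cycle (zero if they do not satisfy the
equation) -/
def cyc (t : k) (x : Fin 5 → K) : Pt {dwork t} K →₀ ℚ :=
  if h : On t x then Finsupp.single (mkPt (dwork_hom t) (x : Fin (4 + 1) → K) h.1 h.aeval) 1 else 0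

/-- the class of the point with the homogeneous coordinates `x` -/
def cls (t : k) (x : Fin 5 → k) : V t := cl1 {dwork t} (cyc t x)

end Pool.Agent.DWK
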