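import Pool.Agent.DWK.MoveA

/-!
# Moving points
-/

set_option autoImplicit false

noncomputable section

namespace Pool.Agent.DWK

open Pool.Agent.ZCyc Pool.Agent.TInf Pool.Agent.GT
open Pool.Agent.VFP (Om tt)
open scoped Classical LinearAlgebra.Projectivization

open Polynomial

variable {k : Type} [Field k] [IsAlgClosed k] [CharZero k] {t : k}

/-- the moved point -/
private def mvU {K : Type} [Field K] (m θ : K) (a : Fin 5 → K) (s : K) : Fin 5 → K :=
  ![a 0 + s, a 1 + m * s - θ, a 2 - (1 + m) * s + θ, a 3, a 4]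

private theorem mv_tor {K : Type} [Field K] [Algebra k K] {a : Fin 5 → K} (ha : Tor t a)
    {m θ s : K} (hs : (a 0 + s) * (a 1 + m * s - θ) * (a 2 - (1 + m) * s + θ) =
      a 0 * a 1 * a 2) : Tor t (mvU m θ a s) := by
  obtain ⟨h1, h2⟩ := ha
  rw [Fin.prod_univ_five] at h1
  rw [Fin.sum_univ_five] at h2
  constructor
  · rw [Fin.prod_univ_five]
    change (a 0 + s) * (a 1 + m * s - θ) * (a 2 - (1 + m) * s + θ) * a 3 * a 4 = 1
    rw [hs, h1]
  · rw [Fin.sum_univ_five]
    change (a 0 + s) + (a 1 + m * s - θ) + (a 2 - (1 + m) * s + θ) + a 3 + a 4 = _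
    rw [← h2]
    ring

private theorem mvU_zero {K : Type} [Field K] (m : K) (a : Fin 5 → K) : mvU m 0 a 0 = a := by
  funext i
  fin_cases i <;> simp [mvU]

private def mvP {K : Type} [Field K] (m θ : K) (a : Fin 5 → K) : K[X] :=
  C (-(m * (1 + m))) * X ^ 3 +
    C (m * (a 2 + θ) - (1 + m) * (a 0 * m + (a 1 - θ))) * X ^ 2 +
    C ((a 0 * m + (a 1 - θ)) * (a 2 + θ) - (1 + m) * (a 0 * (a 1 - θ))) * X +
    C (a 0 * (a 1 - θ) * (a 2 + θ) - a 0 * a 1 * a 2)

private theorem mvP_eval {K : Type} [Field K] (m θ : K) (a : Fin 5 → K) (s : K) :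
    (mvP m θ a).eval s =
      (a 0 + s) * (a 1 + m * s - θ) * (a 2 - (1 + m) * s + θ) - a 0 * a 1 * a 2 := by
  simp only [mvP, eval_add, eval_mul, eval_C, eval_pow, eval_X]
  ring

private theorem mvP_lead {K : Type} [Field K] {m : K} (hm : m * (1 + m) ≠ 0) (θ : K)
    (a : Fin 5 → K) : (mvP m θ a).leadingCoeff = -(m * (1 + m)) :=
  leadingCoeff_cubic (neg_ne_zero.2 hm)

private theorem mvP_ne {K : Type} [Field K] {m : K} (hm : m * (1 + m) ≠ 0) (θ : K)
    (a : Fin 5 → K) : mvP m θ a ≠ 0 := by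
  intro h
  have h1 := mvP_lead hm θ a
  rw [h, leadingCoeff_zero] at h1
  exact neg_ne_zero.2 hm h1.symm

private theorem mvP_prod {K : Type} [Field K] [IsAlgClosed K] {m : K} (hm : m * (1 + m) ≠ 0)
    (θ : K) (a : Fin 5 → K) (s : K) : (mvP m θ a).eval s =
      -(m * (1 + m)) * ((mvP m θ a).roots.map fun r => s - r).prod := by
  conv_lhs => rw [(IsAlgClosed.splits (mvP m θ a)).eq_prod_roots]
  rw [mvP_lead hm, eval_mul, eval_C, eval_multiset_prod, Multiset.map_map]
  simp only [Function.comp_apply, eval_sub, eval_X, eval_C]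

/-- the value of a function at a place (zero if there is none) -/
private def vl (v : Place k (Om k)) (s : Om k) : k := if h : ∃ c : k, v.At s c then h.choose else 0

private theorem vl_at {v : Place k (Om k)} {s : Om k} (h : s ∈ v.ring) : v.At s (vl v s) := by
  have h1 : ∃ c : k, v.At s c := DCI57.exists_at v h
  unfold vl
  rw [dif_pos h1]
  exact h1.choose_spec

private theorem at_mprod {v : Place k (Om k)} (R : Multiset (Om k)) {f : Om k → Om k}
    {g : Om k → k} (h : ∀ s ∈ R, v.At (f s) (g s)) :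
    v.At (R.map f).prod (R.map g).prod := by
  induction R using Multiset.induction_on with
  | empty => simpa using VFP.at_one (v := v)
  | cons a R ih =>
    rw [Multiset.map_cons, Multiset.map_cons, Multiset.prod_cons, Multiset.prod_cons]
    exact (h a (Multiset.mem_cons_self a R)).mul
      (ih fun s hs => h s (Multiset.mem_cons_of_mem hs))

private theorem mv_int {v : Place k (Om k)} {m : k} (hm : m * (1 + m) ≠ 0) {θ : Om k}
    (hθ : v.At θ 0) (u : Fin 5 → k) {s : Om k}
    (hs : (algebraMap k (Om k) (u 0) + s) *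
      (algebraMap k (Om k) (u 1) + algebraMap k (Om k) m * s - θ) *
      (algebraMap k (Om k) (u 2) - (1 + algebraMap k (Om k) m) * s + θ) =
      algebraMap k (Om k) (u 0) * algebraMap k (Om k) (u 1) * algebraMap k (Om k) (u 2)) :
    s ∈ v.ring := by
  by_contra hn
  have h0 := VFP.ne_zero_of_not_mem hn
  have h1 : v.At s⁻¹ 0 := VFP.inv_at_of_not_mem hn
  have c : ∀ x : k, v.At (algebraMap k (Om k) x) x := fun x => Place.at_const x
  have h2 : v.At ((algebraMap k (Om k) (u 0) * s⁻¹ + 1) *
      (algebraMap k (Om k) (u 1) * s⁻¹ + algebraMap k (Om k) m - θ * s⁻¹) *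
      (algebraMap k (Om k) (u 2) * s⁻¹ - (1 + algebraMap k (Om k) m) + θ * s⁻¹))
      ((u 0 * 0 + 1) * (u 1 * 0 + m - 0 * 0) * (u 2 * 0 - (1 + m) + 0 * 0)) :=
    ((((c _).mul h1).add VFP.at_one).mul ((((c _).mul h1).add (c _)).sub (hθ.mul h1))).mul
      ((((c _).mul h1).sub (VFP.at_one.add (c _))).add (hθ.mul h1))
  have h3 : v.At (algebraMap k (Om k) (u 0) * algebraMap k (Om k) (u 1) *
      algebraMap k (Om k) (u 2) * s⁻¹ ^ 3) (u 0 * u 1 * u 2 * 0 ^ 3) :=
    (((c _).mul (c _)).mul (c _)).mul (h1.pow 3)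
  rw [← hs] at h3
  have h4 : (algebraMap k (Om k) (u 0) + s) *
      (algebraMap k (Om k) (u 1) + algebraMap k (Om k) m * s - θ) *
      (algebraMap k (Om k) (u 2) - (1 + algebraMap k (Om k) m) * s + θ) * s⁻¹ ^ 3 =
      (algebraMap k (Om k) (u 0) * s⁻¹ + 1) *
      (algebraMap k (Om k) (u 1) * s⁻¹ + algebraMap k (Om k) m - θ * s⁻¹) *
      (algebraMap k (Om k) (u 2) * s⁻¹ - (1 + algebraMap k (Om k) m) + θ * s⁻¹) := by
    field_simp
  rw [h4] at h3
  have h5 := h2.unique h3
  apply hm
  linear_combination -h5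

/-- the moved point over `Om k` -/
private def mvX (m : k) (u : Fin 5 → k) (s : Om k) : Fin 5 → Om k :=
  mvU (algebraMap k (Om k) m) (tt k / (1 - tt k)) (fun i => algebraMap k (Om k) (u i)) s

private theorem mv_one {v : Place k (Om k)} (hv : v.At (tt k) 1) (m : k) (u : Fin 5 → k)
    (s : Om k) : lim1 (dwork_hom t) v (uz t (mvX m u s)) = 0 := by
  have hθ : tt k / (1 - tt k) ∉ v.ring := by
    have h1 := VFP.param_one hv
    have h2 : (1 - tt k) / tt k ≠ 0 := by
      refine div_ne_zero (fun h => ?_) fun h => ?_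
      · exact VFP.tt_ne (1 : k) (by rw [map_one]; exact (sub_eq_zero.1 h).symm)
      · exact VFP.tt_ne (0 : k) (by rw [map_zero]; exact h)
    have h3 := VFP.inv_not_mem h1 h2
    rwa [inv_div] at h3
  by_cases hs : algebraMap k (Om k) (u 0) + s ∈ v.ring
  · refine lim_uz_bd (i := 1) ?_
    change algebraMap k (Om k) (u 1) + algebraMap k (Om k) m * s - tt k / (1 - tt k) ∉ v.ring
    intro h
    have h1 : s ∈ v.ring := by
      have := sub_mem hs (v.const_mem (u 0))
      rwa [add_sub_cancel_left] at this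
    have h2 : algebraMap k (Om k) (u 1) + algebraMap k (Om k) m * s ∈ v.ring :=
      add_mem (v.const_mem _) (mul_mem (v.const_mem _) h1)
    have h3 := sub_mem h2 h
    rw [sub_sub_cancel] at h3
    exact hθ h3
  · exact lim_uz_bd (i := 0) hs

/-- the roots -/
private def mvR (m : k) (u : Fin 5 → k) : Multiset (Om k) :=
  (mvP (algebraMap k (Om k) m) (tt k / (1 - tt k)) fun i => algebraMap k (Om k) (u i)).roots

private theorem mvR_eq {m : k} (hm : m * (1 + m) ≠ 0) {u : Fin 5 → k} {s : Om k}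
    (hs : s ∈ mvR m u) : (algebraMap k (Om k) (u 0) + s) *
      (algebraMap k (Om k) (u 1) + algebraMap k (Om k) m * s - tt k / (1 - tt k)) *
      (algebraMap k (Om k) (u 2) - (1 + algebraMap k (Om k) m) * s + tt k / (1 - tt k)) =
      algebraMap k (Om k) (u 0) * algebraMap k (Om k) (u 1) * algebraMap k (Om k) (u 2) := by
  have h1 := (mem_roots'.1 hs).2
  rw [IsRoot.def, mvP_eval, sub_eq_zero] at h1
  exact h1

private theorem mv_zero {v : Place k (Om k)} (hv : v.At (tt k) 0) {m : k}
    (hm : m * (1 + m) ≠ 0) {u : Fin 5 → k} (hu : Tor t u) :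
    lim1 (dwork_hom t) v ((mvR m u).map fun s => uz t (mvX m u s)).sum =
      ((mvP m 0 u).roots.map fun s => nu t (mvU m 0 u s)).sum := by
  have hθ : v.At (tt k / (1 - tt k)) 0 := by
    have h1 := hv.div (VFP.at_one.sub hv) (by simp)
    simpa using h1
  have hint : ∀ s ∈ mvR m u, s ∈ v.ring := fun s hs => mv_int hm hθ u (mvR_eq hm hs)
  have c : ∀ x : k, v.At (algebraMap k (Om k) x) x := fun x => Place.at_const x
  have hM : algebraMap k (Om k) m * (1 + algebraMap k (Om k) m) ≠ 0 := by
    rw [← map_one (algebraMap k (Om k)), ← map_add, ← map_mul]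
    exact (_root_.map_ne_zero _).2 hm
  have hroots : (mvP m 0 u).roots = (mvR m u).map (vl v) := by
    have h1 : mvP m 0 u = C (-(m * (1 + m))) *
        (((mvR m u).map (vl v)).map fun r => X - C r).prod := by
      refine Polynomial.funext fun x => ?_
      have h2 : v.At ((mvP (algebraMap k (Om k) m) (tt k / (1 - tt k))
          fun i => algebraMap k (Om k) (u i)).eval (algebraMap k (Om k) x))
          ((mvP m 0 u).eval x) := by
        rw [mvP_eval, mvP_eval]
        exact ((((c _).add (c _)).mul (((c _).add ((c _).mul (c _))).sub hθ)).mul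
          (((c _).sub ((VFP.at_one.add (c _)).mul (c _))).add hθ)).sub
          (((c _).mul (c _)).mul (c _))
      rw [mvP_prod hM] at h2
      have h3 : v.At (-(algebraMap k (Om k) m * (1 + algebraMap k (Om k) m)) *
          ((mvR m u).map fun r => algebraMap k (Om k) x - r).prod)
          (-(m * (1 + m)) * ((mvR m u).map fun r => x - vl v r).prod) :=
        (((c _).mul (VFP.at_one.add (c _))).neg).mul
          (at_mprod _ fun s hs => (c x).sub (vl_at (hint s hs)))
      rw [h2.unique h3, eval_mul, eval_C, eval_multiset_prod, Multiset.map_map, Multiset.map_map]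
      simp only [Function.comp_def, eval_sub, eval_X, eval_C]
    rw [h1, roots_C_mul _ (neg_ne_zero.2 hm), roots_multiset_prod_X_sub_C]
  rw [map_multiset_sum, Multiset.map_map, hroots, Multiset.map_map]
  refine congrArg Multiset.sum (Multiset.map_congr rfl fun s hs => ?_)
  have hT : Tor t (mvX m u s) := by
    refine mv_tor ⟨?_, ?_⟩ (mvR_eq hm hs)
    · rw [← map_prod, hu.1, map_one]
    · rw [← map_sum, hu.2]
      rfl
  have hs' := vl_at (hint s hs)
  refine (lim_uz (u := mvU m 0 u (vl v s)) hT fun i => ?_).2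
  fin_cases i
  · exact (c _).add hs'
  · exact ((c _).add ((c _).mul hs')).sub hθ
  · exact ((c _).sub ((VFP.at_one.add (c _)).mul hs')).add hθ
  · exact c _
  · exact c _

/-- Let `T = tt k`, `θ = T / (1 - T)` and `m` as in `exists_dir`. Let `q` be the polynomial `(u₀ +
s) (u₁ + m s - θ) (u₂ - (1 + m) s + θ) - u₀ u₁ u₂` in `s` over `Om k`, of degree three (leading
coefficient `-m (1 + m)`), and let `Z` be the sum of the cycles `uz t U(s)` over its roots `s`
(`Polynomial.roots`), `U(s) = (u₀ + s, u₁ + m s - θ, u₂ - (1 + m) s + θ, u₃, u₄)`; then `Tor t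
U(s)`. At a place above `T = 0` the roots are integral (the leading coefficient is a unit), and
the limit of `Z` is the sum of `nu t (u₀ + s', u₁ + m s', u₂ - (1 + m) s', u₃, u₄)` over the
values `s'` of the three roots `s` (`lim_uz`); the values are the roots with multiplicities of the
specialised polynomial `q₀ = (u₀ + s) (u₁ + m s) (u₂ - (1 + m) s) - u₀ u₁ u₂` (`q = -m (1 + m) ∏
(X - s_i)`, specialise). At a place above `T = 1` the function `θ` is not in the valuation ring,
so for every root `s` one of `u₀ + s`, `u₁ + m s - θ` is not in the valuation ring, and the limit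
of `Z` is `0` (`lim_uz_bd`). By `bridge1` the sum of `nu t (...)` over the roots `s'` of `q₀` is
zero. The root `s' = 0` has a multiplicity `n > 0` and gives `n • nu t u`; so `nu t u` is a
combination of the `nu t u'` for the roots `s' ≠ 0`, with `u'₀ = u₀ + s' ∉ B`. -/
theorem nu_move {u : Fin 5 → k} (hu : Tor t u) (B : Finset k) :
    nu t u ∈ Submodule.span ℚ {x | ∃ u' : Fin 5 → k, Tor t u' ∧ u' 0 ∉ B ∧ x = nu t u'} := by
  obtain ⟨m, hm0, hm1, hm⟩ := exists_dir hu B
  have hmm : m * (1 + m) ≠ 0 := mul_ne_zero hm0 fun h => hm1 (by linear_combination h)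
  have key : ((mvP m 0 u).roots.map fun s => nu t (mvU m 0 u s)).sum = 0 := by
    refine bridge1 ((mvR m u).map fun s => uz t (mvX m u s)).sum (c₀ := 0) (c₁ := 1)
      (fun v hv => mv_zero hv hmm hu) fun v hv => ?_
    rw [map_multiset_sum, Multiset.map_map]
    refine Multiset.sum_eq_zero fun x hx => ?_
    obtain ⟨s, -, rfl⟩ := Multiset.mem_map.1 hx
    exact mv_one hv m u s
  have hroot : ∀ s ∈ (mvP m 0 u).roots, (u 0 + s) * (u 1 + m * s - 0) *
      (u 2 - (1 + m) * s + 0) = u 0 * u 1 * u 2 := by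
    intro s hs
    have h1 := (mem_roots'.1 hs).2
    rw [IsRoot.def, mvP_eval, sub_eq_zero] at h1
    exact h1
  have h0 : (0 : k) ∈ (mvP m 0 u).roots := by
    rw [mem_roots (mvP_ne hmm 0 u), IsRoot.def, mvP_eval]
    ring
  obtain ⟨n, hn0, hF⟩ : ∃ n : ℕ, n ≠ 0 ∧
      (mvP m 0 u).roots.filter (fun s => s = 0) = Multiset.replicate n 0 := by
    refine ⟨_, ?_, Multiset.eq_replicate_card.2 fun b hb => (Multiset.mem_filter.1 hb).2⟩
    rw [Ne, Multiset.card_eq_zero]
    intro h
    have h1 : (0 : k) ∈ (mvP m 0 u).roots.filter (fun s => s = 0) :=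
      Multiset.mem_filter.2 ⟨h0, rfl⟩
    rw [h] at h1
    exact Multiset.notMem_zero _ h1
  rw [← Multiset.filter_add_not (fun s => s = 0) (mvP m 0 u).roots, Multiset.map_add,
    Multiset.sum_add, hF, Multiset.map_replicate, Multiset.sum_replicate, mvU_zero] at key
  have hn : (n : ℚ) ≠ 0 := Nat.cast_ne_zero.2 hn0
  rw [← Nat.cast_smul_eq_nsmul ℚ] at key
  refine (Submodule.smul_mem_iff _ hn).1 ?_
  rw [eq_neg_of_add_eq_zero_left key]
  refine neg_mem (multiset_sum_mem _ fun x hx => ?_)
  obtain ⟨s, hs, rfl⟩ := Multiset.mem_map.1 hx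
  obtain ⟨hs1, hs2⟩ := Multiset.mem_filter.1 hs
  have h1 := hroot s hs1
  refine Submodule.subset_span ⟨_, mv_tor hu h1, ?_, rfl⟩
  rw [sub_zero, add_zero] at h1
  exact hm s hs2 h1

end Pool.Agent.DWK
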