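import Pool.Agent.DWK.Zero
import Pool.Agent.DWK.Move

/-!
# The exterior products of zero-cycles of degree zero
-/

set_option autoImplicit false

noncomputable section

namespace Pool.Agent.DWK

open Pool.Agent.ZCyc Pool.Agent.TInf Pool.Agent.GT
open Pool.Agent.VFP (Om tt)
open scoped Classical LinearAlgebra.Projectivization

variable {k : Type} [Field k] [IsAlgClosed k] [CharZero k] {t : k}

private theorem Final_tor {u : Fin 5 → k} (hu : Tor t u) (π : Equiv.Perm (Fin 5)) :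
    Tor t (u ∘ π) := by
  refine ⟨?_, ?_⟩
  · rw [← hu.1]
    exact Equiv.prod_comp π u
  · rw [← hu.2]
    exact Equiv.sum_comp π u

/-- `nu_move`, and the permutation `0 ↔ 4` (`nu_perm`) -/
theorem nu_span {u : Fin 5 → k} (hu : Tor t u) (B : Finset k) :
    nu t u ∈ Submodule.span ℚ {x | ∃ u' : Fin 5 → k, Tor t u' ∧ u' 4 ∉ B ∧ x = nu t u'} := by
  have h04 : ((0 : Fin 5) ≠ 4) := by decide
  have hs : ∀ w : Fin 5 → k, nu t w = (-1 : ℚ) • nu t (w ∘ Equiv.swap (0 : Fin 5) 4) := by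
    intro w
    have h1 := nu_perm (t := t) w (Equiv.swap (0 : Fin 5) 4)
    rw [Equiv.Perm.sign_swap h04] at h1
    rw [h1, smul_smul]
    norm_num
  have hle : Submodule.span ℚ {x | ∃ u' : Fin 5 → k, Tor t u' ∧ u' 0 ∉ B ∧ x = nu t u'} ≤
      Submodule.span ℚ {x | ∃ u' : Fin 5 → k, Tor t u' ∧ u' 4 ∉ B ∧ x = nu t u'} := by
    refine Submodule.span_le.2 ?_
    rintro _ ⟨u', h1, h2, rfl⟩
    rw [SetLike.mem_coe, hs u']
    refine Submodule.smul_mem _ _ (Submodule.subset_span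
      ⟨u' ∘ Equiv.swap (0 : Fin 5) 4, Final_tor h1 _, ?_, rfl⟩)
    rw [Function.comp_apply, Equiv.swap_apply_right]
    exact h2
  rw [hs u]
  exact Submodule.smul_mem _ _ (hle (nu_move (Final_tor hu _) B))

/-- `Phi t` is linear in the first variable -/
private def Final_lin (y : V t) : V t →ₗ[ℚ] CH {dwork t} (Fin 2) where
  toFun x := Phi t x y
  map_add' x x' := Phi_add x x' y
  map_smul' a x := Phi_smul a x y

private theorem Final_span {S : Set (V t)} {x y : V t} (hx : x ∈ Submodule.span ℚ S)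
    (h : ∀ z ∈ S, Phi t z y = 0) : Phi t x y = 0 := by
  have hle : Submodule.span ℚ S ≤ LinearMap.ker (Final_lin y) :=
    Submodule.span_le.2 fun z hz => h z hz
  exact hle hx

/-- `Phi t` is bilinear and symmetric. First let `u₄ ∉ B₁` (`Phi_nu`), and write `nu t u'` as a combination of
classes with `u'₄ ∉ B₂` (`nu_span`). Then write `nu t u` as a combination of classes with
`u₄ ∉ B₁`. -/
theorem Phi_nu_all {u u' : Fin 5 → k} (hu : Tor t u) (hu' : Tor t u') :
    Phi t (nu t u) (nu t u') = 0 := by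
  obtain ⟨B₁, hB₁⟩ := Phi_nu t
  refine Final_span (nu_span hu B₁) ?_
  rintro _ ⟨u₁, h1, h2, rfl⟩
  obtain ⟨B₂, hB₂⟩ := hB₁ u₁ h1 h2
  rw [Phi_symm]
  refine Final_span (nu_span hu' B₂) ?_
  rintro _ ⟨u₂, h3, h4, rfl⟩
  rw [Phi_symm]
  exact hB₂ u₂ h3 h4

/-- A cycle of degree zero is `∑ a_x ([x] - oC)`; by `single_eq` and `cls_cases` its class is a
combination of the classes `nu t u`. -/
theorem cl1_mem {a : Pt {dwork t} k →₀ ℚ} (ha : (a.sum fun _ r => r) = 0) :
    cl1 {dwork t} a ∈ Submodule.span ℚ {x | ∃ u : Fin 5 → k, Tor t u ∧ x = nu t u} := by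
  have h1 : cl1 {dwork t} a =
      ∑ y ∈ a.support, a y • (cls t (y.1.rep : Fin 5 → k) - oC t) := by
    have h2 : ∑ y ∈ a.support, a y • (cls t (y.1.rep : Fin 5 → k) - oC t) =
        ∑ y ∈ a.support, a y • cls t (y.1.rep : Fin 5 → k) -
          (∑ y ∈ a.support, a y) • oC t := by
      rw [Finset.sum_smul, ← Finset.sum_sub_distrib]
      exact Finset.sum_congr rfl fun y _ => smul_sub _ _ _
    have h3 : ∑ y ∈ a.support, a y = 0 := ha
    rw [h2, h3, zero_smul, sub_zero]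
    conv_lhs => rw [← Finsupp.sum_single a]
    rw [Finsupp.sum, map_sum]
    refine Finset.sum_congr rfl fun y _ => ?_
    have h4 : Finsupp.single y (a y) = a y • Finsupp.single y (1 : ℚ) := by simp
    rw [h4, map_smul, (single_eq y).2]
    rfl
  rw [h1]
  refine Submodule.sum_mem _ fun y _ => Submodule.smul_mem _ _ ?_
  rcases cls_cases (single_eq y).1 with h | ⟨u, hu, h⟩
  · rw [h]
    exact Submodule.zero_mem _
  · exact Submodule.subset_span ⟨u, hu, h⟩

/-- `cl1_mem`, `Phi_nu_all`, bilinearity, and `Ext_cl` -/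
theorem voisin_dwork {a b : Pt {dwork t} k →₀ ℚ} (ha : (a.sum fun _ r => r) = 0)
    (hb : (b.sum fun _ r => r) = 0) : ext ![a, b] + ext ![b, a] ∈ Rat {dwork t} (Fin 2) := by
  have h0 : Phi t (cl1 {dwork t} a) (cl1 {dwork t} b) = 0 := by
    refine Final_span (cl1_mem ha) ?_
    rintro _ ⟨u, hu, rfl⟩
    rw [Phi_symm]
    refine Final_span (cl1_mem hb) ?_
    rintro _ ⟨u', hu', rfl⟩
    exact Phi_nu_all hu' hu
  have hc : ∀ z z' : Pt {dwork t} k →₀ ℚ,
      (fun j => cl1 {dwork t} ((![z, z'] : Fin 2 → (Pt {dwork t} k →₀ ℚ)) j)) =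
        ![cl1 {dwork t} z, cl1 {dwork t} z'] := by
    intro z z'
    funext j
    fin_cases j
    · rfl
    · rfl
  have h1 := Ext_cl (dwork_hom t) ![a, b]
  have h2 := Ext_cl (dwork_hom t) ![b, a]
  rw [hc] at h1 h2
  unfold Phi at h0
  rw [h1, h2, ← Submodule.Quotient.mk_add] at h0
  exact (Submodule.Quotient.mk_eq_zero _).1 h0

end Pool.Agent.DWK
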