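import Pool.Agent.DWK.Defs2
import Pool.Agent.KW.Zero

/-!
# Pairs of values of the invariant c: definitions
-/

set_option autoImplicit false

noncomputable section

namespace Pool.Agent.DWK

open Pool.Agent.ZCyc Pool.Agent.TInf Pool.Agent.GT
open Pool.Agent.VFP (Om tt)
open scoped Classical LinearAlgebra.Projectivization

variable {k : Type} [Field k]

/-- two values of the invariant `c` with the square roots `w` -/
structure Tup (t : k) where
  /-- the values of `c` -/
  c : Fin 2 → k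
  /-- the square roots -/
  w : Fin 2 → k
  sq : ∀ j, w j ^ 2 = gc t (c j)
  ne : ∀ j, c j ≠ 0
  he : ∀ j, eK t (c j) ≠ 0

/-- the same over `Om k` -/
structure TupO (t : k) where
  /-- the values of `c` -/
  c : Fin 2 → Om k
  /-- the square roots -/
  w : Fin 2 → Om k
  sq : ∀ j, w j ^ 2 = gc t (c j)

/-- the number of the slot `(i, j)`: the curve for `c_j` and `± w_j` -/
def sl : Fin 2 × Fin 2 ≃ Fin 4 := finProdFinEquiv

/-- `± w` -/
def wi {K : Type} [Field K] (i : Fin 2) (w : K) : K := if i = 0 then w else -w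

/-- the permutation `(i, j) ↦ (i + g_j, τ j)` of the slots -/
def slotP (g : Fin 2 → Fin 2) (τ : Equiv.Perm (Fin 2)) : Equiv.Perm (Fin 4) :=
  sl.permCongr
    { toFun := fun x => (x.1 + g x.2, τ x.2)
      invFun := fun x => (x.1 - g (τ⁻¹ x.2), τ⁻¹ x.2)
      left_inv := fun x => by simp
      right_inv := fun x => by simp }

theorem slotP_apply (g : Fin 2 → Fin 2) (τ : Equiv.Perm (Fin 2)) (i j : Fin 2) :
    slotP g τ (sl (i, j)) = sl (i + g j, τ j) := by
  simp [slotP, Equiv.permCongr_apply]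

variable {t : k}

/-- the coefficients `α` of a slot -/
def Tup.a (s : Tup t) (x : Fin 4) : k := al t (s.c (sl.symm x).2) (wi (sl.symm x).1 (s.w (sl.symm x).2))

/-- the coefficients `B` of a slot -/
def Tup.b (s : Tup t) (x : Fin 4) : k := be t (s.c (sl.symm x).2) (wi (sl.symm x).1 (s.w (sl.symm x).2))

/-- the coefficients `α` of a slot over `Om k` -/
def TupO.a (s : TupO t) (x : Fin 4) : Om k :=
  al t (s.c (sl.symm x).2) (wi (sl.symm x).1 (s.w (sl.symm x).2))

/-- the coefficients `B` of a slot over `Om k` -/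
def TupO.b (s : TupO t) (x : Fin 4) : Om k :=
  be t (s.c (sl.symm x).2) (wi (sl.symm x).1 (s.w (sl.symm x).2))

/-- the tuple `S` tends to the tuple of the `c_(τ j)` with the square roots `± w_(τ j)` -/
def TupO.To (v : Place k (Om k)) (S : TupO t) (s : Tup t) (g : Fin 2 → Fin 2)
    (τ : Equiv.Perm (Fin 2)) : Prop :=
  ∀ j, v.At (S.c j) (s.c (τ j)) ∧ v.At (S.w j) (wi (g j) (s.w (τ j)))

/-- the product of classes on the variety itself, symmetrized -/
def Phi (t : k) [IsAlgClosed k] [CharZero k] (x y : V t) : CH {dwork t} (Fin 2) :=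
  Ext (dwork_hom t) 2 ![x, y] + Ext (dwork_hom t) 2 ![y, x]

/-- the class function -/
def FG [IsAlgClosed k] [CharZero k] (s : Tup t) (q : Fin 4 → EPt k) : CH {dwork t} (Fin 2) :=
  Phi t (ff t (s.c 0) (s.w 0) (q (sl (0, 0))) (q (sl (1, 0))))
    (ff t (s.c 1) (s.w 1) (q (sl (0, 1))) (q (sl (1, 1))))

/-- the cycle of the points `q` over `Om k` -/
def FZ (S : TupO t) (q : Fin 4 → EPt (Om k)) : (Fin 2 → Pt {dwork t} (Om k)) →₀ ℚ :=
  ext ![fz t (S.c 0) (S.w 0) (q (sl (0, 0))) (q (sl (1, 0))),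
      fz t (S.c 1) (S.w 1) (q (sl (0, 1))) (q (sl (1, 1)))] +
    ext ![fz t (S.c 1) (S.w 1) (q (sl (0, 1))) (q (sl (1, 1))),
      fz t (S.c 0) (S.w 0) (q (sl (0, 0))) (q (sl (1, 0)))]

end Pool.Agent.DWK
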