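import Pool.Agent.DWK.BDefs

/-!
# The base given by pairs of values of the invariant c
-/

set_option autoImplicit false

noncomputable section

namespace Pool.Agent.DWK

open Pool.Agent.ZCyc Pool.Agent.TInf Pool.Agent.GT
open Pool.Agent.VFP (Om tt)
open scoped Classical LinearAlgebra.Projectivization

variable {k : Type} [Field k] {t : k}

theorem wi_wi {K : Type} [Field K] (i g : Fin 2) (w : K) : wi i (wi g w) = wi (i + g) w := by
  fin_cases i <;> fin_cases g <;> simp [wi]

theorem wi_at {v : Place k (Om k)} {W : Om k} {w : k} (h : v.At W w) (i : Fin 2) :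
    v.At (wi i W) (wi i w) := by
  unfold wi
  split_ifs
  · exact h
  · exact h.neg

theorem at_num' (v : Place k (Om k)) (m : ℕ) [m.AtLeastTwo] :
    v.At (OfNat.ofNat m : Om k) (OfNat.ofNat m : k) := by
  have := Place.at_const (v := v) (OfNat.ofNat m : k)
  rwa [map_ofNat] at this

theorem eK_at {v : Place k (Om k)} {C : Om k} {c : k} (h : v.At C c) :
    v.At (eK t C) (eK t c) := (Place.at_const _).sub h

theorem dl_at {v : Place k (Om k)} {C : Om k} {c : k} (h : v.At C c) :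
    v.At (dl t C) (dl t c) := h.mul (eK_at h)

theorem gc_at {v : Place k (Om k)} {C : Om k} {c : k} (h : v.At C c) :
    v.At (gc t C) (gc t c) := h.mul ((h.mul ((eK_at h).pow 4)).sub (at_num' v 256))

theorem Qc_at [CharZero k] {v : Place k (Om k)} {C W : Om k} {c w : k} (h : v.At C c)
    (hw : v.At W w) : v.At (Qc t C W) (Qc t c w) :=
  (((dl_at h).pow 2).add (h.mul hw)).div (at_num' v 8) (by norm_num)

theorem al_at [CharZero k] {v : Place k (Om k)} {C W : Om k} {c w : k} (h : v.At C c)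
    (hw : v.At W w) : v.At (al t C W) (al t c w) :=
  (((dl_at h).pow 2).div (at_num' v 9) (by norm_num)).sub
    ((Qc_at h hw).div (at_num' v 3) (by norm_num))

theorem be_at [CharZero k] {v : Place k (Om k)} {C W : Om k} {c w : k} (h : v.At C c)
    (hw : v.At W w) : v.At (be t C W) (be t c w) :=
  (((at_num' v 2).mul ((dl_at h).pow 3)).div (at_num' v 27) (by norm_num)).sub
    (((dl_at h).mul (Qc_at h hw)).div (at_num' v 3) (by norm_num))

theorem Tup.a_sl (s : Tup t) (i j : Fin 2) : s.a (sl (i, j)) = al t (s.c j) (wi i (s.w j)) := by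
  simp [Tup.a]

theorem Tup.b_sl (s : Tup t) (i j : Fin 2) : s.b (sl (i, j)) = be t (s.c j) (wi i (s.w j)) := by
  simp [Tup.b]

theorem TupO.a_sl (s : TupO t) (i j : Fin 2) : s.a (sl (i, j)) = al t (s.c j) (wi i (s.w j)) := by
  simp [TupO.a]

theorem TupO.b_sl (s : TupO t) (i j : Fin 2) : s.b (sl (i, j)) = be t (s.c j) (wi i (s.w j)) := by
  simp [TupO.b]

theorem TupO.To.at_a [CharZero k] {v : Place k (Om k)} {S : TupO t} {s : Tup t}
    {g : Fin 2 → Fin 2} {τ : Equiv.Perm (Fin 2)} (h : S.To v s g τ) (x : Fin 4) :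
    v.At (S.a x) (s.a (slotP g τ x)) := by
  obtain ⟨⟨i, j⟩, rfl⟩ := sl.surjective x
  rw [slotP_apply, TupO.a_sl, Tup.a_sl, ← wi_wi]
  exact al_at (h j).1 (wi_at (h j).2 i)

theorem TupO.To.at_b [CharZero k] {v : Place k (Om k)} {S : TupO t} {s : Tup t}
    {g : Fin 2 → Fin 2} {τ : Equiv.Perm (Fin 2)} (h : S.To v s g τ) (x : Fin 4) :
    v.At (S.b x) (s.b (slotP g τ x)) := by
  obtain ⟨⟨i, j⟩, rfl⟩ := sl.surjective x
  rw [slotP_apply, TupO.b_sl, Tup.b_sl, ← wi_wi]
  exact be_at (h j).1 (wi_at (h j).2 i)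

theorem eK_map (c : k) : eK t (algebraMap k (Om k) c) = algebraMap k (Om k) (eK t c) := by
  unfold eK
  rw [map_sub]
  rfl

theorem dl_map (c : k) : dl t (algebraMap k (Om k) c) = algebraMap k (Om k) (dl t c) := by
  unfold dl
  rw [map_mul, eK_map]

theorem gc_map (c : k) : gc t (algebraMap k (Om k) c) = algebraMap k (Om k) (gc t c) := by
  unfold gc
  rw [map_mul, map_sub, map_mul, map_pow, eK_map, map_ofNat]

theorem Qc_map (c w : k) : Qc t (algebraMap k (Om k) c) (algebraMap k (Om k) w) =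
    algebraMap k (Om k) (Qc t c w) := by
  unfold Qc
  rw [map_div₀, map_add, map_mul, map_pow, dl_map, map_ofNat]

theorem al_map (c w : k) : al t (algebraMap k (Om k) c) (algebraMap k (Om k) w) =
    algebraMap k (Om k) (al t c w) := by
  unfold al
  rw [map_sub, map_div₀, map_div₀, map_pow, dl_map, Qc_map, map_ofNat, map_ofNat]

theorem be_map (c w : k) : be t (algebraMap k (Om k) c) (algebraMap k (Om k) w) =
    algebraMap k (Om k) (be t c w) := by
  unfold be
  rw [map_sub, map_div₀, map_div₀, map_mul, map_mul, map_pow, dl_map, Qc_map, map_ofNat,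
    map_ofNat, map_ofNat]

theorem wi_map (i : Fin 2) (w : k) :
    wi i (algebraMap k (Om k) w) = algebraMap k (Om k) (wi i w) := by
  unfold wi
  split_ifs
  · rfl
  · rw [map_neg]

/-- the constant tuple -/
def Tup.cst (s : Tup t) : TupO t where
  c j := algebraMap k (Om k) (s.c j)
  w j := algebraMap k (Om k) (s.w j)
  sq j := by rw [gc_map, ← s.sq, map_pow]

theorem slotP_one : slotP (fun _ => 0) 1 = 1 := by
  ext x
  obtain ⟨⟨i, j⟩, rfl⟩ := sl.surjective x
  rw [slotP_apply]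
  simp

theorem Tup.cst_to (v : Place k (Om k)) (s : Tup t) : s.cst.To v s (fun _ => 0) 1 := by
  intro j
  refine ⟨Place.at_const _, ?_⟩
  have h1 : wi (0 : Fin 2) (s.w ((1 : Equiv.Perm (Fin 2)) j)) = s.w j := by simp [wi]
  rw [h1]
  exact Place.at_const _

/-- the base: a tuple and a numbering of the slots -/
def bs (t : k) [CharZero k] : KW.Base k 1 4 where
  P := Tup t × Equiv.Perm (Fin 4)
  Q := TupO t × Equiv.Perm (Fin 4)
  ea s _ x := s.1.a (s.2 x)
  eb s _ x := s.1.b (s.2 x)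
  EA s _ x := s.1.a (s.2 x)
  EB s _ x := s.1.b (s.2 x)
  act s π := (s.1, s.2 * π)
  At v S s := ∃ (g : Fin 2 → Fin 2) (τ : Equiv.Perm (Fin 2)), s.2 = slotP g τ * S.2 ∧
    S.1.To v s.1 g τ
  Bad v S := ∃ j : Fin 2, S.1.c j ∉ v.ring
  cst s := (s.1.cst, s.2)
  ea_act _ _ _ _ := rfl
  eb_act _ _ _ _ := rfl
  act_one s := by simp
  at_al := by
    rintro v S s ⟨g, τ, h1, h2⟩ i x
    rw [h1]
    exact h2.at_a (S.2 x)
  at_be := by
    rintro v S s ⟨g, τ, h1, h2⟩ i x
    rw [h1]
    exact h2.at_b (S.2 x)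
  cst_at v s := ⟨fun _ => 0, 1, by rw [slotP_one, one_mul], s.1.cst_to v⟩
  cst_al s i x := by
    change s.1.cst.a (s.2 x) = algebraMap k (Om k) (s.1.a (s.2 x))
    obtain ⟨⟨i, j⟩, h⟩ := sl.surjective (s.2 x)
    rw [← h, TupO.a_sl, Tup.a_sl, ← al_map, ← wi_map]
    rfl
  cst_be s i x := by
    change s.1.cst.b (s.2 x) = algebraMap k (Om k) (s.1.b (s.2 x))
    obtain ⟨⟨i, j⟩, h⟩ := sl.surjective (s.2 x)
    rw [← h, TupO.b_sl, Tup.b_sl, ← be_map, ← wi_map]
    rfl

end Pool.Agent.DWK
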