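import Pool.Agent.DWK.Tors

/-!
# Limits of points with nonzero coordinates
-/

set_option autoImplicit false

noncomputable section

namespace Pool.Agent.DWK

open Pool.Agent.ZCyc Pool.Agent.TInf Pool.Agent.GT
open Pool.Agent.VFP (Om tt)
open scoped Classical LinearAlgebra.Projectivization

variable {k : Type} [Field k] [IsAlgClosed k] [CharZero k] {t : k}

omit [IsAlgClosed k] [CharZero k] in
private theorem oo_map : oo (Om k) = fun i => algebraMap k (Om k) (oo k i) := by
  funext i
  fin_cases i <;> simp [oo]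

/-- The coordinates `rt U i` are in the valuation ring (`VFP.mem_of_pow`), their values `x_i`
satisfy `x_i ⁵ = u_i`, `∏ x_i = 1`; `lim1_cyc` (with `l = 1`), `lim1_const` for `oo`
(`oo (Om k)` is the image of `oo k`), `nu_eq`. -/
theorem lim_uz {v : Place k (Om k)} {U : Fin 5 → Om k} {u : Fin 5 → k} (hU : Tor t U)
    (hu : ∀ i, v.At (U i) (u i)) : Tor t u ∧ lim1 (dwork_hom t) v (uz t U) = nu t u := by
  obtain ⟨hr1, hr2⟩ := rt_spec hU.1
  have hon := on_of_tor hU hr1 hr2
  have hx : ∀ i, ∃ x : k, v.At (rt U i) x := fun i =>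
    Pool.Agent.DCI57.exists_at v (Pool.Agent.VFP.mem_of_pow (m := 5) (by norm_num)
      (by rw [hr1 i]; exact (hu i).mem))
  choose x hx using hx
  have hx5 : ∀ i, x i ^ 5 = u i := fun i => by
    have h1 := (hx i).pow 5
    rw [hr1 i] at h1
    exact h1.unique (hu i)
  have hxp : ∏ i, x i = 1 := by
    have h1 : v.At (∏ i, rt U i) (∏ i, x i) := Place.At.prod fun i _ => hx i
    rw [hr2] at h1
    exact h1.unique Pool.Agent.VFP.at_one
  have htor : Tor t u := by
    constructor
    · have h1 : v.At (∏ i, U i) (∏ i, u i) := Place.At.prod fun i _ => hu i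
      rw [hU.1] at h1
      exact h1.unique Pool.Agent.VFP.at_one
    · have h1 : v.At (∑ i, U i) (∑ i, u i) := Place.At.sum fun i _ => hu i
      rw [hU.2] at h1
      exact h1.unique (Place.at_const _)
  have hx0 : x ≠ 0 := (on_of_tor htor hx5 hxp).1
  refine ⟨htor, ?_⟩
  rw [nu_eq htor hx5 hxp]
  unfold uz
  rw [if_pos hU, map_sub, lim1_cyc (l := 1) hon (fun i => by rw [one_mul]; exact hx i) hx0,
    oo_map, lim1_const]
  rfl

/-- If `Tor t U` does not hold then `uz t U = 0`. Otherwise let `X = rt U`; `X i` is not in the valuation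
ring for some `i`. Take `l`, `x` from `exists_val`, `v.At (l * X j) (x j)` for all `j`. Then
`l` vanishes at `v` (if `l⁻¹` were in the ring then `X i = l⁻¹ (l X i)` too; `v.vanishes_iff_or`), so
`l ⁵ = ∏ l X_j` has the value `0`, i.e. `∏ x_j = 0`. So a coordinate `x_j` is zero, and the limit is
`oC t - oC t = 0` (`lim1_cyc`, `cls_zero`, `on_lim`, `lim1_const`). -/
theorem lim_uz_bd {v : Place k (Om k)} {U : Fin 5 → Om k} {i : Fin 5} (h : U i ∉ v.ring) :
    lim1 (dwork_hom t) v (uz t U) = 0 := by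
  by_cases hU : Tor t U
  swap
  · rw [uz_off hU, map_zero]
  obtain ⟨hr1, hr2⟩ := rt_spec hU.1
  have hon := on_of_tor hU hr1 hr2
  have hX : rt U i ∉ v.ring := by
    intro h1
    apply h
    rw [← hr1 i]
    exact pow_mem h1 5
  obtain ⟨l, x, hl, hx, hlx⟩ := exists_val v hon.1
  have hlv : v.Vanishes l := by
    rw [v.vanishes_iff_or]
    right
    intro h1
    apply hX
    have h2 := mul_mem h1 (hlx i).mem
    rwa [inv_mul_cancel_left₀ hl] at h2
  have hp : ∏ j, x j = 0 := by
    have h1 : v.At (∏ j, (l * rt U j)) (∏ j, x j) := Place.At.prod fun j _ => hlx j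
    have h2 : ∏ j, (l * rt U j) = l ^ 5 := by
      rw [Finset.prod_mul_distrib, hr2, mul_one, Finset.prod_const, Finset.card_univ,
        Fintype.card_fin]
    rw [h2] at h1
    have h3 : v.Vanishes (l ^ 5) := hlv.pow v (n := 5) (by norm_num)
    have h4 : v.At (l ^ 5) 0 := Place.at_zero_iff.2 h3
    exact Place.At.unique h1 h4
  obtain ⟨j, -, hj⟩ := Finset.prod_eq_zero_iff.1 hp
  unfold uz
  rw [if_pos hU, map_sub, lim1_cyc hon hlx hx, oo_map, lim1_const,
    cls_zero (on_lim hon hlx hx) hj]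
  exact sub_self _

end Pool.Agent.DWK
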