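import Pool.Agent.DWK.InvA
import Pool.Agent.DWK.TorL

/-!
# Invariants without a nonzero value
-/

set_option autoImplicit false

noncomputable section

namespace Pool.Agent.DWK

open Pool.Agent.ZCyc Pool.Agent.TInf Pool.Agent.GT
open Pool.Agent.VFP (Om tt)
open scoped Classical LinearAlgebra.Projectivization

variable {k : Type} [Field k] [IsAlgClosed k] [CharZero k] {t : k}

/-- If there is no point with these invariants then the cycle is zero. Otherwise it is `uz t U` for a
point `U` with `Tor t U`, `Inv C A B D U`. If all `U i` are in the valuation ring, then they have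
values `u_i` with `∏ u_i = 1`, so `u_i ≠ 0`, and `C = U₄`, `A = U₀ U₂`, `B = U₀ U₃` have nonzero
values. So some `U i` is not in the valuation ring: `lim_uz_bd`. -/
theorem lim_zd_bd {v : Place k (Om k)} {C A B D : Om k}
    (h : ¬ ((∃ c : k, c ≠ 0 ∧ v.At C c) ∧ (∃ a : k, a ≠ 0 ∧ v.At A a) ∧
      ∃ b : k, b ≠ 0 ∧ v.At B b)) : lim1 (dwork_hom t) v (zd t C A B D) = 0 := by
  by_cases hex : ∃ U : Fin 5 → Om k, Tor t U ∧ Inv C A B D U
  · have hz : zd t C A B D = uz t hex.choose := dif_pos hex
    rw [hz]
    obtain ⟨hT, hC, hA, hB, -⟩ := hex.choose_spec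
    generalize hex.choose = U at hT hC hA hB
    by_contra hne
    have hmem : ∀ i, U i ∈ v.ring := by
      intro i
      by_contra hi
      exact hne (lim_uz_bd hi)
    choose u hu using fun i => DCI57.exists_at v (hmem i)
    have hp : ∏ i, u i = 1 := by
      have h1 : v.At (∏ i, U i) (∏ i, u i) := Place.At.prod fun i _ => hu i
      rw [hT.1] at h1
      have h2 : v.At (1 : Om k) 1 := by
        have := Place.at_const (v := v) (1 : k)
        rwa [map_one] at this
      exact h1.unique h2
    have hne' : ∀ i, u i ≠ 0 := by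
      intro i h0
      rw [Finset.prod_eq_zero (Finset.mem_univ i) h0] at hp
      exact zero_ne_one hp
    refine h ⟨⟨u 4, hne' 4, ?_⟩, ⟨u 0 * u 2, mul_ne_zero (hne' 0) (hne' 2), ?_⟩,
      u 0 * u 3, mul_ne_zero (hne' 0) (hne' 3), ?_⟩
    · rw [← hC]
      exact hu 4
    · rw [← hA]
      exact (hu 0).mul (hu 2)
    · rw [← hB]
      exact (hu 0).mul (hu 3)
  · rw [zd_off hex, map_zero]

end Pool.Agent.DWK
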