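import Pool.Agent.DWK.Defs2

/-!
# Points with given homogeneous coordinates
-/

set_option autoImplicit false

noncomputable section

namespace Pool.Agent.DWK

open Pool.Agent.ZCyc Pool.Agent.TInf Pool.Agent.GT
open Pool.Agent.VFP (Om tt)
open scoped Classical LinearAlgebra.Projectivization

variable {k : Type} [Field k] {K : Type} [Field K] [Algebra k K] {t : k}

theorem cyc_on {x : Fin 5 → K} (h : On t x) : cyc t x = Finsupp.single
    (mkPt (dwork_hom t) (x : Fin (4 + 1) → K) h.1 h.aeval) 1 := dif_pos h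

theorem cyc_off {x : Fin 5 → K} (h : ¬ On t x) : cyc t x = 0 := dif_neg h

theorem cls_off {x : Fin 5 → k} (h : ¬ On t x) : cls t x = 0 := by
  unfold cls
  rw [cyc_off h, map_zero]

/-- both sides of the equation are homogeneous of degree five -/
theorem On.smul {x : Fin 5 → K} (h : On t x) {c : K} (hc : c ≠ 0) : On t (c • x) := by
  refine ⟨smul_ne_zero hc h.1, ?_⟩
  have h2 := h.2
  rw [Fin.sum_univ_five, Fin.prod_univ_five] at h2 ⊢
  simp only [Pi.smul_apply, smul_eq_mul]
  linear_combination c ^ 5 * h2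

/-- the point of projective space is the same (`Projectivization.mk_eq_mk_iff`) -/
theorem cyc_smul (x : Fin 5 → K) {c : K} (hc : c ≠ 0) : cyc t (c • x) = cyc t x := by
  by_cases h : On t x
  · rw [cyc_on h, cyc_on (h.smul hc)]
    congr 1
    refine Subtype.ext ((Projectivization.mk_eq_mk_iff K _ _ _ _).2 ⟨Units.mk0 c hc, ?_⟩)
    rfl
  · have h' : ¬ On t (c • x) := by
      intro h2
      have h3 := h2.smul (inv_ne_zero hc)
      rw [inv_smul_smul₀ hc] at h3
      exact h h3
    rw [cyc_off h, cyc_off h']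

theorem cls_smul (x : Fin 5 → k) {c : k} (hc : c ≠ 0) : cls t (c • x) = cls t x := by
  unfold cls
  rw [cyc_smul x hc]

private theorem eqn_of_aeval {x : Fin (4 + 1) → K}
    (h : MvPolynomial.aeval x (dwork t) = 0) :
    ∑ i, x i ^ 5 = algebraMap k K (5 * t) * ∏ i, x i := by
  unfold dwork at h
  rw [map_sub, map_sum, map_mul, map_prod, MvPolynomial.algHom_C] at h
  simp only [map_pow, MvPolynomial.aeval_X] at h
  exact sub_eq_zero.1 h

/-- every point has coordinates: `Projectivization.mk_rep` -/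
theorem single_eq (y : Pt {dwork t} K) : On t (y.1.rep : Fin 5 → K) ∧
    Finsupp.single y 1 = cyc t (y.1.rep : Fin 5 → K) := by
  have h : On t (y.1.rep : Fin 5 → K) := by
    refine ⟨y.1.rep_nonzero, ?_⟩
    exact eqn_of_aeval (y.2 (dwork t) rfl)
  refine ⟨h, ?_⟩
  rw [cyc_on h]
  congr 1
  exact Subtype.ext (Projectivization.mk_rep y.1).symm

/-- the equation is preserved under specialisation (`Place.At`) -/
theorem on_lim {v : Place k (Om k)} {X : Fin 5 → Om k} {x : Fin 5 → k} {l : Om k} (h : On t X)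
    (hl : ∀ i, v.At (l * X i) (x i)) (hx : x ≠ 0) : On t x := by
  refine ⟨hx, ?_⟩
  have h1 : v.At (∑ i, (l * X i) ^ 5) (∑ i, x i ^ 5) :=
    Place.At.sum fun i _ => (hl i).pow 5
  have h2 : v.At (algebraMap k (Om k) (5 * t) * ∏ i, (l * X i)) (5 * t * ∏ i, x i) :=
    (Place.at_const (5 * t)).mul (Place.At.prod fun i _ => hl i)
  have h3 : ∑ i, (l * X i) ^ 5 = algebraMap k (Om k) (5 * t) * ∏ i, (l * X i) := by
    have h4 := h.2
    rw [Fin.sum_univ_five, Fin.prod_univ_five] at h4 ⊢
    linear_combination l ^ 5 * h4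
  rw [h3] at h1
  exact Place.At.unique h1 h2

variable [IsAlgClosed k]

/-- `lim1`, `lim_single`, `pv_eq`, `isVal_mkPt` -/
theorem lim1_cyc {v : Place k (Om k)} {X : Fin 5 → Om k} {x : Fin 5 → k} {l : Om k} (h : On t X)
    (hl : ∀ i, v.At (l * X i) (x i)) (hx : x ≠ 0) :
    lim1 (dwork_hom t) v (cyc t X) = cls t x := by
  have h' : On t x := on_lim h hl hx
  unfold cls
  rw [cyc_on h, cyc_on h']
  change lim (dwork_hom t) v (Finsupp.mapDomain (fun x _ => x) (Finsupp.single _ 1)) =
    Submodule.Quotient.mk (Finsupp.mapDomain (fun x _ => x) (Finsupp.single _ 1))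
  rw [Finsupp.mapDomain_single, Finsupp.mapDomain_single, lim_single,
    pv_eq (isVal_mkPt (b := (x : Fin (4 + 1) → k)) (hb := h'.1) (h' := h'.aeval) hl)]

/-- `lim1_cyc` with `l = 1` for constant coordinates (if `x` does not satisfy the equation then both
sides are zero) -/
theorem lim1_const {v : Place k (Om k)} (x : Fin 5 → k) :
    lim1 (dwork_hom t) v (cyc t fun i => algebraMap k (Om k) (x i)) = cls t x := by
  have hon : On t (fun i => algebraMap k (Om k) (x i)) ↔ On t x := by
    unfold On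
    have h1 : (fun i => algebraMap k (Om k) (x i)) ≠ 0 ↔ x ≠ 0 := by
      rw [not_iff_not]
      constructor
      · intro h
        funext i
        exact (map_eq_zero (algebraMap k (Om k))).1 (congrFun h i)
      · rintro rfl
        funext i
        exact map_zero _
    rw [h1, ← map_prod, ← map_mul]
    simp only [← map_pow]
    rw [← map_sum, (algebraMap k (Om k)).injective.eq_iff]
    rfl
  by_cases h : On t x
  · refine lim1_cyc (l := 1) (hon.2 h) (fun i => ?_) h.1
    rw [one_mul]
    exact Place.at_const (x i)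
  · rw [cyc_off (fun h' => h (hon.1 h')), cls_off h, map_zero]

/-- `exists_scale` -/
theorem exists_val (v : Place k (Om k)) {X : Fin 5 → Om k} (hX : X ≠ 0) :
    ∃ (l : Om k) (x : Fin 5 → k), l ≠ 0 ∧ x ≠ 0 ∧ ∀ i, v.At (l * X i) (x i) :=
  exists_scale v X hX

/-- `GT.bridge` for the cycle `Finsupp.mapDomain (fun x _ => x) z` -/
theorem bridge1 [CharZero k] (z : Pt {dwork t} (Om k) →₀ ℚ) {c₀ c₁ : k} {C₀ C₁ : V t}
    (h₀ : ∀ v : Place k (Om k), v.At (tt k) c₀ → lim1 (dwork_hom t) v z = C₀)
    (h₁ : ∀ v : Place k (Om k), v.At (tt k) c₁ → lim1 (dwork_hom t) v z = C₁) : C₀ = C₁ :=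
  bridge (dwork_hom t) (Finsupp.mapDomain (fun x _ => x) z) h₀ h₁

end Pool.Agent.DWK
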