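import Pool.Agent.DWK.DLem

/-!
# A rational curve on the quotient by the permutation
-/

set_option autoImplicit false

noncomputable section

namespace Pool.Agent.DWK

open Pool.Agent.ZCyc Pool.Agent.TInf Pool.Agent.GT
open Pool.Agent.VFP (Om tt)
open scoped Classical LinearAlgebra.Projectivization

variable {k : Type} [Field k] [IsAlgClosed k] [CharZero k] {t : k}

private theorem GG5_scale {R : Type} [CommRing R] [Algebra k R] (l s p a b c : R) :
    GG5 t (l * s) (l ^ 2 * p) (l * a) (l * b) (l * c) = l ^ 5 * GG5 t s p a b c := by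
  unfold GG5
  ring

private theorem at_cg {v : Place k (Om k)} {F : Om k} {c d : k} (h : v.At F c) (e : c = d) :
    v.At F d := e ▸ h

private theorem at_om {v : Place k (Om k)} {d : k} (h : v.At (tt k) d) :
    v.At (1 - tt k) (1 - d) := by
  have h1 := Place.at_const (v := v) (1 : k)
  rw [map_one] at h1
  exact h1.sub h

/-- If `p₂ = x = y = z = 0` then `p₁ ≠ 0`, and the left side of `hid` (with the right side zero) is a
polynomial in `T` with the coefficient `5 s p₁ ² ≠ 0` of `T ²`; contradiction. So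
`(p₂, x, y, z) ≠ 0`. Let `τ = tt k`. The data `(1 - τ) s`,
`(1 - τ) ² p + (1 - τ) τ p₁ + τ ² p₂`, `(1 - τ) a + τ x`, `(1 - τ) b + τ y`, `(1 - τ) c + τ z` satisfy
the equation (multiply the left side of `hid` for `T = τ / (1 - τ)` with `(1 - τ) ⁵`). At `τ = 0` this
is the given pair, and at `τ = 1` it is the pair `(0, p₂, x, y, z)`, `prs_zero`. Use `bridge1`,
`lim_prc`. -/
theorem prs_curve {s p a b c p₁ p₂ x y z : k}
    (hid : ∀ T : Om k, GG5 t (algebraMap k (Om k) s)
        (algebraMap k (Om k) p + algebraMap k (Om k) p₁ * T + algebraMap k (Om k) p₂ * T ^ 2)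
        (algebraMap k (Om k) a + algebraMap k (Om k) x * T)
        (algebraMap k (Om k) b + algebraMap k (Om k) y * T)
        (algebraMap k (Om k) c + algebraMap k (Om k) z * T) = 0)
    (hγ : GG5 t 0 p₂ x y z = 0) (hs : s ≠ 0)
    (hne : ¬ (p₁ = 0 ∧ p₂ = 0 ∧ x = 0 ∧ y = 0 ∧ z = 0)) :
    prs t s p a b c = (2 : ℚ) • oC t := by
  have hne' : ¬ (p₂ = 0 ∧ x = 0 ∧ y = 0 ∧ z = 0) := by
    rintro ⟨rfl, rfl, rfl, rfl⟩
    have hp₁ : p₁ ≠ 0 := fun h => hne ⟨h, rfl, rfl, rfl, rfl⟩
    have e0 := hid 0
    have e1 := hid 1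
    have e2 := hid 2
    unfold GG5 at e0 e1 e2
    simp only [map_zero] at e0 e1 e2
    have e3 : (10 : Om k) * (algebraMap k (Om k) s * algebraMap k (Om k) p₁ ^ 2) = 0 := by
      linear_combination e2 - 2 * e1 + e0
    have hs' : algebraMap k (Om k) s ≠ 0 := fun h =>
      hs ((algebraMap k (Om k)).injective (by rw [h, map_zero]))
    have hp' : algebraMap k (Om k) p₁ ≠ 0 := fun h =>
      hp₁ ((algebraMap k (Om k)).injective (by rw [h, map_zero]))
    exact mul_ne_zero (by norm_num) (mul_ne_zero hs' (pow_ne_zero 2 hp')) e3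
  rw [← prs_zero hγ hne']
  have hτ : (1 : Om k) - tt k ≠ 0 := by
    intro h
    have h1 := Pool.Agent.VFP.tt_ne (k := k) 1
    rw [map_one] at h1
    exact h1 (sub_eq_zero.1 h).symm
  have hG : GG5 t ((1 - tt k) * algebraMap k (Om k) s)
      ((1 - tt k) ^ 2 * algebraMap k (Om k) p + (1 - tt k) * tt k * algebraMap k (Om k) p₁ +
        tt k ^ 2 * algebraMap k (Om k) p₂)
      ((1 - tt k) * algebraMap k (Om k) a + tt k * algebraMap k (Om k) x)
      ((1 - tt k) * algebraMap k (Om k) b + tt k * algebraMap k (Om k) y)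
      ((1 - tt k) * algebraMap k (Om k) c + tt k * algebraMap k (Om k) z) = 0 := by
    obtain ⟨T, hT⟩ : ∃ T, T = tt k / (1 - tt k) := ⟨_, rfl⟩
    have hT' : (1 - tt k) * T = tt k := by
      rw [hT]
      field_simp
    have h1 := hid T
    have e1 : (1 - tt k) ^ 2 * algebraMap k (Om k) p +
        (1 - tt k) * tt k * algebraMap k (Om k) p₁ + tt k ^ 2 * algebraMap k (Om k) p₂ =
        (1 - tt k) ^ 2 * (algebraMap k (Om k) p + algebraMap k (Om k) p₁ * T +
          algebraMap k (Om k) p₂ * T ^ 2) := by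
      linear_combination (-((1 - tt k) * algebraMap k (Om k) p₁) -
        algebraMap k (Om k) p₂ * ((1 - tt k) * T + tt k)) * hT'
    have e2 : ∀ a x : Om k, (1 - tt k) * a + tt k * x = (1 - tt k) * (a + x * T) := by
      intro a x
      linear_combination (-x) * hT'
    rw [e1, e2, e2, e2, GG5_scale, h1, mul_zero]
  refine bridge1 _ (c₀ := 0) (c₁ := 1) (fun v hv => lim_prc hG ?_ ?_ ?_ ?_ ?_ ?_)
    (fun v hv => lim_prc hG ?_ ?_ ?_ ?_ ?_ ?_)
  · exact at_cg ((at_om hv).mul (Place.at_const s)) (by ring)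
  · exact at_cg (((((at_om hv).pow 2).mul (Place.at_const p)).add
      (((at_om hv).mul hv).mul (Place.at_const p₁))).add
      ((hv.pow 2).mul (Place.at_const p₂))) (by ring)
  · exact at_cg (((at_om hv).mul (Place.at_const a)).add (hv.mul (Place.at_const x))) (by ring)
  · exact at_cg (((at_om hv).mul (Place.at_const b)).add (hv.mul (Place.at_const y))) (by ring)
  · exact at_cg (((at_om hv).mul (Place.at_const c)).add (hv.mul (Place.at_const z))) (by ring)
  · exact fun h => hs h.1
  · exact at_cg ((at_om hv).mul (Place.at_const s)) (by ring)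
  · exact at_cg (((((at_om hv).pow 2).mul (Place.at_const p)).add
      (((at_om hv).mul hv).mul (Place.at_const p₁))).add
      ((hv.pow 2).mul (Place.at_const p₂))) (by ring)
  · exact at_cg (((at_om hv).mul (Place.at_const a)).add (hv.mul (Place.at_const x))) (by ring)
  · exact at_cg (((at_om hv).mul (Place.at_const b)).add (hv.mul (Place.at_const y))) (by ring)
  · exact at_cg (((at_om hv).mul (Place.at_const c)).add (hv.mul (Place.at_const z))) (by ring)
  · exact fun h => hne' h.2

end Pool.Agent.DWK
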