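import Pool.Agent.DWK.Pair

/-!
# Pairs with sum zero
-/

set_option autoImplicit false

noncomputable section

namespace Pool.Agent.DWK

open Pool.Agent.ZCyc Pool.Agent.TInf Pool.Agent.GT
open Pool.Agent.VFP (Om tt)
open scoped Classical LinearAlgebra.Projectivization

variable {k : Type} [Field k] [IsAlgClosed k] [CharZero k] {t : k}

omit [IsAlgClosed k] [CharZero k] in
private theorem dl_cg {v : Place k (Om k)} {X : Om k} {x y : k} (h : v.At X x) (e : x = y) :
    v.At X y := e ▸ h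

private theorem dl_lim {P A B C : Om k} (hG : GG5 t 0 P A B C = 0) {p a b c q : k}
    (hq : q ≠ 0) (hne : ¬ (p = 0 ∧ a = 0 ∧ b = 0 ∧ c = 0))
    (h1 : ∀ v : Place k (Om k), v.At (tt k) 1 → v.At P p ∧ v.At A a ∧ v.At B b ∧ v.At C c)
    (h0 : ∀ v : Place k (Om k), v.At (tt k) 0 → v.At P q ∧ v.At A 0 ∧ v.At B 0 ∧ v.At C 0) :
    prs t 0 p a b c = (2 : ℚ) • oC t := by
  rw [← prs_Q hq]
  refine bridge1 (prc t 0 P A B C) (c₀ := 1) (c₁ := 0) (fun v hv => ?_) (fun v hv => ?_)
  · obtain ⟨e1, e2, e3, e4⟩ := h1 v hv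
    exact lim_prc hG Pool.Agent.VFP.at_zero e1 e2 e3 e4 fun h => hne h.2
  · obtain ⟨e1, e2, e3, e4⟩ := h0 v hv
    exact lim_prc hG Pool.Agent.VFP.at_zero e1 e2 e3 e4 fun h => hq h.2.1

/-- `prs t 0 p a b c` does not depend on the point of the surface `s = 0`.
Case 1: `t a b c ≠ 0`. Consider (over `Om k`, with the variable `T = tt k`) the pair
`s = 0`, `p(T) = (a ⁵ + (b ⁵ + c ⁵) T ⁵) / (5 t a b c)`, and `a T`, `b T ²`, `c T ²` for the other three
coordinates: the equation is `a ⁵ T ⁵ + (b ⁵ + c ⁵) T ¹⁰ = 5 t p(T) a b c T ⁵`. At `T = 1` this is the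
given pair (the equation for `p` gives `p(1) = p`), at `T = 0` it is
`(0, a ⁵ / (5 t a b c), 0, 0, 0)`, `prs_Q`. Use `bridge1` and `lim_prc`.
Case 2: `t a b c = 0`. Then `a ⁵ + b ⁵ + c ⁵ = 0`. Consider the pair `s = 0`, `p T + (1 - T)`,
`a T`, `b T`, `c T`: at `T = 1` the given one, at `T = 0` the pair `(0, 1, 0, 0, 0)`, `prs_Q`. -/
theorem prs_zero {p a b c : k} (hG : GG5 t 0 p a b c = 0)
    (hne : ¬ (p = 0 ∧ a = 0 ∧ b = 0 ∧ c = 0)) : prs t 0 p a b c = (2 : ℚ) • oC t := by
  have hG' : a ^ 5 + b ^ 5 + c ^ 5 = 5 * t * (p * a * b * c) := by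
    have h := hG
    unfold GG5 at h
    simp only [Algebra.algebraMap_self, RingHom.id_apply] at h
    linear_combination h
  have h5 : (5 : k) ≠ 0 := by
    exact_mod_cast (Nat.cast_ne_zero.2 (by norm_num) : ((5 : ℕ) : k) ≠ 0)
  by_cases hz : t * (a * b * c) = 0
  · have hs : a ^ 5 + b ^ 5 + c ^ 5 = 0 := by
      rw [hG']
      linear_combination 5 * p * hz
    have hs' : algebraMap k (Om k) a ^ 5 + algebraMap k (Om k) b ^ 5 +
        algebraMap k (Om k) c ^ 5 = 0 := by
      rw [← map_pow, ← map_pow, ← map_pow, ← map_add, ← map_add, hs, map_zero]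
    have hz' : algebraMap k (Om k) (5 * t) * (algebraMap k (Om k) a * algebraMap k (Om k) b *
        algebraMap k (Om k) c) = 0 := by
      rw [← map_mul, ← map_mul, ← map_mul, show 5 * t * (a * b * c) = 5 * (t * (a * b * c)) by ring,
        hz, mul_zero, map_zero]
    refine dl_lim (P := algebraMap k (Om k) p * tt k + (1 - tt k))
      (A := algebraMap k (Om k) a * tt k) (B := algebraMap k (Om k) b * tt k)
      (C := algebraMap k (Om k) c * tt k) ?_ (one_ne_zero : (1 : k) ≠ 0) hne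
      (fun v hv => ⟨?_, ?_, ?_, ?_⟩) (fun v hv => ⟨?_, ?_, ?_, ?_⟩)
    · unfold GG5
      linear_combination tt k ^ 5 * hs' - (algebraMap k (Om k) p * tt k + (1 - tt k)) *
        tt k ^ 3 * hz'
    · exact dl_cg (((Place.at_const p).mul hv).add (Pool.Agent.VFP.at_one.sub hv)) (by ring)
    · exact dl_cg ((Place.at_const a).mul hv) (by ring)
    · exact dl_cg ((Place.at_const b).mul hv) (by ring)
    · exact dl_cg ((Place.at_const c).mul hv) (by ring)
    · exact dl_cg (((Place.at_const p).mul hv).add (Pool.Agent.VFP.at_one.sub hv)) (by ring)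
    · exact dl_cg ((Place.at_const a).mul hv) (by ring)
    · exact dl_cg ((Place.at_const b).mul hv) (by ring)
    · exact dl_cg ((Place.at_const c).mul hv) (by ring)
  · have ht : t ≠ 0 := fun h => hz (by rw [h, zero_mul])
    have habc : a * b * c ≠ 0 := fun h => hz (by rw [h, mul_zero])
    have ha : a ≠ 0 := fun h => habc (by rw [h, zero_mul, zero_mul])
    have hd : 5 * t * (a * b * c) ≠ 0 := mul_ne_zero (mul_ne_zero h5 ht) habc
    obtain ⟨e, he⟩ : ∃ e : k, e * (5 * t * (a * b * c)) = 1 := ⟨_, inv_mul_cancel₀ hd⟩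
    have he0 : e ≠ 0 := by
      rintro rfl
      rw [zero_mul] at he
      exact zero_ne_one he
    have he' : algebraMap k (Om k) e * (algebraMap k (Om k) (5 * t) * (algebraMap k (Om k) a *
        algebraMap k (Om k) b * algebraMap k (Om k) c)) = 1 := by
      rw [← map_mul, ← map_mul, ← map_mul, ← map_mul, he, map_one]
    refine dl_lim (P := algebraMap k (Om k) e * (algebraMap k (Om k) (a ^ 5) +
        algebraMap k (Om k) (b ^ 5 + c ^ 5) * tt k ^ 5))
      (A := algebraMap k (Om k) a * tt k) (B := algebraMap k (Om k) b * tt k ^ 2)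
      (C := algebraMap k (Om k) c * tt k ^ 2) ?_
      (mul_ne_zero he0 (pow_ne_zero 5 ha) : e * a ^ 5 ≠ 0) hne
      (fun v hv => ⟨?_, ?_, ?_, ?_⟩) (fun v hv => ⟨?_, ?_, ?_, ?_⟩)
    · unfold GG5
      rw [map_pow, map_add, map_pow, map_pow]
      linear_combination (-(tt k ^ 5) * (algebraMap k (Om k) a ^ 5 + (algebraMap k (Om k) b ^ 5 +
        algebraMap k (Om k) c ^ 5) * tt k ^ 5)) * he'
    · refine dl_cg ((Place.at_const e).mul ((Place.at_const (a ^ 5)).add
        ((Place.at_const (b ^ 5 + c ^ 5)).mul (hv.pow 5)))) ?_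
      linear_combination e * hG' + p * he
    · exact dl_cg ((Place.at_const a).mul hv) (by ring)
    · exact dl_cg ((Place.at_const b).mul (hv.pow 2)) (by ring)
    · exact dl_cg ((Place.at_const c).mul (hv.pow 2)) (by ring)
    · exact dl_cg ((Place.at_const e).mul ((Place.at_const (a ^ 5)).add
        ((Place.at_const (b ^ 5 + c ^ 5)).mul (hv.pow 5)))) (by ring)
    · exact dl_cg ((Place.at_const a).mul hv) (by ring)
    · exact dl_cg ((Place.at_const b).mul (hv.pow 2)) (by ring)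
    · exact dl_cg ((Place.at_const c).mul (hv.pow 2)) (by ring)

end Pool.Agent.DWK
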