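import Pool.Agent.DWK.Defs

/-!
# The Dwork pencil of quintic threefolds: further definitions

1. Pairs of points interchanged by the permutation of the first two coordinates: `s`, `p` are the sum
and the product of the first two coordinates.
2. Points with nonzero coordinates: `u_i = x_i ⁵`, and `∏ x_i = 1`.
3. The invariants `c = u₄`, `a = u₀ u₂`, `b = u₀ u₃`, `d = u₀ + u₁ - u₂ - u₃`.
4. Elliptic curves `η ² = ξ (ξ ² + δ ξ + Q)`.
-/

set_option autoImplicit false

noncomputable section

namespace Pool.Agent.DWK

open Pool.Agent.ZCyc Pool.Agent.TInf Pool.Agent.GT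
open Pool.Agent.VFP (Om tt)
open scoped Classical LinearAlgebra.Projectivization

variable {k : Type} [Field k] {K : Type} [Field K] [Algebra k K]

/-! ### Monomial automorphisms -/

/-- a monomial automorphism of the variety -/
structure Mon (k : Type) [Field k] where
  /-- the factors -/
  h : Fin 5 → k
  /-- the permutation -/
  π : Equiv.Perm (Fin 5)
  pow : ∀ i, h i ^ 5 = 1
  prod : ∏ i, h i = 1

/-- the image of a vector -/
def Mon.ap (g : Mon k) (x : Fin 5 → K) : Fin 5 → K := fun i => algebraMap k K (g.h i) * x (g.π i)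

/-- the point `(1 : -1 : 0 : 0 : 0)` -/
def oo (K : Type) [Field K] : Fin 5 → K := ![1, -1, 0, 0, 0]

/-- the class of the base point -/
def oC (t : k) : V t := cls t (oo k)

/-! ### Pairs -/

/-- the equation in terms of the sum `s` and the product `p` of the first two coordinates -/
def GG5 (t : k) {R : Type} [CommRing R] [Algebra k R] (s p a b c : R) : R :=
  s ^ 5 - 5 * s ^ 3 * p + 5 * s * p ^ 2 + a ^ 5 + b ^ 5 + c ^ 5 -
    algebraMap k R (5 * t) * (p * a * b * c)

/-- a zero of `T ² - s T + p` (any number if there is none) -/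
def rt2 (s p : K) : K := if h : ∃ r : K, r * (s - r) = p then h.choose else 0

/-- the two points with the sum `s` and the product `p` of the first two coordinates -/
def prc (t : k) (s p a b c : K) : Pt {dwork t} K →₀ ℚ :=
  cyc t ![rt2 s p, s - rt2 s p, a, b, c] + cyc t ![s - rt2 s p, rt2 s p, a, b, c]

/-- the class of the two points -/
def prs (t : k) (s p a b c : k) : V t := cl1 {dwork t} (prc t s p a b c)

/-! ### Points of the torus -/

/-- the fifth powers of the coordinates of a point with product one of the coordinates -/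
def Tor (t : k) (u : Fin 5 → K) : Prop := ∏ i, u i = 1 ∧ ∑ i, u i = algebraMap k K (5 * t)

/-- fifth roots with product one (any vector if there are none) -/
def rt (u : Fin 5 → K) : Fin 5 → K :=
  if h : ∃ x : Fin 5 → K, (∀ i, x i ^ 5 = u i) ∧ ∏ i, x i = 1 then h.choose else 0

/-- the difference of the point and the base point -/
def uz (t : k) (u : Fin 5 → K) : Pt {dwork t} K →₀ ℚ :=
  if Tor t u then cyc t (rt u) - cyc t (oo K) else 0

/-- the class of the difference -/
def nu (t : k) (u : Fin 5 → k) : V t := cl1 {dwork t} (uz t u)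

/-- the invariants of the point -/
def Inv (c a b d : K) (u : Fin 5 → K) : Prop :=
  u 4 = c ∧ u 0 * u 2 = a ∧ u 0 * u 3 = b ∧ u 0 + u 1 - (u 2 + u 3) = d

/-- `u₀ + u₁ + u₂ + u₃` -/
def eK (t : k) (c : K) : K := algebraMap k K (5 * t) - c

/-- the relation between the invariants -/
def Rel (t : k) (c a b d : K) : Prop :=
  d ^ 2 = eK t c ^ 2 - 4 * (a + b + 1 / (c * a) + 1 / (c * b))

/-- the cycle of the point with the given invariants (zero if there is none) -/
def zd (t : k) (c a b d : K) : Pt {dwork t} K →₀ ℚ :=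
  if h : ∃ u : Fin 5 → K, Tor t u ∧ Inv c a b d u then uz t h.choose else 0

/-- its class -/
def hd (t : k) (c a b d : k) : V t := cl1 {dwork t} (zd t c a b d)

/-! ### Elliptic curves -/

/-- `δ` -/
def dl (t : k) (c : K) : K := c * eK t c

/-- the radicand of `w` -/
def gc (t : k) (c : K) : K := c * (c * eK t c ^ 4 - 256)

/-- `Q` -/
def Qc (t : k) (c w : K) : K := (dl t c ^ 2 + c * w) / 8

/-- the coefficient `α` -/
def al (t : k) (c w : K) : K := dl t c ^ 2 / 9 - Qc t c w / 3

/-- the coefficient `B` -/
def be (t : k) (c w : K) : K := 2 * dl t c ^ 3 / 27 - dl t c * Qc t c w / 3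

/-- a square root of `-2` -/
def r2 (k : Type) [Field k] : k := if h : ∃ r : k, r ^ 2 = -2 then h.choose else 0

/-- the invariant `a` of the pair of points -/
def fa (t : k) (c w x y x' y' : K) : K := Qc t c (-w) / (2 * c ^ 2) * (x ^ 2 * y' ^ 2) / (x' ^ 2 * y ^ 2)

/-- the invariant `b` -/
def fb (c x x' : K) : K := x * x' / (2 * c ^ 2)

/-- the invariant `d` -/
def fd (t : k) (c w x y x' y' : K) : K :=
  algebraMap k K (r2 k) * (x ^ 2 * x' ^ 2 / c + eK t c / 2 *
    (x * x' * (x + x') - Qc t c w * x' - Qc t c (-w) * x) - 4 * c ^ 2) / (y * y')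

/-- The cycle of a pair of points of the curves for `w` and `-w`. The points are given by the
coordinates `(ξ + δ / 3, η)`. -/
def fz (t : k) (c w : K) : EPt K → EPt K → (Pt {dwork t} K →₀ ℚ)
  | some (x, y), some (x', y') =>
    if y ≠ 0 ∧ y' ≠ 0 ∧ EOn (al t c w) (be t c w) (some (x, y)) ∧
        EOn (al t c (-w)) (be t c (-w)) (some (x', y')) then
      zd t c (fa t c w (x - dl t c / 3) y (x' - dl t c / 3) y')
        (fb c (x - dl t c / 3) (x' - dl t c / 3))
        (fd t c w (x - dl t c / 3) y (x' - dl t c / 3) y') -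
      zd t c (fa t c w (x - dl t c / 3) y (x' - dl t c / 3) y')
        (fb c (x - dl t c / 3) (x' - dl t c / 3))
        (-fd t c w (x - dl t c / 3) y (x' - dl t c / 3) y')
    else 0
  | _, _ => 0

/-- the class of a pair of points -/
def ff (t : k) (c w : k) (p p' : EPt k) : V t := cl1 {dwork t} (fz t c w p p')

end Pool.Agent.DWK
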