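import Pool.Agent.DWK.Spec1

/-!
# Identities for the elliptic curves
-/

set_option autoImplicit false

noncomputable section

namespace Pool.Agent.DWK

open Pool.Agent.ZCyc Pool.Agent.TInf Pool.Agent.GT
open Pool.Agent.VFP (Om tt)
open scoped Classical LinearAlgebra.Projectivization

variable {k : Type} [Field k] {K : Type} [Field K] [Algebra k K] [CharZero K] {t : k}

omit [CharZero K] in
theorem Qc_add [CharZero K] (c w : K) : 4 * (Qc t c w + Qc t c (-w)) = dl t c ^ 2 := by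
  unfold Qc
  ring

theorem Qc_mul {c w : K} (hw : w ^ 2 = gc t c) : Qc t c w * Qc t c (-w) = 4 * c ^ 3 := by
  unfold gc at hw
  unfold Qc dl
  linear_combination (-c ^ 2 / 64) * hw

theorem Qc_ne {c w : K} (hw : w ^ 2 = gc t c) (hc : c ≠ 0) : Qc t c w ≠ 0 := by
  intro h
  have h1 := Qc_mul hw
  rw [h, zero_mul] at h1
  exact mul_ne_zero (by norm_num) (pow_ne_zero 3 hc) h1.symm

/-- the equation in the coordinate `ξ = x - δ / 3` -/
theorem eon_iff {c w x y : K} : EOn (al t c w) (be t c w) (some (x, y)) ↔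
    y ^ 2 = (x - dl t c / 3) * ((x - dl t c / 3) ^ 2 + dl t c * (x - dl t c / 3) + Qc t c w) := by
  have h : (x - dl t c / 3) * ((x - dl t c / 3) ^ 2 + dl t c * (x - dl t c / 3) + Qc t c w) =
      x ^ 3 - 3 * al t c w * x + be t c w := by
    unfold al be
    ring
  rw [h]
  exact Iff.rfl

theorem r2_sq [IsAlgClosed k] : r2 k ^ 2 = -2 := by
  have h : ∃ r : k, r ^ 2 = -2 := IsAlgClosed.exists_pow_nat_eq (-2) two_pos
  unfold r2
  rw [dif_pos h]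
  exact h.choose_spec

/-- `Q Q' = 4 c ³` -/
theorem fa_inv {c w x y x' y' : K} (hw : w ^ 2 = gc t c) (hc : c ≠ 0) (hx : x ≠ 0)
    (hx' : x' ≠ 0) (hy : y ≠ 0) (hy' : y' ≠ 0) :
    fa t c (-w) x' y' x y = 1 / (c * fa t c w x y x' y') := by
  have h1 := Qc_mul hw
  have hQ := Qc_ne hw hc
  have hR : Qc t c (-w) ≠ 0 := Qc_ne (by rw [neg_sq]; exact hw) hc
  unfold fa
  rw [neg_neg]
  generalize Qc t c w = Q at *
  generalize Qc t c (-w) = R at *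
  have h2 : (2 : K) ≠ 0 := two_ne_zero
  rw [eq_div_iff (by simp [hc, hR, hx, hx', hy, hy'])]
  field_simp
  linear_combination h1

theorem fb_symm (c x x' : K) : fb c x' x = fb c x x' := by
  unfold fb
  ring

theorem fd_symm (c w x y x' y' : K) : fd t c (-w) x' y' x y = fd t c w x y x' y' := by
  unfold fd
  rw [neg_neg]
  ring

private theorem rel_cert (D Q R X Y : K) :
    D ^ 2 * X * Y * (X ^ 2 + D * X + Q) * (Y ^ 2 + D * Y + R) -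
      2 * (R * X ^ 2 * (Y ^ 2 + D * Y + R) ^ 2 + Q * Y ^ 2 * (X ^ 2 + D * X + Q) ^ 2 +
        X ^ 2 * Y ^ 2 * (X ^ 2 + D * X + Q) * (Y ^ 2 + D * Y + R)) -
      2 * (Q * R) * (X ^ 2 + D * X + Q) * (Y ^ 2 + D * Y + R) +
      2 * (X ^ 2 * Y ^ 2 + D / 2 * (X * Y * (X + Y) - Q * Y - R * X) - Q * R) ^ 2 =
    (D ^ 2 - 4 * (Q + R)) * (D * X ^ 2 * Y ^ 2 * (X + Y) + D ^ 2 * X ^ 2 * Y ^ 2 +
      X ^ 2 * Y ^ 4 / 2 + X ^ 4 * Y ^ 2 / 2 + D * Q * X * Y ^ 2 + D * R * X ^ 2 * Y +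
      (Q + R) * X ^ 2 * Y ^ 2 + Q ^ 2 * Y ^ 2 / 2 + R ^ 2 * X ^ 2 / 2) := by
  ring

private theorem rel_aux {c e D Q R X Y y y' r : K} (hc : c ≠ 0) (hD : D = c * e)
    (h1 : Q * R = 4 * c ^ 3) (h2 : 4 * (Q + R) = D ^ 2) (hr : r ^ 2 = -2) (hy : y ≠ 0)
    (hy' : y' ≠ 0) (h : y ^ 2 = X * (X ^ 2 + D * X + Q))
    (h' : y' ^ 2 = Y * (Y ^ 2 + D * Y + R)) :
    (r * (X ^ 2 * Y ^ 2 / c + e / 2 * (X * Y * (X + Y) - Q * Y - R * X) - 4 * c ^ 2) /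
      (y * y')) ^ 2 = e ^ 2 - 4 * (R / (2 * c ^ 2) * (X ^ 2 * y' ^ 2) / (Y ^ 2 * y ^ 2) +
      X * Y / (2 * c ^ 2) + 1 / (c * (R / (2 * c ^ 2) * (X ^ 2 * y' ^ 2) / (Y ^ 2 * y ^ 2))) +
      1 / (c * (X * Y / (2 * c ^ 2)))) := by
  have k2 : (2 : K) ≠ 0 := two_ne_zero
  have hX : X ≠ 0 := by
    rintro rfl
    rw [zero_mul] at h
    exact pow_ne_zero 2 hy h
  have hY : Y ≠ 0 := by
    rintro rfl
    rw [zero_mul] at h'
    exact pow_ne_zero 2 hy' h'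
  have hQR : Q * R ≠ 0 := by
    rw [h1]
    exact mul_ne_zero (by norm_num) (pow_ne_zero 3 hc)
  have hQ : Q ≠ 0 := left_ne_zero_of_mul hQR
  have hR : R ≠ 0 := right_ne_zero_of_mul hQR
  have hcert := rel_cert D Q R X Y
  rw [← h2, sub_self, zero_mul] at hcert
  obtain ⟨f, hf⟩ : ∃ f, f = X ^ 2 + D * X + Q := ⟨_, rfl⟩
  obtain ⟨g, hg⟩ : ∃ g, g = Y ^ 2 + D * Y + R := ⟨_, rfl⟩
  rw [← hf, ← hg, h2] at hcert
  rw [← hf] at h
  rw [← hg] at h'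
  have hf0 : f ≠ 0 := by
    rintro rfl
    rw [mul_zero] at h
    exact pow_ne_zero 2 hy h
  have hg0 : g ≠ 0 := by
    rintro rfl
    rw [mul_zero] at h'
    exact pow_ne_zero 2 hy' h'
  have e1 : R / (2 * c ^ 2) * (X ^ 2 * y' ^ 2) / (Y ^ 2 * y ^ 2) =
      R * X * g / (2 * c ^ 2 * Y * f) := by
    rw [h, h']
    field_simp
  have e2 : 1 / (c * (R * X * g / (2 * c ^ 2 * Y * f))) = Q * Y * f / (2 * c ^ 2 * X * g) := by
    rw [div_eq_div_iff (by simp [hc, hR, hX, hY, hf0, hg0]) (by simp [hc, hX, hg0])]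
    field_simp
    linear_combination (-1 : K) * h1
  have e3 : 1 / (c * (X * Y / (2 * c ^ 2))) = 2 * c / (X * Y) := by
    field_simp
  have e4 : (r * (X ^ 2 * Y ^ 2 / c + e / 2 * (X * Y * (X + Y) - Q * Y - R * X) - 4 * c ^ 2) /
      (y * y')) ^ 2 = -2 * (X ^ 2 * Y ^ 2 + D / 2 * (X * Y * (X + Y) - Q * Y - R * X) -
        Q * R) ^ 2 / (c ^ 2 * (X * f * (Y * g))) := by
    rw [div_pow, mul_pow, hr, mul_pow, h, h', h1, hD]
    have e5 : X ^ 2 * Y ^ 2 / c + e / 2 * (X * Y * (X + Y) - Q * Y - R * X) - 4 * c ^ 2 =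
        (X ^ 2 * Y ^ 2 + c * e / 2 * (X * Y * (X + Y) - Q * Y - R * X) - 4 * c ^ 3) / c := by
      field_simp
    rw [e5, div_pow]
    field_simp
  rw [e4, e1, e2, e3]
  have he : e ^ 2 = D ^ 2 / c ^ 2 := by
    rw [hD]
    field_simp
  have h3 : 2 * c / (X * Y) = Q * R / (2 * c ^ 2 * (X * Y)) := by
    rw [h1]
    field_simp
    ring
  rw [he, h3]
  field_simp
  linear_combination (-2 : K) * hcert

/-- Let `Q = Qc t c w`, `R = Qc t c (-w)`, `D = dl t c`, `X = x`, `Y = x'`, `f = X ² + D X + Q`,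
`h = Y ² + D Y + R`, so `y ² = X f`, `y' ² = Y h`, `Q R = 4 c ³` and `D ² = 4 (Q + R)`. The relation,
multiplied by `c ² X Y f h`, is the identity
`D ² X Y f h - 2 (R X ² h ² + Q Y ² f ² + X ² Y ² f h) - 2 Q R f h +
2 (X ² Y ² + (D / 2) (X Y (X + Y) - Q Y - R X) - Q R) ² = 0`, and the left side is equal to
`(D ² - 4 (Q + R)) (D X ² Y ² (X + Y) + D ² X ² Y ² + X ² Y ⁴ / 2 + X ⁴ Y ² / 2 + D Q X Y ² +
D R X ² Y + (Q + R) X ² Y ² + Q ² Y ² / 2 + R ² X ² / 2)`. (Here `1 / (c a) = Q Y ² y ² / (2 c ² X ² y' ²)`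
and `1 / (c b) = 2 c / (X Y)`.) -/
theorem rel_f [IsAlgClosed k] {c w x y x' y' : K} (hw : w ^ 2 = gc t c) (hc : c ≠ 0)
    (hy : y ≠ 0) (hy' : y' ≠ 0) (h : y ^ 2 = x * (x ^ 2 + dl t c * x + Qc t c w))
    (h' : y' ^ 2 = x' * (x' ^ 2 + dl t c * x' + Qc t c (-w))) :
    Rel t c (fa t c w x y x' y') (fb c x x') (fd t c w x y x' y') := by
  have hr : (algebraMap k K (r2 k)) ^ 2 = -2 := by
    rw [← map_pow, r2_sq, map_neg, map_ofNat]
  exact rel_aux hc rfl (Qc_mul hw) (Qc_add c w) hr hy hy' h h'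

end Pool.Agent.DWK
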