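import Pool.Agent.DWK.EllA

/-!
# The degenerate pairs of points lie over the special curves
-/

set_option autoImplicit false

noncomputable section

namespace Pool.Agent.DWK

open Pool.Agent.ZCyc Pool.Agent.TInf Pool.Agent.GT
open Pool.Agent.VFP (Om tt)
open scoped Classical LinearAlgebra.Projectivization

variable {k : Type} [Field k] [CharZero k] {t : k}

private theorem key {c w : k} (hw : w ^ 2 = gc t c) :
    eK t c ^ 4 * (c * (Qc t c w * Qc t c (-w))) = 64 * (Qc t c w + Qc t c (-w)) ^ 2 := by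
  have hA := Qc_add (t := t) c w
  have hM := Qc_mul (t := t) hw
  have hd : dl t c = c * eK t c := rfl
  rw [hd] at hA
  linear_combination eK t c ^ 4 * c * hM -
    4 * ((c * eK t c) ^ 2 + 4 * (Qc t c w + Qc t c (-w))) * hA

/-- `κ = Q' / Q`: `e ⁴ c Q Q' = 4 e ⁴ c ⁴ = 4 δ ⁴ = 64 (Q + Q') ²` (`Qc_add`, `Qc_mul`) -/
theorem spc_one {c w a b : k} (hw : w ^ 2 = gc t c) (hc : c ≠ 0)
    (h : Qc t c w * a = Qc t c (-w) * b) : Spc t c a b := by
  have hQ := Qc_ne (t := t) hw hc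
  have hw' : (-w) ^ 2 = gc t c := by rw [neg_sq, hw]
  have hR := Qc_ne (t := t) hw' hc
  refine Or.inl ⟨Qc t c (-w) / Qc t c w, div_ne_zero hR hQ, ?_, ?_⟩
  · rw [div_mul_eq_mul_div, eq_div_iff hQ, mul_comm a, h]
  · have h1 := key (t := t) hw
    apply mul_left_cancel₀ (pow_ne_zero 2 hQ)
    have h2 : Qc t c w * (Qc t c (-w) / Qc t c w) = Qc t c (-w) := mul_div_cancel₀ _ hQ
    generalize Qc t c (-w) / Qc t c w = κ at h2 ⊢
    linear_combination (eK t c ^ 4 * c * Qc t c w -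
      64 * (Qc t c w * κ + Qc t c (-w) + 2 * Qc t c w)) * h2 + h1

/-- `64 (a b c + 1) ² = 64 (Q' ² / (4 c ³) + 1) ² = 64 (Q' / Q + 1) ² = 4 δ ⁴ / Q ² = 4 c ⁴ e ⁴ / Q ²`, and
`e ⁴ a b c ² = e ⁴ Q' ² / (4 c ²)`, and `Q ² Q' ² = 16 c ⁶` -/
theorem spc_two {c w a b : k} (hw : w ^ 2 = gc t c) (hc : c ≠ 0)
    (h : 4 * c ^ 4 * (a * b) = Qc t c (-w) ^ 2) : Spc t c a b := by
  have hQ := Qc_ne (t := t) hw hc
  have hM := Qc_mul (t := t) hw
  have h1 := key (t := t) hw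
  have h2 : Qc t c w * (a * b * c) = Qc t c (-w) := by
    have h4 : (4 : k) ≠ 0 := by norm_num
    apply mul_left_cancel₀ (mul_ne_zero h4 (pow_ne_zero 3 hc))
    linear_combination Qc t c w * h + Qc t c (-w) * hM
  refine Or.inr (Or.inl ?_)
  apply mul_left_cancel₀ (pow_ne_zero 2 hQ)
  linear_combination (eK t c ^ 4 * c * Qc t c w -
    64 * (Qc t c w * (a * b * c) + Qc t c (-w) + 2 * Qc t c w)) * h2 + h1

/-- Let `r' = x + δ / 2`, `r = x' + δ / 2`, so `r' ² = Q'`, `r ² = Q` (`δ ² - 4 Q = 4 Q'`). Then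
`1 / x = (-δ / 2 - r') / Q`, `1 / x' = (-δ / 2 - r) / Q'`, so `4 b = 2 (δ / 2 - r') (δ / 2 - r) / c ²` and
`4 / (c b) = 8 c (δ / 2 + r') (δ / 2 + r) / (Q Q') = 2 (δ / 2 + r') (δ / 2 + r) / c ²`, the sum is
`(4 / c ²) (δ ² / 4 + r r') = e ² + 4 r r' / c ²`, and `(4 r r' / c ²) ² = 16 Q Q' / c ⁴ = 64 / c`. -/
theorem spc_three {c w a x x' : k} (hw : w ^ 2 = gc t c) (hc : c ≠ 0)
    (h : x ^ 2 + dl t c * x + Qc t c w = 0) (h' : x' ^ 2 + dl t c * x' + Qc t c (-w) = 0) :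
    Spc t c a (fb c x x') := by
  have hQ := Qc_ne (t := t) hw hc
  have hw' : (-w) ^ 2 = gc t c := by rw [neg_sq, hw]
  have hR := Qc_ne (t := t) hw' hc
  have hA := Qc_add (t := t) c w
  have hM := Qc_mul (t := t) hw
  have hx : x ≠ 0 := by
    rintro rfl
    exact hQ (by linear_combination h)
  have hx' : x' ≠ 0 := by
    rintro rfl
    exact hR (by linear_combination h')
  have hd : dl t c = c * eK t c := rfl
  have h3 : x * x' * ((x + dl t c) * (x' + dl t c)) = 4 * c ^ 3 := by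
    linear_combination (x' ^ 2 + dl t c * x') * h - Qc t c w * h' + hM
  have h4 : 4 / (c * fb c x x') = 2 * ((x + dl t c) * (x' + dl t c)) / c ^ 2 := by
    unfold fb
    have h5 : c * (x * x' / (2 * c ^ 2)) ≠ 0 := mul_ne_zero hc
      (div_ne_zero (mul_ne_zero hx hx') (mul_ne_zero two_ne_zero (pow_ne_zero 2 hc)))
    rw [div_eq_div_iff h5 (pow_ne_zero 2 hc)]
    field_simp
    linear_combination (-1) * h3
  have h5 : eK t c ^ 2 - 4 * fb c x x' - 4 / (c * fb c x x') =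
      -((2 * x + dl t c) * (2 * x' + dl t c)) / c ^ 2 := by
    rw [h4, hd]
    unfold fb
    field_simp
    ring
  refine Or.inr (Or.inr ?_)
  rw [h5, div_pow, div_eq_div_iff (pow_ne_zero 2 (pow_ne_zero 2 hc)) hc]
  have h6 : (2 * x + dl t c) ^ 2 = 4 * Qc t c (-w) := by linear_combination 4 * h - hA
  have h7 : (2 * x' + dl t c) ^ 2 = 4 * Qc t c w := by linear_combination 4 * h' - hA
  linear_combination c * (2 * x' + dl t c) ^ 2 * h6 + 4 * c * Qc t c (-w) * h7 + 16 * c * hM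

end Pool.Agent.DWK
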