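import Pool.Agent.DWK.InvA

/-!
# The involution a -> 1 / (c a)
-/

set_option autoImplicit false

noncomputable section

namespace Pool.Agent.DWK

open Pool.Agent.ZCyc Pool.Agent.TInf Pool.Agent.GT
open Pool.Agent.VFP (Om tt)
open scoped Classical LinearAlgebra.Projectivization

variable {k : Type} [Field k] [IsAlgClosed k] [CharZero k] {t : k}

/-- the even permutation -/
private def ipi : Equiv.Perm (Fin 5) := Equiv.swap 0 3 * Equiv.swap 1 2

private theorem ipi_sign : Equiv.Perm.sign ipi = 1 := by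
  unfold ipi
  rw [Equiv.Perm.sign_mul, Equiv.Perm.sign_swap (by decide), Equiv.Perm.sign_swap (by decide)]
  rfl

omit [IsAlgClosed k] [CharZero k] in
private theorem ipi_tor {u : Fin 5 → k} (h : Tor t u) : Tor t (u ∘ ipi) := by
  obtain ⟨h1, h2⟩ := h
  refine ⟨?_, ?_⟩
  · rw [← h1]
    exact Equiv.prod_comp ipi u
  · rw [← h2]
    exact Equiv.sum_comp ipi u

omit [IsAlgClosed k] in
private theorem ipi_inv {c a b d : k} {u : Fin 5 → k} (hu : Tor t u) (h : Inv c a b d u) :
    Inv c (1 / (c * a)) b (-d) (u ∘ ipi) := by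
  obtain ⟨nc, na, -, -⟩ := rel_of_inv hu h
  obtain ⟨h3, h4, h5, h6⟩ := h
  have h1 := hu.1
  rw [Fin.prod_univ_five] at h1
  have e0 : ipi 0 = 3 := by decide
  have e1 : ipi 1 = 2 := by decide
  have e2 : ipi 2 = 1 := by decide
  have e3 : ipi 3 = 0 := by decide
  have e4 : ipi 4 = 4 := by decide
  refine ⟨?_, ?_, ?_, ?_⟩
  · rw [Function.comp_apply, e4, h3]
  · rw [Function.comp_apply, Function.comp_apply, e0, e2, eq_div_iff (mul_ne_zero nc na), ← h4, ← h3]
    linear_combination h1
  · rw [Function.comp_apply, Function.comp_apply, e0, e3, ← h5]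
    ring
  · rw [Function.comp_apply, Function.comp_apply, Function.comp_apply, Function.comp_apply, e0, e1,
      e2, e3, ← h6]
    ring

/-- Let `π` be the even permutation `0 ↔ 3`, `1 ↔ 2`. Then `Tor t u` iff `Tor t (u ∘ π)`, and if
`Tor t u` then `Inv c a b d u` iff `Inv c (1 / (c a)) b (-d) (u ∘ π)`: `u₃ u₁ = 1 / (u₀ u₂ u₄)`.
So there is a point with the invariants on the left iff there is one for the right side
(`hd_off`), and `nu_perm`, `hd_eq`. -/
theorem hd_inv {c a b d : k} (he : eK t c ≠ 0) :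
    hd t c (1 / (c * a)) b (-d) = hd t c a b d := by
  by_cases h : ∃ u : Fin 5 → k, Tor t u ∧ Inv c a b d u
  · obtain ⟨u, hu, hi⟩ := h
    rw [hd_eq he hu hi, hd_eq he (ipi_tor hu) (ipi_inv hu hi), nu_perm, ipi_sign]
    simp
  · have h' : ¬ ∃ u : Fin 5 → k, Tor t u ∧ Inv c (1 / (c * a)) b (-d) u := by
      rintro ⟨u, hu, hi⟩
      apply h
      obtain ⟨nc, na, -, -⟩ := rel_of_inv hu hi
      have na' : a ≠ 0 := by
        rintro rfl
        simp at na
      have h2 := ipi_inv hu hi
      have e : 1 / (c * (1 / (c * a))) = a := by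
        field_simp
      rw [e, neg_neg] at h2
      exact ⟨u ∘ ipi, ipi_tor hu, h2⟩
    rw [hd_off h, hd_off h']

end Pool.Agent.DWK
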