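import Pool.Agent.DWK.EllA
import Pool.Agent.DWK.R7

/-!
# Symmetries of the class of a pair of points
-/

set_option autoImplicit false

noncomputable section

namespace Pool.Agent.DWK

open Pool.Agent.ZCyc Pool.Agent.TInf Pool.Agent.GT
open Pool.Agent.VFP (Om tt)
open scoped Classical LinearAlgebra.Projectivization

variable {k : Type} [Field k] [IsAlgClosed k] [CharZero k] {t : k}

theorem ff_none_left (c w : k) (p : EPt k) : ff t c w none p = 0 := by
  have h : fz t c w none p = 0 := by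
    rcases p with _ | ⟨x, y⟩ <;> rfl
  unfold ff
  rw [h, map_zero]

theorem ff_none_right (c w : k) (p : EPt k) : ff t c w p none = 0 := by
  have h : fz t c w p none = 0 := by
    rcases p with _ | ⟨x, y⟩ <;> rfl
  unfold ff
  rw [h, map_zero]

private theorem ff_neg_if {c w x y x' y' : k} (h : ¬ (y ≠ 0 ∧ y' ≠ 0 ∧
    EOn (al t c w) (be t c w) (some (x, y)) ∧
    EOn (al t c (-w)) (be t c (-w)) (some (x', y')))) :
    ff t c w (some (x, y)) (some (x', y')) = 0 := by
  have h1 : fz t c w (some (x, y)) (some (x', y')) = 0 := if_neg h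
  unfold ff
  rw [h1, map_zero]

/-- the class is zero if one of the points is not on its curve -/
theorem ff_off {c w : k} {p p' : EPt k}
    (h : ¬ (EOn (al t c w) (be t c w) p ∧ EOn (al t c (-w)) (be t c (-w)) p')) :
    ff t c w p p' = 0 := by
  rcases p with _ | ⟨x, y⟩
  · exact ff_none_left _ _ _
  · rcases p' with _ | ⟨x', y'⟩
    · exact ff_none_right _ _ _
    · exact ff_neg_if fun h' => h ⟨h'.2.2.1, h'.2.2.2⟩

/-- the class is zero if one of the points has second coordinate zero -/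
theorem ff_two {c w x y x' y' : k} (h : y = 0 ∨ y' = 0) :
    ff t c w (some (x, y)) (some (x', y')) = 0 :=
  ff_neg_if fun h' => h.elim h'.1 h'.2.1

/-- the class of two points on the curves -/
theorem ff_on {c w x y x' y' : k} (hy : y ≠ 0) (hy' : y' ≠ 0)
    (h : EOn (al t c w) (be t c w) (some (x, y)))
    (h' : EOn (al t c (-w)) (be t c (-w)) (some (x', y'))) :
    ff t c w (some (x, y)) (some (x', y')) =
      hd t c (fa t c w (x - dl t c / 3) y (x' - dl t c / 3) y')
        (fb c (x - dl t c / 3) (x' - dl t c / 3))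
        (fd t c w (x - dl t c / 3) y (x' - dl t c / 3) y') -
      hd t c (fa t c w (x - dl t c / 3) y (x' - dl t c / 3) y')
        (fb c (x - dl t c / 3) (x' - dl t c / 3))
        (-fd t c w (x - dl t c / 3) y (x' - dl t c / 3) y') := by
  have h1 : fz t c w (some (x, y)) (some (x', y')) =
      zd t c (fa t c w (x - dl t c / 3) y (x' - dl t c / 3) y')
        (fb c (x - dl t c / 3) (x' - dl t c / 3))
        (fd t c w (x - dl t c / 3) y (x' - dl t c / 3) y') -
      zd t c (fa t c w (x - dl t c / 3) y (x' - dl t c / 3) y')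
        (fb c (x - dl t c / 3) (x' - dl t c / 3))
        (-fd t c w (x - dl t c / 3) y (x' - dl t c / 3) y') := if_pos ⟨hy, hy', h, h'⟩
  unfold ff hd
  rw [h1, map_sub]

private theorem fa_negl (c w x y x' y' : k) : fa t c w x (-y) x' y' = fa t c w x y x' y' := by
  unfold fa
  rw [neg_sq]

private theorem fa_negr (c w x y x' y' : k) : fa t c w x y x' (-y') = fa t c w x y x' y' := by
  unfold fa
  rw [neg_sq]

private theorem fd_negl (c w x y x' y' : k) : fd t c w x (-y) x' y' = -fd t c w x y x' y' := by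
  unfold fd
  rw [neg_mul, div_neg]

private theorem fd_negr (c w x y x' y' : k) : fd t c w x y x' (-y') = -fd t c w x y x' y' := by
  unfold fd
  rw [mul_neg, div_neg]

private theorem eon_neg {α B x y : k} : EOn α B (some (x, -y)) ↔ EOn α B (some (x, y)) := by
  change (-y) ^ 2 = _ ↔ y ^ 2 = _
  rw [neg_sq]

/-- `fd` changes the sign, `fa` and `fb` do not change -/
theorem ff_neg_left (c w x y : k) (p' : EPt k) :
    ff t c w (some (x, -y)) p' = -ff t c w (some (x, y)) p' := by
  rcases p' with _ | ⟨x', y'⟩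
  · rw [ff_none_right, ff_none_right, neg_zero]
  · by_cases h : y ≠ 0 ∧ y' ≠ 0 ∧ EOn (al t c w) (be t c w) (some (x, y)) ∧
        EOn (al t c (-w)) (be t c (-w)) (some (x', y'))
    · obtain ⟨hy, hy', h1, h2⟩ := h
      rw [ff_on hy hy' h1 h2, ff_on (neg_ne_zero.2 hy) hy' (eon_neg.2 h1) h2, fa_negl, fd_negl,
        neg_neg, neg_sub]
    · rw [ff_neg_if h, ff_neg_if, neg_zero]
      rintro ⟨hy, hy', h1, h2⟩
      exact h ⟨neg_ne_zero.1 hy, hy', eon_neg.1 h1, h2⟩

theorem ff_neg_right (c w x y : k) (p : EPt k) :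
    ff t c w p (some (x, -y)) = -ff t c w p (some (x, y)) := by
  rcases p with _ | ⟨x', y'⟩
  · rw [ff_none_left, ff_none_left, neg_zero]
  · by_cases h : y' ≠ 0 ∧ y ≠ 0 ∧ EOn (al t c w) (be t c w) (some (x', y')) ∧
        EOn (al t c (-w)) (be t c (-w)) (some (x, y))
    · obtain ⟨hy', hy, h1, h2⟩ := h
      rw [ff_on hy' hy h1 h2, ff_on hy' (neg_ne_zero.2 hy) h1 (eon_neg.2 h2), fa_negr, fd_negr,
        neg_neg, neg_sub]
    · rw [ff_neg_if h, ff_neg_if, neg_zero]
      rintro ⟨hy', hy, h1, h2⟩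
      exact h ⟨hy', neg_ne_zero.1 hy, h1, eon_neg.1 h2⟩

/-- `fa_inv`, `fb_symm`, `fd_symm`, and `hd_inv` for `d` and `-d` (by `ff_two`, `ff_off` one may
suppose
that the points are on the curves and `y, y' ≠ 0`, and then `x - δ / 3 ≠ 0`, `x' - δ / 3 ≠ 0` by
`eon_iff`) -/
theorem ff_swap {c w : k} (hw : w ^ 2 = gc t c) (hc : c ≠ 0) (he : eK t c ≠ 0) (p p' : EPt k) :
    ff t c (-w) p' p = -ff t c w p p' := by
  rcases p with _ | ⟨x, y⟩
  · rw [ff_none_left, ff_none_right, neg_zero]
  rcases p' with _ | ⟨x', y'⟩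
  · rw [ff_none_left, ff_none_right, neg_zero]
  by_cases hyy : y = 0 ∨ y' = 0
  · rw [ff_two hyy, ff_two hyy.symm, neg_zero]
  rw [not_or] at hyy
  obtain ⟨hy, hy'⟩ := hyy
  by_cases h : EOn (al t c w) (be t c w) (some (x, y)) ∧
      EOn (al t c (-w)) (be t c (-w)) (some (x', y'))
  · obtain ⟨h1, h2⟩ := h
    have h3 := eon_iff.1 h1
    have h4 := eon_iff.1 h2
    have hX : x - dl t c / 3 ≠ 0 := by
      intro h0
      rw [h0, zero_mul] at h3
      exact hy (pow_eq_zero_iff two_ne_zero |>.1 h3)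
    have hX' : x' - dl t c / 3 ≠ 0 := by
      intro h0
      rw [h0, zero_mul] at h4
      exact hy' (pow_eq_zero_iff two_ne_zero |>.1 h4)
    have h1' : EOn (al t c (- -w)) (be t c (- -w)) (some (x, y)) := by
      rw [neg_neg]
      exact h1
    have e1 : ∀ a b d : k, hd t c (1 / (c * a)) b d = hd t c a b (-d) := by
      intro a b d
      have h5 := hd_inv (t := t) (c := c) (a := a) (b := b) (d := -d) he
      rw [neg_neg] at h5
      exact h5
    rw [ff_on hy hy' h1 h2, ff_on hy' hy h2 h1', fa_inv hw hc hX hX' hy hy', fb_symm, fd_symm,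
      e1, e1, neg_neg, neg_sub]
  · rw [ff_off h, ff_off, neg_zero]
    rintro ⟨h1, h2⟩
    rw [neg_neg] at h2
    exact h ⟨h2, h1⟩

end Pool.Agent.DWK
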