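import Pool.Agent.DWK.FLimB
import Pool.Agent.DWK.EllS

/-!
# Limits of pairs of points: the first point tends to infinity
-/

set_option autoImplicit false

noncomputable section

namespace Pool.Agent.DWK

open Pool.Agent.ZCyc Pool.Agent.TInf Pool.Agent.GT
open Pool.Agent.VFP (Om tt)
open scoped Classical LinearAlgebra.Projectivization

variable {k : Type} [Field k] [IsAlgClosed k] [CharZero k] {t : k}

omit [IsAlgClosed k] in
private theorem lim_key {C W x Y x' Y' : Om k} (hC : C ≠ 0) (hY : Y ≠ 0) (hx : x ≠ 0)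
    (hx' : x' ≠ 0) (h1 : Y ^ 2 = x * (x ^ 2 + dl t C * x + Qc t C W))
    (h2 : Y' ^ 2 = x' * (x' ^ 2 + dl t C * x' + Qc t C (-W))) :
    fa t C W x Y x' Y' * fb C x x' * ((4 : Om k) * C ^ 4) *
      (1 + dl t C * x⁻¹ + Qc t C W * x⁻¹ ^ 2) =
    Qc t C (-W) * (x' ^ 2 + dl t C * x' + Qc t C (-W)) := by
  have hf : x ^ 2 + dl t C * x + Qc t C W ≠ 0 := by
    intro h3
    apply hY
    rw [h3, mul_zero] at h1
    exact pow_eq_zero_iff (two_ne_zero) |>.1 h1
  unfold fa fb
  rw [h1, h2]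
  have h4 : 1 + dl t C * x⁻¹ + Qc t C W * x⁻¹ ^ 2 =
      (x ^ 2 + dl t C * x + Qc t C W) / x ^ 2 := by
    field_simp
  rw [h4]
  generalize Qc t C (-W) = Q'
  generalize x ^ 2 + dl t C * x + Qc t C W = f at *
  generalize x' ^ 2 + dl t C * x' + Q' = h at *
  field_simp
  ring

/-- `lim_fz_sp`. Let `x = X - δ / 3`, `x' = X' - δ / 3`, where `x` is not in the valuation ring. The
value of `fb = x x' / (2 C ²)` is `b`, so `x'` has the value `0`. We have (with
`y ² = x (x ² + δ x + Q)`, `y' ² = x' (x' ² + δ x' + Q')`)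
`fa fb = (Q' / (4 C ⁴)) (x' ² + δ x' + Q') / (1 + δ / x + Q / x ²)`, with the value `Q'(c) ² / (4 c ⁴)`; so
`4 c ⁴ a b = Q' ²`, `spc_two`. (Here `w` is the value of `W`, `w ² = gc t c`.) -/
theorem lim_fz_inf_left {v : Place k (Om k)} {C W X Y X' Y' : Om k} {c w : k}
    (hC : v.At C c) (hW : v.At W w) (hc : c ≠ 0) (he : eK t c ≠ 0) (hw : W ^ 2 = gc t C)
    (hX : X ∉ v.ring) :
    lim1 (dwork_hom t) v (fz t C W (some (X, Y)) (some (X', Y'))) = 0 := by
  have hwc : w ^ 2 = gc t c := (hW.pow 2).unique (hw ▸ gc_at hC)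
  have hC0 : C ≠ 0 := by
    rintro rfl
    refine hc (hC.unique ?_)
    have h1 := Place.at_const (v := v) (0 : k)
    rwa [map_zero] at h1
  refine lim_fz_sp hC hc he hw ?_
  intro hY hY' h1 h2 a b _ _ ha hb
  have hx : X - dl t C / 3 ∉ v.ring := by
    intro h3
    have h4 := ((dl_at (t := t) hC).div (at_num' v 3) (by norm_num)).mem
    have h5 := v.ring.add_mem _ _ h3 h4
    rw [sub_add_cancel] at h5
    exact hX h5
  generalize X - dl t C / 3 = x at *
  generalize X' - dl t C / 3 = x' at *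
  have hx0 : x ≠ 0 := by
    rintro rfl
    exact hx v.ring.zero_mem
  have hxi : v.At x⁻¹ 0 := by
    rw [Place.at_zero_iff, Place.vanishes_iff_or, inv_inv]
    exact Or.inr hx
  have hx'0 : x' ≠ 0 := by
    rintro rfl
    apply hY'
    rw [zero_mul] at h2
    exact pow_eq_zero_iff (two_ne_zero) |>.1 h2
  have hx' : v.At x' 0 := by
    have h3 := (hb.mul ((at_num' v 2).mul (hC.pow 2))).mul hxi
    rw [mul_zero] at h3
    have h4 : fb C x x' * ((2 : Om k) * C ^ 2) * x⁻¹ = x' := by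
      unfold fb
      field_simp
    rw [← h4]
    exact h3
  refine spc_two hwc hc ?_
  have hW' : v.At (-W) (-w) := hW.neg
  have a1 : v.At (1 : Om k) 1 := by
    have h3 := Place.at_const (v := v) (1 : k)
    rwa [map_one] at h3
  have hL := ((ha.mul hb).mul ((at_num' v 4).mul (hC.pow 4))).mul
    ((a1.add ((dl_at (t := t) hC).mul hxi)).add ((Qc_at (t := t) hC hW).mul (hxi.pow 2)))
  have hR := (Qc_at (t := t) hC hW').mul
    (((hx'.pow 2).add ((dl_at (t := t) hC).mul hx')).add (Qc_at (t := t) hC hW'))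
  have key := lim_key (t := t) hC0 hY hx0 hx'0 h1 h2
  have h4 := hL.unique (key ▸ hR)
  linear_combination h4

end Pool.Agent.DWK
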