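import Pool.Agent.DWK.FLimB
import Pool.Agent.DWK.EllS

/-!
# Limits of pairs of points: the second point tends to infinity
-/

set_option autoImplicit false

noncomputable section

namespace Pool.Agent.DWK

open Pool.Agent.ZCyc Pool.Agent.TInf Pool.Agent.GT
open Pool.Agent.VFP (Om tt)
open scoped Classical LinearAlgebra.Projectivization

variable {k : Type} [Field k] [IsAlgClosed k] [CharZero k] {t : k}

/-- `lim_fz_sp`. Let `x = X - δ / 3`, `x' = X' - δ / 3`, where `x'` is not in the valuation ring. The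
value of `fb = x x' / (2 C ²)` is `b`, so `x` has the value `0`. We have (with
`y ² = x (x ² + δ x + Q)`, `y' ² = x' (x' ² + δ x' + Q')`)
`fa / fb = Q' (1 + δ / x' + Q' / x' ²) / (x ² + δ x + Q)`, with the value `Q' / Q`; so
`Q a = Q' b`, `spc_one`. (Here `w` is the value of `W`, `w ² = gc t c`.) -/
theorem lim_fz_inf_right {v : Place k (Om k)} {C W X Y X' Y' : Om k} {c w : k}
    (hC : v.At C c) (hW : v.At W w) (hc : c ≠ 0) (he : eK t c ≠ 0) (hw : W ^ 2 = gc t C)
    (hX : X' ∉ v.ring) :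
    lim1 (dwork_hom t) v (fz t C W (some (X, Y)) (some (X', Y'))) = 0 := by
  have hw' : w ^ 2 = gc t c := by
    have h1 := hW.pow 2
    rw [hw] at h1
    exact h1.unique (gc_at hC)
  refine lim_fz_sp hC hc he hw fun hY hY' h1 h2 a b ha hb hfa hfb => spc_one hw' hc ?_
  set x : Om k := X - dl t C / 3 with hx
  set x' : Om k := X' - dl t C / 3 with hx'
  have hδ : v.At (dl t C) (dl t c) := dl_at hC
  have hδ3 : v.At (dl t C / 3) (dl t c / 3) := hδ.div (at_num' v 3) (by norm_num)
  have hx'm : x' ∉ v.ring := by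
    intro h
    apply hX
    have := v.ring.add_mem _ _ h hδ3.mem
    rwa [hx', sub_add_cancel] at this
  have hx0 : x ≠ 0 := by
    intro h
    rw [h, zero_mul] at h1
    exact hY (pow_eq_zero_iff (two_ne_zero) |>.1 h1)
  have hx'0 : x' ≠ 0 := by
    intro h
    rw [h, zero_mul] at h2
    exact hY' (pow_eq_zero_iff (two_ne_zero) |>.1 h2)
  have hC0 : C ≠ 0 := by
    rintro rfl
    exact hc (hC.unique Pool.Agent.VFP.at_zero)
  have hi : v.At x'⁻¹ 0 := Pool.Agent.VFP.inv_at_of_not_mem hx'm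
  have hxz : v.At x 0 := by
    have h3 := (((at_num' v 2).mul (hC.pow 2)).mul hfb).mul hi
    rw [mul_zero] at h3
    have h4 : (2 : Om k) * C ^ 2 * fb C x x' * x'⁻¹ = x := by
      unfold fb
      field_simp
    rwa [h4] at h3
  have hQ : v.At (Qc t C W) (Qc t c w) := Qc_at hC hW
  have hQ' : v.At (Qc t C (-W)) (Qc t c (-w)) := Qc_at hC hW.neg
  have h5 := hfa.mul (((hxz.pow 2).add (hδ.mul hxz)).add hQ)
  have h6 := (hQ'.mul hfb).mul ((Pool.Agent.VFP.at_one.add (hδ.mul hi)).add (hQ'.mul (hi.pow 2)))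
  have hP : x ^ 2 + dl t C * x + Qc t C W ≠ 0 := by
    intro h
    rw [h, mul_zero] at h1
    exact hY (pow_eq_zero_iff (two_ne_zero) |>.1 h1)
  have h7 : fa t C W x Y x' Y' * (x ^ 2 + dl t C * x + Qc t C W) =
      Qc t C (-W) * fb C x x' * (1 + dl t C * x'⁻¹ + Qc t C (-W) * x'⁻¹ ^ 2) := by
    unfold fa fb
    rw [h1, h2]
    generalize x ^ 2 + dl t C * x + Qc t C W = P at hP
    field_simp
  rw [h7] at h5
  have h8 := h5.unique h6
  linear_combination h8

end Pool.Agent.DWK
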