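import Pool.Agent.DWK.FLimB
import Pool.Agent.DWK.EllS

/-!
# Limits of pairs of points: points of order two
-/

set_option autoImplicit false

noncomputable section

namespace Pool.Agent.DWK

open Pool.Agent.ZCyc Pool.Agent.TInf Pool.Agent.GT
open Pool.Agent.VFP (Om tt)
open scoped Classical LinearAlgebra.Projectivization

variable {k : Type} [Field k] [IsAlgClosed k] [CharZero k] {t : k}

/-- `lim_fz_sp`. Let `ξ = X - δ / 3`, `ξ' = X' - δ / 3`, with the values `x - δ / 3`, `x' - δ / 3` (for `c`).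
The value `b ≠ 0` of `fb` is `(x - δ / 3) (x' - δ / 3) / (2 c ²)`, so `x - δ / 3 ≠ 0` and
`x' - δ / 3 ≠ 0`. By the equations of the curves
`fa = (Q' / (2 C ²)) ξ (ξ' ² + δ ξ' + Q') / (ξ' (ξ ² + δ ξ + Q))`, i.e.
`2 C ² fa ξ' (ξ ² + δ ξ + Q) = Q' ξ (ξ' ² + δ ξ' + Q')`; both sides have values, and
`Q'(c) ≠ 0` (`Qc_ne`), `a ≠ 0`. If `y = 0` or `y' = 0` then one of
`ξ ² + δ ξ + Q`, `ξ' ² + δ ξ' + Q'` has the value zero, and so have both: `spc_three`. -/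
theorem lim_fz_two {v : Place k (Om k)} {C W X Y X' Y' : Om k} {c w x y x' y' : k}
    (hC : v.At C c) (hW : v.At W w) (hX : v.At X x) (hY : v.At Y y) (hX' : v.At X' x')
    (hY' : v.At Y' y') (hc : c ≠ 0) (he : eK t c ≠ 0) (hw : W ^ 2 = gc t C)
    (h : y = 0 ∨ y' = 0) :
    lim1 (dwork_hom t) v (fz t C W (some (X, Y)) (some (X', Y'))) = 0 := by
  refine lim_fz_sp hC hc he hw fun hY0 hY0' hE hE' a b ha hb hfa hfb => ?_
  have hd := dl_at (t := t) hC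
  have hξ : v.At (X - dl t C / 3) (x - dl t c / 3) := hX.sub (hd.div (at_num' v 3) (by norm_num))
  have hξ' : v.At (X' - dl t C / 3) (x' - dl t c / 3) :=
    hX'.sub (hd.div (at_num' v 3) (by norm_num))
  have hQ := Qc_at (t := t) hC hW
  have hQ' := Qc_at (t := t) hC hW.neg
  have hw' : w ^ 2 = gc t c := by
    have h1 := hW.pow 2
    rw [hw] at h1
    exact h1.unique (gc_at hC)
  have hC0 : C ≠ 0 := by
    rintro rfl
    have h1 := Place.at_const (v := v) (0 : k)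
    rw [map_zero] at h1
    exact hc (hC.unique h1)
  obtain ⟨ξ, hξe⟩ : ∃ ξ, ξ = X - dl t C / 3 := ⟨_, rfl⟩
  obtain ⟨ξ', hξe'⟩ : ∃ ξ, ξ = X' - dl t C / 3 := ⟨_, rfl⟩
  obtain ⟨z, hz⟩ : ∃ z, z = x - dl t c / 3 := ⟨_, rfl⟩
  obtain ⟨z', hz'⟩ : ∃ z, z = x' - dl t c / 3 := ⟨_, rfl⟩
  rw [← hξe, ← hz] at hξ
  rw [← hξe', ← hz'] at hξ'
  rw [← hξe] at hE
  rw [← hξe'] at hE'
  rw [← hξe, ← hξe'] at hfa hfb
  have hfb' : v.At (fb C ξ ξ') (fb c z z') :=
    (hξ.mul hξ').div ((at_num' v 2).mul (hC.pow 2)) (mul_ne_zero two_ne_zero (pow_ne_zero 2 hc))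
  have hbe : b = fb c z z' := hfb.unique hfb'
  have hz0 : z ≠ 0 := by
    intro h0
    apply hb
    rw [hbe, h0]
    simp [fb]
  have hz0' : z' ≠ 0 := by
    intro h0
    apply hb
    rw [hbe, h0]
    simp [fb]
  have hξ0 : ξ ≠ 0 := by
    intro h0
    rw [h0, zero_mul] at hE
    exact hY0 (pow_eq_zero_iff (two_ne_zero) |>.1 hE)
  have hξ0' : ξ' ≠ 0 := by
    intro h0
    rw [h0, zero_mul] at hE'
    exact hY0' (pow_eq_zero_iff (two_ne_zero) |>.1 hE')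
  have hg := ((hξ.pow 2).add (hd.mul hξ)).add hQ
  have hg' := ((hξ'.pow 2).add (hd.mul hξ')).add hQ'
  have e1 : y ^ 2 = z * (z ^ 2 + dl t c * z + Qc t c w) := by
    have h1 := hY.pow 2
    rw [hE] at h1
    exact h1.unique (hξ.mul hg)
  have e2 : y' ^ 2 = z' * (z' ^ 2 + dl t c * z' + Qc t c (-w)) := by
    have h1 := hY'.pow 2
    rw [hE'] at h1
    exact h1.unique (hξ'.mul hg')
  have e3 : 2 * C ^ 2 * fa t C W ξ Y ξ' Y' * ξ' * (ξ ^ 2 + dl t C * ξ + Qc t C W) =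
      Qc t C (-W) * ξ * (ξ' ^ 2 + dl t C * ξ' + Qc t C (-W)) := by
    have h1 : 2 * C ^ 2 * fa t C W ξ Y ξ' Y' * (ξ' ^ 2 * Y ^ 2) =
        Qc t C (-W) * (ξ ^ 2 * Y' ^ 2) := by
      unfold fa
      field_simp
    rw [hE, hE'] at h1
    apply mul_left_cancel₀ (mul_ne_zero hξ0 hξ0')
    linear_combination h1
  have e4 : 2 * c ^ 2 * a * z' * (z ^ 2 + dl t c * z + Qc t c w) =
      Qc t c (-w) * z * (z' ^ 2 + dl t c * z' + Qc t c (-w)) := by
    have h1 := ((((at_num' v 2).mul (hC.pow 2)).mul hfa).mul hξ').mul hg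
    rw [e3] at h1
    exact h1.unique ((hQ'.mul hξ).mul hg')
  have hq' : Qc t c (-w) ≠ 0 := Qc_ne (t := t) (by rw [neg_sq, hw']) hc
  have h5 : z ^ 2 + dl t c * z + Qc t c w = 0 ∧ z' ^ 2 + dl t c * z' + Qc t c (-w) = 0 := by
    rcases h with h | h
    · rw [h, zero_pow two_ne_zero] at e1
      have h6 := (mul_eq_zero.1 e1.symm).resolve_left hz0
      rw [h6, mul_zero] at e4
      exact ⟨h6, (mul_eq_zero.1 e4.symm).resolve_left (mul_ne_zero hq' hz0)⟩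
    · rw [h, zero_pow two_ne_zero] at e2
      have h6 := (mul_eq_zero.1 e2.symm).resolve_left hz0'
      rw [h6, mul_zero] at e4
      exact ⟨(mul_eq_zero.1 e4).resolve_left (mul_ne_zero (mul_ne_zero (mul_ne_zero two_ne_zero
        (pow_ne_zero 2 hc)) ha) hz0'), h6⟩
  rw [hbe]
  exact spc_three hw' hc h5.1 h5.2

end Pool.Agent.DWK
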