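import Pool.Agent.DWK.FLimA
import Pool.Agent.DWK.FLimC
import Pool.Agent.DWK.FLimD
import Pool.Agent.DWK.FLimE

/-!
# Limits of pairs of points
-/

set_option autoImplicit false

noncomputable section

namespace Pool.Agent.DWK

open Pool.Agent.ZCyc Pool.Agent.TInf Pool.Agent.GT
open Pool.Agent.VFP (Om tt)
open scoped Classical LinearAlgebra.Projectivization

variable {k : Type} [Field k] [IsAlgClosed k] [CharZero k] {t : k}

/-- If one of `P`, `P'` is `none` then `fz` is zero, and the value of this point is `none`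
(`ff_none_left`, `ff_none_right`). Otherwise `P = some (X, Y)`, `P' = some (X', Y')`. If
`X` or `X'` is not in the valuation ring then `p = none` or `p' = none`, `lim_fz_inf_left`,
`lim_fz_inf_right`. Otherwise `p = some (x, y)`, `p' = some (x', y')`; if `y = 0` or `y' = 0` use
`lim_fz_two` and `ff_two`; if not, `lim_fz_nd`. -/
theorem lim_fz {v : Place k (Om k)} {C W : Om k} {P P' : EPt (Om k)} {c w : k} {p p' : EPt k}
    (hC : v.At C c) (hW : v.At W w) (hc : c ≠ 0) (he : eK t c ≠ 0) (hw : W ^ 2 = gc t C)
    (hP : EOn (al t C W) (be t C W) P) (hP' : EOn (al t C (-W)) (be t C (-W)) P')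
    (h : EVal v P p) (h' : EVal v P' p') :
    lim1 (dwork_hom t) v (fz t C W P P') = ff t c w p p' := by
  match P, P', p, p', hP, hP', h, h' with
  | none, P', none, p', _, _, _, _ =>
    rw [ff_none_left]
    change lim1 (dwork_hom t) v 0 = 0
    rw [map_zero]
  | some (X, Y), none, p, none, _, _, _, _ =>
    rw [ff_none_right]
    change lim1 (dwork_hom t) v 0 = 0
    rw [map_zero]
  | some (X, Y), some (X', Y'), none, p', _, _, h, _ =>
    rw [ff_none_left]
    exact lim_fz_inf_left hC hW hc he hw h
  | some (X, Y), some (X', Y'), some (x, y), none, _, _, _, h' =>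
    rw [ff_none_right]
    exact lim_fz_inf_right hC hW hc he hw h'
  | some (X, Y), some (X', Y'), some (x, y), some (x', y'), hP, hP', h, h' =>
    by_cases hy : y = 0 ∨ y' = 0
    · rw [ff_two hy]
      exact lim_fz_two hC hW h.1 h.2 h'.1 h'.2 hc he hw hy
    · rw [not_or] at hy
      exact lim_fz_nd hC hW h.1 h.2 h'.1 h'.2 hc he hw hP hP' hy.1 hy.2

/-- `lim_zd_bd` for both cycles in the definition of `fz` -/
theorem lim_fz_bad {v : Place k (Om k)} {C W : Om k} (P P' : EPt (Om k)) (hC : C ∉ v.ring) :
    lim1 (dwork_hom t) v (fz t C W P P') = 0 := by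
  have hzd : ∀ A B D : Om k, lim1 (dwork_hom t) v (zd t C A B D) = 0 := fun A B D =>
    lim_zd_bd fun h => by
      obtain ⟨⟨c, -, hc⟩, -⟩ := h
      exact hC hc.mem
  match P, P' with
  | none, P' =>
    change lim1 (dwork_hom t) v 0 = 0
    rw [map_zero]
  | some (X, Y), none =>
    change lim1 (dwork_hom t) v 0 = 0
    rw [map_zero]
  | some (X, Y), some (X', Y') =>
    unfold fz
    dsimp only
    split_ifs
    · rw [map_sub, hzd, hzd, sub_zero]
    · rw [map_zero]

end Pool.Agent.DWK
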