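import Pool.Agent.DWK.InvA
import Pool.Agent.DWK.TorL

/-!
# Limits of points with given invariants
-/

set_option autoImplicit false

noncomputable section

namespace Pool.Agent.DWK

open Pool.Agent.ZCyc Pool.Agent.TInf Pool.Agent.GT
open Pool.Agent.VFP (Om tt)
open scoped Classical LinearAlgebra.Projectivization

variable {k : Type} [Field k] [IsAlgClosed k] [CharZero k] {t : k}

omit [IsAlgClosed k] [CharZero k] in
private theorem l3_coords {K : Type} [Field K] [Algebra k K] {C A B D : K} {U : Fin 5 → K}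
    (hU : Tor t U) (hI : Inv C A B D U) : U 0 ≠ 0 ∧ A ≠ 0 ∧ B ≠ 0 ∧ C ≠ 0 ∧
      U 1 = U 0 / (A * B * C) ∧ U 2 = A / U 0 ∧ U 3 = B / U 0 ∧
      2 * (A + B) = U 0 * (eK t C - D) ∧ U 0 + U 1 - (U 2 + U 3) = D := by
  obtain ⟨h1, h2⟩ := hU
  obtain ⟨h3, h4, h5, h6⟩ := hI
  rw [Fin.prod_univ_five] at h1
  rw [Fin.sum_univ_five] at h2
  have n0 : U 0 ≠ 0 := by
    intro h
    rw [h] at h1
    simp at h1
  have n2 : U 2 ≠ 0 := by
    intro h
    rw [h] at h1
    simp at h1
  have n3 : U 3 ≠ 0 := by
    intro h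
    rw [h] at h1
    simp at h1
  have n4 : U 4 ≠ 0 := by
    intro h
    rw [h] at h1
    simp at h1
  have nA : A ≠ 0 := by
    rw [← h4]
    exact mul_ne_zero n0 n2
  have nB : B ≠ 0 := by
    rw [← h5]
    exact mul_ne_zero n0 n3
  have nC : C ≠ 0 := by
    rw [← h3]
    exact n4
  refine ⟨n0, nA, nB, nC, ?_, ?_, ?_, ?_, h6⟩
  · rw [eq_div_iff (mul_ne_zero (mul_ne_zero nA nB) nC), ← h3, ← h4, ← h5]
    linear_combination U 0 * h1
  · rw [eq_div_iff n0, ← h4]
    ring
  · rw [eq_div_iff n0, ← h5]
    ring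
  · unfold eK
    rw [← h2, ← h3, ← h4, ← h5, ← h6]
    ring

omit [IsAlgClosed k] [CharZero k] in
private theorem l3_at_eK {v : Place k (Om k)} {C : Om k} {c : k} (hC : v.At C c) :
    v.At (eK t C) (eK t c) := (Place.at_const (v := v) (5 * t)).sub hC

omit [IsAlgClosed k] in
/-- no point with the invariants `c, a, b, d` -/
private theorem l3_off {c a b d : k} (hc : c ≠ 0) (ha : a ≠ 0) (hb : b ≠ 0) (he : eK t c ≠ 0)
    (h : (2 * (a + b) = 0 ∧ eK t c + d = 0) ∨ (eK t c - d = 0 ∧ 1 + 1 / (a * b * c) = 0)) :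
    hd t c a b d = 0 := by
  refine hd_off fun hex => ?_
  obtain ⟨y, hy, h1, h2⟩ := (exists_iff hc ha hb).1 hex
  have h0 : (2 : k) * eK t c ≠ 0 := mul_ne_zero two_ne_zero he
  rcases h with ⟨h3, h4⟩ | ⟨h3, h4⟩
  · rw [h3] at h1
    have h5 : eK t c - d = 0 := (mul_eq_zero.1 h1.symm).resolve_left hy
    apply h0
    linear_combination h4 + h5
  · rw [h4, mul_zero] at h2
    apply h0
    linear_combination h3 - h2

/-- Let `e = eK t c`, `E = eK t C`. Suppose that there is a point `U` with the invariants `C, A, B, D`,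
and let `Y = U₀`: `2 (A + B) = Y (E - D)`, `2 Y (1 + 1 / (A B C)) = E + D` (`exists_iff`).
One of the values `e - d`, `e + d` is not zero.
(i) If `e - d ≠ 0` then `Y = 2 (A + B) / (E - D)` has the value `y = 2 (a + b) / (e - d)`. If `y ≠ 0`
then all coordinates `Y, Y / (A B C), A / Y, B / Y, C` of `U` have values, the value `u` of `U` has the
invariants `c, a, b, d`, and the limit is `nu t u = hd t c a b d` (`lim_uz`, `hd_eq`). If
`y = 0` then `A / Y` is not in the valuation ring, and the limit is `0` (`lim_uz_bd`); and there is no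
point with the invariants `c, a, b, d`, because it would have `0 ≠ y' = 2 (a + b) / (e - d) = 0`.
(ii) If `e + d ≠ 0` and `m = 1 + 1 / (a b c) ≠ 0` then `Y` has the value `y = (e + d) / (2 m) ≠ 0`, as in
(i). If `m = 0` then `Y = (E + D) / (2 (1 + 1 / (A B C)))` is not in the valuation ring, and the
limit is `0`; and there is no point with the invariants `c, a, b, d`, because `2 y m = e + d`.
Suppose that there is no point with the invariants `C, A, B, D`. The relation says
`(E - D) (E + D) = 4 (A + B) (1 + 1 / (A B C))`. If `E - D ≠ 0` and `A + B ≠ 0` then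
`Y = 2 (A + B) / (E - D)` satisfies both equations of `exists_iff`, contradiction. So `A + B = 0` or
`E - D = 0`. If `E - D = 0`, then `E + D ≠ 0` (as `E ≠ 0`) and `1 + 1 / (A B C) = 0` or `A + B = 0`;
if `1 + 1 / (A B C) ≠ 0` then `A + B = 0` and `Y = (E + D) / (2 (1 + 1 / (A B C)))` is a solution,
contradiction; so `1 + 1 / (A B C) = 0`. Then `1 + 1 / (a b c) = 0` and `e + d = 2 e ≠ 0` and there is no
point with the invariants `c, a, b, d`. If `E - D ≠ 0` then `A + B = 0`, so `E + D = 0`, `a + b = 0`,
`e - d = 2 e ≠ 0`, and there is no point with the invariants `c, a, b, d` (`y (e - d) = 0`). So both sides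
are zero (`zd_off`, `hd_off`). -/
theorem lim_zd {v : Place k (Om k)} {C A B D : Om k} {c a b d : k} (hC : v.At C c)
    (hA : v.At A a) (hB : v.At B b) (hD : v.At D d) (hc : c ≠ 0) (he : eK t c ≠ 0) (ha : a ≠ 0)
    (hb : b ≠ 0) (hR : Rel t C A B D) : lim1 (dwork_hom t) v (zd t C A B D) = hd t c a b d := by
  have hE : v.At (eK t C) (eK t c) := l3_at_eK hC
  have hE0 : eK t C ≠ 0 := by
    intro h
    rw [h] at hE
    exact he (hE.unique VFP.at_zero)
  have nz : ∀ {F : Om k} {f : k}, v.At F f → f ≠ 0 → F ≠ 0 := by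
    intro F f hF hf h
    rw [h] at hF
    exact hf (hF.unique VFP.at_zero)
  have hA0 := nz hA ha
  have hB0 := nz hB hb
  have hC0 := nz hC hc
  have habc : a * b * c ≠ 0 := mul_ne_zero (mul_ne_zero ha hb) hc
  have hABC0 : A * B * C ≠ 0 := mul_ne_zero (mul_ne_zero hA0 hB0) hC0
  have hABC : v.At (A * B * C) (a * b * c) := (hA.mul hB).mul hC
  have hM : v.At (1 + 1 / (A * B * C)) (1 + 1 / (a * b * c)) :=
    VFP.at_one.add (VFP.at_one.div hABC habc)
  have h2AB : v.At (2 * (A + B)) (2 * (a + b)) := (VFP.at_num 2).mul (hA.add hB)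
  have hEm : v.At (eK t C - D) (eK t c - d) := hE.sub hD
  have hEp : v.At (eK t C + D) (eK t c + d) := hE.add hD
  have hRel : (eK t C - D) * (eK t C + D) = 2 * (A + B) * (2 * (1 + 1 / (A * B * C))) := by
    have h1 : 4 * (A + B + 1 / (C * A) + 1 / (C * B)) =
        2 * (A + B) * (2 * (1 + 1 / (A * B * C))) := by
      field_simp
      ring
    rw [← h1]
    unfold Rel at hR
    linear_combination -hR
  by_cases hex : ∃ U : Fin 5 → Om k, Tor t U ∧ Inv C A B D U
  · obtain ⟨U, hU, hI⟩ := hex
    rw [zd_eq hE0 hU hI]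
    obtain ⟨n0, -, -, -, e1, e2, e3, e4, e5⟩ := l3_coords hU hI
    have e6 : 2 * U 0 * (1 + 1 / (A * B * C)) = eK t C + D := by
      have h1 : U 0 * (1 + 1 / (A * B * C)) = U 0 + U 1 := by
        rw [e1]
        ring
      have h2 : U 0 + U 1 + U 2 + U 3 = eK t C := by
        have h3 := hU.2
        rw [Fin.sum_univ_five] at h3
        unfold eK
        rw [← h3, ← hI.1]
        ring
      rw [mul_assoc, h1, ← h2, ← e5]
      ring
    by_cases hY : U 0 ∈ v.ring
    · obtain ⟨y, hy⟩ := DCI57.exists_at v hY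
      by_cases hy0 : y = 0
      · subst hy0
        have h2 : U 2 ∉ v.ring := by
          intro h2
          have h3 : v.Vanishes (U 0 * U 2) := (Place.at_zero_iff.1 hy).mul v h2
          rw [hI.2.1] at h3
          exact ha (hA.unique (Place.at_zero_iff.2 h3))
        rw [lim_uz_bd h2, l3_off hc ha hb he]
        left
        constructor
        · have h3 := hy.mul hEm
          rw [← e4, zero_mul] at h3
          exact h2AB.unique h3
        · have h3 := ((VFP.at_num 2).mul hy).mul hM
          rw [e6, mul_zero, zero_mul] at h3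
          exact hEp.unique h3
      · have hu : ∀ i, v.At (U i) ((![y, y / (a * b * c), a / y, b / y, c] : Fin 5 → k) i) := by
          intro i
          fin_cases i
          · exact hy
          · change v.At (U 1) (y / (a * b * c))
            rw [e1]
            exact hy.div hABC habc
          · change v.At (U 2) (a / y)
            rw [e2]
            exact hA.div hy hy0
          · change v.At (U 3) (b / y)
            rw [e3]
            exact hB.div hy hy0
          · change v.At (U 4) c
            rw [hI.1]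
            exact hC
        obtain ⟨h1, h2⟩ := lim_uz hU hu
        have hinv : Inv c a b d (![y, y / (a * b * c), a / y, b / y, c] : Fin 5 → k) := by
          refine ⟨rfl, ?_, ?_, ?_⟩
          · change y * (a / y) = a
            field_simp
          · change y * (b / y) = b
            field_simp
          · have h3 := ((hu 0).add (hu 1)).sub ((hu 2).add (hu 3))
            rw [e5] at h3
            exact h3.unique hD
        rw [h2, hd_eq he h1 hinv]
    · rw [lim_uz_bd hY, l3_off hc ha hb he]
      right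
      have hi := VFP.inv_at_of_not_mem hY
      constructor
      · have h3 := h2AB.mul hi
        rw [mul_zero] at h3
        have h4 : 2 * (A + B) * (U 0)⁻¹ = eK t C - D := by
          rw [e4]
          field_simp
        rw [h4] at h3
        exact hEm.unique h3
      · have h3 := hEp.mul hi
        rw [mul_zero] at h3
        have h4 : (eK t C + D) * (U 0)⁻¹ = 2 * (1 + 1 / (A * B * C)) := by
          rw [← e6]
          field_simp
        rw [h4] at h3
        have h5 := (VFP.at_num 2).mul hM |>.unique h3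
        exact (mul_eq_zero.1 h5).resolve_left two_ne_zero
  · rw [zd_off hex, map_zero]
    symm
    apply l3_off hc ha hb he
    have hno : ∀ Y : Om k, Y ≠ 0 → 2 * (A + B) = Y * (eK t C - D) →
        2 * Y * (1 + 1 / (A * B * C)) = eK t C + D → False := fun Y h1 h2 h3 =>
      hex ((exists_iff hC0 hA0 hB0).2 ⟨Y, h1, h2, h3⟩)
    have h20 : (2 : Om k) ≠ 0 := two_ne_zero
    have h1 : eK t C - D = 0 ∨ 2 * (A + B) = 0 := by
      by_contra hcon
      push Not at hcon
      obtain ⟨h1, h2⟩ := hcon
      refine hno (2 * (A + B) / (eK t C - D)) (div_ne_zero h2 h1) ?_ ?_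
      · field_simp
      · have h3 : 2 * (2 * (A + B) / (eK t C - D)) * (1 + 1 / (A * B * C)) =
            (2 * (A + B) * (2 * (1 + 1 / (A * B * C)))) / (eK t C - D) := by ring
        rw [h3, ← hRel]
        field_simp
    have h2 : eK t C + D = 0 ∨ 1 + 1 / (A * B * C) = 0 := by
      by_contra hcon
      push Not at hcon
      obtain ⟨h1, h2⟩ := hcon
      have h4 : 2 * (1 + 1 / (A * B * C)) ≠ 0 := mul_ne_zero h20 h2
      refine hno ((eK t C + D) / (2 * (1 + 1 / (A * B * C)))) (div_ne_zero h1 h4) ?_ ?_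
      · rw [div_mul_eq_mul_div, eq_div_iff h4, ← hRel]
        ring
      · have h3 : 2 * ((eK t C + D) / (2 * (1 + 1 / (A * B * C)))) * (1 + 1 / (A * B * C)) =
            (eK t C + D) * (2 * (1 + 1 / (A * B * C))) / (2 * (1 + 1 / (A * B * C))) := by ring
        rw [h3, mul_div_cancel_right₀ _ h4]
    have h3 : (2 * (A + B) = 0 ∧ eK t C + D = 0) ∨
        (eK t C - D = 0 ∧ 1 + 1 / (A * B * C) = 0) := by
      rcases h1 with h1 | h1
      · rcases h2 with h2 | h2
        · exfalso
          apply mul_ne_zero h20 hE0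
          linear_combination h1 + h2
        · exact Or.inr ⟨h1, h2⟩
      · rcases h2 with h2 | h2
        · exact Or.inl ⟨h1, h2⟩
        · rw [h1, zero_mul] at hRel
          rcases mul_eq_zero.1 hRel with h4 | h4
          · exact Or.inr ⟨h4, h2⟩
          · exact Or.inl ⟨h1, h4⟩
    rcases h3 with ⟨h3, h4⟩ | ⟨h3, h4⟩
    · rw [h3] at h2AB
      rw [h4] at hEp
      exact Or.inl ⟨h2AB.unique VFP.at_zero, hEp.unique VFP.at_zero⟩
    · rw [h3] at hEm
      rw [h4] at hM
      exact Or.inr ⟨hEm.unique VFP.at_zero, hM.unique VFP.at_zero⟩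

end Pool.Agent.DWK
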