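import Pool.Agent.DWK.Base
import Pool.Agent.DWK.FFA
import Pool.Agent.DWK.Lim3

/-!
# Limits of pairs of points: the general case
-/

set_option autoImplicit false
set_option linter.unusedSectionVars false

noncomputable section

namespace Pool.Agent.DWK

open Pool.Agent.ZCyc Pool.Agent.TInf Pool.Agent.GT
open Pool.Agent.VFP (Om tt)
open scoped Classical LinearAlgebra.Projectivization

variable {k : Type} [Field k] [IsAlgClosed k] [CharZero k] {t : k}

private theorem ne_of_at {v : Place k (Om k)} {F : Om k} {f : k} (h : v.At F f) (hf : f ≠ 0) :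
    F ≠ 0 := by
  rintro rfl
  have h0 : v.At (0 : Om k) 0 := by
    have := Place.at_const (v := v) (0 : k)
    rwa [map_zero] at this
  exact hf (h.unique h0)

private theorem xi_at {v : Place k (Om k)} {C X : Om k} {c x : k} (hC : v.At C c)
    (hX : v.At X x) : v.At (X - dl t C / 3) (x - dl t c / 3) :=
  hX.sub ((dl_at hC).div (at_num' v 3) (by norm_num))

private theorem eq_at {v : Place k (Om k)} {C W X Y : Om k} {c w x y : k} (hC : v.At C c)
    (hW : v.At W w) (hX : v.At X x) (hY : v.At Y y)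
    (h : Y ^ 2 = (X - dl t C / 3) * ((X - dl t C / 3) ^ 2 + dl t C * (X - dl t C / 3) +
      Qc t C W)) :
    y ^ 2 = (x - dl t c / 3) * ((x - dl t c / 3) ^ 2 + dl t c * (x - dl t c / 3) +
      Qc t c w) := by
  have h1 := hY.pow 2
  rw [h] at h1
  have hx := xi_at (t := t) hC hX
  exact h1.unique (hx.mul (((hx.pow 2).add ((dl_at hC).mul hx)).add (Qc_at hC hW)))

private theorem fa_at {v : Place k (Om k)} {C W X Y X' Y' : Om k} {c w x y x' y' : k}
    (hC : v.At C c) (hW : v.At W w) (hX : v.At X x) (hY : v.At Y y) (hX' : v.At X' x')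
    (hY' : v.At Y' y') (hc : c ≠ 0) (hy : y ≠ 0) (hx' : x' ≠ 0) :
    v.At (fa t C W X Y X' Y') (fa t c w x y x' y') :=
  (((Qc_at hC hW.neg).div ((at_num' v 2).mul (hC.pow 2))
    (mul_ne_zero (by norm_num) (pow_ne_zero 2 hc))).mul ((hX.pow 2).mul (hY'.pow 2))).div
    ((hX'.pow 2).mul (hY.pow 2)) (mul_ne_zero (pow_ne_zero 2 hx') (pow_ne_zero 2 hy))

private theorem fb_at {v : Place k (Om k)} {C X X' : Om k} {c x x' : k} (hC : v.At C c)
    (hX : v.At X x) (hX' : v.At X' x') (hc : c ≠ 0) : v.At (fb C X X') (fb c x x') :=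
  (hX.mul hX').div ((at_num' v 2).mul (hC.pow 2))
    (mul_ne_zero (by norm_num) (pow_ne_zero 2 hc))

private theorem fd_at {v : Place k (Om k)} {C W X Y X' Y' : Om k} {c w x y x' y' : k}
    (hC : v.At C c) (hW : v.At W w) (hX : v.At X x) (hY : v.At Y y) (hX' : v.At X' x')
    (hY' : v.At Y' y') (hc : c ≠ 0) (hy : y ≠ 0) (hy' : y' ≠ 0) :
    v.At (fd t C W X Y X' Y') (fd t c w x y x' y') :=
  ((Place.at_const (v := v) (r2 k)).mul
    (((((hX.pow 2).mul (hX'.pow 2)).div hC hc).add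
      (((eK_at hC).div (at_num' v 2) (by norm_num)).mul
        ((((hX.mul hX').mul (hX.add hX')).sub ((Qc_at hC hW).mul hX')).sub
          ((Qc_at hC hW.neg).mul hX)))).sub ((at_num' v 4).mul (hC.pow 2)))).div
    (hY.mul hY') (mul_ne_zero hy hy')

/-- First `Y, Y' ≠ 0`, `W ² = gc t C`, and the points `(x, y)`, `(x', y')` are on the curves for
`c, w` and `c, -w`, where `w ² = gc t c` (specialise the equations, `eon_iff`). The first
coordinates `x - δ / 3`, `x' - δ / 3` are not zero because `y, y' ≠ 0`. So `fa`, `fb`, `fd` for the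
points over `Om k` have as values the numbers for the points over `k` (`Place.At.div`), and the
values of `fa`, `fb` are not zero (`Qc_ne`). Now use `lim_zd` twice (`rel_f`, and `Rel` for `-d`), and `ff_on`. -/
theorem lim_fz_nd {v : Place k (Om k)} {C W X Y X' Y' : Om k} {c w x y x' y' : k}
    (hC : v.At C c) (hW : v.At W w) (hX : v.At X x) (hY : v.At Y y) (hX' : v.At X' x')
    (hY' : v.At Y' y') (hc : c ≠ 0) (he : eK t c ≠ 0) (hw : W ^ 2 = gc t C)
    (hP : EOn (al t C W) (be t C W) (some (X, Y)))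
    (hP' : EOn (al t C (-W)) (be t C (-W)) (some (X', Y'))) (hy : y ≠ 0) (hy' : y' ≠ 0) :
    lim1 (dwork_hom t) v (fz t C W (some (X, Y)) (some (X', Y'))) =
      ff t c w (some (x, y)) (some (x', y')) := by
  have hw' : w ^ 2 = gc t c := by
    have h1 := hW.pow 2
    rw [hw] at h1
    exact h1.unique (gc_at hC)
  have hC0 : C ≠ 0 := ne_of_at hC hc
  have hY0 : Y ≠ 0 := ne_of_at hY hy
  have hY0' : Y' ≠ 0 := ne_of_at hY' hy'
  have hE := eon_iff.1 hP
  have hE' := eon_iff.1 hP'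
  have he1 := eq_at hC hW hX hY hE
  have he1' := eq_at hC hW.neg hX' hY' hE'
  have hxi : x - dl t c / 3 ≠ 0 := by
    intro h
    rw [h, zero_mul] at he1
    exact hy (pow_eq_zero_iff (two_ne_zero) |>.1 he1)
  have hxi' : x' - dl t c / 3 ≠ 0 := by
    intro h
    rw [h, zero_mul] at he1'
    exact hy' (pow_eq_zero_iff (two_ne_zero) |>.1 he1')
  have hX1 := xi_at (t := t) hC hX
  have hX1' := xi_at (t := t) hC hX'
  have hA := fa_at (t := t) hC hW hX1 hY hX1' hY' hc hy hxi'
  have hB := fb_at hC hX1 hX1' hc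
  have hD := fd_at (t := t) hC hW hX1 hY hX1' hY' hc hy hy'
  have hR := rel_f hw hC0 hY0 hY0' hE hE'
  have hR' : Rel t C (fa t C W (X - dl t C / 3) Y (X' - dl t C / 3) Y')
      (fb C (X - dl t C / 3) (X' - dl t C / 3))
      (-fd t C W (X - dl t C / 3) Y (X' - dl t C / 3) Y') := by
    unfold Rel at hR ⊢
    rw [neg_sq]
    exact hR
  have hQ : Qc t c (-w) ≠ 0 := Qc_ne (by rw [neg_sq]; exact hw') hc
  have h2c : (2 : k) * c ^ 2 ≠ 0 := mul_ne_zero (by norm_num) (pow_ne_zero 2 hc)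
  have ha : fa t c w (x - dl t c / 3) y (x' - dl t c / 3) y' ≠ 0 := by
    unfold fa
    exact div_ne_zero (mul_ne_zero (div_ne_zero hQ h2c)
      (mul_ne_zero (pow_ne_zero 2 hxi) (pow_ne_zero 2 hy')))
      (mul_ne_zero (pow_ne_zero 2 hxi') (pow_ne_zero 2 hy))
  have hb : fb c (x - dl t c / 3) (x' - dl t c / 3) ≠ 0 := by
    unfold fb
    exact div_ne_zero (mul_ne_zero hxi hxi') h2c
  rw [ff_on hy hy' (eon_iff.2 he1) (eon_iff.2 he1'),
    ← lim_zd hC hA hB hD hc he ha hb hR, ← lim_zd hC hA hB hD.neg hc he ha hb hR', ← map_sub]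
  congr 1
  exact if_pos ⟨hY0, hY0', hP, hP'⟩

end Pool.Agent.DWK
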