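import Pool.Agent.DWK.Spec

/-!
# Three special curves
-/

set_option autoImplicit false

noncomputable section

namespace Pool.Agent.DWK

open Pool.Agent.ZCyc Pool.Agent.TInf Pool.Agent.GT
open Pool.Agent.VFP (Om tt)
open scoped Classical LinearAlgebra.Projectivization

/-- the point lies on a special curve -/
def Spc {k : Type} [Field k] (t c a b : k) : Prop :=
  (∃ κ : k, κ ≠ 0 ∧ a = κ * b ∧ eK t c ^ 4 * (c * κ) = 64 * (κ + 1) ^ 2) ∨
    eK t c ^ 4 * (a * b) * c ^ 2 = 64 * (a * b * c + 1) ^ 2 ∨
    (eK t c ^ 2 - 4 * b - 4 / (c * b)) ^ 2 = 64 / c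

variable {k : Type} [Field k] [IsAlgClosed k] [CharZero k] {t : k}

omit [IsAlgClosed k] [CharZero k] in
private theorem eK_al {K : Type} [Field K] [Algebra k K] (c : k) :
    eK t (algebraMap k K c) = algebraMap k K (eK t c) := by
  unfold eK
  rw [map_sub]
  rfl

/-- `special` with `e = eK t c`:
(1) `a = κ b`: `α₁ = κ`, `α₂ = 1`, `m₁ = m₂ = 1`, `s = b`, `p = κ + 1` (not zero because
`e ⁴ c κ ≠ 0`), `n = e ² / (8 p)`; the right side is `-4 p s + e ² - 4 p n ² / s`, and
`p n ² = e ⁴ / (64 p) = p / (c κ)`.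
(2) `m = a b`: `α₁ = 1`, `m₁ = 1`, `α₂ = m`, `m₂ = -1`, `s = a`, `p = 1 + 1 / (m c)` (not zero),
`n = e ² / (8 p)`, `p n ² = e ⁴ / (64 p) = p m`.
(3) `α₁ = 1`, `m₁ = 1`, `α₂ = b`, `m₂ = 0`, `s = a`, `p = 1`, `n = (e ² - 4 b - 4 / (c b)) / 8`,
`n ² = 1 / c`. -/
theorem hd_special {c a b d : k} (hc : c ≠ 0) (he : eK t c ≠ 0) (ha : a ≠ 0) (hb : b ≠ 0)
    (hR : Rel t c a b d) (hS : Spc t c a b) : hd t c a b d = 0 := by
  rcases hS with ⟨κ, hκ, hab, h1⟩ | h2 | h3
  · have hp : κ + 1 ≠ 0 := by
      intro h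
      rw [h] at h1
      exact mul_ne_zero (pow_ne_zero 4 he) (mul_ne_zero hc hκ) (by rw [h1]; ring)
    obtain ⟨n, hn⟩ : ∃ n : k, 8 * (κ + 1) * n = eK t c ^ 2 :=
      ⟨eK t c ^ 2 / (8 * (κ + 1)), by field_simp⟩
    have hn2 : n ^ 2 * (c * κ) = 1 := by
      have h4 : (64 * (κ + 1) ^ 2) * (n ^ 2 * (c * κ)) = (64 * (κ + 1) ^ 2) * 1 := by
        linear_combination h1 + (8 * (κ + 1) * n + eK t c ^ 2) * (c * κ) * hn
      exact mul_left_cancel₀ (mul_ne_zero (by norm_num) (pow_ne_zero 2 hp)) h4
    have key := special (t := t) hc he (α₁ := κ) (α₂ := 1) (p := κ + 1) (n := n) (m₁ := 1)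
      (m₂ := 1) hp hκ one_ne_zero (fun K _ _ s hs => ?_) hb (d := d) ?_
    · rwa [zpow_one, one_mul, ← hab] at key
    · have e1 := congrArg (algebraMap k K) hn
      have e2 := congrArg (algebraMap k K) hn2
      have hc' : algebraMap k K c ≠ 0 := by simpa using hc
      have hκ' : algebraMap k K κ ≠ 0 := by simpa using hκ
      rw [eK_al]
      simp only [map_mul, map_add, map_one, map_pow, map_ofNat] at e1 e2
      simp only [map_add, map_one, one_mul, zpow_one]
      generalize algebraMap k K c = C at *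
      generalize algebraMap k K κ = A at *
      generalize algebraMap k K n = N at *
      generalize algebraMap k K (eK t c) = E at *
      field_simp
      linear_combination (-(s * C * A)) * e1 + 4 * (A + 1) * e2
    · rwa [zpow_one, one_mul, ← hab]
  · obtain ⟨m, hm⟩ : ∃ m, m = a * b := ⟨_, rfl⟩
    have hm0 : m ≠ 0 := by
      rw [hm]
      exact mul_ne_zero ha hb
    rw [← hm] at h2
    have hbm : m * a ^ (-1 : ℤ) = b := by
      rw [hm, zpow_neg_one]
      field_simp
    have hp1 : m * c + 1 ≠ 0 := by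
      intro h
      rw [h] at h2
      exact mul_ne_zero (mul_ne_zero (pow_ne_zero 4 he) hm0) (pow_ne_zero 2 hc)
        (by rw [h2]; ring)
    obtain ⟨p, hpm⟩ : ∃ p : k, p * (m * c) = m * c + 1 := ⟨(m * c + 1) / (m * c), by field_simp⟩
    have hp : p ≠ 0 := by
      rintro rfl
      exact hp1 (by rw [← hpm]; ring)
    obtain ⟨n, hn⟩ : ∃ n : k, 8 * p * n = eK t c ^ 2 :=
      ⟨eK t c ^ 2 / (8 * p), by field_simp⟩
    have hn2 : n ^ 2 = m := by
      have h4 : (64 * p ^ 2 * (m * c ^ 2)) * (n ^ 2) = (64 * p ^ 2 * (m * c ^ 2)) * m := by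
        linear_combination h2 + (8 * p * n + eK t c ^ 2) * (m * c ^ 2) * hn -
          64 * (p * (m * c) + (m * c + 1)) * hpm
      exact mul_left_cancel₀ (mul_ne_zero (mul_ne_zero (by norm_num) (pow_ne_zero 2 hp))
        (mul_ne_zero hm0 (pow_ne_zero 2 hc))) h4
    have key := special (t := t) hc he (α₁ := 1) (α₂ := m) (p := p) (n := n) (m₁ := 1)
      (m₂ := -1) hp one_ne_zero hm0 (fun K _ _ s hs => ?_) ha (d := d) ?_
    · rwa [hbm, zpow_one, one_mul] at key
    · have e1 := congrArg (algebraMap k K) hn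
      have e2 := congrArg (algebraMap k K) hn2
      have e3 := congrArg (algebraMap k K) hpm
      have hc' : algebraMap k K c ≠ 0 := by simpa using hc
      have hm' : algebraMap k K m ≠ 0 := by simpa using hm0
      rw [eK_al]
      simp only [map_mul, map_add, map_one, map_pow, map_ofNat] at e1 e2 e3
      simp only [map_one, one_mul, zpow_one, zpow_neg_one]
      generalize algebraMap k K c = C at *
      generalize algebraMap k K m = M at *
      generalize algebraMap k K n = N at *
      generalize algebraMap k K p = P at *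
      generalize algebraMap k K (eK t c) = E at *
      subst e2
      have hN : N ≠ 0 := by
        rintro rfl
        exact hm' (by ring)
      field_simp
      linear_combination (-(s * C * N ^ 2)) * e1 + 4 * (s ^ 2 + N ^ 2) * e3
    · rwa [hbm, zpow_one, one_mul]
  · obtain ⟨n, hn⟩ : ∃ n : k, 8 * n = eK t c ^ 2 - 4 * b - 4 / (c * b) :=
      ⟨(eK t c ^ 2 - 4 * b - 4 / (c * b)) / 8, by field_simp⟩
    rw [← hn] at h3
    have hn2 : n ^ 2 * c = 1 := by
      field_simp at h3
      have h4 : (64 : k) * (n ^ 2 * c) = 64 * 1 := by linear_combination h3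
      exact mul_left_cancel₀ (by norm_num) h4
    have hn3 : 8 * n * (c * b) = eK t c ^ 2 * (c * b) - 4 * b * (c * b) - 4 := by
      rw [hn]
      field_simp
    have key := special (t := t) hc he (α₁ := 1) (α₂ := b) (p := 1) (n := n) (m₁ := 1)
      (m₂ := 0) one_ne_zero one_ne_zero hb (fun K _ _ s hs => ?_) ha (d := d) ?_
    · rwa [zpow_zero, mul_one, zpow_one, one_mul] at key
    · have e1 := congrArg (algebraMap k K) hn3
      have e2 := congrArg (algebraMap k K) hn2
      have hc' : algebraMap k K c ≠ 0 := by simpa using hc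
      have hb' : algebraMap k K b ≠ 0 := by simpa using hb
      rw [eK_al]
      simp only [map_mul, map_sub, map_one, map_pow, map_ofNat] at e1 e2
      simp only [map_one, one_mul, mul_one, zpow_one, zpow_zero]
      generalize algebraMap k K c = C at *
      generalize algebraMap k K b = B at *
      generalize algebraMap k K n = N at *
      generalize algebraMap k K (eK t c) = E at *
      field_simp
      linear_combination (-s) * e1 + 4 * B * e2
    · rwa [zpow_zero, mul_one, zpow_one, one_mul]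

end Pool.Agent.DWK
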