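import Pool.Agent.DWK.Base
import Pool.Agent.DWK.Spec1
import Pool.Agent.DWK.EllA
import Pool.Agent.DWK.Lim3
import Pool.Agent.DWK.Bd3

/-!
# Limits of pairs of points: a criterion
-/

set_option autoImplicit false

noncomputable section

namespace Pool.Agent.DWK

open Pool.Agent.ZCyc Pool.Agent.TInf Pool.Agent.GT
open Pool.Agent.VFP (Om tt)
open scoped Classical LinearAlgebra.Projectivization

variable {k : Type} [Field k] [IsAlgClosed k] [CharZero k] {t : k}

/-- Let `A`, `B`, `D` be the three functions. If `A` or `B` does not have a nonzero value at `v` then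
both cycles in the definition of `fz` have the limit zero (`lim_zd_bd`). Otherwise let `a`, `b` be the
values. The relation (`rel_f`) shows that `D` is in the valuation ring (`VFP.mem_of_pow`), let `d` be
its value (`DCI57.exists_at`). The relation holds for `c, a, b, d`. By `lim_zd` the limits are
`hd t c a b d` and `hd t c a b (-d)`, and these are zero by `hd_special`. -/
theorem lim_fz_sp {v : Place k (Om k)} {C W X Y X' Y' : Om k} {c : k}
    (hC : v.At C c) (hc : c ≠ 0) (he : eK t c ≠ 0) (hw : W ^ 2 = gc t C)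
    (h : Y ≠ 0 → Y' ≠ 0 → Y ^ 2 = (X - dl t C / 3) *
        ((X - dl t C / 3) ^ 2 + dl t C * (X - dl t C / 3) + Qc t C W) →
      Y' ^ 2 = (X' - dl t C / 3) *
        ((X' - dl t C / 3) ^ 2 + dl t C * (X' - dl t C / 3) + Qc t C (-W)) → ∀ a b : k, a ≠ 0 →
      b ≠ 0 → v.At (fa t C W (X - dl t C / 3) Y (X' - dl t C / 3) Y') a →
      v.At (fb C (X - dl t C / 3) (X' - dl t C / 3)) b → Spc t c a b) :
    lim1 (dwork_hom t) v (fz t C W (some (X, Y)) (some (X', Y'))) = 0 := by
  unfold fz
  dsimp only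
  split_ifs with hcond
  swap
  · exact map_zero _
  obtain ⟨hY, hY', hP, hP'⟩ := hcond
  have e1 := eon_iff.1 hP
  have e2 := eon_iff.1 hP'
  have hS := h hY hY' e1 e2
  have hC0 : C ≠ 0 := by
    rintro rfl
    exact hc (hC.unique VFP.at_zero)
  have hR := rel_f hw hC0 hY hY' e1 e2
  rw [map_sub]
  generalize fa t C W (X - dl t C / 3) Y (X' - dl t C / 3) Y' = A at hS hR ⊢
  generalize fb C (X - dl t C / 3) (X' - dl t C / 3) = B at hS hR ⊢
  generalize fd t C W (X - dl t C / 3) Y (X' - dl t C / 3) Y' = D at hR ⊢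
  by_cases hAB : (∃ a : k, a ≠ 0 ∧ v.At A a) ∧ ∃ b : k, b ≠ 0 ∧ v.At B b
  · obtain ⟨⟨a, ha, hA⟩, b, hb, hB⟩ := hAB
    have hsp := hS a b ha hb hA hB
    have hR' : Rel t C A B (-D) := by
      unfold Rel at hR ⊢
      rw [← hR]
      ring
    have hval : v.At (eK t C ^ 2 - 4 * (A + B + 1 / (C * A) + 1 / (C * B)))
        (eK t c ^ 2 - 4 * (a + b + 1 / (c * a) + 1 / (c * b))) :=
      ((eK_at hC).pow 2).sub ((at_num' v 4).mul (((hA.add hB).add
        (VFP.at_one.div (hC.mul hA) (mul_ne_zero hc ha))).add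
        (VFP.at_one.div (hC.mul hB) (mul_ne_zero hc hb))))
    have hD2 : D ^ 2 ∈ v.ring := by
      unfold Rel at hR
      rw [hR]
      exact hval.mem
    obtain ⟨d, hD⟩ := DCI57.exists_at v (VFP.mem_of_pow two_ne_zero hD2)
    have hr : Rel t c a b d := by
      unfold Rel at hR ⊢
      rw [← hR] at hval
      exact (hD.pow 2).unique hval
    have hr' : Rel t c a b (-d) := by
      unfold Rel at hr ⊢
      rw [← hr]
      ring
    rw [lim_zd hC hA hB hD hc he ha hb hR, lim_zd hC hA hB hD.neg hc he ha hb hR',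
      hd_special hc he ha hb hr hsp, hd_special hc he ha hb hr' hsp, sub_zero]
  · rw [lim_zd_bd fun h0 => hAB ⟨h0.2.1, h0.2.2⟩, lim_zd_bd fun h0 => hAB ⟨h0.2.1, h0.2.2⟩,
      sub_zero]

end Pool.Agent.DWK
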