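import Pool.Agent.DWK.Lim3
import Pool.Agent.DWK.Bd3

/-!
# The involution d -> -d
-/

set_option autoImplicit false

noncomputable section

namespace Pool.Agent.DWK

open Pool.Agent.ZCyc Pool.Agent.TInf Pool.Agent.GT
open Pool.Agent.VFP (Om tt)
open scoped Classical LinearAlgebra.Projectivization

variable {k : Type} [Field k] [IsAlgClosed k] [CharZero k] {t : k}

/-- Let `τ = tt k`, `A = (1 - τ) a`, and let `D` be a square root in `Om k` of the right side of the relation
for `c, A, b` (constants in `Om k`). Consider the cycle `zd t c A b D + zd t c A b (-D)`. At a place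
above `τ = 0` the value of `D` is `d` or `-d` (its square is `d ²`), so by `lim_zd` the limit is
`hd t c a b d + hd t c a b (-d)`. At a place above `τ = 1` the value of `A` is `0`, so the limit is `0`
(`lim_zd_bd`). `bridge1`. -/
theorem hd_neg {c a b d : k} (hc : c ≠ 0) (he : eK t c ≠ 0) (ha : a ≠ 0) (hb : b ≠ 0)
    (hR : Rel t c a b d) : hd t c a b (-d) = -hd t c a b d := by
  set φ : k →+* Om k := algebraMap k (Om k) with hφ
  set N : Om k := 1 - tt k with hN
  obtain ⟨D, hD⟩ := IsAlgClosed.exists_pow_nat_eq (eK t (φ c) ^ 2 -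
    4 * (N * φ a + φ b + 1 / (φ c * (N * φ a)) + 1 / (φ c * φ b))) (n := 2) (by norm_num)
  have hRD : Rel t (φ c) (N * φ a) (φ b) D := hD
  have hRD' : Rel t (φ c) (N * φ a) (φ b) (-D) := by
    unfold Rel
    rw [neg_sq]
    exact hD
  have hNat : ∀ (v : Place k (Om k)) (c₀ : k), v.At (tt k) c₀ → v.At N (1 - c₀) := by
    intro v c₀ hv
    exact VFP.at_one.sub hv
  have hb := bridge1 (t := t) (zd t (φ c) (N * φ a) (φ b) D + zd t (φ c) (N * φ a) (φ b) (-D))
    (c₀ := 0) (c₁ := 1) (C₀ := hd t c a b d + hd t c a b (-d)) (C₁ := 0) ?_ ?_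
  · exact eq_neg_of_add_eq_zero_right hb
  · intro v hv
    have hc1 : v.At (φ c) c := Place.at_const c
    have hb1 : v.At (φ b) b := Place.at_const b
    have ha1 : v.At (N * φ a) a := by
      have := (hNat v 0 hv).mul (Place.at_const (v := v) a)
      rwa [sub_zero, one_mul] at this
    have hE : v.At (eK t (φ c)) (eK t c) := (Place.at_const (v := v) (5 * t)).sub hc1
    have hF : v.At (eK t (φ c) ^ 2 -
        4 * (N * φ a + φ b + 1 / (φ c * (N * φ a)) + 1 / (φ c * φ b)))
        (eK t c ^ 2 - 4 * (a + b + 1 / (c * a) + 1 / (c * b))) :=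
      (hE.pow 2).sub ((VFP.at_num 4).mul (((ha1.add hb1).add
        (VFP.at_one.div (hc1.mul ha1) (mul_ne_zero hc ha))).add
        (VFP.at_one.div (hc1.mul hb1) (mul_ne_zero hc hb))))
    obtain ⟨d', hd', hd2⟩ := VFP.exists_sq_at hD hF
    have hsq : d' ^ 2 = d ^ 2 := by
      rw [hd2]
      exact hR.symm
    have h1 := lim_zd hc1 ha1 hb1 hd' hc he ha hb hRD
    have h2 := lim_zd hc1 ha1 hb1 hd'.neg hc he ha hb hRD'
    rw [map_add, h1, h2]
    rcases sq_eq_sq_iff_eq_or_eq_neg.1 hsq with h | h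
    · rw [h]
    · rw [h, neg_neg]
      exact add_comm _ _
  · intro v hv
    have ha0 : v.At (N * φ a) 0 := by
      have := (hNat v 1 hv).mul (Place.at_const (v := v) a)
      rwa [sub_self, zero_mul] at this
    have hbd : ∀ D' : Om k, lim1 (dwork_hom t) v (zd t (φ c) (N * φ a) (φ b) D') = 0 := by
      intro D'
      apply lim_zd_bd
      rintro ⟨-, ⟨a', ha', ha''⟩, -⟩
      exact ha' (ha''.unique ha0)
    rw [map_add, hbd, hbd, add_zero]

end Pool.Agent.DWK
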