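import Pool.Agent.DWK.FFA
import Pool.Agent.DWK.EllS
import Pool.Agent.DWK.R6

/-!
# Every class is the class of a pair of points
-/

set_option autoImplicit false

noncomputable section

namespace Pool.Agent.DWK

open Pool.Agent.ZCyc Pool.Agent.TInf Pool.Agent.GT
open Pool.Agent.VFP (Om tt)
open scoped Classical LinearAlgebra.Projectivization

variable {k : Type} [Field k] [IsAlgClosed k] [CharZero k] {t : k}

private theorem fsur_root {c w a b : k} (hc : c ≠ 0) (hb : b ≠ 0)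
    (h1 : ¬ Qc t c w * a = Qc t c (-w) * b) (h2 : ¬ 4 * c ^ 4 * (a * b) = Qc t c (-w) ^ 2) :
    ∃ x x' : k, x ≠ 0 ∧ x' ≠ 0 ∧ x * x' = 2 * c ^ 2 * b ∧
      2 * c ^ 2 * a * x' * (x ^ 2 + dl t c * x + Qc t c w) =
        Qc t c (-w) * x * (x' ^ 2 + dl t c * x' + Qc t c (-w)) := by
  have hP : 2 * c ^ 2 * b ≠ 0 := mul_ne_zero (mul_ne_zero two_ne_zero (pow_ne_zero 2 hc)) hb
  set P : k := 2 * c ^ 2 * b with hPd
  have hA : 2 * c ^ 2 * a * P - Qc t c (-w) ^ 2 ≠ 0 := by
    intro h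
    apply h2
    rw [hPd] at h
    linear_combination h
  have hC : P * (2 * c ^ 2 * a * Qc t c w - Qc t c (-w) * P) ≠ 0 := by
    refine mul_ne_zero hP ?_
    intro h
    apply h1
    apply mul_left_cancel₀ (mul_ne_zero (two_ne_zero (α := k)) (pow_ne_zero 2 hc))
    rw [hPd] at h
    linear_combination h
  obtain ⟨x, hx⟩ : ∃ x : k, (2 * c ^ 2 * a * P - Qc t c (-w) ^ 2) * (x * x) +
      (dl t c * P * (2 * c ^ 2 * a - Qc t c (-w))) * x +
      P * (2 * c ^ 2 * a * Qc t c w - Qc t c (-w) * P) = 0 := by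
    have h4 : NeZero (2 : k) := ⟨two_ne_zero⟩
    apply exists_quadratic_eq_zero hA
    obtain ⟨s, hs⟩ := IsAlgClosed.exists_pow_nat_eq
      (discrim (2 * c ^ 2 * a * P - Qc t c (-w) ^ 2)
        (dl t c * P * (2 * c ^ 2 * a - Qc t c (-w)))
        (P * (2 * c ^ 2 * a * Qc t c w - Qc t c (-w) * P))) (n := 2) (by norm_num)
    exact ⟨s, by rw [← hs, sq]⟩
  have hx0 : x ≠ 0 := by
    rintro rfl
    apply hC
    linear_combination hx
  refine ⟨x, P / x, hx0, div_ne_zero hP hx0, by field_simp, ?_⟩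
  field_simp
  linear_combination hx

/-- Let `c = u₄`, `a = u₀ u₂`, `b = u₀ u₃`, `d = u₀ + u₁ - u₂ - u₃` (`rel_of_inv`, `hd_eq`), `δ = dl t c`,
`Q = Qc t c w`, `Q' = Qc t c (-w)`, `P = 2 c ² b`. If `4 c ⁴ a b = Q' ²` or `Q a = Q' b` then `nu t u = 0`
(`spc_two`, `spc_one`, `hd_special`). Otherwise let `x` be a root of
`(2 c ² a P - Q' ²) x ² + δ P (2 c ² a - Q') x + P (2 c ² a Q - Q' P) = 0` (the first and the last
coefficient are not zero), so `x ≠ 0`, and `x' = P / x`. Then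
`2 c ² a x' (x ² + δ x + Q) = Q' x (x' ² + δ x' + Q')` (multiply by `x`, use `x x' = P`). If one of
`x ² + δ x + Q`, `x' ² + δ x' + Q'` is zero then both are zero, and `nu t u = 0` by `spc_three`
(`b = fb c x x'`). Otherwise take `y ≠ 0`, `y' ≠ 0` with
`y ² = x (x ² + δ x + Q)`, `y' ² = x' (x' ² + δ x' + Q')`. Then
`fa t c w x y x' y' = a`, `fb c x x' = b`, and `fd ² = d ²` (`rel_f` and `rel_of_inv`), so we may choose the sign of
`y` such that `fd t c w x y x' y' = d`. The points `some (x + δ / 3, y)`, `some (x' + δ / 3, y')` have the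
class `hd t c a b d - hd t c a b (-d) = 2 hd t c a b d = 2 nu t u` (`ff_on`, `hd_neg`). -/
theorem ff_surj {u : Fin 5 → k} (hu : Tor t u) (he : eK t (u 4) ≠ 0) {w : k}
    (hw : w ^ 2 = gc t (u 4)) : nu t u = 0 ∨ ∃ p p' : EPt k,
      ff t (u 4) w p p' = (2 : ℚ) • nu t u := by
  have hI : Inv (u 4) (u 0 * u 2) (u 0 * u 3) (u 0 + u 1 - (u 2 + u 3)) u := ⟨rfl, rfl, rfl, rfl⟩
  obtain ⟨hc, ha, hb, hR⟩ := rel_of_inv hu hI
  have hnu := hd_eq he hu hI
  generalize u 0 * u 2 = a at *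
  generalize u 0 * u 3 = b at *
  generalize u 0 + u 1 - (u 2 + u 3) = d at *
  generalize u 4 = c at *
  rw [← hnu]
  by_cases h1 : Qc t c w * a = Qc t c (-w) * b
  · exact Or.inl (hd_special hc he ha hb hR (spc_one hw hc h1))
  by_cases h2 : 4 * c ^ 4 * (a * b) = Qc t c (-w) ^ 2
  · exact Or.inl (hd_special hc he ha hb hR (spc_two hw hc h2))
  obtain ⟨x, x', hx, hx', hP, hE⟩ := fsur_root (t := t) (w := w) hc hb h1 h2
  have hQ' : Qc t c (-w) ≠ 0 := Qc_ne (by rw [neg_sq, hw]) hc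
  have hfb : fb c x x' = b := by
    unfold fb
    rw [hP]
    field_simp
  by_cases hf : x ^ 2 + dl t c * x + Qc t c w = 0
  · have hf' : x' ^ 2 + dl t c * x' + Qc t c (-w) = 0 := by
      rw [hf, mul_zero] at hE
      rcases mul_eq_zero.1 hE.symm with h | h
      · exact absurd h (mul_ne_zero hQ' hx)
      · exact h
    refine Or.inl (hd_special hc he ha hb hR ?_)
    rw [← hfb]
    exact spc_three hw hc hf hf'
  have hf' : x' ^ 2 + dl t c * x' + Qc t c (-w) ≠ 0 := by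
    intro h
    rw [h, mul_zero] at hE
    rcases mul_eq_zero.1 hE with h3 | h3
    · exact (mul_ne_zero (mul_ne_zero (mul_ne_zero two_ne_zero (pow_ne_zero 2 hc)) ha) hx') h3
    · exact hf h3
  right
  obtain ⟨y, hy⟩ := IsAlgClosed.exists_pow_nat_eq
    (x * (x ^ 2 + dl t c * x + Qc t c w)) (n := 2) (by norm_num)
  obtain ⟨y', hy'⟩ := IsAlgClosed.exists_pow_nat_eq
    (x' * (x' ^ 2 + dl t c * x' + Qc t c (-w))) (n := 2) (by norm_num)
  have hy0 : y ≠ 0 := by
    rintro rfl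
    exact mul_ne_zero hx hf (by rw [← hy]; ring)
  have hy0' : y' ≠ 0 := by
    rintro rfl
    exact mul_ne_zero hx' hf' (by rw [← hy']; ring)
  have hfa : fa t c w x y x' y' = a := by
    unfold fa
    rw [hy, hy']
    generalize x ^ 2 + dl t c * x + Qc t c w = f at hE hf
    generalize x' ^ 2 + dl t c * x' + Qc t c (-w) = f' at hE hf'
    have hf2 : f ≠ 0 := hf
    field_simp
    linear_combination (-1) * hE
  have hrel := rel_f (t := t) hw hc hy0 hy0' hy hy'
  rw [hfa, hfb] at hrel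
  have hsq : fd t c w x y x' y' ^ 2 = d ^ 2 := by
    unfold Rel at hrel hR
    rw [hrel, hR]
  obtain ⟨z, hz0, hz, hza, hzd⟩ : ∃ z : k, z ≠ 0 ∧
      z ^ 2 = x * (x ^ 2 + dl t c * x + Qc t c w) ∧ fa t c w x z x' y' = a ∧
      fd t c w x z x' y' = d := by
    rcases sq_eq_sq_iff_eq_or_eq_neg.1 hsq with h | h
    · exact ⟨y, hy0, hy, hfa, h⟩
    · refine ⟨-y, neg_ne_zero.2 hy0, by rw [neg_sq, hy], ?_, ?_⟩
      · rw [← hfa]
        unfold fa
        rw [neg_sq]
      · have h3 : fd t c w x (-y) x' y' = -fd t c w x y x' y' := by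
          unfold fd
          rw [neg_mul, div_neg]
        rw [h3, h, neg_neg]
  refine ⟨some (x + dl t c / 3, z), some (x' + dl t c / 3, y'), ?_⟩
  rw [ff_on hz0 hy0' (by rw [eon_iff, add_sub_cancel_right]; exact hz)
    (by rw [eon_iff, add_sub_cancel_right]; exact hy')]
  rw [add_sub_cancel_right, add_sub_cancel_right, hza, hfb, hzd, hd_neg hc he ha hb hR,
    sub_neg_eq_add, two_smul]

end Pool.Agent.DWK
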