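import Pool.Agent.DWK.Base

/-!
# Deformations of a pair of values of the invariant c
-/

set_option autoImplicit false

noncomputable section

namespace Pool.Agent.DWK

open Pool.Agent.ZCyc Pool.Agent.TInf Pool.Agent.GT
open Pool.Agent.VFP (Om tt)
open scoped Classical LinearAlgebra.Projectivization

variable {k : Type} [Field k] [IsAlgClosed k] [CharZero k] {t : k}

/-- Let `C₁, C₂` be the roots in `Om k` of `T ² - (c₁ + c₂ - τ z₁) T + (c₁ c₂ + τ z₀)`, and `W_j` a square root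
of `gc t C_j`. -/
theorem exists_def (s : Tup t) (z : Fin 2 → k) (τ : Om k) : ∃ S : TupO t,
    S.c 0 + S.c 1 = algebraMap k (Om k) (s.c 0 + s.c 1) - τ * algebraMap k (Om k) (z 1) ∧
    S.c 0 * S.c 1 = algebraMap k (Om k) (s.c 0 * s.c 1) + τ * algebraMap k (Om k) (z 0) := by
  generalize algebraMap k (Om k) (s.c 0 + s.c 1) - τ * algebraMap k (Om k) (z 1) = E₁
  generalize algebraMap k (Om k) (s.c 0 * s.c 1) + τ * algebraMap k (Om k) (z 0) = E₂
  obtain ⟨r, hr⟩ := IsAlgClosed.exists_pow_nat_eq (E₁ ^ 2 - 4 * E₂) (n := 2) (by norm_num)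
  obtain ⟨W₁, hW₁⟩ := IsAlgClosed.exists_pow_nat_eq (gc t ((E₁ + r) / 2)) (n := 2) (by norm_num)
  obtain ⟨W₂, hW₂⟩ := IsAlgClosed.exists_pow_nat_eq (gc t ((E₁ - r) / 2)) (n := 2) (by norm_num)
  refine ⟨⟨![(E₁ + r) / 2, (E₁ - r) / 2], ![W₁, W₂], ?_⟩, ?_, ?_⟩
  · intro j
    fin_cases j
    · exact hW₁
    · exact hW₂
  · change (E₁ + r) / 2 + (E₁ - r) / 2 = E₁
    ring
  · change (E₁ + r) / 2 * ((E₁ - r) / 2) = E₂
    have h4 : (E₁ + r) / 2 * ((E₁ - r) / 2) = (E₁ ^ 2 - r ^ 2) / 4 := by ring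
    rw [h4, hr]
    field_simp
    ring

/-- Let `τ` have the value `0`. The `C_j` are integral (`VFP.mem_of_quad`), and their values are the two
roots of `(T - c₁) (T - c₂)` (they have the sum `c₁ + c₂` and the product `c₁ c₂`), so they are
`c_(τ' j)` for a permutation `τ'`. The value of `W_j` is a square root of `gc t (c_(τ' j))`, so it is
`± w_(τ' j)`. -/
theorem def_to {s : Tup t} {z : Fin 2 → k} {τ : Om k} {S : TupO t}
    (h₁ : S.c 0 + S.c 1 = algebraMap k (Om k) (s.c 0 + s.c 1) - τ * algebraMap k (Om k) (z 1))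
    (h₂ : S.c 0 * S.c 1 = algebraMap k (Om k) (s.c 0 * s.c 1) + τ * algebraMap k (Om k) (z 0))
    {v : Place k (Om k)} (hv : v.At τ 0) : ∃ (g : Fin 2 → Fin 2) (τ' : Equiv.Perm (Fin 2)),
      S.To v s g τ' := by
  have hE₁ : v.At (S.c 0 + S.c 1) (s.c 0 + s.c 1) := by
    rw [h₁]
    have := (Place.at_const (v := v) (s.c 0 + s.c 1)).sub (hv.mul (Place.at_const (z 1)))
    rwa [zero_mul, sub_zero] at this
  have hE₂ : v.At (S.c 0 * S.c 1) (s.c 0 * s.c 1) := by
    rw [h₂]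
    have := (Place.at_const (v := v) (s.c 0 * s.c 1)).add (hv.mul (Place.at_const (z 0)))
    rwa [zero_mul, add_zero] at this
  have hmem : ∀ j, S.c j ∈ v.ring := by
    intro j
    refine VFP.mem_of_quad hE₁.mem hE₂.mem ?_
    fin_cases j
    · change S.c 0 ^ 2 - (S.c 0 + S.c 1) * S.c 0 + S.c 0 * S.c 1 = 0
      ring
    · change S.c 1 ^ 2 - (S.c 0 + S.c 1) * S.c 1 + S.c 0 * S.c 1 = 0
      ring
  choose x hx using fun j => DCI57.exists_at v (hmem j)
  have hs : x 0 + x 1 = s.c 0 + s.c 1 := ((hx 0).add (hx 1)).unique hE₁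
  have hp : x 0 * x 1 = s.c 0 * s.c 1 := ((hx 0).mul (hx 1)).unique hE₂
  have hτ : ∃ τ' : Equiv.Perm (Fin 2), ∀ j, x j = s.c (τ' j) := by
    have h0 : (x 0 - s.c 0) * (x 0 - s.c 1) = 0 := by
      have : x 1 = s.c 0 + s.c 1 - x 0 := by rw [← hs]; ring
      rw [this] at hp
      linear_combination -hp
    rcases mul_eq_zero.1 h0 with h0 | h0
    · refine ⟨1, fun j => ?_⟩
      have e0 : x 0 = s.c 0 := sub_eq_zero.1 h0
      fin_cases j
      · exact e0
      · change x 1 = s.c 1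
        rw [e0] at hs
        exact add_left_cancel hs
    · refine ⟨Equiv.swap 0 1, fun j => ?_⟩
      have e0 : x 0 = s.c 1 := sub_eq_zero.1 h0
      fin_cases j
      · change x 0 = s.c (Equiv.swap 0 1 0)
        rw [Equiv.swap_apply_left]
        exact e0
      · change x 1 = s.c (Equiv.swap 0 1 1)
        rw [Equiv.swap_apply_right]
        rw [e0, add_comm (s.c 0)] at hs
        exact add_left_cancel hs
  obtain ⟨τ', hτ'⟩ := hτ
  have hw : ∀ j, ∃ g : Fin 2, v.At (S.w j) (wi g (s.w (τ' j))) := by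
    intro j
    have hg : v.At (S.w j ^ 2) (s.w (τ' j) ^ 2) := by
      rw [S.sq j, s.sq (τ' j), ← hτ' j]
      exact gc_at (hx j)
    obtain ⟨y, hy⟩ := DCI57.exists_at v (VFP.mem_of_pow two_ne_zero hg.mem)
    have h1 : y ^ 2 = s.w (τ' j) ^ 2 := (hy.pow 2).unique hg
    rcases sq_eq_sq_iff_eq_or_eq_neg.1 h1 with h2 | h2
    · exact ⟨0, by rw [h2] at hy; simpa [wi] using hy⟩
    · exact ⟨1, by rw [h2] at hy; simpa [wi] using hy⟩
  choose g hg using hw
  refine ⟨g, τ', fun j => ⟨?_, hg j⟩⟩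
  rw [← hτ' j]
  exact hx j

/-- if both `C_j` are in the valuation ring then `τ z₁` and `τ z₀` are in the valuation ring -/
theorem def_bad {s : Tup t} {z : Fin 2 → k} (hz : z ≠ 0) {τ : Om k} {S : TupO t}
    (h₁ : S.c 0 + S.c 1 = algebraMap k (Om k) (s.c 0 + s.c 1) - τ * algebraMap k (Om k) (z 1))
    (h₂ : S.c 0 * S.c 1 = algebraMap k (Om k) (s.c 0 * s.c 1) + τ * algebraMap k (Om k) (z 0))
    {v : Place k (Om k)} (hv : τ ∉ v.ring) : ∃ j : Fin 2, S.c j ∉ v.ring := by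
  by_contra hcon
  push Not at hcon
  have key : ∀ y : k, y ≠ 0 → τ * algebraMap k (Om k) y ∈ v.ring → False := by
    intro y hy hmem
    apply hv
    have h3 := mul_mem hmem (v.const_mem y⁻¹)
    rwa [mul_assoc, ← map_mul, mul_inv_cancel₀ hy, map_one, mul_one] at h3
  have h4 : τ * algebraMap k (Om k) (z 1) ∈ v.ring := by
    have : τ * algebraMap k (Om k) (z 1) =
        algebraMap k (Om k) (s.c 0 + s.c 1) - (S.c 0 + S.c 1) := by
      rw [h₁]
      ring
    rw [this]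
    exact sub_mem (v.const_mem _) (add_mem (hcon 0) (hcon 1))
  have h5 : τ * algebraMap k (Om k) (z 0) ∈ v.ring := by
    have : τ * algebraMap k (Om k) (z 0) =
        S.c 0 * S.c 1 - algebraMap k (Om k) (s.c 0 * s.c 1) := by
      rw [h₂]
      ring
    rw [this]
    exact sub_mem (mul_mem (hcon 0) (hcon 1)) (v.const_mem _)
  apply hz
  funext j
  by_contra hj
  fin_cases j
  · exact key _ hj h5
  · exact key _ hj h4

end Pool.Agent.DWK
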