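import Pool.Agent.DWK.Defs2

/-!
# Products of the values of a polynomial at the roots of a quadratic polynomial
-/

set_option autoImplicit false

noncomputable section

namespace Pool.Agent.DWK

open Pool.Agent.ZCyc Pool.Agent.TInf Pool.Agent.GT
open Pool.Agent.VFP (Om tt)
open scoped Classical LinearAlgebra.Projectivization

open Polynomial

variable {k : Type} [Field k] [CharZero k]

/-- all coefficients have degree at most `m` -/
private def Dg (m : ℕ) (p : MvPolynomial (Fin 2) k[X]) : Prop :=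
  ∀ z : Fin 2 →₀ ℕ, (p.coeff z).natDegree ≤ m

private lemma Dg.mono {m m' : ℕ} {p : MvPolynomial (Fin 2) k[X]} (h : Dg m p) (hm : m ≤ m') :
    Dg m' p := fun z => (h z).trans hm

private lemma Dg.add {m : ℕ} {p q : MvPolynomial (Fin 2) k[X]} (hp : Dg m p) (hq : Dg m q) :
    Dg m (p + q) := fun z => by
  rw [MvPolynomial.coeff_add]
  exact (natDegree_add_le _ _).trans (max_le (hp z) (hq z))

private lemma Dg.sub {m : ℕ} {p q : MvPolynomial (Fin 2) k[X]} (hp : Dg m p) (hq : Dg m q) :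
    Dg m (p - q) := fun z => by
  rw [MvPolynomial.coeff_sub]
  exact (natDegree_sub_le _ _).trans (max_le (hp z) (hq z))

private lemma Dg.mul {m m' : ℕ} {p q : MvPolynomial (Fin 2) k[X]} (hp : Dg m p) (hq : Dg m' q) :
    Dg (m + m') (p * q) := fun z => by
  rw [MvPolynomial.coeff_mul]
  exact natDegree_sum_le_of_forall_le _ _ fun x _ =>
    (natDegree_mul_le).trans (Nat.add_le_add (hp _) (hq _))

private lemma Dg.sum {ι : Type} {m : ℕ} (s : Finset ι) (f : ι → MvPolynomial (Fin 2) k[X])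
    (h : ∀ i ∈ s, Dg m (f i)) : Dg m (∑ i ∈ s, f i) := fun z => by
  rw [MvPolynomial.coeff_sum]
  exact natDegree_sum_le_of_forall_le _ _ fun i hi => h i hi z

private lemma Dg_C {m : ℕ} {a : k[X]} (h : a.natDegree ≤ m) :
    Dg m (MvPolynomial.C a : MvPolynomial (Fin 2) k[X]) := fun z => by
  rw [MvPolynomial.coeff_C]
  split_ifs
  · exact h
  · simp

private lemma Dg_X (i : Fin 2) : Dg 0 (MvPolynomial.X i : MvPolynomial (Fin 2) k[X]) := fun z => by
  rw [MvPolynomial.coeff_X]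
  split_ifs <;> simp

private lemma Dg.pow {m : ℕ} {p : MvPolynomial (Fin 2) k[X]} (hp : Dg m p) (n : ℕ) :
    Dg (n * m) (p ^ n) := by
  induction n with
  | zero =>
    have h : Dg 0 (MvPolynomial.C (1 : k[X]) : MvPolynomial (Fin 2) k[X]) := Dg_C (by simp)
    simpa using h
  | succ n ih =>
    rw [pow_succ, Nat.succ_mul]
    exact ih.mul hp

/-- the power sums -/
private def ps (E₁ E₂ : MvPolynomial (Fin 2) k[X]) : ℕ → MvPolynomial (Fin 2) k[X]
  | 0 => 2
  | 1 => E₁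
  | m + 2 => E₁ * ps E₁ E₂ (m + 1) - E₂ * ps E₁ E₂ m

private lemma Dg_ps {E₁ E₂ : MvPolynomial (Fin 2) k[X]} (h₁ : Dg 1 E₁) (h₂ : Dg 1 E₂) :
    ∀ m, Dg m (ps E₁ E₂ m)
  | 0 => by
    have h : Dg 0 (MvPolynomial.C (2 : k[X]) : MvPolynomial (Fin 2) k[X]) := Dg_C (by simp)
    have e : (MvPolynomial.C (2 : k[X]) : MvPolynomial (Fin 2) k[X]) = 2 := map_ofNat _ 2
    rw [e] at h
    exact h
  | 1 => h₁
  | m + 2 => by
    rw [ps]
    refine Dg.sub ?_ ?_
    · exact (h₁.mul (Dg_ps h₁ h₂ (m + 1))).mono (by omega)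
    · exact (h₂.mul (Dg_ps h₁ h₂ m)).mono (by omega)

private lemma map_ps {K : Type} [Field K] (W : MvPolynomial (Fin 2) k[X] →+* K)
    {E₁ E₂ : MvPolynomial (Fin 2) k[X]} {C₁ C₂ : K} (h₁ : W E₁ = C₁ + C₂) (h₂ : W E₂ = C₁ * C₂) :
    ∀ m, W (ps E₁ E₂ m) = C₁ ^ m + C₂ ^ m
  | 0 => by
    rw [ps, map_ofNat]
    norm_num
  | 1 => by
    rw [ps, h₁]
    ring
  | m + 2 => by
    rw [ps, map_sub, map_mul, map_mul, map_ps W h₁ h₂ (m + 1), map_ps W h₁ h₂ m, h₁, h₂]
    ring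

private lemma map_sij {K : Type} [Field K] (W : MvPolynomial (Fin 2) k[X] →+* K)
    {E₁ E₂ : MvPolynomial (Fin 2) k[X]} {C₁ C₂ : K} (h₁ : W E₁ = C₁ + C₂) (h₂ : W E₂ = C₁ * C₂)
    (i j : ℕ) : W (E₂ ^ min i j * ps E₁ E₂ (max i j - min i j)) =
      C₁ ^ i * C₂ ^ j + C₁ ^ j * C₂ ^ i := by
  rw [map_mul, map_pow, map_ps W h₁ h₂, h₂]
  rcases le_total i j with h | h
  · obtain ⟨d, rfl⟩ := Nat.exists_eq_add_of_le h
    rw [min_eq_left h, max_eq_right h, Nat.add_sub_cancel_left]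
    ring
  · obtain ⟨d, rfl⟩ := Nat.exists_eq_add_of_le h
    rw [min_eq_right h, max_eq_left h, Nat.add_sub_cancel_left]
    ring

/-- Let `E₁ = c₁ + c₂ - T z₁`, `E₂ = c₁ c₂ + T z₀` in the ring `R = MvPolynomial (Fin 2) k[X]`,
where `T` is
the variable of `k[X]` and `z₀, z₁` the variables of `R`. Let `π₀ = 2`, `π₁ = E₁`,
`π_(m+2) = E₁ π_(m+1) - E₂ π_m` (the power sums). Then
`N(C₁) N(C₂) = ∑_i n_i ² E₂ ^ i + ∑_(i < j) n_i n_j E₂ ^ i π_(j - i)` for the coefficients `n_i`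
of `N`. The
elements of `R` all of whose coefficients have degree at most `m` in `T` form a subspace `R_m`, with
`R_m R_m' ⊆ R_(m+m')`, and `E₁, E₂ ∈ R_1`, so `π_m ∈ R_m`, and `E₂ ^ i π_(j-i) ∈ R_j`. -/
theorem exists_sym (N : k[X]) {n : ℕ} (hN : N.natDegree ≤ n) (c₁ c₂ : k) :
    ∃ q : MvPolynomial (Fin 2) k[X], (∀ z : Fin 2 →₀ ℕ, (q.coeff z).natDegree ≤ n) ∧
      ∀ (K : Type) [Field K] [Algebra k K] (z : Fin 2 → k) (τ C₁ C₂ : K),
        C₁ + C₂ = algebraMap k K (c₁ + c₂) - τ * algebraMap k K (z 1) →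
        C₁ * C₂ = algebraMap k K (c₁ * c₂) + τ * algebraMap k K (z 0) →
        aeval τ (q.eval fun m => C (z m)) = aeval C₁ N * aeval C₂ N := by
  set E₁ : MvPolynomial (Fin 2) k[X] := MvPolynomial.C (C (c₁ + c₂)) -
    MvPolynomial.C X * MvPolynomial.X 1 with hE₁
  set E₂ : MvPolynomial (Fin 2) k[X] := MvPolynomial.C (C (c₁ * c₂)) +
    MvPolynomial.C X * MvPolynomial.X 0 with hE₂
  have hd₁ : Dg 1 E₁ := by
    refine Dg.sub (Dg_C ((natDegree_C _).trans_le zero_le_one)) ?_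
    exact (Dg_C (m := 1) natDegree_X_le).mul (Dg_X 1)
  have hd₂ : Dg 1 E₂ := by
    refine Dg.add (Dg_C ((natDegree_C _).trans_le zero_le_one)) ?_
    exact (Dg_C (m := 1) natDegree_X_le).mul (Dg_X 0)
  refine ⟨MvPolynomial.C (C (1 / 2 : k)) * ∑ i ∈ Finset.range (n + 1), ∑ j ∈ Finset.range (n + 1),
    MvPolynomial.C (C (N.coeff i * N.coeff j)) *
      (E₂ ^ min i j * ps E₁ E₂ (max i j - min i j)), ?_, ?_⟩
  · have h : Dg (0 + n) (MvPolynomial.C (C (1 / 2 : k)) * ∑ i ∈ Finset.range (n + 1),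
        ∑ j ∈ Finset.range (n + 1), MvPolynomial.C (C (N.coeff i * N.coeff j)) *
        (E₂ ^ min i j * ps E₁ E₂ (max i j - min i j))) := by
      refine (Dg_C (m := 0) (natDegree_C _).le).mul (Dg.sum _ _ fun i hi => Dg.sum _ _ fun j hj => ?_)
      rw [Finset.mem_range] at hi hj
      refine ((Dg_C (m := 0) (natDegree_C _).le).mul ((hd₂.pow (min i j)).mul
        (Dg_ps hd₁ hd₂ (max i j - min i j)))).mono ?_
      rcases le_total i j with h | h
      · rw [min_eq_left h, max_eq_right h]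
        omega
      · rw [min_eq_right h, max_eq_left h]
        omega
    rw [Nat.zero_add] at h
    exact h
  · intro K _ _ z τ C₁ C₂ h1 h2
    let W : MvPolynomial (Fin 2) k[X] →+* K :=
      (aeval τ : k[X] →ₐ[k] K).toRingHom.comp (MvPolynomial.eval fun m => C (z m))
    have hW : ∀ p : MvPolynomial (Fin 2) k[X],
        aeval τ (MvPolynomial.eval (fun m => C (z m)) p) = W p := fun p => rfl
    have hC : ∀ a : k, W (MvPolynomial.C (C a)) = algebraMap k K a := fun a => by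
      rw [← hW, MvPolynomial.eval_C, aeval_C]
    have hX : W (MvPolynomial.C X) = τ := by
      rw [← hW, MvPolynomial.eval_C, aeval_X]
    have hV : ∀ i, W (MvPolynomial.X i) = algebraMap k K (z i) := fun i => by
      rw [← hW, MvPolynomial.eval_X, aeval_C]
    have w1 : W E₁ = C₁ + C₂ := by
      rw [hE₁, map_sub W, map_mul W, hC, hX, hV, h1]
    have w2 : W E₂ = C₁ * C₂ := by
      rw [hE₂, map_add W, map_mul W (MvPolynomial.C X), hC, hX, hV, h2]
    have hs : ∀ x : K, aeval x N = ∑ i ∈ Finset.range (n + 1), algebraMap k K (N.coeff i) * x ^ i :=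
      fun x => by
        rw [aeval_eq_sum_range' (Nat.lt_succ_of_le hN) x]
        exact Finset.sum_congr rfl fun i _ => Algebra.smul_def _ _
    rw [hW, map_mul, hC, map_sum]
    have h3 : ∀ i j, W (MvPolynomial.C (C (N.coeff i * N.coeff j)) *
        (E₂ ^ min i j * ps E₁ E₂ (max i j - min i j))) =
        algebraMap k K (N.coeff i) * C₁ ^ i * (algebraMap k K (N.coeff j) * C₂ ^ j) +
        algebraMap k K (N.coeff j) * C₁ ^ j * (algebraMap k K (N.coeff i) * C₂ ^ i) := by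
      intro i j
      rw [map_mul W, hC, map_sij W w1 w2, map_mul]
      ring
    have h4 : ∑ i ∈ Finset.range (n + 1), W (∑ j ∈ Finset.range (n + 1),
        MvPolynomial.C (C (N.coeff i * N.coeff j)) *
        (E₂ ^ min i j * ps E₁ E₂ (max i j - min i j))) = 2 * (aeval C₁ N * aeval C₂ N) := by
      rw [hs C₁, hs C₂, two_mul, Finset.sum_mul_sum]
      conv_rhs =>
        arg 2
        rw [Finset.sum_comm]
      rw [← Finset.sum_add_distrib]
      refine Finset.sum_congr rfl fun i _ => ?_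
      rw [map_sum, ← Finset.sum_add_distrib]
      exact Finset.sum_congr rfl fun j _ => h3 i j
    rw [h4, ← mul_assoc]
    have h5 : algebraMap k K (1 / 2) * 2 = 1 := by
      rw [← map_ofNat (algebraMap k K) 2, ← map_mul]
      norm_num
    rw [h5, one_mul]

end Pool.Agent.DWK
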