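import Pool.Agent.DWK.Norm
import Pool.Agent.DWK.Symf
import Pool.Agent.DWK.Pts

/-!
# The family of deformations
-/

set_option autoImplicit false

noncomputable section

namespace Pool.Agent.DWK

open Pool.Agent.ZCyc Pool.Agent.TInf Pool.Agent.GT
open Pool.Agent.VFP (Om tt)
open scoped Classical LinearAlgebra.Projectivization

open Polynomial

variable {k : Type} [Field k] [IsAlgClosed k] [CharZero k] {t : k}

private theorem prod_sl {K : Type} [Field K] (f : Fin 4 → K) (σ : Equiv.Perm (Fin 4)) :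
    ∏ x, f (σ x) = (f (sl (0, 0)) * f (sl (1, 0))) * (f (sl (0, 1)) * f (sl (1, 1))) := by
  rw [Equiv.prod_comp σ f, ← Equiv.prod_comp sl f, Fintype.prod_prod_type]
  simp only [Fin.prod_univ_two]
  ring

omit [IsAlgClosed k] [CharZero k] in
/-- The product over the slots for a function whose product over the two signs is a value of `N`. -/
private theorem prod_norm {K : Type} [Field K] [Algebra k K] {N : k[X]} {ψ : K → K → K}
    (hN : ∀ c w : K, w ^ 2 = gc t c → ψ c w * ψ c (-w) = aeval c N) {c w : Fin 2 → K}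
    (sq : ∀ j, w j ^ 2 = gc t (c j)) {f : Fin 4 → K}
    (hf : ∀ i j, f (sl (i, j)) = ψ (c j) (wi i (w j))) (σ : Equiv.Perm (Fin 4)) :
    ∏ x, f (σ x) = aeval (c 0) N * aeval (c 1) N := by
  rw [prod_sl, hf, hf, hf, hf, ← hN _ _ (sq 0), ← hN _ _ (sq 1)]
  simp [wi]

/-- The polynomials of a norm. -/
private theorem exists_pol (s : Tup t) {N : k[X]} {n : ℕ} (hn : N.natDegree ≤ n)
    (ψ : ∀ (K : Type) [Field K] [Algebra k K], K → K → K)
    (hN : ∀ (K : Type) [Field K] [Algebra k K] (c w : K), w ^ 2 = gc t c →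
      ψ K c w * ψ K c (-w) = aeval c N) :
    ∃ q : MvPolynomial (Fin 2) k[X], (∀ z : Fin 2 →₀ ℕ, (q.coeff z).natDegree ≤ n) ∧
      (∀ (f : Fin 4 → k), (∀ i j, f (sl (i, j)) = ψ k (s.c j) (wi i (s.w j))) →
        ∀ σ : Equiv.Perm (Fin 4), (∀ z : Fin 2 → k,
          (q.eval fun m => C (z m)).eval 0 = ∏ j, f (σ j)) ∧
          q.eval 0 = C (∏ j, f (σ j))) ∧
      ∀ (z : Fin 2 → k) (τ : Om k) (S : TupO t),
        S.c 0 + S.c 1 = algebraMap k (Om k) (s.c 0 + s.c 1) - τ * algebraMap k (Om k) (z 1) →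
        S.c 0 * S.c 1 = algebraMap k (Om k) (s.c 0 * s.c 1) + τ * algebraMap k (Om k) (z 0) →
        ∀ (f : Fin 4 → Om k), (∀ i j, f (sl (i, j)) = ψ (Om k) (S.c j) (wi i (S.w j))) →
        ∀ σ : Equiv.Perm (Fin 4), ∏ j, f (σ j) = aeval τ (q.eval fun m => C (z m)) := by
  obtain ⟨q, hq, hs⟩ := exists_sym N hn (s.c 0) (s.c 1)
  refine ⟨q, hq, ?_, ?_⟩
  · intro f hf σ
    have h1 := prod_norm (hN k) s.sq hf σ
    refine ⟨fun z => ?_, ?_⟩
    · have h2 := hs k z 0 (s.c 0) (s.c 1) (by simp) (by simp)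
      rw [h1, ← h2, Polynomial.coe_aeval_eq_eval]
    · apply Polynomial.funext
      intro τ
      have h2 := hs k 0 τ (s.c 0) (s.c 1) (by simp) (by simp)
      have h3 : (fun m : Fin 2 => C ((0 : Fin 2 → k) m)) = (0 : Fin 2 → k[X]) := by
        funext m
        simp
      rw [h3] at h2
      rw [Polynomial.eval_C, h1, ← h2, Polynomial.coe_aeval_eq_eval]
  · intro z τ S h₁ h₂ f hf σ
    rw [prod_norm (hN (Om k)) S.sq hf σ, hs (Om k) z τ (S.c 0) (S.c 1) h₁ h₂]

/-- The parameters are `z₀, z₁` (`ρ = 2`), `u = 1`, `h = 0`, `θ j = j + 1`. The polynomials `nα`, `nb`,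
`nθ j` are the polynomials `q` of `exists_sym` for the norms `N` of `norm_al`, `norm_be`,
`norm_th t (θ j)`, and `c₁ = s.1.c 0`, `c₂ = s.1.c 1`.
`zα`: `exists_sym` for `K = k`, `τ = 0`, `C_j = c_j`; the product over `j` of `D.ea s i j = s.1.a (s.2 j)` is the
product over all slots (`Equiv.prod_comp`), i.e. over `i, j` of `al t (c_j) (± w_j)`
(`Tup.a_sl`), and this is `N(c₁) N(c₂)` by `norm_al`. `zb`, `zθ`: the same.
`cα`: the value of `(nα).eval 0` (a polynomial) at every `τ` in `k` is, by `exists_sym` for `z = 0`,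
`C_j = c_j`, equal to this product; `Polynomial.funext`.
`pts`: `exists_def` gives `S`; the tuple is `(S, 1)`. The products over the slots are the values of `nα`,
... at `τ` by `exists_sym` for `K = Om k`. For `v.At τ 0` take `g`, `τ'` from `def_to` and
`π = s.2⁻¹ * slotP g τ'`. At the places with `τ ∉ v.ring` use `def_bad`; the first case
`1 + τ₁ * 0 = 0` is impossible. -/
theorem exists_fam (s : (bs t).P) : ∃ F : KW.CurveFam (bs t) (fun _ => 4) s, F.ρ = 2 := by
  obtain ⟨Na, hNa, hNa'⟩ := norm_al t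
  obtain ⟨Nb, hNb, hNb'⟩ := norm_be t
  obtain ⟨qa, hqa, za, pa⟩ := exists_pol s.1 hNa (fun K _ _ c w => al t c w) hNa'
  obtain ⟨qb, hqb, zb, pb⟩ := exists_pol s.1 hNb (fun K _ _ c w => -be t c w / 2) hNb'
  have hth : ∀ θ : k, ∃ q : MvPolynomial (Fin 2) k[X],
      (∀ z : Fin 2 →₀ ℕ, (q.coeff z).natDegree ≤ 24) ∧
      (∀ (f : Fin 4 → k), (∀ i j, f (sl (i, j)) =
          (-be t (s.1.c j) (wi i (s.1.w j)) / 2) ^ 2 - algebraMap k k θ *
            ((-be t (s.1.c j) (wi i (s.1.w j)) / 2) ^ 2 - al t (s.1.c j) (wi i (s.1.w j)) ^ 3)) →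
        ∀ σ : Equiv.Perm (Fin 4), (∀ z : Fin 2 → k,
          (q.eval fun m => C (z m)).eval 0 = ∏ j, f (σ j)) ∧
          q.eval 0 = C (∏ j, f (σ j))) ∧
      ∀ (z : Fin 2 → k) (τ : Om k) (S : TupO t),
        S.c 0 + S.c 1 = algebraMap k (Om k) (s.1.c 0 + s.1.c 1) -
          τ * algebraMap k (Om k) (z 1) →
        S.c 0 * S.c 1 = algebraMap k (Om k) (s.1.c 0 * s.1.c 1) +
          τ * algebraMap k (Om k) (z 0) →
        ∀ (f : Fin 4 → Om k), (∀ i j, f (sl (i, j)) =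
          (-be t (S.c j) (wi i (S.w j)) / 2) ^ 2 - algebraMap k (Om k) θ *
            ((-be t (S.c j) (wi i (S.w j)) / 2) ^ 2 - al t (S.c j) (wi i (S.w j)) ^ 3)) →
        ∀ σ : Equiv.Perm (Fin 4), ∏ j, f (σ j) = aeval τ (q.eval fun m => C (z m)) := by
    intro θ
    obtain ⟨N, hN, hN'⟩ := norm_th t θ
    exact exists_pol s.1 hN (fun K _ _ c w => (-be t c w / 2) ^ 2 -
      algebraMap k K θ * ((-be t c w / 2) ^ 2 - al t c w ^ 3)) hN'
  choose qt hqt zt pt using hth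
  refine ⟨
    { ρ := 2
      nα := fun _ => qa
      nb := fun _ => qb
      nθ := fun _ j => qt (((j : ℕ) : k) + 1)
      θ := fun j => ((j : ℕ) : k) + 1
      inj := ?_
      ne := ?_
      dα := fun _ z => (hqa z).trans (by norm_num)
      db := fun _ z => (hqb z).trans (by norm_num)
      dθ := fun _ j z => (hqt _ z).trans (by norm_num)
      zα := fun _ z => (za s.1.a (fun i j => s.1.a_sl i j) s.2).1 z
      zb := fun _ z => (zb (fun x => -s.1.b x / 2) (fun i j => by rw [s.1.b_sl]) s.2).1 z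
      zθ := fun _ j z => (zt _ (fun x => (-s.1.b x / 2) ^ 2 - (((j : ℕ) : k) + 1) *
        ((-s.1.b x / 2) ^ 2 - s.1.a x ^ 3)) (fun i j => by rw [s.1.b_sl, s.1.a_sl]; rfl) s.2).1 z
      cα := fun _ => (za s.1.a (fun i j => s.1.a_sl i j) s.2).2
      cb := fun _ => (zb (fun x => -s.1.b x / 2) (fun i j => by rw [s.1.b_sl]) s.2).2
      cθ := fun _ j => (zt _ (fun x => (-s.1.b x / 2) ^ 2 - (((j : ℕ) : k) + 1) *
        ((-s.1.b x / 2) ^ 2 - s.1.a x ^ 3)) (fun i j => by rw [s.1.b_sl, s.1.a_sl]; rfl) s.2).2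
      u := 1
      h := fun _ => 0
      u_ne := one_ne_zero
      pts := ?_ }, rfl⟩
  · intro i j h
    have h1 : ((i : ℕ) : k) = ((j : ℕ) : k) := by simpa using h
    exact Fin.ext (Nat.cast_injective h1)
  · intro j
    exact Nat.cast_add_one_ne_zero _
  · intro z hz τ _ _
    obtain ⟨S, h₁, h₂⟩ := exists_def s.1 z τ
    refine ⟨(S, 1), fun _ => ?_, fun _ => ?_, fun _ j => ?_, ?_, ?_⟩
    · exact pa z τ S h₁ h₂ S.a (fun i j => S.a_sl i j) 1
    · exact pb z τ S h₁ h₂ (fun x => -S.b x / 2) (fun i j => by rw [S.b_sl]) 1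
    · exact pt _ z τ S h₁ h₂ (fun x => (-S.b x / 2) ^ 2 -
        algebraMap k (Om k) (((j : ℕ) : k) + 1) * ((-S.b x / 2) ^ 2 - S.a x ^ 3))
        (fun i j => by rw [S.b_sl, S.a_sl]) 1
    · intro v hv
      obtain ⟨g, τ', h⟩ := def_to h₁ h₂ hv
      exact ⟨s.2⁻¹ * slotP g τ', g, τ', by
        change s.2 * (s.2⁻¹ * slotP g τ') = slotP g τ' * 1
        rw [mul_inv_cancel_left, mul_one], h⟩
    · rintro v (⟨τ₁, _, h⟩ | ⟨h, _⟩)
      · exact absurd h (by simp)
      · exact def_bad hz h₁ h₂ h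

end Pool.Agent.DWK
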