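import Pool.Agent.DWK.FiniA

/-!
# Exceptional values of the invariant c, II
-/

set_option autoImplicit false

noncomputable section

namespace Pool.Agent.DWK

open Pool.Agent.ZCyc Pool.Agent.TInf Pool.Agent.GT
open Pool.Agent.VFP (Om tt)
open scoped Classical LinearAlgebra.Projectivization

open Polynomial

variable {k : Type} [Field k] [IsAlgClosed k] [CharZero k] {t : k}

omit [IsAlgClosed k] in
private theorem al_om {c w : k} (hc : c ≠ 0) (he : eK t c ≠ 0) :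
    al t c w = dl t c ^ 2 * (5 - 3 * (c * w / dl t c ^ 2)) / 72 := by
  have hd : dl t c ≠ 0 := mul_ne_zero hc he
  unfold al Qc
  field_simp
  ring

omit [IsAlgClosed k] in
private theorem be_om {c w : k} (hc : c ≠ 0) (he : eK t c ≠ 0) :
    be t c w = dl t c ^ 3 * (7 - 9 * (c * w / dl t c ^ 2)) / 216 := by
  have hd : dl t c ≠ 0 := mul_ne_zero hc he
  unfold be Qc
  field_simp
  ring

private theorem not_root {P : k[X]} {x : k} {S : Finset k} (hP : P ≠ 0)
    (hS : P.roots.toFinset ⊆ S) (hx : x ∉ S) : P.eval x ≠ 0 := by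
  intro h
  exact hx (hS (Multiset.mem_toFinset.2 ((mem_roots hP).2 h)))

/-- `al t c w = δ ² (5 - 3 ω) / 72`, `be t c w = δ ³ (7 - 9 ω) / 216`, and `al t c (-w)`, `be t c (-w)`
are obtained for `-ω`. So the conditions are `ω ≠ 5 / 3`, `ω ≠ 7 / 9`, and
`(7 - 9 ω) ² (5 + 3 ω) ³ ≠ (7 + 9 ω) ² (5 - 3 ω) ³`; the difference of the two sides is the polynomial
`54 ω (ω ² - 1) (81 ω ² + 175)`, up to the sign. Use `finite_om` for the finite set of the roots. -/
theorem finite_one (t : k) : ∃ B : Finset k, ∀ c ∉ B, c ≠ 0 ∧ eK t c ≠ 0 ∧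
    ∀ w : k, w ^ 2 = gc t c → al t c w ≠ 0 ∧ be t c w ≠ 0 ∧
      be t c w ^ 2 * al t c (-w) ^ 3 ≠ be t c (-w) ^ 2 * al t c w ^ 3 := by
  let P1 : k[X] := C 5 - C 3 * X
  let P2 : k[X] := C 7 - C 9 * X
  let P3 : k[X] := (C 7 - C 9 * X) ^ 2 * (C 5 + C 3 * X) ^ 3 -
    (C 7 + C 9 * X) ^ 2 * (C 5 - C 3 * X) ^ 3
  have h1 : P1 ≠ 0 := by
    intro h
    have h' : P1.eval 0 = 0 := by rw [h, eval_zero]
    simp [P1] at h'
  have h2 : P2 ≠ 0 := by
    intro h
    have h' : P2.eval 0 = 0 := by rw [h, eval_zero]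
    simp [P2] at h'
  have h3 : P3 ≠ 0 := by
    intro h
    have h' : P3.eval 2 = 0 := by rw [h, eval_zero]
    simp only [P3, eval_sub, eval_add, eval_mul, eval_pow, eval_C, eval_X] at h'
    norm_num at h'
  obtain ⟨B, hB⟩ := finite_om t (P1.roots.toFinset ∪ P2.roots.toFinset ∪ P3.roots.toFinset)
  refine ⟨B, fun c hc => ?_⟩
  obtain ⟨hc0, he, hw⟩ := hB c hc
  refine ⟨hc0, he, fun w hww => ?_⟩
  have hd : dl t c ≠ 0 := mul_ne_zero hc0 he
  have h4 := hw w hww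
  have e1 := not_root h1 (fun _ h => Finset.mem_union_left _ (Finset.mem_union_left _ h)) h4
  have e2 := not_root h2 (fun _ h => Finset.mem_union_left _ (Finset.mem_union_right _ h)) h4
  have e3 := not_root h3 (fun _ h => Finset.mem_union_right _ h) h4
  simp only [P1, eval_sub, eval_mul, eval_C, eval_X] at e1
  simp only [P2, eval_sub, eval_mul, eval_C, eval_X] at e2
  simp only [P3, eval_sub, eval_add, eval_mul, eval_pow, eval_C, eval_X] at e3
  have a1 := al_om (t := t) (w := w) hc0 he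
  have a2 := al_om (t := t) (w := -w) hc0 he
  have b1 := be_om (t := t) (w := w) hc0 he
  have b2 := be_om (t := t) (w := -w) hc0 he
  have hn : c * -w / dl t c ^ 2 = -(c * w / dl t c ^ 2) := by rw [mul_neg, neg_div]
  rw [hn] at a2 b2
  set ω := c * w / dl t c ^ 2 with hω
  refine ⟨?_, ?_, ?_⟩
  · rw [a1]
    exact div_ne_zero (mul_ne_zero (pow_ne_zero 2 hd) e1) (by norm_num)
  · rw [b1]
    exact div_ne_zero (mul_ne_zero (pow_ne_zero 3 hd) e2) (by norm_num)
  · intro h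
    apply e3
    rw [a1, a2, b1, b2] at h
    have h5 : dl t c ^ 12 * ((7 - 9 * ω) ^ 2 * (5 + 3 * ω) ^ 3 -
        (7 + 9 * ω) ^ 2 * (5 - 3 * ω) ^ 3) = 0 := by
      linear_combination (216 ^ 2 * 72 ^ 3) * h
    exact (mul_eq_zero.1 h5).resolve_left (pow_ne_zero 12 hd)

/-- With `ω` as above the condition is
`(7 - 9 ω) ² α ³ / 216 ² ≠ B ² (5 - 3 ω) ³ / 72 ³`. The difference of the two sides is a polynomial in `ω`
which is not zero, because at `ω = 5 / 3` it is `64 α ³ / 216 ²`. Use `finite_om`. -/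
theorem finite_two (t : k) {α B : k} (hα : α ≠ 0) : ∃ S : Finset k, ∀ c ∉ S, c ≠ 0 ∧
    eK t c ≠ 0 ∧ ∀ w : k, w ^ 2 = gc t c → be t c w ^ 2 * α ^ 3 ≠ B ^ 2 * al t c w ^ 3 := by
  let P : k[X] := C (α ^ 3 * 72 ^ 3) * (C 7 - C 9 * X) ^ 2 -
    C (B ^ 2 * 216 ^ 2) * (C 5 - C 3 * X) ^ 3
  have hP : P ≠ 0 := by
    intro h
    have h' : P.eval (5 / 3) = 0 := by rw [h, eval_zero]
    simp only [P, eval_sub, eval_mul, eval_pow, eval_C, eval_X] at h'
    have h2 : (5 - 3 * (5 / 3) : k) = 0 := by norm_num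
    have h3 : (7 - 9 * (5 / 3) : k) = -8 := by norm_num
    rw [h2, h3] at h'
    have h4 : α ^ 3 * (72 ^ 3 * 64) = 0 := by linear_combination h'
    rcases mul_eq_zero.1 h4 with h5 | h5
    · exact hα (pow_eq_zero_iff (by norm_num) |>.1 h5)
    · norm_num at h5
  obtain ⟨S, hS⟩ := finite_om t P.roots.toFinset
  refine ⟨S, fun c hc => ?_⟩
  obtain ⟨hc0, he, hw⟩ := hS c hc
  refine ⟨hc0, he, fun w hww => ?_⟩
  have hd : dl t c ≠ 0 := mul_ne_zero hc0 he
  have e := not_root hP (fun _ h => h) (hw w hww)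
  simp only [P, eval_sub, eval_mul, eval_pow, eval_C, eval_X] at e
  rw [al_om hc0 he, be_om hc0 he]
  set ω := c * w / dl t c ^ 2 with hω
  intro h
  apply e
  have h5 : dl t c ^ 6 * (α ^ 3 * 72 ^ 3 * (7 - 9 * ω) ^ 2 -
      B ^ 2 * 216 ^ 2 * (5 - 3 * ω) ^ 3) = 0 := by
    linear_combination (216 ^ 2 * 72 ^ 3) * h
  exact (mul_eq_zero.1 h5).resolve_left (pow_ne_zero 6 hd)

end Pool.Agent.DWK
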