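import Pool.Agent.DWK.EllA

/-!
# Exceptional values of the invariant c
-/

set_option autoImplicit false

noncomputable section

namespace Pool.Agent.DWK

open Pool.Agent.ZCyc Pool.Agent.TInf Pool.Agent.GT
open Pool.Agent.VFP (Om tt)
open scoped Classical LinearAlgebra.Projectivization

open Polynomial

variable {k : Type} [Field k] [IsAlgClosed k] [CharZero k] {t : k}

/-- For `c ≠ 0`, `e = eK t c ≠ 0` let `δ = dl t c = c e`, `ω = c w / δ ²`; then
`ω ² = 1 - 256 / (c e ⁴)`. If `ω ∈ S` then `c (5 t - c) ⁴ (1 - ω ²) = 256`, and for every `ω` this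
is satisfied by finitely many `c` (the polynomial `X (5 t - X) ⁴ (1 - ω ²) - 256` is not zero: its
constant term is `-256`). -/
theorem finite_om (t : k) (S : Finset k) : ∃ B : Finset k, ∀ c ∉ B, c ≠ 0 ∧ eK t c ≠ 0 ∧
    ∀ w : k, w ^ 2 = gc t c → c * w / dl t c ^ 2 ∉ S := by
  let P0 : k[X] := X * (C (5 * t) - X)
  let P : k → k[X] := fun ω => X * (C (5 * t) - X) ^ 4 * C (1 - ω ^ 2) - C 256
  have hP0 : P0 ≠ 0 := by
    intro h
    rcases mul_eq_zero.1 h with h1 | h1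
    · exact X_ne_zero h1
    · have h2 : (C (5 * t) : k[X]) = X := sub_eq_zero.1 h1
      exact X_ne_C (5 * t) h2.symm
  have hP : ∀ ω, P ω ≠ 0 := by
    intro ω h
    have h1 : (P ω).eval 0 = 0 := by rw [h, eval_zero]
    simp [P] at h1
  refine ⟨P0.roots.toFinset ∪ S.biUnion fun ω => (P ω).roots.toFinset, ?_⟩
  intro c hcB
  rw [Finset.mem_union, not_or, Finset.mem_biUnion] at hcB
  obtain ⟨hc1, hc2⟩ := hcB
  have hc3 : P0.eval c ≠ 0 := by
    intro h
    exact hc1 (Multiset.mem_toFinset.2 ((mem_roots hP0).2 h))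
  have he3 : eK t c = 5 * t - c := rfl
  have hc4 : c * (5 * t - c) ≠ 0 := by
    intro h
    apply hc3
    simp only [P0, eval_mul, eval_X, eval_sub, eval_C]
    exact h
  have hc : c ≠ 0 := left_ne_zero_of_mul hc4
  have he : eK t c ≠ 0 := by rw [he3]; exact right_ne_zero_of_mul hc4
  refine ⟨hc, he, ?_⟩
  intro w hw hS
  apply hc2
  refine ⟨_, hS, ?_⟩
  rw [Multiset.mem_toFinset, mem_roots (hP _)]
  change (P (c * w / dl t c ^ 2)).eval c = 0
  simp only [P, eval_sub, eval_mul, eval_X, eval_pow, eval_C]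
  rw [← he3]
  have h1 : (c * w / dl t c ^ 2) ^ 2 = (c * eK t c ^ 4 - 256) / (c * eK t c ^ 4) := by
    unfold dl
    rw [div_pow, mul_pow, hw]
    unfold gc
    field_simp
  rw [h1]
  field_simp
  ring

/-- `B ² - 4 α ³` is a nonzero multiple of the discriminant `Q ² (δ ² - 4 Q) = 4 Q ² Q'` of the cubic
(`Qc_add`, `Qc_ne`): for `-3 α = Q - δ ² / 3`, `B = 2 δ ³ / 27 - δ Q / 3` one has
`4 (Q - δ ² / 3) ³ + 27 B ² = -Q ² (δ ² - 4 Q)`. -/
theorem disc_ne {c w : k} (hw : w ^ 2 = gc t c) (hc : c ≠ 0) :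
    be t c w ^ 2 ≠ 4 * al t c w ^ 3 := by
  intro h
  have h1 : Qc t c w ≠ 0 := Qc_ne hw hc
  have hw' : (-w) ^ 2 = gc t c := by rw [neg_sq, hw]
  have h2 : Qc t c (-w) ≠ 0 := Qc_ne hw' hc
  have h3 := Qc_add (t := t) (k := k) c w
  have h4 : Qc t c w ^ 2 * Qc t c (-w) = 0 := by
    unfold be al at h
    linear_combination (-27 / 4) * h + Qc t c w ^ 2 / 4 * h3
  exact mul_ne_zero (pow_ne_zero 2 h1) h2 h4

end Pool.Agent.DWK
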