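import Pool.Agent.DWK.Fini
import Pool.Agent.DWK.Base

/-!
# General tuples
-/

set_option autoImplicit false

noncomputable section

namespace Pool.Agent.DWK

open Pool.Agent.ZCyc Pool.Agent.TInf Pool.Agent.GT
open Pool.Agent.VFP (Om tt)
open scoped Classical LinearAlgebra.Projectivization

variable {k : Type} [Field k] [IsAlgClosed k] [CharZero k] {t : k}

/-- The four cubics are nondegenerate (`disc_ne`), and the numbers `B ² / α ³` are different: for the two
slots of the same `j` this is the hypothesis `h₂`, for different `j` it is `h₃`. (All statements are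
for `s.2 = 1` or any numbering `s.2`, the slots are `sl (i, j)`; `Tup.a_sl`, `Tup.b_sl`.) So in `rel`
only `x = y` occurs. For the tuples `(bs t).act s π` the coefficients are permuted (`ea_act`). -/
theorem gen_of (s : (bs t).P) (h₁ : ∀ i j, al t (s.1.c j) (wi i (s.1.w j)) ≠ 0 ∧
      be t (s.1.c j) (wi i (s.1.w j)) ≠ 0)
    (h₂ : ∀ j, be t (s.1.c j) (s.1.w j) ^ 2 * al t (s.1.c j) (-s.1.w j) ^ 3 ≠
      be t (s.1.c j) (-s.1.w j) ^ 2 * al t (s.1.c j) (s.1.w j) ^ 3)
    (h₃ : ∀ i i' : Fin 2, be t (s.1.c 1) (wi i (s.1.w 1)) ^ 2 *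
        al t (s.1.c 0) (wi i' (s.1.w 0)) ^ 3 ≠
      be t (s.1.c 0) (wi i' (s.1.w 0)) ^ 2 * al t (s.1.c 1) (wi i (s.1.w 1)) ^ 3) :
    (bs t).Gen s := by
  have key : ∀ x y : Fin 4, s.1.b x ^ 2 * s.1.a y ^ 3 = s.1.b y ^ 2 * s.1.a x ^ 3 → x = y := by
    intro x y h
    obtain ⟨⟨i, j⟩, rfl⟩ := sl.surjective x
    obtain ⟨⟨i', j'⟩, rfl⟩ := sl.surjective y
    rw [Tup.a_sl, Tup.b_sl, Tup.a_sl, Tup.b_sl] at h
    have hsame : ∀ j : Fin 2, ∀ i i' : Fin 2,
        be t (s.1.c j) (wi i (s.1.w j)) ^ 2 * al t (s.1.c j) (wi i' (s.1.w j)) ^ 3 =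
        be t (s.1.c j) (wi i' (s.1.w j)) ^ 2 * al t (s.1.c j) (wi i (s.1.w j)) ^ 3 →
        i = i' := by
      intro j i i' h
      fin_cases i <;> fin_cases i'
      · rfl
      · exact absurd h (h₂ j)
      · exact absurd h.symm (h₂ j)
      · rfl
    fin_cases j <;> fin_cases j'
    · rw [hsame 0 i i' h]
    · exact absurd h.symm (h₃ i' i)
    · exact absurd h (h₃ i i')
    · rw [hsame 1 i i' h]
  have hwi : ∀ i j : Fin 2, (wi i (s.1.w j)) ^ 2 = gc t (s.1.c j) := by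
    intro i j
    unfold wi
    split_ifs
    · exact s.1.sq j
    · rw [neg_sq]; exact s.1.sq j
  constructor
  · intro _
    constructor
    · intro x
      obtain ⟨⟨i, j⟩, hx⟩ := sl.surjective (s.2 x)
      change s.1.a (s.2 x) ≠ 0
      rw [← hx, Tup.a_sl]
      exact (h₁ i j).1
    · intro x
      obtain ⟨⟨i, j⟩, hx⟩ := sl.surjective (s.2 x)
      change s.1.b (s.2 x) ≠ 0
      rw [← hx, Tup.b_sl]
      exact (h₁ i j).2
    · intro x
      obtain ⟨⟨i, j⟩, hx⟩ := sl.surjective (s.2 x)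
      change s.1.b (s.2 x) ^ 2 ≠ 4 * s.1.a (s.2 x) ^ 3
      rw [← hx, Tup.a_sl, Tup.b_sl]
      exact disc_ne (hwi i j) (s.1.ne j)
  · intro i v S π _ x y h
    have h2 := key _ _ h
    have h3 : x = y := (s.2 * π).injective h2
    rw [h3]

end Pool.Agent.DWK
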