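import Pool.Agent.DWK.Tors

/-!
# The invariants determine the point
-/

set_option autoImplicit false

noncomputable section

namespace Pool.Agent.DWK

open Pool.Agent.ZCyc Pool.Agent.TInf Pool.Agent.GT
open Pool.Agent.VFP (Om tt)
open scoped Classical LinearAlgebra.Projectivization

variable {k : Type} [Field k] {K : Type} [Field K] [Algebra k K] {t : k}

private theorem facts {c a b d : K} {u : Fin 5 → K} (hu : Tor t u) (h : Inv c a b d u) :
    u 0 ≠ 0 ∧ u 1 ≠ 0 ∧ u 2 ≠ 0 ∧ u 3 ≠ 0 ∧ c ≠ 0 ∧ u 0 * u 2 = a ∧ u 0 * u 3 = b ∧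
    2 * (u 2 + u 3) = eK t c - d ∧ 2 * (u 0 + u 1) = eK t c + d ∧ u 1 * (a * b * c) = u 0 := by
  obtain ⟨h1, h2⟩ := hu
  obtain ⟨h3, h4, h5, h6⟩ := h
  rw [Fin.prod_univ_five, h3] at h1
  rw [Fin.sum_univ_five, h3] at h2
  have hc : c ≠ 0 := by rintro rfl; simp at h1
  have n0 : u 0 ≠ 0 := fun h => by rw [h] at h1; simp at h1
  have n1 : u 1 ≠ 0 := fun h => by rw [h] at h1; simp at h1
  have n2 : u 2 ≠ 0 := fun h => by rw [h] at h1; simp at h1
  have n3 : u 3 ≠ 0 := fun h => by rw [h] at h1; simp at h1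
  refine ⟨n0, n1, n2, n3, hc, h4, h5, ?_, ?_, ?_⟩
  · unfold eK
    linear_combination h2 - h6
  · unfold eK
    linear_combination h2 + h6
  · rw [← h4, ← h5]
    linear_combination u 0 * h1

/-- `u₀ (u₂ + u₃) = a + b` and `u₀ + u₁ = u₀ (1 + 1 / (a b c))` (because `u₁ = 1 / (u₀ u₂ u₃ u₄)`),
`u₂ + u₃ = (e - d) / 2`, `u₀ + u₁ = (e + d) / 2`, `e = eK t c ≠ 0`. So `u₀` is unique (one of
`e - d`, `e + d` is not zero), and `u₂ = a / u₀`, `u₃ = b / u₀`, `u₄ = c`. -/
theorem inv_unique [CharZero K] {c a b d : K} {u u' : Fin 5 → K} (hc : eK t c ≠ 0) (hu : Tor t u)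
    (hu' : Tor t u') (h : Inv c a b d u) (h' : Inv c a b d u') : u = u' := by
  obtain ⟨n0, n1, n2, n3, nc, ha, hb, h1, h2, h3⟩ := facts hu h
  obtain ⟨n0', n1', n2', n3', _, ha', hb', h1', h2', h3'⟩ := facts hu' h'
  have na : a ≠ 0 := by rw [← ha]; exact mul_ne_zero n0 n2
  have nb : b ≠ 0 := by rw [← hb]; exact mul_ne_zero n0 n3
  have nabc : a * b * c ≠ 0 := mul_ne_zero (mul_ne_zero na nb) nc
  have h0 : u 0 = u' 0 := by
    by_cases hed : eK t c - d = 0
    · have hed2 : eK t c + d ≠ 0 := by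
        intro h4
        apply hc
        have h5 : 2 * eK t c = 0 := by linear_combination hed + h4
        exact (mul_eq_zero.1 h5).resolve_left two_ne_zero
      have e1 : u 0 * (2 * (a * b * c + 1)) = (eK t c + d) * (a * b * c) := by
        linear_combination (a * b * c) * h2 - 2 * h3
      have e2 : u' 0 * (2 * (a * b * c + 1)) = (eK t c + d) * (a * b * c) := by
        linear_combination (a * b * c) * h2' - 2 * h3'
      have hne : 2 * (a * b * c + 1) ≠ 0 := by
        intro h4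
        rw [h4, mul_zero] at e1
        exact mul_ne_zero hed2 nabc e1.symm
      exact mul_right_cancel₀ hne (e1.trans e2.symm)
    · refine mul_right_cancel₀ hed ?_
      rw [← h1]
      have e1 : u 0 * (2 * (u 2 + u 3)) = 2 * (a + b) := by
        rw [← ha, ← hb]; ring
      have e2 : u' 0 * (2 * (u 2 + u 3)) = 2 * (a + b) := by
        rw [h1, ← h1', ← ha', ← hb']; ring
      rw [e1, e2]
  have h1e : u 1 = u' 1 := by
    refine mul_right_cancel₀ nabc ?_
    rw [h3, h3', h0]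
  have h2e : u 2 = u' 2 := by
    refine mul_left_cancel₀ n0 ?_
    rw [ha, h0, ha']
  have h3e : u 3 = u' 3 := by
    refine mul_left_cancel₀ n0 ?_
    rw [hb, h0, hb']
  have h4e : u 4 = u' 4 := h.1.trans h'.1.symm
  funext i
  fin_cases i
  · exact h0
  · exact h1e
  · exact h2e
  · exact h3e
  · exact h4e

/-- `(e - d) (e + d) = 4 (u₂ + u₃) (u₀ + u₁) = 4 (a + b) (1 + 1 / (a b c))` -/
theorem rel_of_inv [CharZero K] {c a b d : K} {u : Fin 5 → K} (hu : Tor t u)
    (h : Inv c a b d u) : c ≠ 0 ∧ a ≠ 0 ∧ b ≠ 0 ∧ Rel t c a b d := by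
  obtain ⟨n0, n1, n2, n3, nc, ha, hb, h1, h2, h3⟩ := facts hu h
  have na : a ≠ 0 := by rw [← ha]; exact mul_ne_zero n0 n2
  have nb : b ≠ 0 := by rw [← hb]; exact mul_ne_zero n0 n3
  refine ⟨nc, na, nb, ?_⟩
  unfold Rel
  have e1 : eK t c ^ 2 - d ^ 2 = 4 * ((u 2 + u 3) * (u 0 + u 1)) := by
    linear_combination (-(eK t c + d)) * h1 - (2 * (u 2 + u 3)) * h2
  have e2 : (u 2 + u 3) * (u 0 + u 1) = a + b + 1 / (c * a) + 1 / (c * b) := by
    have e3 : u 1 = u 0 / (a * b * c) := by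
      rw [eq_div_iff (mul_ne_zero (mul_ne_zero na nb) nc)]; exact h3
    have e4 : (u 2 + u 3) * u 0 = a + b := by rw [← ha, ← hb]; ring
    have e5 : (u 2 + u 3) * (u 0 + u 1) = (a + b) + (a + b) / (a * b * c) := by
      rw [mul_add, e4, e3, ← mul_div_assoc, e4]
    rw [e5]
    field_simp
    ring
  rw [← e2]
  linear_combination -e1

/-- `u = (y, y / (a b c), a / y, b / y, c)` -/
theorem exists_iff [CharZero K] {c a b d : K} (hc : c ≠ 0) (ha : a ≠ 0) (hb : b ≠ 0) :
    (∃ u : Fin 5 → K, Tor t u ∧ Inv c a b d u) ↔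
      ∃ y : K, y ≠ 0 ∧ 2 * (a + b) = y * (eK t c - d) ∧
        2 * y * (1 + 1 / (a * b * c)) = eK t c + d := by
  have nabc : a * b * c ≠ 0 := mul_ne_zero (mul_ne_zero ha hb) hc
  constructor
  · rintro ⟨u, hu, h⟩
    obtain ⟨n0, n1, n2, n3, _, ha', hb', h1, h2, h3⟩ := facts hu h
    refine ⟨u 0, n0, ?_, ?_⟩
    · rw [← h1, ← ha', ← hb']; ring
    · have e3 : u 1 = u 0 / (a * b * c) := by
        rw [eq_div_iff nabc]; exact h3
      rw [← h2, e3]
      ring
  · rintro ⟨y, hy, h1, h2⟩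
    have h1' : 2 * ((a + b) / y) = eK t c - d := by
      rw [← mul_div_assoc, h1, mul_div_cancel_left₀ _ hy]
    have h2' : 2 * (y + y / (a * b * c)) = eK t c + d := by
      rw [← h2]; ring
    refine ⟨![y, y / (a * b * c), a / y, b / y, c], ⟨?_, ?_⟩, ?_, ?_, ?_, ?_⟩
    · rw [Fin.prod_univ_five]
      change y * (y / (a * b * c)) * (a / y) * (b / y) * c = 1
      field_simp
    · rw [Fin.sum_univ_five]
      change y + y / (a * b * c) + a / y + b / y + c = algebraMap k K (5 * t)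
      have e1 : 2 * (y + y / (a * b * c) + a / y + b / y + c) =
          2 * algebraMap k K (5 * t) := by
        unfold eK at h1' h2'
        linear_combination h1' + h2'
      exact mul_left_cancel₀ two_ne_zero e1
    · rfl
    · change y * (a / y) = a
      field_simp
    · change y * (b / y) = b
      field_simp
    · change y + y / (a * b * c) - (a / y + b / y) = d
      have e1 : 2 * (y + y / (a * b * c) - (a / y + b / y)) = 2 * d := by
        linear_combination h2' - h1'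
      exact mul_left_cancel₀ two_ne_zero e1

theorem zd_eq [CharZero K] {c a b d : K} {u : Fin 5 → K} (hc : eK t c ≠ 0) (hu : Tor t u)
    (h : Inv c a b d u) : zd t c a b d = uz t u := by
  have h1 : ∃ u : Fin 5 → K, Tor t u ∧ Inv c a b d u := ⟨u, hu, h⟩
  unfold zd
  rw [dif_pos h1, inv_unique hc h1.choose_spec.1 hu h1.choose_spec.2 h]

theorem zd_off {c a b d : K} (h : ¬ ∃ u : Fin 5 → K, Tor t u ∧ Inv c a b d u) :
    zd t c a b d = 0 := dif_neg h

theorem hd_eq [CharZero k] {c a b d : k} {u : Fin 5 → k} (hc : eK t c ≠ 0) (hu : Tor t u)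
    (h : Inv c a b d u) : hd t c a b d = nu t u := by
  unfold hd nu
  rw [zd_eq hc hu h]

theorem hd_off {c a b d : k} (h : ¬ ∃ u : Fin 5 → k, Tor t u ∧ Inv c a b d u) :
    hd t c a b d = 0 := by
  unfold hd
  rw [zd_off h, map_zero]

end Pool.Agent.DWK
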