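import Pool.Agent.DWK.Defs2
import Pool.Agent.ZIso.Krull

/-!
# A curve of degree five on the quotient by the permutation
-/

set_option autoImplicit false

noncomputable section

namespace Pool.Agent.DWK

open Pool.Agent.ZCyc Pool.Agent.TInf Pool.Agent.GT
open Pool.Agent.VFP (Om tt)
open MvPolynomial (C X)
open scoped Classical LinearAlgebra.Projectivization

variable {k : Type} [Field k] [IsAlgClosed k] [CharZero k] {t : k}

omit [IsAlgClosed k] [CharZero k] in
/-- the identity, once the four coefficients vanish -/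
private theorem key {R : Type} [CommRing R] [Algebra k R] (t : k) {s p a b c p₁ p₂ x y z : k}
    (hG : GG5 t s p a b c = 0)
    (h1 : -5 * s ^ 3 * p₁ + 10 * s * p * p₁ + 5 * a ^ 4 * x + 5 * b ^ 4 * y + 5 * c ^ 4 * z -
      5 * t * (p₁ * a * b * c + p * (x * b * c + a * y * c + a * b * z)) = 0)
    (h2 : -5 * s ^ 3 * p₂ + 5 * s * (p₁ ^ 2 + 2 * p * p₂) + 10 * a ^ 3 * x ^ 2 +
      10 * b ^ 3 * y ^ 2 + 10 * c ^ 3 * z ^ 2 -
      5 * t * (p₂ * a * b * c + p₁ * (x * b * c + a * y * c + a * b * z) +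
        p * (x * y * c + x * b * z + a * y * z)) = 0)
    (h3 : 10 * s * p₁ * p₂ + 10 * a ^ 2 * x ^ 3 + 10 * b ^ 2 * y ^ 3 + 10 * c ^ 2 * z ^ 3 -
      5 * t * (p₂ * (x * b * c + a * y * c + a * b * z) +
        p₁ * (x * y * c + x * b * z + a * y * z) + p * x * y * z) = 0)
    (h4 : 5 * s * p₂ ^ 2 + 5 * a * x ^ 4 + 5 * b * y ^ 4 + 5 * c * z ^ 4 -
      5 * t * (p₂ * (x * y * c + x * b * z + a * y * z) + p₁ * x * y * z) = 0) (T : R) :
    GG5 t (algebraMap k R s)
        (algebraMap k R p + algebraMap k R p₁ * T + algebraMap k R p₂ * T ^ 2)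
        (algebraMap k R a + algebraMap k R x * T)
        (algebraMap k R b + algebraMap k R y * T)
        (algebraMap k R c + algebraMap k R z * T) =
        algebraMap k R (GG5 t 0 p₂ x y z) * T ^ 5 := by
  unfold GG5 at hG ⊢
  simp only [Algebra.algebraMap_self, RingHom.id_apply] at hG ⊢
  have e0 := congrArg (algebraMap k R) hG
  have e1 := congrArg (algebraMap k R) h1
  have e2 := congrArg (algebraMap k R) h2
  have e3 := congrArg (algebraMap k R) h3
  have e4 := congrArg (algebraMap k R) h4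
  simp only [map_add, map_sub, map_mul, map_pow, map_neg, map_ofNat, map_zero] at e0 e1 e2 e3 e4 ⊢
  linear_combination e0 + T * e1 + T ^ 2 * e2 + T ^ 3 * e3 + T ^ 4 * e4

/-- The polynomial `GG5 t s (p + p₁ T + p₂ T ²) (a + x T) (b + y T) (c + z T)` in `T` has degree
at most five, constant term `GG5 t s p a b c = 0`, and the coefficient of `T ⁵` is
`GG5 t 0 p₂ x y z`. Its coefficients of `T`, `T ²`, `T ³`, `T ⁴` are four polynomials in the five
unknowns `p₁, p₂, x, y, z` which vanish at the origin, so they have a common zero which is not the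
origin (`ZIso.exists_ne_zero`). -/
theorem exists_curve (t : k) {s p a b c : k} (hG : GG5 t s p a b c = 0) :
    ∃ p₁ p₂ x y z : k, ¬ (p₁ = 0 ∧ p₂ = 0 ∧ x = 0 ∧ y = 0 ∧ z = 0) ∧
      (∀ T : k, GG5 t s (p + p₁ * T + p₂ * T ^ 2) (a + x * T) (b + y * T) (c + z * T) =
        GG5 t 0 p₂ x y z * T ^ 5) ∧
      ∀ T : Om k, GG5 t (algebraMap k (Om k) s)
        (algebraMap k (Om k) p + algebraMap k (Om k) p₁ * T + algebraMap k (Om k) p₂ * T ^ 2)
        (algebraMap k (Om k) a + algebraMap k (Om k) x * T)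
        (algebraMap k (Om k) b + algebraMap k (Om k) y * T)
        (algebraMap k (Om k) c + algebraMap k (Om k) z * T) =
        algebraMap k (Om k) (GG5 t 0 p₂ x y z) * T ^ 5 := by
  obtain ⟨v, hv0, hv⟩ := Pool.Agent.ZIso.exists_ne_zero (K := k) (ι := Fin 5) (κ := Fin 4)
    (by simp)
    (![-5 * C s ^ 3 * X 0 + 10 * C s * C p * X 0 + 5 * C a ^ 4 * X 2 + 5 * C b ^ 4 * X 3 +
          5 * C c ^ 4 * X 4 - 5 * C t * (X 0 * C a * C b * C c +
          C p * (X 2 * C b * C c + C a * X 3 * C c + C a * C b * X 4)),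
      -5 * C s ^ 3 * X 1 + 5 * C s * (X 0 ^ 2 + 2 * C p * X 1) + 10 * C a ^ 3 * X 2 ^ 2 +
          10 * C b ^ 3 * X 3 ^ 2 + 10 * C c ^ 3 * X 4 ^ 2 -
          5 * C t * (X 1 * C a * C b * C c +
            X 0 * (X 2 * C b * C c + C a * X 3 * C c + C a * C b * X 4) +
            C p * (X 2 * X 3 * C c + X 2 * C b * X 4 + C a * X 3 * X 4)),
      10 * C s * X 0 * X 1 + 10 * C a ^ 2 * X 2 ^ 3 + 10 * C b ^ 2 * X 3 ^ 3 +
          10 * C c ^ 2 * X 4 ^ 3 -
          5 * C t * (X 1 * (X 2 * C b * C c + C a * X 3 * C c + C a * C b * X 4) +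
            X 0 * (X 2 * X 3 * C c + X 2 * C b * X 4 + C a * X 3 * X 4) +
            C p * X 2 * X 3 * X 4),
      5 * C s * X 1 ^ 2 + 5 * C a * X 2 ^ 4 + 5 * C b * X 3 ^ 4 + 5 * C c * X 4 ^ 4 -
          5 * C t * (X 1 * (X 2 * X 3 * C c + X 2 * C b * X 4 + C a * X 3 * X 4) +
            X 0 * X 2 * X 3 * X 4)])
    (by intro i; fin_cases i <;> simp)
  have h1 := hv 0
  have h2 := hv 1
  have h3 := hv 2
  have h4 := hv 3
  simp only [Matrix.cons_val, map_add, map_sub, map_mul, map_pow, map_neg, map_ofNat,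
    MvPolynomial.eval_C, MvPolynomial.eval_X] at h1 h2 h3 h4
  refine ⟨v 0, v 1, v 2, v 3, v 4, ?_, ?_, ?_⟩
  · rintro ⟨e0, e1, e2, e3, e4⟩
    apply hv0
    funext i
    fin_cases i <;> assumption
  · intro T
    have := key (R := k) t hG h1 h2 h3 h4 T
    simpa only [Algebra.algebraMap_self, RingHom.id_apply] using this
  · intro T
    exact key (R := Om k) t hG h1 h2 h3 h4 T

end Pool.Agent.DWK
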