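import Pool.Agent.DWK.TorL

/-!
# The direction of the moving
-/

set_option autoImplicit false

noncomputable section

namespace Pool.Agent.DWK

open Pool.Agent.ZCyc Pool.Agent.TInf Pool.Agent.GT
open Pool.Agent.VFP (Om tt)
open scoped Classical LinearAlgebra.Projectivization

open Polynomial

variable {k : Type} [Field k] [IsAlgClosed k] [CharZero k] {t : k}

/-- The parameter: for all `m` in `k` outside a finite set (and `m ≠ 0, -1`) we have: for all `s ≠ 0` with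
`(u₀ + s) (u₁ + m s) (u₂ - (1 + m) s) = u₀ u₁ u₂` the number `u₀ + s` is not in `B`. For
`β ∈ B`, `β ≠ u₀`, let `s = β - u₀`: `β (u₁ + m s) (u₂ - (1 + m) s) = u₀ u₁ u₂ ≠ 0` is impossible for
`β = 0`, and otherwise a polynomial equation for `m` with leading coefficient `-β s ² ≠ 0`. (And
`β = u₀` means `s = 0`.) -/
theorem exists_dir {u : Fin 5 → k} (hu : Tor t u) (B : Finset k) : ∃ m : k, m ≠ 0 ∧ m ≠ -1 ∧
    ∀ s : k, s ≠ 0 → (u 0 + s) * (u 1 + m * s) * (u 2 - (1 + m) * s) = u 0 * u 1 * u 2 →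
      u 0 + s ∉ B := by
  have hne : ∀ i, u i ≠ 0 := fun i h => by
    have h3 := hu.1
    rw [Finset.prod_eq_zero (Finset.mem_univ i) h] at h3
    exact zero_ne_one h3
  obtain ⟨h0, h1, h2⟩ : u 0 ≠ 0 ∧ u 1 ≠ 0 ∧ u 2 ≠ 0 := ⟨hne 0, hne 1, hne 2⟩
  have hprod : u 0 * u 1 * u 2 ≠ 0 := mul_ne_zero (mul_ne_zero h0 h1) h2
  obtain ⟨P, hP⟩ : ∃ P : k → k[X], ∀ β, P β = C (-(β * (β - u 0) ^ 2)) * X ^ 2 +
      C (β * ((β - u 0) * (u 2 - (β - u 0)) - u 1 * (β - u 0))) * X +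
      C (β * (u 1 * (u 2 - (β - u 0))) - u 0 * u 1 * u 2) := ⟨_, fun _ => rfl⟩
  have hP0 : ∀ β, β ≠ 0 → β ≠ u 0 → P β ≠ 0 := by
    intro β hβ hβ' h
    have h3 : -(β * (β - u 0) ^ 2) ≠ 0 :=
      neg_ne_zero.2 (mul_ne_zero hβ (pow_ne_zero 2 (sub_ne_zero.2 hβ')))
    have h4 := degree_quadratic (b := β * ((β - u 0) * (u 2 - (β - u 0)) - u 1 * (β - u 0)))
      (c := β * (u 1 * (u 2 - (β - u 0))) - u 0 * u 1 * u 2) h3
    rw [← hP β, h, degree_zero] at h4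
    exact absurd h4 (by decide)
  have hinf : Infinite k := IsAlgClosed.instInfinite
  obtain ⟨m, hm⟩ := Infinite.exists_notMem_finset
    ((B.filter fun β => β ≠ 0 ∧ β ≠ u 0).biUnion (fun β => (P β).roots.toFinset) ∪ {0, -1})
  simp only [Finset.mem_union, Finset.mem_biUnion, Finset.mem_filter, Multiset.mem_toFinset,
    Finset.mem_insert, Finset.mem_singleton, not_or, not_exists, not_and] at hm
  obtain ⟨hm1, hm2, hm3⟩ := hm
  refine ⟨m, hm2, hm3, fun s hs he hB => ?_⟩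
  have hβ0 : u 0 + s ≠ 0 := by
    intro h
    rw [h, zero_mul, zero_mul] at he
    exact hprod he.symm
  have hβ1 : u 0 + s ≠ u 0 := fun h => hs (by simpa using h)
  refine hm1 (u 0 + s) ⟨hB, hβ0, hβ1⟩ ?_
  rw [← Multiset.mem_toFinset, Multiset.mem_toFinset]
  rw [mem_roots (hP0 _ hβ0 hβ1), IsRoot.def, hP]
  simp only [eval_add, eval_mul, eval_C, eval_pow, eval_X, eval_sub]
  linear_combination he

end Pool.Agent.DWK
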