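import Pool.Agent.DWK.EllA

/-!
# Norms of the coefficients
-/

set_option autoImplicit false

noncomputable section

namespace Pool.Agent.DWK

open Pool.Agent.ZCyc Pool.Agent.TInf Pool.Agent.GT
open Pool.Agent.VFP (Om tt)
open scoped Classical LinearAlgebra.Projectivization

open Polynomial

variable {k : Type} [Field k] [CharZero k] {t : k}

/-- `α(c, w) α(c, -w) = (25 δ ⁴ - 9 c ² g) / 5184`, `δ = c (5 t - c)`,
`g = c (c (5 t - c) ⁴ - 256)` -/
theorem norm_al (t : k) : ∃ N : k[X], N.natDegree ≤ 8 ∧ ∀ (K : Type) [Field K] [Algebra k K]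
    (c w : K), w ^ 2 = gc t c → al t c w * al t c (-w) = aeval c N := by
  refine ⟨C (1 / 5184) * (C 25 * (X * (C (5 * t) - X)) ^ 4 -
    C 9 * X ^ 2 * (X * (X * (C (5 * t) - X) ^ 4 - C 256))), by compute_degree, ?_⟩
  intro K _ _ c w hw
  have hK : CharZero K := charZero_of_injective_algebraMap (algebraMap k K).injective
  simp only [map_mul, map_sub, map_pow, aeval_X, aeval_C, map_div₀, map_one, map_ofNat]
  unfold gc eK at hw
  unfold al Qc dl eK
  simp only [map_mul, map_ofNat] at hw ⊢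
  linear_combination (-9 * c ^ 2 / 5184) * hw

/-- `B = δ (7 δ ² - 9 c w) / 216`, the product is `δ ² (49 δ ⁴ - 81 c ² g) / 186624` -/
theorem norm_be (t : k) : ∃ N : k[X], N.natDegree ≤ 12 ∧ ∀ (K : Type) [Field K] [Algebra k K]
    (c w : K), w ^ 2 = gc t c → -be t c w / 2 * (-be t c (-w) / 2) = aeval c N := by
  refine ⟨C (1 / 186624) * (X * (C (5 * t) - X)) ^ 2 * (C 49 * (X * (C (5 * t) - X)) ^ 4 -
    C 81 * X ^ 2 * (X * (X * (C (5 * t) - X) ^ 4 - C 256))), by compute_degree, ?_⟩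
  intro K _ _ c w hw
  have hK : CharZero K := charZero_of_injective_algebraMap (algebraMap k K).injective
  simp only [map_mul, map_sub, map_pow, aeval_X, aeval_C, map_div₀, map_one, map_ofNat]
  unfold gc eK at hw
  unfold be Qc dl eK
  simp only [map_mul, map_ofNat] at hw ⊢
  linear_combination (-81 * (c * (5 * algebraMap k K t - c)) ^ 2 * c ^ 2 / 186624) * hw

/-- `α = (5 δ ² - 3 y) / 72`, `B = δ (7 δ ² - 9 y) / 216`, `y = c w`, `y ² = G = c ² g`. So
`b ² - θ (b ² - α ³) = U - y V` with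
`U = (1 - θ) δ ² (49 δ ⁴ + 81 G) / 186624 + θ (125 δ ⁶ + 135 δ ² G) / 373248`,
`V = (1 - θ) 126 δ ⁴ / 186624 + θ (225 δ ⁴ + 27 G) / 373248`, and the product is `U ² - G V ²`. -/
theorem norm_th (t θ : k) : ∃ N : k[X], N.natDegree ≤ 24 ∧ ∀ (K : Type) [Field K] [Algebra k K]
    (c w : K), w ^ 2 = gc t c →
    ((-be t c w / 2) ^ 2 - algebraMap k K θ * ((-be t c w / 2) ^ 2 - al t c w ^ 3)) *
      ((-be t c (-w) / 2) ^ 2 - algebraMap k K θ * ((-be t c (-w) / 2) ^ 2 - al t c (-w) ^ 3)) =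
      aeval c N := by
  let D : k[X] := X * (C (5 * t) - X)
  let G : k[X] := X ^ 2 * (X * (X * (C (5 * t) - X) ^ 4 - C 256))
  let U : k[X] := C ((1 - θ) / 186624) * (D ^ 2 * (C 49 * D ^ 4 + C 81 * G)) +
    C (θ / 373248) * (C 125 * D ^ 6 + C 135 * D ^ 2 * G)
  let V : k[X] := C ((1 - θ) / 186624) * (C 126 * D ^ 4) +
    C (θ / 373248) * (C 225 * D ^ 4 + C 27 * G)
  refine ⟨U ^ 2 - G * V ^ 2, ?_, ?_⟩
  · have hD : D.natDegree ≤ 2 := by
      change (X * (C (5 * t) - X) : k[X]).natDegree ≤ 2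
      compute_degree
    have hG : G.natDegree ≤ 8 := by
      change (X ^ 2 * (X * (X * (C (5 * t) - X) ^ 4 - C 256)) : k[X]).natDegree ≤ 8
      compute_degree
    have hC : ∀ (a : k) (p : k[X]) (n : ℕ), p.natDegree ≤ n → (C a * p).natDegree ≤ n :=
      fun a p n h => (natDegree_C_mul_le a p).trans h
    have hp : ∀ (p : k[X]) (n m : ℕ), p.natDegree ≤ n → (p ^ m).natDegree ≤ m * n :=
      fun p n m h => natDegree_pow_le_of_le m h
    have hU : U.natDegree ≤ 12 := by
      refine natDegree_add_le_of_degree_le (hC _ _ _ ?_) (hC _ _ _ ?_)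
      · exact natDegree_mul_le_of_le (hp D 2 2 hD) (natDegree_add_le_of_degree_le
          (hC _ _ 8 (hp D 2 4 hD)) (hC _ _ _ hG))
      · refine natDegree_add_le_of_degree_le (hC _ _ _ (hp D 2 6 hD)) ?_
        exact natDegree_mul_le_of_le (hC _ _ _ (hp D 2 2 hD)) hG
    have hV : V.natDegree ≤ 8 := by
      refine natDegree_add_le_of_degree_le (hC _ _ _ (hC _ _ _ (hp D 2 4 hD))) (hC _ _ _ ?_)
      exact natDegree_add_le_of_degree_le (hC _ _ _ (hp D 2 4 hD)) (hC _ _ _ hG)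
    exact (natDegree_sub_le _ _).trans (max_le (hp U 12 2 hU)
      (natDegree_mul_le_of_le hG (hp V 8 2 hV)))
  · intro K _ _ c w hw
    have hK : CharZero K := charZero_of_injective_algebraMap (algebraMap k K).injective
    obtain ⟨d, hd⟩ : ∃ d, d = dl t c := ⟨_, rfl⟩
    obtain ⟨g, hg⟩ : ∃ g, g = gc t c := ⟨_, rfl⟩
    obtain ⟨s, hs⟩ : ∃ s, s = algebraMap k K θ := ⟨_, rfl⟩
    have hD : aeval c D = d := by
      change aeval c (X * (C (5 * t) - X) : k[X]) = d
      rw [hd]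
      simp only [map_mul, map_sub, aeval_X, aeval_C]
      unfold dl eK
      rw [map_mul]
    have hG : aeval c G = c ^ 2 * g := by
      change aeval c (X ^ 2 * (X * (X * (C (5 * t) - X) ^ 4 - C 256)) : k[X]) = c ^ 2 * g
      rw [hg]
      simp only [map_mul, map_sub, map_pow, aeval_X, aeval_C, map_ofNat]
      unfold gc eK
      rw [map_mul, map_ofNat]
    have hU : aeval c U = (1 - s) / 186624 * (d ^ 2 * (49 * d ^ 4 + 81 * (c ^ 2 * g))) +
        s / 373248 * (125 * d ^ 6 + 135 * d ^ 2 * (c ^ 2 * g)) := by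
      change aeval c (C ((1 - θ) / 186624) * (D ^ 2 * (C 49 * D ^ 4 + C 81 * G)) +
        C (θ / 373248) * (C 125 * D ^ 6 + C 135 * D ^ 2 * G)) = _
      simp only [map_mul, map_add, map_sub, map_pow, aeval_C, map_div₀, map_one, map_ofNat, hD,
        hG, ← hs]
    have hV : aeval c V = (1 - s) / 186624 * (126 * d ^ 4) +
        s / 373248 * (225 * d ^ 4 + 27 * (c ^ 2 * g)) := by
      change aeval c (C ((1 - θ) / 186624) * (C 126 * D ^ 4) +
        C (θ / 373248) * (C 225 * D ^ 4 + C 27 * G)) = _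
      simp only [map_mul, map_add, map_sub, map_pow, aeval_C, map_div₀, map_one, map_ofNat, hD,
        hG, ← hs]
    rw [map_sub, map_mul, map_pow, map_pow, hU, hV, hG, ← hs]
    have hal : ∀ z : K, al t c z = (5 * d ^ 2 - 3 * (c * z)) / 72 := by
      intro z
      unfold al Qc
      rw [← hd]
      ring
    have hbe : ∀ z : K, be t c z = d * (7 * d ^ 2 - 9 * (c * z)) / 216 := by
      intro z
      unfold be Qc
      rw [← hd]
      ring
    rw [hal, hal, hbe, hbe, hg, ← hw]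
    ring

end Pool.Agent.DWK
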