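import Pool.Agent.DWK.Cls

/-!
# Pairs of points interchanged by the permutation of two coordinates
-/

set_option autoImplicit false

noncomputable section

namespace Pool.Agent.DWK

open Pool.Agent.ZCyc Pool.Agent.TInf Pool.Agent.GT
open Pool.Agent.VFP (Om tt)
open scoped Classical LinearAlgebra.Projectivization

variable {k : Type} [Field k] {K : Type} [Field K] [Algebra k K] {t : k}

theorem rt2_spec [IsAlgClosed K] (s p : K) : rt2 s p * (s - rt2 s p) = p := by
  have h : ∃ r : K, r * (s - r) = p := by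
    obtain ⟨r, hr⟩ := IsAlgClosed.exists_root
      (Polynomial.X ^ 2 - Polynomial.C s * Polynomial.X + Polynomial.C p) (by
        have : (Polynomial.X ^ 2 - Polynomial.C s * Polynomial.X + Polynomial.C p).degree = 2 := by
          compute_degree!
        rw [this]
        norm_num)
    refine ⟨r, ?_⟩
    rw [Polynomial.IsRoot.def] at hr
    simp only [Polynomial.eval_add, Polynomial.eval_sub, Polynomial.eval_pow, Polynomial.eval_X,
      Polynomial.eval_mul, Polynomial.eval_C] at hr
    linear_combination (-1 : K) * hr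
  unfold rt2
  rw [dif_pos h]
  exact h.choose_spec

/-- `x₀ ⁵ + x₁ ⁵ = s ⁵ - 5 s ³ p + 5 s p ²` for `s = x₀ + x₁`, `p = x₀ x₁` -/
theorem on_pair {r s a b c : K} : On t ![r, s - r, a, b, c] ↔
    ¬ (s = 0 ∧ r * (s - r) = 0 ∧ a = 0 ∧ b = 0 ∧ c = 0) ∧
      GG5 t s (r * (s - r)) a b c = 0 := by
  unfold On GG5
  have h1 : (![r, s - r, a, b, c] : Fin 5 → K) = 0 ↔
      (s = 0 ∧ r * (s - r) = 0 ∧ a = 0 ∧ b = 0 ∧ c = 0) := by
    constructor
    · intro h
      have h0 : r = 0 := congrFun h 0
      have h1 : s - r = 0 := congrFun h 1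
      have h2 : a = 0 := congrFun h 2
      have h3 : b = 0 := congrFun h 3
      have h4 : c = 0 := congrFun h 4
      refine ⟨by rw [h0, sub_zero] at h1; exact h1, by rw [h0, zero_mul], h2, h3, h4⟩
    · rintro ⟨h1, h2, rfl, rfl, rfl⟩
      have h3 : r = 0 := by
        rw [h1] at h2
        have : r ^ 2 = 0 := by linear_combination (-1 : K) * h2
        exact pow_eq_zero_iff (two_ne_zero) |>.1 this
      rw [h1, h3]
      ext i
      fin_cases i <;> simp
  refine and_congr (not_congr h1) ?_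
  rw [Fin.sum_univ_five, Fin.prod_univ_five]
  change r ^ 5 + (s - r) ^ 5 + a ^ 5 + b ^ 5 + c ^ 5 =
    algebraMap k K (5 * t) * (r * (s - r) * a * b * c) ↔ _
  rw [← sub_eq_zero]
  have h2 : r ^ 5 + (s - r) ^ 5 + a ^ 5 + b ^ 5 + c ^ 5 -
      algebraMap k K (5 * t) * (r * (s - r) * a * b * c) =
      s ^ 5 - 5 * s ^ 3 * (r * (s - r)) + 5 * s * (r * (s - r)) ^ 2 + a ^ 5 + b ^ 5 + c ^ 5 -
      algebraMap k K (5 * t) * (r * (s - r) * a * b * c) := by ring
  rw [h2]

variable [IsAlgClosed k]

private theorem two_roots {F : Type} [Field F] {r r' s : F} (h : r' * (s - r') = r * (s - r)) :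
    r' = r ∨ r' = s - r := by
  have h1 : (r' - r) * (r' - (s - r)) = 0 := by linear_combination (-1 : F) * h
  rcases mul_eq_zero.1 h1 with h2 | h2
  · exact Or.inl (sub_eq_zero.1 h2)
  · exact Or.inr (sub_eq_zero.1 h2)

private theorem cl_pair (r s a b c : k) : prs t s (r * (s - r)) a b c =
    cls t ![r, s - r, a, b, c] + cls t ![s - r, r, a, b, c] := by
  have h1 := rt2_spec s (r * (s - r))
  unfold prs prc cls
  rw [map_add]
  generalize rt2 s (r * (s - r)) = r' at h1
  rcases two_roots h1 with rfl | rfl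
  · rfl
  · rw [show s - (s - r) = r by ring, add_comm]

/-- the roots of `T ² - (x₀ + x₁) T + x₀ x₁` are `x₀` and `x₁` -/
theorem prs_eq (x : Fin 5 → k) : prs t (x 0 + x 1) (x 0 * x 1) (x 2) (x 3) (x 4) =
    cls t x + cls t (x ∘ Equiv.swap 0 1) := by
  have h1 := cl_pair (t := t) (x 0) (x 0 + x 1) (x 2) (x 3) (x 4)
  rw [show x 0 * (x 0 + x 1 - x 0) = x 0 * x 1 by ring,
    show x 0 + x 1 - x 0 = x 1 by ring] at h1
  rw [h1]
  congr 2
  · ext i
    fin_cases i <;> rfl
  · ext i
    fin_cases i <;> rfl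

/-- Let `R = rt2 S P`. It is integral over the valuation ring (`VFP.mem_of_quad`), so it has a value
`r`, and `r (s - r) = p`. The limits of the two points are the points `(r, s - r, a, b, c)` and
`(s - r, r, a, b, c)` (`lim1_cyc` with `l = 1`, `on_pair`), and `r` is `rt2 s p` or
`s - rt2 s p`. -/
theorem lim_prc {v : Place k (Om k)} {S P A B C : Om k} {s p a b c : k}
    (hG : GG5 t S P A B C = 0) (hS : v.At S s) (hP : v.At P p) (hA : v.At A a) (hB : v.At B b)
    (hC : v.At C c) (hne : ¬ (s = 0 ∧ p = 0 ∧ a = 0 ∧ b = 0 ∧ c = 0)) :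
    lim1 (dwork_hom t) v (prc t S P A B C) = prs t s p a b c := by
  have hR := rt2_spec S P
  unfold prc
  generalize rt2 S P = R at hR
  have hRm : R ∈ v.ring := Pool.Agent.VFP.mem_of_quad hS.mem hP.mem (by
    linear_combination (-1 : Om k) * hR)
  obtain ⟨r, hr⟩ := Pool.Agent.DCI57.exists_at v hRm
  have hp : r * (s - r) = p := by
    have h1 := hr.mul (hS.sub hr)
    rw [hR] at h1
    exact Place.At.unique h1 hP
  have h0 : v.At (0 : Om k) 0 := Pool.Agent.VFP.at_zero
  have hon : ∀ R' : Om k, R' * (S - R') = P → On t ![R', S - R', A, B, C] := by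
    intro R' hR'
    rw [on_pair, hR']
    refine ⟨?_, hG⟩
    rintro ⟨h1, h2, h3, h4, h5⟩
    rw [h1] at hS
    rw [h2] at hP
    rw [h3] at hA
    rw [h4] at hB
    rw [h5] at hC
    exact hne ⟨(h0.unique hS).symm, (h0.unique hP).symm, (h0.unique hA).symm,
      (h0.unique hB).symm, (h0.unique hC).symm⟩
  have hx : ∀ r' : k, r' * (s - r') = p → (![r', s - r', a, b, c] : Fin 5 → k) ≠ 0 := by
    intro r' hr' h
    have h0 : r' = 0 := congrFun h 0
    have h1 : s - r' = 0 := congrFun h 1
    have h2 : a = 0 := congrFun h 2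
    have h3 : b = 0 := congrFun h 3
    have h4 : c = 0 := congrFun h 4
    refine hne ⟨by rw [h0, sub_zero] at h1; exact h1, by rw [← hr', h0, zero_mul], h2, h3, h4⟩
  have hlim : ∀ (R' : Om k) (r' : k), R' * (S - R') = P → v.At R' r' →
      lim1 (dwork_hom t) v (cyc t ![R', S - R', A, B, C]) = cls t ![r', s - r', a, b, c] := by
    intro R' r' hR' hr'
    have hp' : r' * (s - r') = p := by
      have h1 := hr'.mul (hS.sub hr')
      rw [hR'] at h1
      exact Place.At.unique h1 hP
    refine lim1_cyc (l := 1) (hon R' hR') (fun i => ?_) (hx r' hp')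
    rw [one_mul]
    fin_cases i
    · exact hr'
    · exact hS.sub hr'
    · exact hA
    · exact hB
    · exact hC
  rw [map_add, hlim R r hR hr]
  have h2 := hlim (S - R) (s - r) (by linear_combination hR) (hS.sub hr)
  rw [show S - (S - R) = R by ring, show s - (s - r) = r by ring] at h2
  rw [h2, ← hp, cl_pair]

/-- the points `(r, -r, 0, 0, 0)` and `(-r, r, 0, 0, 0)` with `r ≠ 0` are both the base point -/
theorem prs_Q {p : k} (hp : p ≠ 0) : prs t 0 p 0 0 0 = (2 : ℚ) • oC t := by
  have hr := rt2_spec (0 : k) p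
  generalize rt2 (0 : k) p = r at hr
  have hr0 : r ≠ 0 := by
    rintro rfl
    apply hp
    rw [← hr, zero_mul]
  rw [← hr, cl_pair]
  have h1 : (![r, 0 - r, 0, 0, 0] : Fin 5 → k) = r • oo k := by
    ext i
    fin_cases i <;> simp [oo]
  have h2 : (![0 - r, r, 0, 0, 0] : Fin 5 → k) = (-r) • oo k := by
    ext i
    fin_cases i <;> simp [oo]
  rw [h1, h2, cls_smul _ hr0, cls_smul _ (neg_ne_zero.2 hr0), two_smul]
  rfl

/-- the equation under specialisation -/
theorem GG5_at {v : Place k (Om k)} {S P A B C : Om k} {s p a b c : k}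
    (hS : v.At S s) (hP : v.At P p) (hA : v.At A a) (hB : v.At B b) (hC : v.At C c) :
    v.At (GG5 t S P A B C) (GG5 t s p a b c) := by
  unfold GG5
  have h5 : v.At (5 : Om k) (5 : k) := Pool.Agent.VFP.at_num 5
  have ht : v.At (algebraMap k (Om k) (5 * t)) (algebraMap k k (5 * t)) := Place.at_const (5 * t)
  exact ((((((hS.pow 5).sub ((h5.mul (hS.pow 3)).mul hP)).add ((h5.mul hS).mul (hP.pow 2))).add
    (hA.pow 5)).add (hB.pow 5)).add (hC.pow 5)).sub (ht.mul (((hP.mul hA).mul hB).mul hC))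

end Pool.Agent.DWK
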