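import Pool.Agent.DWK.Pair

/-!
# A pencil of curves
-/

set_option autoImplicit false

noncomputable section

namespace Pool.Agent.DWK

open Pool.Agent.ZCyc Pool.Agent.TInf Pool.Agent.GT
open Pool.Agent.VFP (Om tt)
open scoped Classical LinearAlgebra.Projectivization

open Polynomial

variable {k : Type} [Field k] [IsAlgClosed k] [CharZero k] {t : k}

omit [IsAlgClosed k] [CharZero k] in
private theorem GG5_map {R R' : Type} [CommRing R] [Algebra k R] [CommRing R'] [Algebra k R']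
    (f : R →ₐ[k] R') (s p a b c : R) :
    f (GG5 t s p a b c) = GG5 t (f s) (f p) (f a) (f b) (f c) := by
  unfold GG5
  simp only [map_sub, map_add, map_mul, map_pow, map_ofNat, f.commutes]

omit [IsAlgClosed k] [CharZero k] in
/-- the polynomial `GG5 t S (P0 + P1 T + P2 T ^ 2) (A0 + A1 T) (B0 + B1 T) (C0 + C1 T)` -/
private theorem exists_q (S P0 P1 P2 A0 A1 B0 B1 C0 C1 : Om k) : ∃ q : (Om k)[X],
    (∀ T, q.eval T = GG5 t S (P0 + P1 * T + P2 * T ^ 2) (A0 + A1 * T) (B0 + B1 * T)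
      (C0 + C1 * T)) ∧ q.coeff 5 = GG5 t 0 P2 A1 B1 C1 := by
  obtain ⟨κ, hκ⟩ : ∃ κ, κ = algebraMap k (Om k) (5 * t) := ⟨_, rfl⟩
  obtain ⟨c0, h0⟩ : ∃ c, c = S ^ 5 - 5 * S ^ 3 * P0 + 5 * S * P0 ^ 2 + A0 ^ 5 + B0 ^ 5 + C0 ^ 5 -
    κ * (P0 * (A0 * B0 * C0)) := ⟨_, rfl⟩
  obtain ⟨c1, h1⟩ : ∃ c, c = -5 * S ^ 3 * P1 + 5 * S * (2 * P0 * P1) + 5 * A0 ^ 4 * A1 +
    5 * B0 ^ 4 * B1 + 5 * C0 ^ 4 * C1 -
    κ * (P0 * (A1 * B0 * C0 + A0 * B1 * C0 + A0 * B0 * C1) + P1 * (A0 * B0 * C0)) := ⟨_, rfl⟩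
  obtain ⟨c2, h2⟩ : ∃ c, c = -5 * S ^ 3 * P2 + 5 * S * (P1 ^ 2 + 2 * P0 * P2) +
    10 * A0 ^ 3 * A1 ^ 2 + 10 * B0 ^ 3 * B1 ^ 2 + 10 * C0 ^ 3 * C1 ^ 2 -
    κ * (P0 * (A1 * B1 * C0 + A1 * B0 * C1 + A0 * B1 * C1) +
      P1 * (A1 * B0 * C0 + A0 * B1 * C0 + A0 * B0 * C1) + P2 * (A0 * B0 * C0)) := ⟨_, rfl⟩
  obtain ⟨c3, h3⟩ : ∃ c, c = 5 * S * (2 * P1 * P2) + 10 * A0 ^ 2 * A1 ^ 3 +
    10 * B0 ^ 2 * B1 ^ 3 + 10 * C0 ^ 2 * C1 ^ 3 -
    κ * (P0 * (A1 * B1 * C1) + P1 * (A1 * B1 * C0 + A1 * B0 * C1 + A0 * B1 * C1) +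
      P2 * (A1 * B0 * C0 + A0 * B1 * C0 + A0 * B0 * C1)) := ⟨_, rfl⟩
  obtain ⟨c4, h4⟩ : ∃ c, c = 5 * S * P2 ^ 2 + 5 * A0 * A1 ^ 4 + 5 * B0 * B1 ^ 4 +
    5 * C0 * C1 ^ 4 -
    κ * (P1 * (A1 * B1 * C1) + P2 * (A1 * B1 * C0 + A1 * B0 * C1 + A0 * B1 * C1)) := ⟨_, rfl⟩
  refine ⟨C c0 + C c1 * X + C c2 * X ^ 2 + C c3 * X ^ 3 + C c4 * X ^ 4 +
    C (GG5 t 0 P2 A1 B1 C1) * X ^ 5, fun T => ?_, ?_⟩
  · simp only [eval_add, eval_mul, eval_C, eval_X, eval_pow]
    unfold GG5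
    rw [← hκ, h0, h1, h2, h3, h4]
    ring
  · simp

omit [IsAlgClosed k] [CharZero k] in
private theorem lead_ne {p₂ x y z : k} (hγ : GG5 t 0 p₂ x y z ≠ 0) :
    GG5 t 0 ((1 - tt k) * algebraMap k (Om k) p₂) ((1 - tt k) * algebraMap k (Om k) x + tt k)
      ((1 - tt k) * algebraMap k (Om k) y) ((1 - tt k) * algebraMap k (Om k) z) ≠ 0 := by
  let g : k[X] := GG5 t 0 ((1 - X) * C p₂) ((1 - X) * C x + X) ((1 - X) * C y) ((1 - X) * C z)
  have h1 : aeval (0 : k) g = GG5 t 0 p₂ x y z := by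
    have h2 := GG5_map (t := t) (aeval (0 : k) : k[X] →ₐ[k] k) 0 ((1 - X) * C p₂)
      ((1 - X) * C x + X) ((1 - X) * C y) ((1 - X) * C z)
    refine h2.trans ?_
    simp
  have h2 : aeval (tt k) g = GG5 t 0 ((1 - tt k) * algebraMap k (Om k) p₂)
      ((1 - tt k) * algebraMap k (Om k) x + tt k)
      ((1 - tt k) * algebraMap k (Om k) y) ((1 - tt k) * algebraMap k (Om k) z) := by
    have h3 := GG5_map (t := t) (aeval (tt k) : k[X] →ₐ[k] Om k) 0 ((1 - X) * C p₂)
      ((1 - X) * C x + X) ((1 - X) * C y) ((1 - X) * C z)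
    refine h3.trans ?_
    simp
  rw [← h2]
  intro h3
  have h4 : g = 0 := (transcendental_iff.1 (Pool.Agent.VFP.tt_transc (k := k))) g h3
  rw [h4, map_zero] at h1
  exact hγ h1.symm

omit [CharZero k] in
/-- the data of the pencil have values where the parameter has a pole -/
private theorem pen_pole {v : Place k (Om k)} {T : Om k} (hT : T ∉ v.ring) {e : k}
    (he : v.At (tt k) e) {s p a b c p₁ p₂ x y z : k}
    (h : GG5 t ((1 - tt k) * algebraMap k (Om k) s)
      (((1 - tt k) * algebraMap k (Om k) p + tt k) + ((1 - tt k) * algebraMap k (Om k) p₁) * T +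
        ((1 - tt k) * algebraMap k (Om k) p₂) * T ^ 2)
      ((1 - tt k) * algebraMap k (Om k) a + ((1 - tt k) * algebraMap k (Om k) x + tt k) * T)
      ((1 - tt k) * algebraMap k (Om k) b + ((1 - tt k) * algebraMap k (Om k) y) * T)
      ((1 - tt k) * algebraMap k (Om k) c + ((1 - tt k) * algebraMap k (Om k) z) * T) = 0) :
    GG5 t 0 ((1 - e) * p₂) ((1 - e) * x + e) ((1 - e) * y) ((1 - e) * z) = 0 := by
  have hT0 : T ≠ 0 := Pool.Agent.VFP.ne_zero_of_not_mem hT
  have hw : v.At T⁻¹ 0 := Pool.Agent.VFP.inv_at_of_not_mem hT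
  obtain ⟨w, hw'⟩ : ∃ w, w = T⁻¹ := ⟨_, rfl⟩
  rw [← hw'] at hw
  have hwT : w * T = 1 := by
    rw [hw']
    exact inv_mul_cancel₀ hT0
  have h1 : v.At (1 - tt k) (1 - e) := Pool.Agent.VFP.at_one.sub he
  have cc : ∀ u : k, v.At ((1 - tt k) * algebraMap k (Om k) u) ((1 - e) * u) := fun u =>
    h1.mul (Place.at_const u)
  have hS : v.At (w * ((1 - tt k) * algebraMap k (Om k) s)) (0 * ((1 - e) * s)) :=
    hw.mul (cc s)
  have hP : v.At (((1 - tt k) * algebraMap k (Om k) p + tt k) * w ^ 2 +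
      ((1 - tt k) * algebraMap k (Om k) p₁) * w + (1 - tt k) * algebraMap k (Om k) p₂)
      (((1 - e) * p + e) * 0 ^ 2 + ((1 - e) * p₁) * 0 + (1 - e) * p₂) :=
    ((((cc p).add he).mul (hw.pow 2)).add ((cc p₁).mul hw)).add (cc p₂)
  have hA : v.At (((1 - tt k) * algebraMap k (Om k) a) * w +
      ((1 - tt k) * algebraMap k (Om k) x + tt k)) (((1 - e) * a) * 0 + ((1 - e) * x + e)) :=
    ((cc a).mul hw).add ((cc x).add he)
  have hB : v.At (((1 - tt k) * algebraMap k (Om k) b) * w +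
      (1 - tt k) * algebraMap k (Om k) y) (((1 - e) * b) * 0 + (1 - e) * y) :=
    ((cc b).mul hw).add (cc y)
  have hC : v.At (((1 - tt k) * algebraMap k (Om k) c) * w +
      (1 - tt k) * algebraMap k (Om k) z) (((1 - e) * c) * 0 + (1 - e) * z) :=
    ((cc c).mul hw).add (cc z)
  have h2 := GG5_at (t := t) hS hP hA hB hC
  have e1 : ((1 - tt k) * algebraMap k (Om k) p + tt k) * w ^ 2 +
      ((1 - tt k) * algebraMap k (Om k) p₁) * w + (1 - tt k) * algebraMap k (Om k) p₂ =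
      w ^ 2 * (((1 - tt k) * algebraMap k (Om k) p + tt k) +
        ((1 - tt k) * algebraMap k (Om k) p₁) * T +
        ((1 - tt k) * algebraMap k (Om k) p₂) * T ^ 2) := by
    linear_combination (-((1 - tt k) * algebraMap k (Om k) p₁) * w -
      ((1 - tt k) * algebraMap k (Om k) p₂) * (w * T + 1)) * hwT
  have e2 : ((1 - tt k) * algebraMap k (Om k) a) * w +
      ((1 - tt k) * algebraMap k (Om k) x + tt k) = w * ((1 - tt k) * algebraMap k (Om k) a +
        ((1 - tt k) * algebraMap k (Om k) x + tt k) * T) := by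
    linear_combination (-((1 - tt k) * algebraMap k (Om k) x + tt k)) * hwT
  have e3 : ((1 - tt k) * algebraMap k (Om k) b) * w +
      (1 - tt k) * algebraMap k (Om k) y = w * ((1 - tt k) * algebraMap k (Om k) b +
        ((1 - tt k) * algebraMap k (Om k) y) * T) := by
    linear_combination (-((1 - tt k) * algebraMap k (Om k) y)) * hwT
  have e4 : ((1 - tt k) * algebraMap k (Om k) c) * w +
      (1 - tt k) * algebraMap k (Om k) z = w * ((1 - tt k) * algebraMap k (Om k) c +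
        ((1 - tt k) * algebraMap k (Om k) z) * T) := by
    linear_combination (-((1 - tt k) * algebraMap k (Om k) z)) * hwT
  rw [e1, e2, e3, e4] at h2
  have h3 : ∀ S P A B C' : Om k, GG5 t (w * S) (w ^ 2 * P) (w * A) (w * B) (w * C') =
      w ^ 5 * GG5 t S P A B C' := by
    intro S P A B C'
    unfold GG5
    ring
  rw [h3, h, mul_zero] at h2
  have h4 := h2.unique Pool.Agent.VFP.at_zero
  have e5 : (0 : k) * ((1 - e) * s) = 0 := by ring
  have e6 : ((1 - e) * p + e) * 0 ^ 2 + ((1 - e) * p₁) * 0 + (1 - e) * p₂ = (1 - e) * p₂ := by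
    ring
  have e7 : ((1 - e) * a) * 0 + ((1 - e) * x + e) = (1 - e) * x + e := by ring
  have e8 : ((1 - e) * b) * 0 + (1 - e) * y = (1 - e) * y := by ring
  have e9 : ((1 - e) * c) * 0 + (1 - e) * z = (1 - e) * z := by ring
  rw [e5, e6, e7, e8, e9] at h4
  exact h4

omit [IsAlgClosed k] [CharZero k] in
/-- the values of the data of the pencil where the parameter has a value -/
private theorem pen_at {v : Place k (Om k)} {T : Om k} {T' : k} (hT : v.At T T') {e : k}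
    (he : v.At (tt k) e) (s p a b c p₁ p₂ x y z : k) :
    v.At ((1 - tt k) * algebraMap k (Om k) s) ((1 - e) * s) ∧
    v.At (((1 - tt k) * algebraMap k (Om k) p + tt k) +
        ((1 - tt k) * algebraMap k (Om k) p₁) * T +
        ((1 - tt k) * algebraMap k (Om k) p₂) * T ^ 2)
      ((1 - e) * p + e + (1 - e) * p₁ * T' + (1 - e) * p₂ * T' ^ 2) ∧
    v.At ((1 - tt k) * algebraMap k (Om k) a +
      ((1 - tt k) * algebraMap k (Om k) x + tt k) * T) ((1 - e) * a + ((1 - e) * x + e) * T') ∧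
    v.At ((1 - tt k) * algebraMap k (Om k) b + ((1 - tt k) * algebraMap k (Om k) y) * T)
      ((1 - e) * b + ((1 - e) * y) * T') ∧
    v.At ((1 - tt k) * algebraMap k (Om k) c + ((1 - tt k) * algebraMap k (Om k) z) * T)
      ((1 - e) * c + ((1 - e) * z) * T') := by
  have h1 : v.At (1 - tt k) (1 - e) := Pool.Agent.VFP.at_one.sub he
  have cc : ∀ u : k, v.At ((1 - tt k) * algebraMap k (Om k) u) ((1 - e) * u) := fun u =>
    h1.mul (Place.at_const u)
  exact ⟨cc s, (((cc p).add he).add ((cc p₁).mul hT)).add ((cc p₂).mul (hT.pow 2)),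
    (cc a).add (((cc x).add he).mul hT), (cc b).add ((cc y).mul hT), (cc c).add ((cc z).mul hT)⟩

/-- Let `τ = tt k`, and for `T` in `Om k` let `D(T)` be the data
`S = (1 - τ) s`, `P = (1 - τ) (p + p₁ T + p₂ T ²) + τ`, `A = (1 - τ) (a + x T) + τ T`,
`B = (1 - τ) (b + y T)`, `C = (1 - τ) (c + z T)`. Then `GG5 t S P A B C` is a polynomial `q(T)` of
degree at most five, the coefficient of `T ⁵` is
`Γ = GG5 t 0 ((1 - τ) p₂) ((1 - τ) x + τ) ((1 - τ) y) ((1 - τ) z)`, with the value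
`γ = GG5 t 0 p₂ x y z ≠ 0` at `τ = 0`, so that `Γ ≠ 0` and `q` is not constant; let `n > 0` be the number
of its roots (`Polynomial.roots`, with multiplicity). The cycle `Z` is the sum of `prc t D(T)` over the
roots.
Let `v` be a place above `τ = 0` or `τ = 1` (`v.At (tt k) 0` or `1`), and `T` a root. If `T` is not in
the valuation ring then `w = T⁻¹` has the value `0`, and multiplying `S, A, B, C` with `w` and `P` with
`w ²` we get (`GG5_at`, the value of `GG5 t (w S) (w ² P) (w A) (w B) (w C) = w ⁵ q(T) = 0`):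
`GG5 t 0 p₂ x y z = 0` for `τ = 0`, and `GG5 t 0 0 1 0 0 = 1 = 0` for `τ = 1`; contradiction. So `T` has
a value `T'`. For `τ = 0` we get `0 = GG5 t s (p + p₁ T' + ...) ... = γ T' ⁵` (`hid`), so `T' = 0`, and
the limit of `prc t D(T)` is `prs t s p a b c` (`lim_prc`). For `τ = 1` we get
`0 = GG5 t 0 1 T' 0 0 = T' ⁵`, so `T' = 0`, and the limit of `prc t D(T)` is
`prs t 0 1 0 0 0 = 2 oC t` (`prs_Q`). So the limits of `Z` are `n • prs t s p a b c` and
`n • 2 oC t`; use `bridge1`. -/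
theorem prs_pencil {s p a b c p₁ p₂ x y z : k} (hG : GG5 t s p a b c = 0)
    (hne : ¬ (s = 0 ∧ p = 0 ∧ a = 0 ∧ b = 0 ∧ c = 0))
    (hid : ∀ T : k, GG5 t s (p + p₁ * T + p₂ * T ^ 2) (a + x * T) (b + y * T) (c + z * T) =
      GG5 t 0 p₂ x y z * T ^ 5)
    (hγ : GG5 t 0 p₂ x y z ≠ 0) : prs t s p a b c = (2 : ℚ) • oC t := by
  obtain ⟨q, hq, hq5⟩ := exists_q (t := t) ((1 - tt k) * algebraMap k (Om k) s)
    ((1 - tt k) * algebraMap k (Om k) p + tt k) ((1 - tt k) * algebraMap k (Om k) p₁)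
    ((1 - tt k) * algebraMap k (Om k) p₂)
    ((1 - tt k) * algebraMap k (Om k) a) ((1 - tt k) * algebraMap k (Om k) x + tt k)
    ((1 - tt k) * algebraMap k (Om k) b) ((1 - tt k) * algebraMap k (Om k) y)
    ((1 - tt k) * algebraMap k (Om k) c) ((1 - tt k) * algebraMap k (Om k) z)
  have hlead : q.coeff 5 ≠ 0 := by
    rw [hq5]
    exact lead_ne hγ
  have hq0 : q ≠ 0 := by
    rintro rfl
    exact hlead (coeff_zero 5)
  have hdeg : q.degree ≠ 0 := by
    intro h
    refine hlead (coeff_eq_zero_of_degree_lt ?_)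
    rw [h]
    exact_mod_cast (by norm_num : (0 : ℕ) < 5)
  obtain ⟨T0, hT0⟩ := IsAlgClosed.exists_root q hdeg
  have hcard : Multiset.card q.roots ≠ 0 := by
    have h1 : T0 ∈ q.roots := (mem_roots hq0).2 hT0
    exact (Multiset.card_pos_iff_exists_mem.2 ⟨T0, h1⟩).ne'
  -- the cycle
  let D : Om k → (Pt {dwork t} (Om k) →₀ ℚ) := fun T =>
    prc t ((1 - tt k) * algebraMap k (Om k) s)
      (((1 - tt k) * algebraMap k (Om k) p + tt k) + ((1 - tt k) * algebraMap k (Om k) p₁) * T +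
        ((1 - tt k) * algebraMap k (Om k) p₂) * T ^ 2)
      ((1 - tt k) * algebraMap k (Om k) a + ((1 - tt k) * algebraMap k (Om k) x + tt k) * T)
      ((1 - tt k) * algebraMap k (Om k) b + ((1 - tt k) * algebraMap k (Om k) y) * T)
      ((1 - tt k) * algebraMap k (Om k) c + ((1 - tt k) * algebraMap k (Om k) z) * T)
  have hroot : ∀ T ∈ q.roots, GG5 t ((1 - tt k) * algebraMap k (Om k) s)
      (((1 - tt k) * algebraMap k (Om k) p + tt k) + ((1 - tt k) * algebraMap k (Om k) p₁) * T +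
        ((1 - tt k) * algebraMap k (Om k) p₂) * T ^ 2)
      ((1 - tt k) * algebraMap k (Om k) a + ((1 - tt k) * algebraMap k (Om k) x + tt k) * T)
      ((1 - tt k) * algebraMap k (Om k) b + ((1 - tt k) * algebraMap k (Om k) y) * T)
      ((1 - tt k) * algebraMap k (Om k) c + ((1 - tt k) * algebraMap k (Om k) z) * T) = 0 := by
    intro T hT
    rw [← hq T]
    exact (mem_roots hq0).1 hT
  have hsum : ∀ (v : Place k (Om k)) (c₀ : V t),
      (∀ T ∈ q.roots, lim1 (dwork_hom t) v (D T) = c₀) →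
      lim1 (dwork_hom t) v (q.roots.map D).sum = Multiset.card q.roots • c₀ := by
    intro v c₀ h
    have h1 : Multiset.map (⇑(lim1 (dwork_hom t) v) ∘ D) q.roots =
        Multiset.map (fun _ => c₀) q.roots := Multiset.map_congr rfl fun T hT => h T hT
    rw [map_multiset_sum, Multiset.map_map, h1, Multiset.map_const', Multiset.sum_replicate]
  have hlim0 : ∀ v : Place k (Om k), v.At (tt k) 0 →
      lim1 (dwork_hom t) v (q.roots.map D).sum = Multiset.card q.roots • prs t s p a b c := by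
    intro v hv
    refine hsum v _ fun T hT => ?_
    have hr := hroot T hT
    have hmem : T ∈ v.ring := by
      by_contra hcon
      have h1 := pen_pole hcon hv hr
      simp only [sub_zero, one_mul, add_zero] at h1
      exact hγ h1
    obtain ⟨T', hT'⟩ := DCI57.exists_at v hmem
    obtain ⟨h1, h2, h3, h4, h5⟩ := pen_at hT' hv s p a b c p₁ p₂ x y z
    have h6 := GG5_at (t := t) h1 h2 h3 h4 h5
    rw [hr] at h6
    have h7 := h6.unique Pool.Agent.VFP.at_zero
    simp only [sub_zero, one_mul, add_zero] at h7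
    rw [hid T'] at h7
    have h8 : T' = 0 := by
      rcases mul_eq_zero.1 h7 with h9 | h9
      · exact absurd h9 hγ
      · exact pow_eq_zero_iff (by norm_num) |>.1 h9
    subst h8
    have e1 : (1 - (0 : k)) * s = s := by ring
    have e2 : (1 - (0 : k)) * p + 0 + (1 - 0) * p₁ * 0 + (1 - 0) * p₂ * 0 ^ 2 = p := by ring
    have e3 : (1 - (0 : k)) * a + ((1 - 0) * x + 0) * 0 = a := by ring
    have e4 : (1 - (0 : k)) * b + ((1 - 0) * y) * 0 = b := by ring
    have e5 : (1 - (0 : k)) * c + ((1 - 0) * z) * 0 = c := by ring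
    rw [e1] at h1
    rw [e2] at h2
    rw [e3] at h3
    rw [e4] at h4
    rw [e5] at h5
    exact lim_prc hr h1 h2 h3 h4 h5 hne
  have hlim1 : ∀ v : Place k (Om k), v.At (tt k) 1 →
      lim1 (dwork_hom t) v (q.roots.map D).sum =
        Multiset.card q.roots • ((2 : ℚ) • oC t) := by
    intro v hv
    refine hsum v _ fun T hT => ?_
    have hr := hroot T hT
    have hmem : T ∈ v.ring := by
      by_contra hcon
      have h1 := pen_pole hcon hv hr
      unfold GG5 at h1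
      norm_num at h1
    obtain ⟨T', hT'⟩ := DCI57.exists_at v hmem
    obtain ⟨h1, h2, h3, h4, h5⟩ := pen_at hT' hv s p a b c p₁ p₂ x y z
    have h6 := GG5_at (t := t) h1 h2 h3 h4 h5
    rw [hr] at h6
    have h7 := h6.unique Pool.Agent.VFP.at_zero
    have h8 : T' = 0 := by
      unfold GG5 at h7
      have h9 : T' ^ 5 = 0 := by
        linear_combination h7
      exact pow_eq_zero_iff (by norm_num) |>.1 h9
    subst h8
    have e1 : (1 - (1 : k)) * s = 0 := by ring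
    have e2 : (1 - (1 : k)) * p + 1 + (1 - 1) * p₁ * 0 + (1 - 1) * p₂ * 0 ^ 2 = 1 := by ring
    have e3 : (1 - (1 : k)) * a + ((1 - 1) * x + 1) * 0 = 0 := by ring
    have e4 : (1 - (1 : k)) * b + ((1 - 1) * y) * 0 = 0 := by ring
    have e5 : (1 - (1 : k)) * c + ((1 - 1) * z) * 0 = 0 := by ring
    rw [e1] at h1
    rw [e2] at h2
    rw [e3] at h3
    rw [e4] at h4
    rw [e5] at h5
    have hQ := prs_Q (t := t) (p := (1 : k)) one_ne_zero
    exact (lim_prc hr h1 h2 h3 h4 h5 fun h => one_ne_zero h.2.1).trans hQ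
  have hfin := bridge1 (t := t) (q.roots.map D).sum hlim0 hlim1
  rw [← Nat.cast_smul_eq_nsmul ℚ, ← Nat.cast_smul_eq_nsmul ℚ] at hfin
  have hn : ((Multiset.card q.roots : ℕ) : ℚ) ≠ 0 := by exact_mod_cast hcard
  have h1 := congrArg (fun u => ((Multiset.card q.roots : ℕ) : ℚ)⁻¹ • u) hfin
  simp only [inv_smul_smul₀ hn] at h1
  exact h1

end Pool.Agent.DWK
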