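import Pool.Agent.DWK.DLem
import Pool.Agent.DWK.Krl
import Pool.Agent.DWK.Pen
import Pool.Agent.DWK.Cur

/-!
# The permutation of two coordinates
-/

set_option autoImplicit false

noncomputable section

namespace Pool.Agent.DWK

open Pool.Agent.ZCyc Pool.Agent.TInf Pool.Agent.GT
open Pool.Agent.VFP (Om tt)
open scoped Classical LinearAlgebra.Projectivization

variable {k : Type} [Field k] [IsAlgClosed k] [CharZero k] {t : k}

/-- By `prs_eq` the left side is `prs t s p a b c` with `s = x₀ + x₁`, `p = x₀ x₁`, `a = x₂`, `b = x₃`,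
`c = x₄`; the equation is `GG5 t s p a b c = 0` (`on_pair` with `r = x₀`). If `s = 0` use `prs_zero`.
Otherwise take `exists_curve`, and use `prs_pencil` if `GG5 t 0 p₂ x y z ≠ 0`, and `prs_curve` if it is
zero. -/
theorem R1 {x : Fin 5 → k} (h : On t x) :
    cls t x + cls t (x ∘ Equiv.swap 0 1) = (2 : ℚ) • oC t := by
  have hx : x = ![x 0, (x 0 + x 1) - x 0, x 2, x 3, x 4] := by
    ext i
    fin_cases i <;> simp
  have h' : On t ![x 0, (x 0 + x 1) - x 0, x 2, x 3, x 4] := by
    rw [← hx]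
    exact h
  obtain ⟨hne, hG⟩ := on_pair.1 h'
  have hp : x 0 * ((x 0 + x 1) - x 0) = x 0 * x 1 := by ring
  rw [hp] at hne hG
  rw [← prs_eq x]
  clear h' hx h hp
  generalize x 0 + x 1 = s at hne hG ⊢
  generalize x 0 * x 1 = p at hne hG ⊢
  by_cases hs : s = 0
  · subst hs
    exact prs_zero hG fun h0 => hne ⟨rfl, h0⟩
  · obtain ⟨p₁, p₂, x', y, z, h1, h2, h3⟩ := exists_curve t hG
    by_cases hγ : GG5 t 0 p₂ x' y z = 0
    · exact prs_curve (fun T => by rw [h3 T, hγ, map_zero, zero_mul]) hγ hs h1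
    · exact prs_pencil hG hne h2 hγ

end Pool.Agent.DWK
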