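import Pool.Agent.DWK.R2a

/-!
# The group of monomial automorphisms
-/

set_option autoImplicit false

noncomputable section

namespace Pool.Agent.DWK

open Pool.Agent.ZCyc Pool.Agent.TInf Pool.Agent.GT
open Pool.Agent.VFP (Om tt)
open scoped Classical LinearAlgebra.Projectivization

variable {k : Type} [Field k] [IsAlgClosed k] [CharZero k] {t : k}

omit [IsAlgClosed k] [CharZero k] in
private theorem on_perm_aux {x : Fin 5 → k} (h : On t x) (π : Equiv.Perm (Fin 5)) :
    On t (x ∘ π) := by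
  refine ⟨fun h0 => h.1 ?_, ?_⟩
  · funext i
    have h1 := congrFun h0 (π⁻¹ i)
    simpa using h1
  · have h1 : ∑ i, (x ∘ π) i ^ 5 = ∑ i, x i ^ 5 := Equiv.sum_comp π fun i => x i ^ 5
    have h2 : ∏ i, (x ∘ π) i = ∏ i, x i := Equiv.prod_comp π x
    rw [h1, h2]
    exact h.2

private theorem exists_rho {i j : Fin 5} (hij : i ≠ j) :
    ∃ ρ : Equiv.Perm (Fin 5), ρ 0 = i ∧ ρ 1 = j := by
  refine ⟨Equiv.swap (Equiv.swap 0 i 1) j * Equiv.swap 0 i, ?_, ?_⟩
  · rw [Equiv.Perm.mul_apply, Equiv.swap_apply_left]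
    refine Equiv.swap_apply_of_ne_of_ne ?_ hij
    intro h
    have h1 : Equiv.swap (0 : Fin 5) i 0 = Equiv.swap 0 i 1 := by
      rw [Equiv.swap_apply_left]
      exact h
    exact absurd ((Equiv.swap (0 : Fin 5) i).injective h1) (by decide)
  · rw [Equiv.Perm.mul_apply, Equiv.swap_apply_left]

private theorem exists_pi (π : Equiv.Perm (Fin 5)) : ∃ T : V t →ₗ[ℚ] V t, ∀ x : Fin 5 → k,
    T (cls t x) = cls t (x ∘ π) := by
  obtain ⟨T, hT⟩ := exists_act (t := t)
    (⟨fun _ => 1, π, fun _ => one_pow 5, by simp⟩ : Mon k)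
  refine ⟨T, fun x => ?_⟩
  rw [hT]
  congr 1
  funext i
  simp [Mon.ap]

/-- the point with the coordinates `1`, `-1` -/
private def oij (k : Type) [Field k] (i j : Fin 5) : Fin 5 → k :=
  fun l => if l = i then 1 else if l = j then -1 else 0

private theorem rho_fac (ρ : Equiv.Perm (Fin 5)) (m : Fin 5) (l : Fin 5) :
    ρ⁻¹ l = m ↔ l = ρ m := by
  constructor
  · intro h
    rw [← h]
    simp
  · intro h
    rw [h]
    simp

omit [IsAlgClosed k] [CharZero k] in
private theorem oo_eq (m : Fin 5) : oo k m = if m = 0 then 1 else if m = 1 then -1 else 0 := by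
  unfold oo
  fin_cases m <;> simp

omit [IsAlgClosed k] [CharZero k] in
private theorem oo_rho (ρ : Equiv.Perm (Fin 5)) : oo k ∘ (ρ⁻¹ : Equiv.Perm (Fin 5)) =
    oij k (ρ 0) (ρ 1) := by
  funext l
  simp only [Function.comp, oij, oo_eq, rho_fac]

omit [IsAlgClosed k] [CharZero k] in
private theorem on_oo : On t (oo k) := by
  refine ⟨fun h => ?_, ?_⟩
  · have h1 := congrFun h 0
    simp [oo] at h1
  · simp only [oo, Fin.sum_univ_succ, Fin.prod_univ_succ]
    simp
    ring

omit [IsAlgClosed k] [CharZero k] in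
private theorem on_oij {i j : Fin 5} (hij : i ≠ j) : On t (oij k i j) := by
  obtain ⟨ρ, h0, h1⟩ := exists_rho hij
  have h2 := on_perm_aux (on_oo (t := t)) ρ⁻¹
  rwa [oo_rho, h0, h1] at h2

private theorem R1ij {x : Fin 5 → k} (h : On t x) {i j : Fin 5} (hij : i ≠ j) :
    cls t x + cls t (x ∘ Equiv.swap i j) = (2 : ℚ) • cls t (oij k i j) := by
  obtain ⟨ρ, h0, h1⟩ := exists_rho hij
  obtain ⟨T, hT⟩ := exists_pi (t := t) ρ⁻¹
  have h2 := congrArg T (R1 (on_perm_aux h ρ))
  rw [map_add, map_smul, hT, hT, oC, hT, oo_rho, h0, h1] at h2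
  have h3 : (x ∘ ρ) ∘ (ρ⁻¹ : Equiv.Perm (Fin 5)) = x := by
    funext l
    simp
  have h4 : ((x ∘ ρ) ∘ Equiv.swap 0 1) ∘ (ρ⁻¹ : Equiv.Perm (Fin 5)) = x ∘ Equiv.swap i j := by
    funext l
    simp only [Function.comp]
    congr 1
    rw [← h0, ← h1]
    have h5 := Equiv.swap_apply_apply ρ 0 1
    rw [h5]
    simp
  rw [h3, h4] at h2
  exact h2

omit [IsAlgClosed k] [CharZero k] in
private theorem oij_symm {i j : Fin 5} (hij : i ≠ j) :
    cls t (oij k i j) = cls t (oij k j i) := by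
  have h1 : oij k i j = (-1 : k) • oij k j i := by
    funext l
    simp only [oij, Pi.smul_apply, smul_eq_mul]
    by_cases h2 : l = i
    · have h3 : l ≠ j := by
        rw [h2]
        exact hij
      simp [h2, hij]
    · by_cases h3 : l = j
      · simp [h3, hij.symm]
      · simp [h2, h3]
  rw [h1]
  exact cls_smul _ (by simp)

omit [IsAlgClosed k] [CharZero k] in
private theorem oij_swap {i j l : Fin 5} (h1 : i ≠ j) (h2 : i ≠ l) (h3 : j ≠ l) :
    oij k i l ∘ Equiv.swap i j = oij k j l := by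
  funext m
  simp only [Function.comp, oij]
  by_cases h4 : m = i
  · subst h4
    simp [h1, h1.symm, h2, h3]
  · by_cases h5 : m = j
    · subst h5
      simp
    · rw [Equiv.swap_apply_of_ne_of_ne h4 h5]
      simp [h4, h5]

private theorem oij_tri {i j l : Fin 5} (h1 : i ≠ j) (h2 : i ≠ l) (h3 : j ≠ l) :
    cls t (oij k i j) = cls t (oij k i l) := by
  have e1 := R1ij (on_oij (t := t) (k := k) h2) h1
  rw [oij_swap h1 h2 h3] at e1
  have e2 := R1ij (on_oij (t := t) (k := k) h1) h2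
  rw [oij_swap h2 h1 h3.symm, oij_symm h3.symm] at e2
  -- B + C = 2 A, A + C = 2 B
  generalize cls t (oij k i j) = A at *
  generalize cls t (oij k i l) = B at *
  generalize cls t (oij k j l) = C at *
  have e3 : (3 : ℚ) • (A - B) = 0 := by
    have e4 : (3 : ℚ) • (A - B) = (A + C - (2 : ℚ) • B) - (B + C - (2 : ℚ) • A) := by
      module
    rw [e4, e1, e2]
    simp
  have e5 := (smul_eq_zero.1 e3).resolve_left (by norm_num)
  exact sub_eq_zero.1 e5

private theorem oij_all {i j : Fin 5} (hij : i ≠ j) : cls t (oij k i j) = oC t := by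
  have key : ∀ {a b c : Fin 5}, a ≠ b → a ≠ c → cls t (oij k a b) = cls t (oij k a c) := by
    intro a b c h1 h2
    by_cases h3 : b = c
    · rw [h3]
    · exact oij_tri h1 h2 h3
  have h0 : oC t = cls t (oij k 0 1) := by
    rw [oC]
    congr 1
    funext m
    rw [oo_eq]
    rfl
  rw [h0]
  by_cases hi : i = 0
  · subst hi
    exact key hij (by decide)
  · rw [key hij hi, oij_symm hi]
    exact key (Ne.symm hi) (by decide)

/-- Let `o i j` be the point with the coordinates `1` at `i`, `-1` at `j`. `R1` and `exists_act` for the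
permutations (`h = 1`) give `[x] + [x ∘ swap i j] = 2 [o i j]` for all `i ≠ j` (apply the map for
`π = ρ⁻¹`, `ρ 0 = i`, `ρ 1 = j`, to `R1` for `x ∘ ρ`). For `x = o i l`, `l ≠ i, j`:
`[o i l] + [o j l] = 2 [o i j]`. For three different indices this is a system of three equations (note
that `[o i j] = [o j i]`, `cls_smul` with `-1`), which gives `[o i j] = [o i l] = [o j l]`; so all
`[o i j]` are equal. -/
theorem cls_swap {x : Fin 5 → k} (h : On t x) {i j : Fin 5} (hij : i ≠ j) :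
    cls t x + cls t (x ∘ Equiv.swap i j) = (2 : ℚ) • oC t := by
  rw [R1ij h hij, oij_all hij]

omit [IsAlgClosed k] [CharZero k] in
private theorem h01_eq (z : k) (y : Fin 5 → k) :
    (![z * y 0, z⁻¹ * y 1, y 2, y 3, y 4] : Fin 5 → k) =
      fun m => (if m = 0 then z else if m = 1 then z⁻¹ else 1) * y m := by
  funext m
  fin_cases m <;> simp

omit [IsAlgClosed k] [CharZero k] in
private theorem on_h01 {x : Fin 5 → k} (h : On t x) {z : k} (hz : z ^ 5 = 1) :
    On t ![z * x 0, z⁻¹ * x 1, x 2, x 3, x 4] := by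
  have hz0 : z ≠ 0 := by
    rintro rfl
    simp at hz
  have h1 := on_ap (t := t) (⟨fun m => if m = 0 then z else if m = 1 then z⁻¹ else 1, 1,
    fun m => by
      fin_cases m <;> simp [hz], by
      simp [Fin.prod_univ_succ, hz0]⟩ : Mon k) h
  rw [h01_eq]
  exact h1

private theorem H_ij {x : Fin 5 → k} (h : On t x) {z : k} (hz : z ^ 5 = 1) {i j : Fin 5}
    (hij : i ≠ j) :
    On t (fun l => (if l = i then z else if l = j then z⁻¹ else 1) * x l) ∧
      cls t (fun l => (if l = i then z else if l = j then z⁻¹ else 1) * x l) = cls t x := by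
  obtain ⟨ρ, h0, h1⟩ := exists_rho hij
  obtain ⟨T, hT⟩ := exists_pi (t := t) ρ⁻¹
  have h3 : (x ∘ ρ) ∘ (ρ⁻¹ : Equiv.Perm (Fin 5)) = x := by
    funext l
    simp
  have h4 : (![z * (x ∘ ρ) 0, z⁻¹ * (x ∘ ρ) 1, (x ∘ ρ) 2, (x ∘ ρ) 3, (x ∘ ρ) 4] : Fin 5 → k) ∘
      (ρ⁻¹ : Equiv.Perm (Fin 5)) =
      fun l => (if l = i then z else if l = j then z⁻¹ else 1) * x l := by
    rw [h01_eq]
    funext l
    simp only [Function.comp, rho_fac, h0, h1]
    simp
  have h5 := on_perm_aux (on_h01 (on_perm_aux h ρ) hz) ρ⁻¹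
  have h6 := congrArg T (cls_h01 (on_perm_aux h ρ) hz)
  rw [hT, hT, h3, h4] at h6
  rw [h4] at h5
  exact ⟨h5, h6⟩

/-- `cls_h01` and `exists_act` for permutations give the statement for `g` with `g i = z`, `g j = z⁻¹` and
all other coordinates `1`. The product of these for `j = 4`, `i = 0, 1, 2, 3`, `z = g i` is `g`. -/
theorem cls_H {x : Fin 5 → k} (h : On t x) {g : Fin 5 → k} (hg : ∀ i, g i ^ 5 = 1)
    (hp : ∏ i, g i = 1) : cls t (fun i => g i * x i) = cls t x := by
  have hg0 : ∀ i, g i ≠ 0 := by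
    intro i h0
    have h1 := hg i
    rw [h0] at h1
    simp at h1
  obtain ⟨a1, b1⟩ := H_ij h (hg 0) (show (0 : Fin 5) ≠ 4 by decide)
  obtain ⟨a2, b2⟩ := H_ij a1 (hg 1) (show (1 : Fin 5) ≠ 4 by decide)
  obtain ⟨a3, b3⟩ := H_ij a2 (hg 2) (show (2 : Fin 5) ≠ 4 by decide)
  obtain ⟨a4, b4⟩ := H_ij a3 (hg 3) (show (3 : Fin 5) ≠ 4 by decide)
  rw [b3, b2, b1] at b4
  rw [← b4]
  congr 1
  have h4 : g 4 = (g 3)⁻¹ * ((g 2)⁻¹ * ((g 1)⁻¹ * (g 0)⁻¹)) := by
    have h5 : g 0 * g 1 * g 2 * g 3 * g 4 = 1 := by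
      rw [← hp]
      simp only [Fin.prod_univ_succ]
      simp
      ring
    have e0 := hg0 0
    have e1 := hg0 1
    have e2 := hg0 2
    have e3 := hg0 3
    field_simp
    linear_combination h5
  funext m
  fin_cases m
  · simp
  · simp
  · simp
  · simp
  · simp only [h4]
    simp [-mul_eq_mul_right_iff, -mul_eq_mul_left_iff]
    rw [h4]
    ring

/-- the equation is symmetric -/
theorem on_perm {x : Fin 5 → k} (h : On t x) (π : Equiv.Perm (Fin 5)) : On t (x ∘ π) :=
  on_perm_aux h π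

/-- `cls_swap` and induction (`Equiv.Perm.swap_induction_on`) -/
theorem cls_perm {x : Fin 5 → k} (h : On t x) (π : Equiv.Perm (Fin 5)) :
    cls t (x ∘ π) - oC t = (((Equiv.Perm.sign π : ℤˣ) : ℤ) : ℚ) • (cls t x - oC t) := by
  suffices H : ∀ x : Fin 5 → k, On t x → cls t (x ∘ π) - oC t =
      (((Equiv.Perm.sign π : ℤˣ) : ℤ) : ℚ) • (cls t x - oC t) from H x h
  clear h x
  refine Equiv.Perm.swap_induction_on π ?_ ?_
  · intro x _
    simp
  · intro f i j hij hf x h
    have h1 : x ∘ (Equiv.swap i j * f : Equiv.Perm (Fin 5)) = (x ∘ Equiv.swap i j) ∘ f := by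
      funext l
      simp
    rw [h1, hf _ (on_perm_aux h _), Equiv.Perm.sign_mul, Equiv.Perm.sign_swap hij]
    have h2 : cls t (x ∘ Equiv.swap i j) = (2 : ℚ) • oC t - cls t x :=
      eq_sub_of_add_eq' (cls_swap h hij)
    rw [h2]
    push_cast
    module

end Pool.Agent.DWK
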