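import Pool.Agent.DWK.R1
import Pool.Agent.DWK.Mono

/-!
# Multiplying two coordinates by roots of unity
-/

set_option autoImplicit false

noncomputable section

namespace Pool.Agent.DWK

open Pool.Agent.ZCyc Pool.Agent.TInf Pool.Agent.GT
open Pool.Agent.VFP (Om tt)
open scoped Classical LinearAlgebra.Projectivization

variable {k : Type} [Field k] [IsAlgClosed k] [CharZero k] {t : k}

omit [IsAlgClosed k] [CharZero k] in
private theorem r2a_ne {z : k} (hz : z ^ 5 = 1) : z ≠ 0 := by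
  rintro rfl
  norm_num at hz

/-- multiplication of two coordinates -/
private def hm (z : k) (hz : z ^ 5 = 1) : Mon k where
  h := ![z, z⁻¹, 1, 1, 1]
  π := 1
  pow i := by fin_cases i <;> simp [hz, inv_pow]
  prod := by
    rw [Fin.prod_univ_five]
    simp [mul_inv_cancel₀ (r2a_ne hz)]

omit [IsAlgClosed k] [CharZero k] in
private theorem hm_ap {z : k} (hz : z ^ 5 = 1) (x : Fin 5 → k) :
    (hm z hz).ap x = ![z * x 0, z⁻¹ * x 1, x 2, x 3, x 4] := by
  funext i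
  fin_cases i <;> simp [Mon.ap, hm]

private theorem r2a_key {w : k} (hw : w ^ 5 = 1) {y : Fin 5 → k} (hy : On t y) :
    cls t y + cls t ![w ^ 2 * y 1, (w ^ 2)⁻¹ * y 0, y 2, y 3, y 4] =
      (2 : ℚ) • cls t ![w, -w⁻¹, 0, 0, 0] := by
  have hw0 := r2a_ne hw
  have hwi : (w⁻¹) ^ 5 = 1 := by rw [inv_pow, hw, inv_one]
  obtain ⟨T, hT⟩ := exists_act (t := t) (hm w hw)
  have h1 := R1 (on_ap (t := t) (hm w⁻¹ hwi) hy)
  have h2 := congrArg T h1
  rw [map_add, map_smul, hT, hT] at h2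
  have e1 : (hm w hw).ap ((hm w⁻¹ hwi).ap y) = y := by
    rw [hm_ap, hm_ap]
    funext i
    fin_cases i
    · simp [hw0]
    · simp [hw0]
    · simp
    · simp
    · simp
  have e2 : (hm w hw).ap ((hm w⁻¹ hwi).ap y ∘ Equiv.swap 0 1) =
      ![w ^ 2 * y 1, (w ^ 2)⁻¹ * y 0, y 2, y 3, y 4] := by
    rw [hm_ap, hm_ap]
    have s2 : Equiv.swap (0 : Fin 5) 1 2 = 2 := by decide
    have s3 : Equiv.swap (0 : Fin 5) 1 3 = 3 := by decide
    have s4 : Equiv.swap (0 : Fin 5) 1 4 = 4 := by decide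
    funext i
    fin_cases i
    · simp [pow_two, mul_assoc]
    · simp [pow_two, mul_assoc]
    · simp [s2]
    · simp [s3]
    · simp [s4]
  have e3 : T (oC t) = cls t ![w, -w⁻¹, 0, 0, 0] := by
    unfold oC
    rw [hT, hm_ap]
    congr 1
    funext i
    fin_cases i <;> simp [oo]
  rw [e1, e2, e3] at h2
  exact h2

/-- Let `w = z ^ 3`, so that `w ² = z`, and let `T` be the map of `exists_act` for `h = (w, w⁻¹, 1, 1, 1)`,
`π = 1`. Apply `T` to `R1` for the point `(w⁻¹ y₀, w y₁, y₂, y₃, y₄)`: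
`[y] + [(w ² y₁, w⁻² y₀, y₂, y₃, y₄)] = 2 [(w, -w⁻¹, 0, 0, 0)]` for all points `y`. For
`y = (x₁, x₀, x₂, x₃, x₄)` this is `[x ∘ swap] + [h(x)] = 2 [o']`, `o' = (w, -w⁻¹, 0, 0, 0)`, where `h(x)` is
the point on the left side of the theorem. Subtract `R1` for `x`: `[h(x)] - [x] = 2 [o'] - 2 [o] =: D`,
which is independent of `x`. Iterate five times (`h ⁵ = 1`): `5 D = 0`. -/
theorem cls_h01 {x : Fin 5 → k} (h : On t x) {z : k} (hz : z ^ 5 = 1) :
    cls t ![z * x 0, z⁻¹ * x 1, x 2, x 3, x 4] = cls t x := by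
  have hz0 := r2a_ne hz
  have hw : (z ^ 3) ^ 5 = 1 := by rw [← pow_mul, mul_comm, pow_mul, hz, one_pow]
  have hw2 : (z ^ 3) ^ 2 = z := by
    rw [← pow_mul]
    calc z ^ (3 * 2) = z ^ 5 * z := by ring
      _ = z := by rw [hz, one_mul]
  have s2 : Equiv.swap (0 : Fin 5) 1 2 = 2 := by decide
  have s3 : Equiv.swap (0 : Fin 5) 1 3 = 3 := by decide
  have s4 : Equiv.swap (0 : Fin 5) 1 4 = 4 := by decide
  let π : Mon k := ⟨fun _ => 1, Equiv.swap 0 1, fun _ => one_pow 5, by simp⟩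
  have hπ : ∀ y : Fin 5 → k, π.ap y = y ∘ Equiv.swap 0 1 := by
    intro y
    funext i
    show algebraMap k k 1 * y (Equiv.swap 0 1 i) = y (Equiv.swap 0 1 i)
    rw [map_one, one_mul]
  obtain ⟨D, hD⟩ : ∃ D : V t, ∀ y : Fin 5 → k, On t y →
      cls t ((hm z hz).ap y) = cls t y + D := by
    refine ⟨(2 : ℚ) • cls t ![z ^ 3, -(z ^ 3)⁻¹, 0, 0, 0] - (2 : ℚ) • oC t, fun y hy => ?_⟩
    have hy' : On t (y ∘ Equiv.swap 0 1) := by
      rw [← hπ]
      exact on_ap π hy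
    have h1 := r2a_key hw hy'
    have h2 := R1 hy
    have e1 : (![(z ^ 3) ^ 2 * (y ∘ Equiv.swap 0 1) 1, ((z ^ 3) ^ 2)⁻¹ * (y ∘ Equiv.swap 0 1) 0,
        (y ∘ Equiv.swap 0 1) 2, (y ∘ Equiv.swap 0 1) 3, (y ∘ Equiv.swap 0 1) 4] : Fin 5 → k) =
        (hm z hz).ap y := by
      rw [hm_ap, hw2]
      funext i
      fin_cases i
      · simp
      · simp
      · simp [s2]
      · simp [s3]
      · simp [s4]
    rw [e1] at h1
    rw [← h1, ← h2]
    abel
  have h1 := hD _ h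
  have o1 := on_ap (hm z hz) h
  have h2 := hD _ o1
  have o2 := on_ap (hm z hz) o1
  have h3 := hD _ o2
  have o3 := on_ap (hm z hz) o2
  have h4 := hD _ o3
  have o4 := on_ap (hm z hz) o3
  have h5 := hD _ o4
  have e5 : (hm z hz).ap ((hm z hz).ap ((hm z hz).ap ((hm z hz).ap ((hm z hz).ap x)))) = x := by
    simp only [hm_ap]
    have hzi : z⁻¹ * (z⁻¹ * (z⁻¹ * (z⁻¹ * z⁻¹))) = 1 := by
      have : (z⁻¹) ^ 5 = 1 := by rw [inv_pow, hz, inv_one]
      rw [← this]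
      ring
    funext i
    fin_cases i
    · show z * (z * (z * (z * (z * x 0)))) = x 0
      calc z * (z * (z * (z * (z * x 0)))) = z ^ 5 * x 0 := by ring
        _ = x 0 := by rw [hz, one_mul]
    · show z⁻¹ * (z⁻¹ * (z⁻¹ * (z⁻¹ * (z⁻¹ * x 1)))) = x 1
      calc z⁻¹ * (z⁻¹ * (z⁻¹ * (z⁻¹ * (z⁻¹ * x 1)))) =
          (z⁻¹ * (z⁻¹ * (z⁻¹ * (z⁻¹ * z⁻¹)))) * x 1 := by ring
        _ = x 1 := by rw [hzi, one_mul]
    · rfl
    · rfl
    · rfl
  rw [e5, h4, h3, h2, h1] at h5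
  have h6 : (5 : ℚ) • D = 0 := by
    have h7 : cls t x = cls t x + (5 : ℚ) • D := by
      have h8 : (5 : ℚ) • D = D + D + D + D + D := by
        have : (5 : ℚ) = 1 + 1 + 1 + 1 + 1 := by norm_num
        rw [this]
        simp only [add_smul, one_smul]
      rw [h8]
      nth_rewrite 1 [h5]
      abel
    exact (left_eq_add).1 h7
  have h7 : D = 0 := (smul_eq_zero.1 h6).resolve_left (by norm_num)
  rw [h7, add_zero, hm_ap] at h1
  exact h1

end Pool.Agent.DWK
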