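import Pool.Agent.DWK.R2
import Pool.Agent.DWK.Cls

/-!
# Points with a coordinate zero
-/

set_option autoImplicit false

noncomputable section

namespace Pool.Agent.DWK

open Pool.Agent.ZCyc Pool.Agent.TInf Pool.Agent.GT
open Pool.Agent.VFP (Om tt)
open scoped Classical LinearAlgebra.Projectivization

variable {k : Type} [Field k] [IsAlgClosed k] [CharZero k] {t : k}

omit [CharZero k] in
/-- a fifth root of a function with a value has a value -/
private theorem exists_fifth_at {v : Place k (Om k)} {y f : Om k} {c : k} (hy : y ^ 5 = f)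
    (hf : v.At f c) : ∃ d : k, v.At y d ∧ d ^ 5 = c := by
  have h1 : y ∈ v.ring := VFP.mem_of_pow (by norm_num) (hy ▸ hf.mem)
  obtain ⟨d, hd⟩ := DCI57.exists_at v h1
  refine ⟨d, hd, ?_⟩
  have h2 := hd.pow 5
  rw [hy] at h2
  exact Place.At.unique h2 hf

/-- if the fifth powers of the coordinates agree, and one coordinate is zero, the classes agree -/
private theorem cls_pow {x y : Fin 5 → k} (h : On t x) (hx0 : x 0 = 0)
    (hxy : ∀ i, y i ^ 5 = x i ^ 5) : cls t y = cls t x := by
  let g' : Fin 5 → k := fun i => if x i = 0 then 1 else y i / x i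
  have hg' : ∀ i, g' i ^ 5 = 1 := by
    intro i
    by_cases hi : x i = 0
    · simp only [g', hi, if_true, one_pow]
    · simp only [g', hi, if_false, div_pow, hxy]
      exact div_self (pow_ne_zero 5 hi)
  have hg'0 : ∀ i, g' i ≠ 0 := by
    intro i h0
    have h1 := hg' i
    rw [h0] at h1
    norm_num at h1
  let g : Fin 5 → k := ![(g' 1 * g' 2 * g' 3 * g' 4)⁻¹, g' 1, g' 2, g' 3, g' 4]
  have hg : ∀ i, g i ^ 5 = 1 := by
    intro i
    fin_cases i
    · change ((g' 1 * g' 2 * g' 3 * g' 4)⁻¹) ^ 5 = 1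
      rw [inv_pow, mul_pow, mul_pow, mul_pow, hg', hg', hg', hg']
      norm_num
    · exact hg' 1
    · exact hg' 2
    · exact hg' 3
    · exact hg' 4
  have hp : ∏ i, g i = 1 := by
    rw [Fin.prod_univ_five]
    change (g' 1 * g' 2 * g' 3 * g' 4)⁻¹ * g' 1 * g' 2 * g' 3 * g' 4 = 1
    have h1 := hg'0 1
    have h2 := hg'0 2
    have h3 := hg'0 3
    have h4 := hg'0 4
    field_simp
  have hy : y = fun i => g i * x i := by
    funext i
    have key : ∀ j : Fin 5, y j = g' j * x j := by
      intro j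
      by_cases hj : x j = 0
      · have h1 := hxy j
        rw [hj] at h1
        have h2 : y j = 0 := by
          rw [zero_pow (by norm_num)] at h1
          exact pow_eq_zero_iff (by norm_num) |>.1 h1
        rw [hj, h2, mul_zero]
      · simp only [g', hj, if_false]
        rw [div_mul_cancel₀ _ hj]
    fin_cases i
    · change y 0 = (g' 1 * g' 2 * g' 3 * g' 4)⁻¹ * x 0
      rw [key 0, hx0, mul_zero, mul_zero]
    · exact key 1
    · exact key 2
    · exact key 3
    · exact key 4
  rw [hy]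
  exact cls_H h hg hp

/-- the points `(0 : 1 : -1 : 0 : 0)` -/
private theorem cls_o12 : cls t ![0, 1, -1, 0, 0] = oC t := by
  have hoo : On t (oo k) := by
    refine ⟨?_, ?_⟩
    · intro h0
      have h1 := congrFun h0 0
      simp [oo] at h1
    · rw [Fin.sum_univ_five, Fin.prod_univ_five]
      change (1 : k) ^ 5 + (-1) ^ 5 + 0 ^ 5 + 0 ^ 5 + 0 ^ 5 = _ * (1 * (-1) * 0 * 0 * 0)
      ring
  have h1 : (![0, 1, -1, 0, 0] : Fin 5 → k) = oo k ∘ (Equiv.swap 0 1 * Equiv.swap 0 2 :
      Equiv.Perm (Fin 5)) := by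
    funext i
    fin_cases i <;> simp [oo, Equiv.swap_apply_def]
  have h2 := cls_perm hoo (Equiv.swap 0 1 * Equiv.swap 0 2 : Equiv.Perm (Fin 5))
  rw [← h1] at h2
  have h3 : cls t (oo k) - oC t = 0 := sub_self _
  rw [h3, smul_zero] at h2
  exact sub_eq_zero.1 h2

private theorem cls_zero0 {x : Fin 5 → k} (h : On t x) (hx0 : x 0 = 0) :
    cls t x = oC t := by
  let n : Fin 5 → k := ![0, 1, -1, 0, 0]
  have hroot : ∀ a : Om k, ∃ r : Om k, r ^ 5 = a := fun a =>
    IsAlgClosed.exists_pow_nat_eq a (by norm_num)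
  choose r hr using hroot
  let F : Fin 5 → Om k := fun i => (1 - tt k) * algebraMap k (Om k) (x i ^ 5) +
    tt k * algebraMap k (Om k) (n i)
  let X : Fin 5 → Om k := fun i => r (F i)
  have hX : ∀ i, X i ^ 5 = F i := fun i => hr _
  have hF0 : F 0 = 0 := by
    simp only [F, n, hx0]
    simp
  have hX0 : X 0 = 0 := by
    have h1 := hX 0
    rw [hF0] at h1
    exact (pow_eq_zero_iff (by norm_num)).1 h1
  have hsumx : ∑ i, x i ^ 5 = 0 := by
    rw [h.2, Fin.prod_univ_five, hx0]
    ring
  have hsumn : ∑ i, n i = 0 := by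
    rw [Fin.sum_univ_five]
    change (0 : k) + 1 + (-1) + 0 + 0 = 0
    ring
  have hsumF : ∑ i, F i = 0 := by
    simp only [F]
    rw [Finset.sum_add_distrib, ← Finset.mul_sum, ← Finset.mul_sum, ← map_sum, ← map_sum,
      hsumx, hsumn, map_zero, mul_zero, mul_zero, add_zero]
  have hXne : X ≠ 0 := by
    intro h0
    have h1 : X 1 = 0 := congrFun h0 1
    have h2 := hX 1
    rw [h1, zero_pow (by norm_num)] at h2
    have h3 : (1 - tt k) * algebraMap k (Om k) (x 1 ^ 5) + tt k * 1 = 0 := by
      have h4 : F 1 = (1 - tt k) * algebraMap k (Om k) (x 1 ^ 5) + tt k * 1 := by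
        change (1 - tt k) * algebraMap k (Om k) (x 1 ^ 5) + tt k * algebraMap k (Om k) 1 = _
        rw [map_one]
      rw [← h4]
      exact h2.symm
    by_cases ha : x 1 ^ 5 = 1
    · rw [ha, map_one] at h3
      have h4 : (1 : Om k) = 0 := by linear_combination h3
      exact one_ne_zero h4
    · have ha' : 1 - x 1 ^ 5 ≠ 0 := sub_ne_zero.2 (Ne.symm ha)
      have ha'' : algebraMap k (Om k) (1 - x 1 ^ 5) ≠ 0 :=
        (map_ne_zero (algebraMap k (Om k))).2 ha'
      refine VFP.tt_ne (-(x 1 ^ 5) / (1 - x 1 ^ 5)) ?_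
      rw [map_div₀, eq_div_iff ha'', map_neg, map_sub, map_one]
      linear_combination h3
  have hXon : On t X := by
    refine ⟨hXne, ?_⟩
    have h1 : ∑ i, X i ^ 5 = 0 := by
      rw [← hsumF]
      exact Finset.sum_congr rfl fun i _ => hX i
    rw [h1, Fin.prod_univ_five, hX0]
    ring
  refine bridge1 (t := t) (cyc t X) (c₀ := 0) (c₁ := 1) ?_ ?_
  · intro v hv
    have hF : ∀ i, v.At (F i) (x i ^ 5) := by
      intro i
      have h1 := ((VFP.at_one.sub hv).mul (Place.at_const (v := v) (x i ^ 5))).add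
        (hv.mul (Place.at_const (v := v) (n i)))
      have h2 : (1 - 0) * x i ^ 5 + 0 * n i = x i ^ 5 := by ring
      rw [h2] at h1
      exact h1
    have hex : ∀ i, ∃ d : k, v.At (X i) d ∧ d ^ 5 = x i ^ 5 := fun i =>
      exists_fifth_at (hX i) (hF i)
    choose y hy hy5 using hex
    have hyne : y ≠ 0 := by
      intro h0
      apply h.1
      funext i
      have h1 := hy5 i
      rw [h0] at h1
      change (0 : k) ^ 5 = _ at h1
      rw [zero_pow (by norm_num)] at h1
      exact (pow_eq_zero_iff (by norm_num)).1 h1.symm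
    rw [lim1_cyc (l := 1) hXon (x := y) (fun i => by rw [one_mul]; exact hy i) hyne]
    exact cls_pow h hx0 hy5
  · intro v hv
    have hF : ∀ i, v.At (F i) (n i ^ 5) := by
      intro i
      have h1 := ((VFP.at_one.sub hv).mul (Place.at_const (v := v) (x i ^ 5))).add
        (hv.mul (Place.at_const (v := v) (n i)))
      have h2 : (1 - 1) * x i ^ 5 + 1 * n i = n i ^ 5 := by
        have h3 : n i = n i ^ 5 := by
          fin_cases i
          · change (0 : k) = 0 ^ 5
            norm_num
          · change (1 : k) = 1 ^ 5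
            norm_num
          · change (-1 : k) = (-1) ^ 5
            norm_num
          · change (0 : k) = 0 ^ 5
            norm_num
          · change (0 : k) = 0 ^ 5
            norm_num
        rw [← h3]
        ring
      rw [h2] at h1
      exact h1
    have hex : ∀ i, ∃ d : k, v.At (X i) d ∧ d ^ 5 = n i ^ 5 := fun i =>
      exists_fifth_at (hX i) (hF i)
    choose y hy hy5 using hex
    have hyne : y ≠ 0 := by
      intro h0
      have h1 := hy5 1
      rw [h0] at h1
      change (0 : k) ^ 5 = 1 ^ 5 at h1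
      norm_num at h1
    have hn : On t n := by
      refine ⟨?_, ?_⟩
      · intro h0
        have h1 := congrFun h0 1
        change (1 : k) = 0 at h1
        exact one_ne_zero h1
      · rw [Fin.sum_univ_five, Fin.prod_univ_five]
        change (0 : k) ^ 5 + 1 ^ 5 + (-1) ^ 5 + 0 ^ 5 + 0 ^ 5 = _ * (0 * 1 * (-1) * 0 * 0)
        ring
    rw [lim1_cyc (l := 1) hXon (x := y) (fun i => by rw [one_mul]; exact hy i) hyne]
    rw [cls_pow hn rfl hy5]
    exact cls_o12

/-- By `cls_perm` we may suppose `i = 0`. Let `τ = tt k`, `n₁ = 1`, `n₂ = -1`, `n₃ = n₄ = 0`, and let `X_i`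
be a zero in `Om k` of `X_i ⁵ = (1 - τ) x_i ⁵ + τ n_i`, for `i = 1, ..., 4`, `X₀ = 0`. Then
`∑ X_i ⁵ = 0 = 5 t ∏ X_i`, so `X` is a point. At a place above `τ = 0` the `X_i` have values `y_i` with
`y_i ⁵ = x_i ⁵` and `y₀ = 0 = x₀`, so `y_i = g_i x_i` with `g_i ⁵ = 1` for `i ≠ 0`, and we may
choose `g₀` with the product one, because `x₀ = 0` (`cls_H`). At a place above `τ = 1` the value is
`(0, g₁, -g₂, 0, 0)` with `g₁ ⁵ = g₂ ⁵ = 1`, with the class of the point `(0, 1, -1, 0, 0)` (`cls_H`), which is `oC t`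
(by `cls_swap`, or `cls_perm` for `oo k`: the class is `oC t`, because
`cls_perm` gives a multiple of `cls t (oo k) - oC t = 0`). Use `bridge1`, `lim1_cyc` with `l = 1`. -/
theorem cls_zero {x : Fin 5 → k} (h : On t x) {i : Fin 5} (hi : x i = 0) :
    cls t x = oC t := by
  have h1 : On t (x ∘ Equiv.swap 0 i) := on_perm h _
  have h2 : cls t (x ∘ Equiv.swap 0 i) = oC t := by
    refine cls_zero0 h1 ?_
    change x (Equiv.swap 0 i 0) = 0
    rw [Equiv.swap_apply_left]
    exact hi
  have h3 := cls_perm h (Equiv.swap 0 i)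
  rw [h2, sub_self] at h3
  rcases smul_eq_zero.1 h3.symm with h4 | h4
  · exfalso
    rcases Int.units_eq_one_or (Equiv.Perm.sign (Equiv.swap 0 i)) with h5 | h5
    · rw [h5] at h4
      norm_num at h4
    · rw [h5] at h4
      norm_num at h4
  · exact sub_eq_zero.1 h4

end Pool.Agent.DWK
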