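import Pool.Agent.DWK.SlotA

/-!
# Permutations of the slots
-/

set_option autoImplicit false

noncomputable section

namespace Pool.Agent.DWK

open Pool.Agent.ZCyc Pool.Agent.TInf Pool.Agent.GT
open Pool.Agent.VFP (Om tt)
open scoped Classical LinearAlgebra.Projectivization

variable {k : Type} [Field k] [IsAlgClosed k] [CharZero k] {t : k}

private theorem slotP_inv_apply (g : Fin 2 → Fin 2) (τ : Equiv.Perm (Fin 2)) (i j : Fin 2) :
    (slotP g τ)⁻¹ (sl (i, τ j)) = sl (i - g j, j) := by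
  rw [Equiv.Perm.inv_eq_iff_eq, slotP_apply]
  congr 2
  exact (sub_add_cancel i (g j)).symm

private theorem ff_slot (s : Tup t) (g : Fin 2 → Fin 2) (τ : Equiv.Perm (Fin 2))
    (q : Fin 4 → EPt k) (j : Fin 2) :
    ff t (s.c (τ j)) (wi (g j) (s.w (τ j))) (q (sl (0, j))) (q (sl (1, j))) =
      (((-1 : ℤˣ) ^ (g j : ℕ) : ℤˣ) : ℤ) •
        ff t (s.c (τ j)) (s.w (τ j)) (q ((slotP g τ)⁻¹ (sl (0, τ j))))
          (q ((slotP g τ)⁻¹ (sl (1, τ j)))) := by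
  rw [slotP_inv_apply, slotP_inv_apply]
  rcases Fin.exists_fin_two.1 ⟨g j, rfl⟩ with h | h
  · rw [h]
    have h1 : ((0 : Fin 2) - 0, j) = (0, j) := rfl
    have h2 : ((1 : Fin 2) - 0, j) = (1, j) := rfl
    rw [h1, h2]
    simp [wi]
  · rw [h]
    have h1 : ((0 : Fin 2) - 1, j) = (1, j) := rfl
    have h2 : ((1 : Fin 2) - 1, j) = (0, j) := rfl
    rw [h1, h2]
    have h3 : wi 1 (s.w (τ j)) = -s.w (τ j) := if_neg (by decide)
    rw [h3, ff_swap (s.sq _) (s.ne _) (s.he _)]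
    simp

/-- The class for `g`, `τ`. Cases: for `τ = 1` and for the transposition `τ`, using `Phi_symm`; and
`g_j = 1` gives a sign by `ff_swap` (`s.sq`, `s.ne`, `s.he`). Note that
`(slotP g τ)⁻¹ (sl (i, τ j)) = sl (i - g_j, j)`, and `sign_slotP`. -/
theorem FG_slot (s : Tup t) (g : Fin 2 → Fin 2) (τ : Equiv.Perm (Fin 2)) (q : Fin 4 → EPt k) :
    Phi t (ff t (s.c (τ 0)) (wi (g 0) (s.w (τ 0))) (q (sl (0, 0))) (q (sl (1, 0))))
      (ff t (s.c (τ 1)) (wi (g 1) (s.w (τ 1))) (q (sl (0, 1))) (q (sl (1, 1)))) =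
    (((Equiv.Perm.sign (slotP g τ) : ℤˣ) : ℤ) : ℚ) • FG s fun x => q ((slotP g τ)⁻¹ x) := by
  have hsmul : ∀ (a b : ℤ) (x y : V t), Phi t (a • x) (b • y) = ((a * b : ℤ) : ℚ) • Phi t x y := by
    intro a b x y
    have ha : a • x = (a : ℚ) • x := (Int.cast_smul_eq_zsmul ℚ a x).symm
    have hb : b • y = (b : ℚ) • y := (Int.cast_smul_eq_zsmul ℚ b y).symm
    rw [ha, hb, Phi_smul, Phi_symm, Phi_smul, Phi_symm, smul_smul, Int.cast_mul]
  have h0 := ff_slot s g τ q 0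
  have h1 := ff_slot s g τ q 1
  rw [h0, h1, hsmul, sign_slotP, Fin.prod_univ_two]
  unfold FG
  have hτ : (τ 0 = 0 ∧ τ 1 = 1) ∨ (τ 0 = 1 ∧ τ 1 = 0) := by
    clear h0 h1 hsmul
    revert τ
    decide
  rcases hτ with ⟨ha, hb⟩ | ⟨ha, hb⟩
  · rw [ha, hb, Units.val_mul]
  · rw [ha, hb, Units.val_mul, Phi_symm]

end Pool.Agent.DWK
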