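import Pool.Agent.DWK.Base
import Pool.Agent.DWK.FFA
import Pool.Agent.DWK.FLim

/-!
# Properties of the class function
-/

set_option autoImplicit false

noncomputable section

namespace Pool.Agent.DWK

open Pool.Agent.ZCyc Pool.Agent.TInf Pool.Agent.GT
open Pool.Agent.VFP (Om tt)
open scoped Classical LinearAlgebra.Projectivization

variable {k : Type} [Field k] [IsAlgClosed k] [CharZero k] {t : k}

theorem Phi_symm (x y : V t) : Phi t x y = Phi t y x := by
  unfold Phi
  exact add_comm _ _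

private theorem SlotA_left (u y : V t) :
    (![u, y] : Fin 2 → V t) = Function.update ![0, y] 0 u := by
  funext i
  fin_cases i
  · simp
  · simp

private theorem SlotA_right (u y : V t) :
    (![y, u] : Fin 2 → V t) = Function.update ![y, 0] 1 u := by
  funext i
  fin_cases i
  · simp
  · simp

theorem Phi_smul (a : ℚ) (x y : V t) : Phi t (a • x) y = a • Phi t x y := by
  unfold Phi
  rw [SlotA_left (a • x) y, SlotA_right (a • x) y, MultilinearMap.map_update_smul,
    MultilinearMap.map_update_smul, ← SlotA_left x y, ← SlotA_right x y, smul_add]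

theorem Phi_add (x x' y : V t) : Phi t (x + x') y = Phi t x y + Phi t x' y := by
  unfold Phi
  rw [SlotA_left (x + x') y, SlotA_right (x + x') y, MultilinearMap.map_update_add,
    MultilinearMap.map_update_add, ← SlotA_left x y, ← SlotA_right x y, ← SlotA_left x' y,
    ← SlotA_right x' y]
  abel

theorem Phi_zero (x : V t) : Phi t 0 x = 0 := by
  have h := Phi_smul (t := t) 0 0 x
  rwa [zero_smul, zero_smul] at h

private theorem Phi_zero' (x : V t) : Phi t x 0 = 0 := by
  rw [Phi_symm, Phi_zero]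

private theorem Phi_neg (x y : V t) : Phi t (-x) y = -Phi t x y := by
  have h := Phi_smul (t := t) (-1) x y
  rwa [neg_one_smul, neg_one_smul] at h

private theorem Phi_neg' (x y : V t) : Phi t x (-y) = -Phi t x y := by
  rw [Phi_symm, Phi_neg, Phi_symm]

/-- `sign (slotP g τ)` is `1` if `g = 0`, and in general the product of the signs `(-1) ^ g_j`. (All cases
can be checked: `g : Fin 2 → Fin 2`, `τ : Equiv.Perm (Fin 2)`, e.g. by `decide`.) -/
theorem sign_slotP (g : Fin 2 → Fin 2) (τ : Equiv.Perm (Fin 2)) :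
    Equiv.Perm.sign (slotP g τ) = ∏ j, (-1 : ℤˣ) ^ (g j : ℕ) := by
  revert g τ
  decide

/-- `Ext` is multilinear, `lim_ext` -/
theorem lim_FZ (v : Place k (Om k)) (S : TupO t) (q : Fin 4 → EPt (Om k)) :
    lim (dwork_hom t) v (FZ S q) =
      Phi t (lim1 (dwork_hom t) v (fz t (S.c 0) (S.w 0) (q (sl (0, 0))) (q (sl (1, 0)))))
        (lim1 (dwork_hom t) v (fz t (S.c 1) (S.w 1) (q (sl (0, 1))) (q (sl (1, 1))))) := by
  have h : ∀ z z' : Pt {dwork t} (Om k) →₀ ℚ,
      (fun j => lim1 (dwork_hom t) v ((![z, z'] : Fin 2 → (Pt {dwork t} (Om k) →₀ ℚ)) j)) =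
        ![lim1 (dwork_hom t) v z, lim1 (dwork_hom t) v z'] := by
    intro z z'
    funext j
    fin_cases j
    · rfl
    · rfl
  unfold FZ Phi
  rw [map_add, lim_ext, lim_ext, h, h]

/-- a change of the sign of a second coordinate: `x₀ = sl (i, j)`, cases, `ff_neg_left`,
`ff_neg_right` -/
theorem FG_odd (s : Tup t) {q : Fin 4 → EPt k} {x₀ : Fin 4} {x y : k}
    (hq : q x₀ = some (x, y)) :
    FG s (Function.update q x₀ (some (x, -y))) = -FG s q := by
  obtain ⟨⟨i, j⟩, rfl⟩ := sl.surjective x₀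
  unfold FG
  fin_cases i <;> fin_cases j
  · have e1 : sl (1, 0) ≠ sl (0, 0) := by decide
    have e2 : sl (0, 1) ≠ sl (0, 0) := by decide
    have e3 : sl (1, 1) ≠ sl (0, 0) := by decide
    change Phi t (ff t (s.c 0) (s.w 0) (Function.update q (sl (0, 0)) (some (x, -y)) (sl (0, 0)))
      (Function.update q (sl (0, 0)) (some (x, -y)) (sl (1, 0))))
      (ff t (s.c 1) (s.w 1) (Function.update q (sl (0, 0)) (some (x, -y)) (sl (0, 1)))
      (Function.update q (sl (0, 0)) (some (x, -y)) (sl (1, 1)))) = _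
    have hq' : q (sl (0, 0)) = some (x, y) := hq
    rw [Function.update_self, Function.update_of_ne e1, Function.update_of_ne e2,
      Function.update_of_ne e3, ff_neg_left, Phi_neg, hq']
  · have e1 : sl (0, 0) ≠ sl (0, 1) := by decide
    have e2 : sl (1, 0) ≠ sl (0, 1) := by decide
    have e3 : sl (1, 1) ≠ sl (0, 1) := by decide
    change Phi t (ff t (s.c 0) (s.w 0) (Function.update q (sl (0, 1)) (some (x, -y)) (sl (0, 0)))
      (Function.update q (sl (0, 1)) (some (x, -y)) (sl (1, 0))))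
      (ff t (s.c 1) (s.w 1) (Function.update q (sl (0, 1)) (some (x, -y)) (sl (0, 1)))
      (Function.update q (sl (0, 1)) (some (x, -y)) (sl (1, 1)))) = _
    have hq' : q (sl (0, 1)) = some (x, y) := hq
    rw [Function.update_self, Function.update_of_ne e1, Function.update_of_ne e2,
      Function.update_of_ne e3, ff_neg_left, Phi_neg', hq']
  · have e1 : sl (0, 0) ≠ sl (1, 0) := by decide
    have e2 : sl (0, 1) ≠ sl (1, 0) := by decide
    have e3 : sl (1, 1) ≠ sl (1, 0) := by decide
    change Phi t (ff t (s.c 0) (s.w 0) (Function.update q (sl (1, 0)) (some (x, -y)) (sl (0, 0)))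
      (Function.update q (sl (1, 0)) (some (x, -y)) (sl (1, 0))))
      (ff t (s.c 1) (s.w 1) (Function.update q (sl (1, 0)) (some (x, -y)) (sl (0, 1)))
      (Function.update q (sl (1, 0)) (some (x, -y)) (sl (1, 1)))) = _
    have hq' : q (sl (1, 0)) = some (x, y) := hq
    rw [Function.update_self, Function.update_of_ne e1, Function.update_of_ne e2,
      Function.update_of_ne e3, ff_neg_right, Phi_neg, hq']
  · have e1 : sl (0, 0) ≠ sl (1, 1) := by decide
    have e2 : sl (1, 0) ≠ sl (1, 1) := by decide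
    have e3 : sl (0, 1) ≠ sl (1, 1) := by decide
    change Phi t (ff t (s.c 0) (s.w 0) (Function.update q (sl (1, 1)) (some (x, -y)) (sl (0, 0)))
      (Function.update q (sl (1, 1)) (some (x, -y)) (sl (1, 0))))
      (ff t (s.c 1) (s.w 1) (Function.update q (sl (1, 1)) (some (x, -y)) (sl (0, 1)))
      (Function.update q (sl (1, 1)) (some (x, -y)) (sl (1, 1)))) = _
    have hq' : q (sl (1, 1)) = some (x, y) := hq
    rw [Function.update_self, Function.update_of_ne e1, Function.update_of_ne e2,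
      Function.update_of_ne e3, ff_neg_right, Phi_neg', hq']

theorem FG_inf (s : Tup t) {q : Fin 4 → EPt k} {x₀ : Fin 4} (hq : q x₀ = none) : FG s q = 0 := by
  obtain ⟨⟨i, j⟩, rfl⟩ := sl.surjective x₀
  unfold FG
  fin_cases i <;> fin_cases j
  · have hq' : q (sl (0, 0)) = none := hq
    rw [hq', ff_none_left, Phi_zero]
  · have hq' : q (sl (0, 1)) = none := hq
    rw [hq', ff_none_left, Phi_zero']
  · have hq' : q (sl (1, 0)) = none := hq
    rw [hq', ff_none_right, Phi_zero]
  · have hq' : q (sl (1, 1)) = none := hq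
    rw [hq', ff_none_right, Phi_zero']

/-- `ff_off` -/
theorem FG_off (s : Tup t) {q : Fin 4 → EPt k} {x₀ : Fin 4}
    (hq : ¬ EOn (s.a x₀) (s.b x₀) (q x₀)) : FG s q = 0 := by
  obtain ⟨⟨i, j⟩, rfl⟩ := sl.surjective x₀
  unfold Tup.a Tup.b at hq
  rw [Equiv.symm_apply_apply] at hq
  unfold FG
  fin_cases i <;> fin_cases j
  · have hq' : ¬ EOn (al t (s.c 0) (s.w 0)) (be t (s.c 0) (s.w 0)) (q (sl (0, 0))) := hq
    rw [ff_off fun h => hq' h.1, Phi_zero]
  · have hq' : ¬ EOn (al t (s.c 1) (s.w 1)) (be t (s.c 1) (s.w 1)) (q (sl (0, 1))) := hq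
    have h0 : ff t (s.c 1) (s.w 1) (q (sl (0, 1))) (q (sl (1, 1))) = 0 :=
      ff_off fun h => hq' h.1
    rw [h0, Phi_zero']
  · have hq' : ¬ EOn (al t (s.c 0) (-s.w 0)) (be t (s.c 0) (-s.w 0)) (q (sl (1, 0))) := hq
    rw [ff_off fun h => hq' h.2, Phi_zero]
  · have hq' : ¬ EOn (al t (s.c 1) (-s.w 1)) (be t (s.c 1) (-s.w 1)) (q (sl (1, 1))) := hq
    have h0 : ff t (s.c 1) (s.w 1) (q (sl (0, 1))) (q (sl (1, 1))) = 0 :=
      ff_off fun h => hq' h.2
    rw [h0, Phi_zero']

end Pool.Agent.DWK
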