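import Pool.Agent.DWK.Lim3
import Pool.Agent.DWK.R6

/-!
# Special curves
-/

set_option autoImplicit false

noncomputable section

namespace Pool.Agent.DWK

open Pool.Agent.ZCyc Pool.Agent.TInf Pool.Agent.GT
open Pool.Agent.VFP (Om tt)
open scoped Classical LinearAlgebra.Projectivization

variable {k : Type} [Field k] [IsAlgClosed k] [CharZero k] {t : k}

omit [IsAlgClosed k] [CharZero k] in
private theorem spc_tt_ne (c : k) : tt k ≠ algebraMap k (Om k) c := by
  intro h
  exact (Pool.Agent.VFP.tt_transc (k := k)) (h ▸ isAlgebraic_algebraMap c)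

omit [IsAlgClosed k] [CharZero k] in
private theorem spc_zpow {v : Place k (Om k)} {S : Om k} {s : k} (h : v.At S s) (hs : s ≠ 0)
    (m : ℤ) : v.At (S ^ m) (s ^ m) := by
  rcases m with m | m
  · simpa using h.pow m
  · rw [zpow_negSucc, zpow_negSucc]
    exact (h.pow (m + 1)).inv (pow_ne_zero _ hs)

private theorem spc_eq_zero {M : Type} [AddCommGroup M] [Module ℚ M] {x : M} (h : x = -x) :
    x = 0 := by
  have h1 : (2 : ℚ) • x = 0 := by
    rw [two_smul]
    nth_rewrite 2 [h]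
    exact add_neg_cancel x
  have h2 : x = (2 : ℚ)⁻¹ • ((2 : ℚ) • x) := by rw [smul_smul]; norm_num
  rw [h2, h1, smul_zero]

/-- Let `β₀ ² = -s / p`; then `d ² = (2 (s - n) / β₀) ²`, and changing the sign of `β₀` we have
`d = 2 (s - n) / β₀`. Let `τ = tt k`, `β = (1 - 2 τ) β₀`, `S = -p β ²` (not zero),
`A = α₁ S ^ m₁`, `B = α₂ S ^ m₂`, `D = 2 (S - n) / β`. By `hrel` the relation holds for `c, A, B, D`. At a
place above `τ = 0` the values of `S, D` are `s, d`, and above `τ = 1` they are `s, -d`. By `lim_zd`,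
`bridge1` we have `hd t c a b d = hd t c a b (-d)` for `a = α₁ s ^ m₁`, `b = α₂ s ^ m₂`; and `hd_neg`
(the relation over `k` follows from `hd0`). -/
theorem special {c : k} (hc : c ≠ 0) (he : eK t c ≠ 0) {α₁ α₂ p n : k} {m₁ m₂ : ℤ} (hp : p ≠ 0)
    (h₁ : α₁ ≠ 0) (h₂ : α₂ ≠ 0)
    (hrel : ∀ (K : Type) [Field K] [Algebra k K] (s : K), s ≠ 0 →
      eK t (algebraMap k K c) ^ 2 - 4 * (algebraMap k K α₁ * s ^ m₁ + algebraMap k K α₂ * s ^ m₂ +
        1 / (algebraMap k K c * (algebraMap k K α₁ * s ^ m₁)) +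
        1 / (algebraMap k K c * (algebraMap k K α₂ * s ^ m₂))) =
      -(4 * algebraMap k K p / s) * (s - algebraMap k K n) ^ 2)
    {s d : k} (hs : s ≠ 0) (hd0 : Rel t c (α₁ * s ^ m₁) (α₂ * s ^ m₂) d) :
    hd t c (α₁ * s ^ m₁) (α₂ * s ^ m₂) d = 0 := by
  have hpK : algebraMap k (Om k) p ≠ 0 := by simpa using hp
  -- the relation over `k`
  have h0 := hrel k s hs
  simp only [Algebra.algebraMap_self, RingHom.id_apply] at h0
  have hd1 : d ^ 2 = -(4 * p / s) * (s - n) ^ 2 := by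
    have := hd0
    unfold Rel at this
    rw [this]
    exact h0
  obtain ⟨β₁, hβ₁⟩ := IsAlgClosed.exists_pow_nat_eq (-(s / p)) (n := 2) (by norm_num)
  have hβ₁0 : β₁ ≠ 0 := by
    rintro rfl
    have : s / p = 0 := by
      have h := hβ₁
      rw [zero_pow (by norm_num)] at h
      exact neg_eq_zero.1 h.symm
    exact (div_ne_zero hs hp) this
  have hsq : d ^ 2 = (2 * (s - n) / β₁) ^ 2 := by
    rw [hd1, div_pow, hβ₁]
    field_simp
    ring
  obtain ⟨β₀, hβ₀, hβ₀0, hdβ⟩ : ∃ β₀ : k, β₀ ^ 2 = -(s / p) ∧ β₀ ≠ 0 ∧ d = 2 * (s - n) / β₀ := by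
    rcases sq_eq_sq_iff_eq_or_eq_neg.1 hsq with h | h
    · exact ⟨β₁, hβ₁, hβ₁0, h⟩
    · refine ⟨-β₁, by rw [neg_sq]; exact hβ₁, neg_ne_zero.2 hβ₁0, ?_⟩
      rw [h, div_neg]
  have hps : -(p * β₀ ^ 2) = s := by
    rw [hβ₀]
    field_simp
  -- the family
  set φ : k →+* Om k := algebraMap k (Om k) with hφ
  set N : Om k := 1 - 2 * tt k with hN
  have hN0 : N ≠ 0 := by
    intro h
    apply spc_tt_ne (k := k) (1 / 2)
    rw [map_div₀, map_one, map_ofNat]
    have h2 : (2 : Om k) ≠ 0 := by norm_num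
    field_simp
    rw [hN] at h
    linear_combination -h
  set β : Om k := N * φ β₀ with hβ
  have hφβ0 : φ β₀ ≠ 0 := by
    rw [hφ]
    simpa using hβ₀0
  have hβ0 : β ≠ 0 := mul_ne_zero hN0 hφβ0
  set S : Om k := N ^ 2 * φ s with hS
  have hφs : φ s ≠ 0 := by
    rw [hφ]
    simpa using hs
  have hS0 : S ≠ 0 := mul_ne_zero (pow_ne_zero 2 hN0) hφs
  have hSβ : S = -(φ p * β ^ 2) := by
    rw [hS, hβ, ← hps, map_neg, map_mul, map_pow]
    ring
  set D : Om k := 2 * (S - φ n) / β with hD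
  have hRK := hrel (Om k) S hS0
  have hR : Rel t (φ c) (φ α₁ * S ^ m₁) (φ α₂ * S ^ m₂) D := by
    unfold Rel
    rw [hRK, hD, div_pow]
    have hβ2 : β ^ 2 = -(S / φ p) := by
      rw [hSβ]
      field_simp
    rw [hβ2]
    field_simp
    ring
  have hat : ∀ (v : Place k (Om k)) (c₀ e : k), v.At (tt k) c₀ → 1 - 2 * c₀ = e → e ^ 2 = 1 →
      lim1 (dwork_hom t) v (zd t (φ c) (φ α₁ * S ^ m₁) (φ α₂ * S ^ m₂) D) =
        hd t c (α₁ * s ^ m₁) (α₂ * s ^ m₂) (e * d) := by
    intro v c₀ e hv he1 he2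
    have he0 : e ≠ 0 := by
      rintro rfl
      simp at he2
    have h1 : v.At N e := by
      rw [← he1]
      have ha1 : v.At (1 : Om k) 1 := by
        have := Place.at_const (v := v) (1 : k)
        rwa [map_one] at this
      have ha2 : v.At (2 : Om k) 2 := by
        have := Place.at_const (v := v) (2 : k)
        rwa [map_ofNat] at this
      exact ha1.sub (ha2.mul hv)
    have h2 : v.At S s := by
      have := (h1.pow 2).mul (Place.at_const (v := v) s)
      rwa [he2, one_mul] at this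
    have h3 : v.At β (e * β₀) := h1.mul (Place.at_const β₀)
    have h4 : v.At D (e * d) := by
      have ha2 : v.At (2 : Om k) 2 := by
        have := Place.at_const (v := v) (2 : k)
        rwa [map_ofNat] at this
      have h5 := (ha2.mul (h2.sub (Place.at_const (v := v) n))).div h3 (mul_ne_zero he0 hβ₀0)
      have h6 : 2 * (s - n) / (e * β₀) = e * d := by
        rw [hdβ]
        have : (e * β₀)⁻¹ = e * β₀⁻¹ := by
          rw [mul_inv]
          congr 1
          rw [inv_eq_of_mul_eq_one_right]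
          rw [← sq]
          exact he2
        rw [div_eq_mul_inv, this, div_eq_mul_inv]
        ring
      rwa [h6] at h5
    exact lim_zd (Place.at_const c) ((Place.at_const α₁).mul (spc_zpow h2 hs m₁))
      ((Place.at_const α₂).mul (spc_zpow h2 hs m₂)) h4 hc he
      (mul_ne_zero h₁ (zpow_ne_zero _ hs)) (mul_ne_zero h₂ (zpow_ne_zero _ hs)) hR
  have hb := bridge1 (t := t) (zd t (φ c) (φ α₁ * S ^ m₁) (φ α₂ * S ^ m₂) D)
    (c₀ := 0) (c₁ := 1) (fun v hv => hat v 0 1 hv (by ring) (by ring))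
    (fun v hv => hat v 1 (-1) hv (by ring) (by ring))
  rw [one_mul, neg_one_mul] at hb
  have hn := hd_neg (t := t) hc he (mul_ne_zero h₁ (zpow_ne_zero m₁ hs))
    (mul_ne_zero h₂ (zpow_ne_zero m₂ hs)) hd0
  rw [hn] at hb
  exact spc_eq_zero hb

end Pool.Agent.DWK
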