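import Pool.Agent.DWK.Slot

/-!
# The system of classes
-/

set_option autoImplicit false

noncomputable section

namespace Pool.Agent.DWK

open Pool.Agent.ZCyc Pool.Agent.TInf Pool.Agent.GT
open Pool.Agent.VFP (Om tt)
open scoped Classical LinearAlgebra.Projectivization

variable {k : Type} [Field k] [IsAlgClosed k] [CharZero k]

private theorem sy_ai {m : ℕ} (π : Equiv.Perm (Fin m)) (x : Fin m) : π (π⁻¹ x) = x :=
  π.apply_symm_apply x

private theorem sy_ia {m : ℕ} (π : Equiv.Perm (Fin m)) (x : Fin m) : π⁻¹ (π x) = x :=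
  π.symm_apply_apply x

omit [IsAlgClosed k] in
private theorem sy_on {t : k} {S : (bs t).Q} {P : Fin 1 → Fin 4 → EPt (Om k)}
    (h : (bs t).OnQ S P) (i j : Fin 2) :
    EOn (al t (S.1.c j) (wi i (S.1.w j))) (be t (S.1.c j) (wi i (S.1.w j)))
      (P 0 (S.2⁻¹ (sl (i, j)))) := by
  have h1 : EOn (S.1.a (S.2 (S.2⁻¹ (sl (i, j))))) (S.1.b (S.2 (S.2⁻¹ (sl (i, j)))))
    (P 0 (S.2⁻¹ (sl (i, j)))) := h 0 (S.2⁻¹ (sl (i, j)))
  rw [sy_ai, TupO.a_sl, TupO.b_sl] at h1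
  exact h1

private theorem sy_fin {t : k} {v : Place k (Om k)} {S : (bs t).Q}
    {P : Fin 1 → Fin 4 → EPt (Om k)} (hP : (bs t).OnQ S P) {s : (bs t).P}
    {p : Fin 1 → Fin 4 → EPt k} (hs : (bs t).At v S s)
    (h : ∀ i j, EVal v (P i j) (p i j)) :
    lim (dwork_hom t) v ((((Equiv.Perm.sign S.2 : ℤˣ) : ℤ) : ℚ) •
      FZ S.1 fun x => P 0 (S.2⁻¹ x)) =
      (((Equiv.Perm.sign s.2 : ℤˣ) : ℤ) : ℚ) • FG s.1 fun x => p 0 (s.2⁻¹ x) := by
  obtain ⟨g, τ, h1, h2⟩ := hs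
  have hlim : ∀ j : Fin 2, lim1 (dwork_hom t) v (fz t (S.1.c j) (S.1.w j)
      (P 0 (S.2⁻¹ (sl (0, j)))) (P 0 (S.2⁻¹ (sl (1, j))))) =
      ff t (s.1.c (τ j)) (wi (g j) (s.1.w (τ j))) (p 0 (S.2⁻¹ (sl (0, j))))
        (p 0 (S.2⁻¹ (sl (1, j)))) := by
    intro j
    have e0 := sy_on hP 0 j
    have e1 := sy_on hP 1 j
    have w0 : wi (0 : Fin 2) (S.1.w j) = S.1.w j := by simp [wi]
    have w1 : wi (1 : Fin 2) (S.1.w j) = -S.1.w j := by simp [wi]
    rw [w0] at e0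
    rw [w1] at e1
    exact lim_fz (h2 j).1 (h2 j).2 (s.1.ne (τ j)) (s.1.he (τ j)) (S.1.sq j) e0 e1
      (h 0 _) (h 0 _)
  have hslot := FG_slot s.1 g τ fun x => p 0 (S.2⁻¹ x)
  rw [map_smul, lim_FZ, hlim 0, hlim 1, hslot]
  have h5 : (fun x => p 0 (S.2⁻¹ ((slotP g τ)⁻¹ x))) = fun x => p 0 (s.2⁻¹ x) := by
    funext x
    rw [h1, mul_inv_rev, Equiv.Perm.mul_apply]
  rw [h5, h1, Equiv.Perm.sign_mul, Units.val_mul, Int.cast_mul, mul_smul,
    smul_comm (((Equiv.Perm.sign S.2 : ℤˣ) : ℤ) : ℚ)]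

private theorem sy_inf {t : k} (s : (bs t).P) (p : Fin 1 → Fin 4 → EPt k) (i : Fin 1)
    (j : Fin 4) (hp : p i j = none) :
    (((Equiv.Perm.sign s.2 : ℤˣ) : ℤ) : ℚ) • FG s.1 (fun x => p 0 (s.2⁻¹ x)) = 0 := by
  have hi : i = 0 := Subsingleton.elim _ _
  subst hi
  rw [FG_inf (x₀ := s.2 j) s.1 (by rw [sy_ia]; exact hp), smul_zero]

/-- The system of classes. The file `WFC/SSys.lean` (`sysW`) contains the same construction, with
other classes.
* `perm`, `odd`, `inf`, `off`: as for `sysW`, with `FG_odd`, `FG_inf`, `FG_off`.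
* `fin`: `D.At v S s` gives `g`, `τ` with `s.2 = slotP g τ * S.2`. By `lim_FZ`, `lim_fz` (for the values
  `s.c (τ j)`, `wi (g j) (s.w (τ j))` of `S.c j`, `S.w j`) and `FG_slot` the limit is
  `sign (slotP g τ) • FG s.1 (fun x => p 0 (S.2⁻¹ ((slotP g τ)⁻¹ x)))`.
* `pole`: the other points have values too (`evalue_exists`, `at_al`, `at_be`), use `fin` and `inf`.
* `sing`: one of the limits in `lim_FZ` is zero by `lim_fz_bad` (`Phi_zero`, `Phi_symm`).
* `bridge`: `GT.bridge` for the cycle `∑ x, w x • sign (S x).2 • FZ (S x).1 _`; `lim` is linear. -/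
def sysD (t : k) : KW.SysB (bs t) (CH {dwork t} (Fin 2)) where
  F s p := (((Equiv.Perm.sign s.2 : ℤˣ) : ℤ) : ℚ) • FG s.1 fun x => p 0 (s.2⁻¹ x)
  Val v S P C := lim (dwork_hom t) v ((((Equiv.Perm.sign S.2 : ℤˣ) : ℤ) : ℚ) •
    FZ S.1 fun x => P 0 (S.2⁻¹ x)) = C
  perm := by
    intro s p π
    have h1 : (fun x => (p 0 ∘ π) ((s.2 * π)⁻¹ x)) = fun x => p 0 (s.2⁻¹ x) := by
      funext x
      rw [mul_inv_rev, Equiv.Perm.mul_apply, Function.comp_apply, sy_ai]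
    change (((Equiv.Perm.sign (s.2 * π) : ℤˣ) : ℤ) : ℚ) • FG s.1
      (fun x => (p 0 ∘ π) ((s.2 * π)⁻¹ x)) = _
    rw [h1, Equiv.Perm.sign_mul, Units.val_mul, Int.cast_mul, mul_comm, mul_smul, pow_one,
      ← Int.cast_smul_eq_zsmul ℚ]
  odd := by
    intro s p i j x y hp
    have hi : i = 0 := Subsingleton.elim _ _
    subst hi
    have h1 : (fun z => Function.update p 0 (Function.update (p 0) j (some (x, -y))) 0
        (s.2⁻¹ z)) = Function.update (fun z => p 0 (s.2⁻¹ z)) (s.2 j) (some (x, -y)) := by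
      funext z
      rw [Function.update_self]
      by_cases hz : z = s.2 j
      · rw [hz, Function.update_self, sy_ia, Function.update_self]
      · rw [Function.update_of_ne hz, Function.update_of_ne]
        intro h2
        apply hz
        rw [← h2, sy_ai]
    change (((Equiv.Perm.sign s.2 : ℤˣ) : ℤ) : ℚ) • FG s.1 (fun z =>
      Function.update p 0 (Function.update (p 0) j (some (x, -y))) 0 (s.2⁻¹ z)) =
      -((((Equiv.Perm.sign s.2 : ℤˣ) : ℤ) : ℚ) • FG s.1 fun z => p 0 (s.2⁻¹ z))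
    rw [h1, FG_odd (x := x) (y := y) s.1 (by rw [sy_ia]; exact hp), smul_neg]
  inf := by
    intro s p i j hp
    exact sy_inf s p i j hp
  off := by
    intro s p hon
    have h1 : ∃ i j, ¬ EOn ((bs t).ea s i j) ((bs t).eb s i j) (p i j) := by
      by_contra h
      push Not at h
      exact hon h
    obtain ⟨i, j, h2⟩ := h1
    have hi : i = 0 := Subsingleton.elim _ _
    subst hi
    change (((Equiv.Perm.sign s.2 : ℤˣ) : ℤ) : ℚ) • FG s.1 (fun z => p 0 (s.2⁻¹ z)) = 0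
    rw [FG_off (x₀ := s.2 j) s.1 (by rw [sy_ia]; exact h2), smul_zero]
  fin := by
    intro v S P hP s p hs hv
    exact sy_fin hP hs hv
  pole := by
    intro v S P hP i j s hs hv
    have hex : ∀ i' j', ∃ p, EVal v (P i' j') p := fun i' j' =>
      evalue_exists v ((bs t).at_al v S s hs i' j').mem ((bs t).at_be v S s hs i' j').mem
        (hP i' j')
    choose p hp using hex
    have h1 : p i j = none := evalue_unique (hp i j) hv
    have h2 := sy_fin hP hs hp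
    rw [sy_inf s p i j h1] at h2
    exact h2
  sing := by
    rintro v S P hP ⟨j, hj⟩
    change lim (dwork_hom t) v ((((Equiv.Perm.sign S.2 : ℤˣ) : ℤ) : ℚ) •
      FZ S.1 fun x => P 0 (S.2⁻¹ x)) = 0
    rw [map_smul, lim_FZ]
    have hj' : j = 0 ∨ j = 1 := by
      fin_cases j
      · exact Or.inl rfl
      · exact Or.inr rfl
    rcases hj' with rfl | rfl
    · rw [lim_fz_bad _ _ hj, Phi_zero, smul_zero]
    · rw [Phi_symm, lim_fz_bad _ _ hj, Phi_zero, smul_zero]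
  bridge := by
    intro I _ w S P hP c₀ c₁ C₀ C₁ h₀ h₁
    have key : ∀ (v : Place k (Om k)) (C₂ : CH {dwork t} (Fin 2)),
        (∃ C : I → CH {dwork t} (Fin 2), (∀ x, lim (dwork_hom t) v
          ((((Equiv.Perm.sign (S x).2 : ℤˣ) : ℤ) : ℚ) •
            FZ (S x).1 fun y => P x 0 ((S x).2⁻¹ y)) = C x) ∧ ∑ x, w x • C x = C₂) →
        lim (dwork_hom t) v (∑ x, w x • ((((Equiv.Perm.sign (S x).2 : ℤˣ) : ℤ) : ℚ) •
            FZ (S x).1 fun y => P x 0 ((S x).2⁻¹ y))) = C₂ := by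
      rintro v C₂ ⟨C, hC, hsum⟩
      rw [map_sum, ← hsum]
      refine Finset.sum_congr rfl fun x _ => ?_
      rw [map_smul, hC x]
    exact GT.bridge (dwork_hom t) (∑ x, w x • ((((Equiv.Perm.sign (S x).2 : ℤˣ) : ℤ) : ℚ) •
      FZ (S x).1 fun y => P x 0 ((S x).2⁻¹ y)))
      (fun v hv => key v C₀ (h₀ v hv)) (fun v hv => key v C₁ (h₁ v hv))

end Pool.Agent.DWK
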