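import Pool.Agent.DWK.R3

/-!
# Points with nonzero coordinates
-/

set_option autoImplicit false

noncomputable section

namespace Pool.Agent.DWK

open Pool.Agent.ZCyc Pool.Agent.TInf Pool.Agent.GT
open Pool.Agent.VFP (Om tt)
open scoped Classical LinearAlgebra.Projectivization

variable {k : Type} [Field k] {K : Type} [Field K] [Algebra k K] {t : k}

/-- take any fifth roots `x_i`; their product `z` satisfies `z ⁵ = 1`, divide `x₀` by `z` -/
theorem exists_rt [IsAlgClosed K] {u : Fin 5 → K} (hu : ∏ i, u i = 1) :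
    ∃ x : Fin 5 → K, (∀ i, x i ^ 5 = u i) ∧ ∏ i, x i = 1 := by
  choose y hy using fun i => IsAlgClosed.exists_pow_nat_eq (u i) (n := 5) (by norm_num)
  have hz5 : (∏ i, y i) ^ 5 = 1 := by
    rw [← Finset.prod_pow, ← hu]
    exact Finset.prod_congr rfl fun i _ => hy i
  have hz0 : ∏ i, y i ≠ 0 := by
    intro h
    rw [h] at hz5
    norm_num at hz5
  have hzi : ((∏ i, y i)⁻¹) ^ 5 = 1 := by rw [inv_pow, hz5, inv_one]
  refine ⟨![(∏ i, y i)⁻¹ * y 0, y 1, y 2, y 3, y 4], ?_, ?_⟩
  · intro i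
    fin_cases i
    · change ((∏ i, y i)⁻¹ * y 0) ^ 5 = u 0
      rw [mul_pow, hzi, one_mul]
      exact hy 0
    · exact hy 1
    · exact hy 2
    · exact hy 3
    · exact hy 4
  · rw [Fin.prod_univ_five]
    change (∏ i, y i)⁻¹ * y 0 * y 1 * y 2 * y 3 * y 4 = 1
    have h1 : (∏ i, y i)⁻¹ * ∏ i, y i = 1 := inv_mul_cancel₀ hz0
    have h2 : ∏ i, y i = y 0 * y 1 * y 2 * y 3 * y 4 := Fin.prod_univ_five y
    calc (∏ i, y i)⁻¹ * y 0 * y 1 * y 2 * y 3 * y 4
        = (∏ i, y i)⁻¹ * (y 0 * y 1 * y 2 * y 3 * y 4) := by ring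
      _ = 1 := by rw [← h2, h1]

theorem rt_spec [IsAlgClosed K] {u : Fin 5 → K} (hu : ∏ i, u i = 1) :
    (∀ i, rt u i ^ 5 = u i) ∧ ∏ i, rt u i = 1 := by
  unfold rt
  rw [dif_pos (exists_rt hu)]
  exact (exists_rt hu).choose_spec

/-- a vector with product one which satisfies the equation for the fifth powers -/
theorem on_of_tor {u x : Fin 5 → K} (hu : Tor t u) (hx : ∀ i, x i ^ 5 = u i)
    (hp : ∏ i, x i = 1) : On t x := by
  refine ⟨?_, ?_⟩
  · rintro rfl
    rw [Finset.prod_eq_zero (Finset.mem_univ (0 : Fin 5)) rfl] at hp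
    exact zero_ne_one hp
  · rw [hp, mul_one, ← hu.2]
    exact Finset.sum_congr rfl fun i _ => hx i

theorem uz_off {u : Fin 5 → K} (h : ¬ Tor t u) : uz t u = 0 := if_neg h

theorem nu_off {u : Fin 5 → k} (h : ¬ Tor t u) : nu t u = 0 := by
  unfold nu
  rw [uz_off h, map_zero]

variable [IsAlgClosed k] [CharZero k]

/-- any fifth roots with product one (and the equation) have the same class: the quotients `g_i` of two
systems satisfy `g_i ⁵ = 1`, `∏ g_i = 1`, `cls_H` -/
theorem nu_eq {u x : Fin 5 → k} (hu : Tor t u) (hx : ∀ i, x i ^ 5 = u i) (hp : ∏ i, x i = 1) :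
    nu t u = cls t x - oC t := by
  obtain ⟨hr1, hr2⟩ := rt_spec hu.1
  have hon : On t (rt u) := on_of_tor hu hr1 hr2
  have hne : ∀ i, rt u i ≠ 0 := fun i h0 => by
    rw [Finset.prod_eq_zero (Finset.mem_univ i) h0] at hr2
    exact zero_ne_one hr2
  have h1 : nu t u = cls t (rt u) - oC t := by
    unfold nu uz oC cls
    rw [if_pos hu, map_sub]
  rw [h1, ← cls_H hon (g := fun i => x i / rt u i)]
  · congr 2
    funext i
    exact div_mul_cancel₀ (x i) (hne i)
  · intro i
    rw [div_pow, hx i, hr1 i, div_self]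
    rw [← hr1 i]
    exact pow_ne_zero 5 (hne i)
  · rw [Finset.prod_div_distrib, hp, hr2, div_one]

/-- If a coordinate of `x` is zero the difference is zero (`cls_zero`). Otherwise multiply `x` by `c` with
`c ⁵ = 1 / ∏ x_i` (`cls_smul`), and use `nu_eq` for `u_i = (c x_i) ⁵`. -/
theorem cls_cases {x : Fin 5 → k} (h : On t x) : cls t x - oC t = 0 ∨
    ∃ u : Fin 5 → k, Tor t u ∧ cls t x - oC t = nu t u := by
  by_cases h0 : ∃ i, x i = 0
  · obtain ⟨i, hi⟩ := h0
    left
    rw [cls_zero h hi, sub_self]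
  · right
    push Not at h0
    have hP : ∏ i, x i ≠ 0 := Finset.prod_ne_zero_iff.2 fun i _ => h0 i
    obtain ⟨c, hc⟩ := IsAlgClosed.exists_pow_nat_eq (∏ i, x i)⁻¹ (n := 5) (by norm_num)
    have hc0 : c ≠ 0 := by
      rintro rfl
      rw [zero_pow (by norm_num)] at hc
      exact inv_ne_zero hP hc.symm
    have h1 : ∏ i, (c • x) i = 1 := by
      simp only [Pi.smul_apply, smul_eq_mul]
      rw [Finset.prod_mul_distrib, Finset.prod_const, Finset.card_univ, Fintype.card_fin, hc]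
      exact inv_mul_cancel₀ hP
    have hT : Tor t fun i => (c • x) i ^ 5 := by
      refine ⟨?_, ?_⟩
      · rw [Finset.prod_pow, h1, one_pow]
      · have h2 := (h.smul hc0).2
        rw [h1, mul_one] at h2
        exact h2
    refine ⟨fun i => (c • x) i ^ 5, hT, ?_⟩
    rw [nu_eq hT (x := c • x) (fun i => rfl) h1, cls_smul x hc0]

/-- `nu_eq` and `cls_perm` -/
theorem nu_perm (u : Fin 5 → k) (π : Equiv.Perm (Fin 5)) :
    nu t (u ∘ π) = (((Equiv.Perm.sign π : ℤˣ) : ℤ) : ℚ) • nu t u := by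
  by_cases hu : Tor t u
  · have hu' : Tor t (u ∘ π) := by
      refine ⟨?_, ?_⟩
      · rw [← hu.1]
        exact Equiv.prod_comp π u
      · rw [← hu.2]
        exact Equiv.sum_comp π u
    obtain ⟨hr1, hr2⟩ := rt_spec hu.1
    have hon : On t (rt u) := on_of_tor hu hr1 hr2
    rw [nu_eq hu' (x := rt u ∘ π) (fun i => hr1 (π i)) (by
      rw [← hr2]
      exact Equiv.prod_comp π (rt u)), cls_perm hon, nu_eq hu hr1 hr2]
  · have hu' : ¬ Tor t (u ∘ π) := by
      intro h
      apply hu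
      refine ⟨?_, ?_⟩
      · rw [← h.1]
        exact (Equiv.prod_comp π u).symm
      · rw [← h.2]
        exact (Equiv.sum_comp π u).symm
    rw [nu_off hu, nu_off hu', smul_zero]

end Pool.Agent.DWK
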