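import Pool.Agent.DWK.Syst
import Pool.Agent.DWK.Famc
import Pool.Agent.DWK.Gent
import Pool.Agent.DWK.FSur

/-!
# The products of classes of points over general values of c
-/

set_option autoImplicit false

noncomputable section

namespace Pool.Agent.DWK

open Pool.Agent.ZCyc Pool.Agent.TInf Pool.Agent.GT
open Pool.Agent.VFP (Om tt)
open scoped Classical LinearAlgebra.Projectivization

variable {k : Type} [Field k] [IsAlgClosed k] [CharZero k] {t : k}

/-- Take `B₁ = ` the set of `finite_one`. For `c₁ = u₄ ∉ B₁` choose `w₁` with `w₁ ² = gc t c₁`, and let `B₂` be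
the union of `B₁` and of the sets of `finite_two` for `α = al t c₁ (± w₁)`, `B = be t c₁ (± w₁)`. For
`c₂ = u'₄ ∉ B₂` let `s` be the tuple `((c₁, c₂), (w₁, w₂))` with the numbering `1`. It is general by
`gen_of`. By `KW.SysB.zero_gen` for `sysD t`, `d = 4`, `n₀ = 2`, and `exists_fam`, we have `F s p = 0` for all
`p`, i.e. `FG s.1 q = 0` for all `q`. By `ff_surj` (twice) this gives the statement
(`Phi_smul`, `Phi_symm`). -/
theorem Phi_nu (t : k) : ∃ B₁ : Finset k, ∀ u : Fin 5 → k, Tor t u → u 4 ∉ B₁ →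
    ∃ B₂ : Finset k, ∀ u' : Fin 5 → k, Tor t u' → u' 4 ∉ B₂ → Phi t (nu t u) (nu t u') = 0 := by
  obtain ⟨B₁, hB₁⟩ := finite_one t
  refine ⟨B₁, fun u hu hu4 => ?_⟩
  obtain ⟨hc1, he1, hw1⟩ := hB₁ (u 4) hu4
  obtain ⟨w₁, hw₁⟩ := IsAlgClosed.exists_pow_nat_eq (gc t (u 4)) (n := 2) (by norm_num)
  have hwi : ∀ (c w : k), w ^ 2 = gc t c → ∀ i : Fin 2, (wi i w) ^ 2 = gc t c := by
    intro c w hw i
    unfold wi
    split_ifs
    · exact hw
    · rw [neg_sq]; exact hw
  have hS : ∀ i : Fin 2, ∃ S : Finset k, ∀ c ∉ S, c ≠ 0 ∧ eK t c ≠ 0 ∧ ∀ w : k,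
      w ^ 2 = gc t c → be t c w ^ 2 * al t (u 4) (wi i w₁) ^ 3 ≠
        be t (u 4) (wi i w₁) ^ 2 * al t c w ^ 3 := fun i =>
    finite_two t (hw1 (wi i w₁) (hwi _ _ hw₁ i)).1
  choose S hS using hS
  refine ⟨B₁ ∪ S 0 ∪ S 1, fun u' hu' hu4' => ?_⟩
  have m1 : u' 4 ∉ B₁ := fun h =>
    hu4' (Finset.mem_union_left _ (Finset.mem_union_left _ h))
  have m2 : ∀ i : Fin 2, u' 4 ∉ S i := by
    intro i h
    fin_cases i
    · exact hu4' (Finset.mem_union_left _ (Finset.mem_union_right _ h))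
    · exact hu4' (Finset.mem_union_right _ h)
  obtain ⟨hc2, he2, hw2⟩ := hB₁ (u' 4) m1
  obtain ⟨w₂, hw₂⟩ := IsAlgClosed.exists_pow_nat_eq (gc t (u' 4)) (n := 2) (by norm_num)
  let s₀ : Tup t :=
    { c := ![u 4, u' 4]
      w := ![w₁, w₂]
      sq := by
        intro j
        fin_cases j
        · exact hw₁
        · exact hw₂
      ne := by
        intro j
        fin_cases j
        · exact hc1
        · exact hc2
      he := by
        intro j
        fin_cases j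
        · exact he1
        · exact he2 }
  let s : (bs t).P := (s₀, (1 : Equiv.Perm (Fin 4)))
  have hgen : (bs t).Gen s := by
    refine gen_of s ?_ ?_ ?_
    · intro i j
      fin_cases j
      · have h := hw1 (wi i w₁) (hwi _ _ hw₁ i)
        exact ⟨h.1, h.2.1⟩
      · have h := hw2 (wi i w₂) (hwi _ _ hw₂ i)
        exact ⟨h.1, h.2.1⟩
    · intro j
      fin_cases j
      · exact (hw1 w₁ hw₁).2.2
      · exact (hw2 w₂ hw₂).2.2
    · intro i i'
      exact (hS i' (u' 4) (m2 i')).2.2 (wi i w₂) (hwi _ _ hw₂ i)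
  obtain ⟨F, hF⟩ := exists_fam s
  have hz : ∀ q : Fin 4 → EPt k, FG s₀ q = 0 := by
    intro q
    have h := KW.SysB.zero_gen (sysD t) (d := fun _ => 4) (n₀ := 2) (by simp) (by norm_num)
      (by norm_num) hgen F (by rw [hF]) (fun _ => q)
    have h2 : (sysD t).F s (fun _ => q) =
        (((Equiv.Perm.sign (1 : Equiv.Perm (Fin 4)) : ℤˣ) : ℤ) : ℚ) • FG s₀ fun x =>
          q ((1 : Equiv.Perm (Fin 4))⁻¹ x) := rfl
    rw [h2] at h
    simpa using h
  have hpp : ∀ p p' q q' : EPt k, Phi t (ff t (u 4) w₁ p p') (ff t (u' 4) w₂ q q') = 0 := by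
    intro p p' q q'
    have h := hz fun x => if sl.symm x = (0, 0) then p else if sl.symm x = (1, 0) then p' else
      if sl.symm x = (0, 1) then q else q'
    unfold FG at h
    simpa [s₀] using h
  rcases ff_surj hu he1 hw₁ with h1 | ⟨p, p', h1⟩
  · rw [h1, Phi_zero]
  rcases ff_surj hu' he2 hw₂ with h2 | ⟨q, q', h2⟩
  · rw [h2, Phi_symm, Phi_zero]
  have h := hpp p p' q q'
  rw [h1, h2, Phi_smul, Phi_symm, Phi_smul, Phi_symm] at h
  have h3 : (2 : ℚ) ≠ 0 := by norm_num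
  exact (smul_eq_zero.1 ((smul_eq_zero.1 h).resolve_left h3)).resolve_left h3

end Pool.Agent.DWK
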